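import Pool.Agent.H986R2.GD.Spec
import Pool.Agent.H471R3.GJ.Good

set_option autoImplicit false

namespace Pool.Agent.H986R2.GD

open Complex Filter Topology Polynomial MeasureTheory
open Pool.Agent.H24R2.JP (Par Good App arc SHad SDer SGL SJen SPar SCircle SNewton SArc TT TI)
open Pool.Agent.H471R3.GJ
open Pool.Agent.H986R2.DBN (ParD SCPoly PL)

theorem app0 (D : Dat) (h1 : SHad) (h2 : SB1 D) (h3 : SGrow D) (h4 : SGam D) : SApp0 D := by
  intro δ hδ hz
  obtain ⟨hd, hFX, hc, hi⟩ := h2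
  obtain ⟨k0, hk0, -, -⟩ := h4
  have hne : ∀ k, k0 ≤ k → iteratedDeriv k (FF D) 0 ≠ 0 := by
    intro k hk
    rw [hi k]
    exact_mod_cast (hk0 k hk).ne'
  obtain ⟨n, g, hgd, hg0, hfg, hgc, K, hK⟩ :=
    GoodAux.exists_div (FF D) hd ⟨k0, hne k0 le_rfl⟩ hc h3
  obtain ⟨P, hP, hlim⟩ := h1 g K hgd hg0 hgc hK
  refine ⟨fun N => Polynomial.X ^ n * P N, fun N x hx => ?_, ?_⟩
  · rw [map_mul, map_pow, aeval_X, mul_eq_zero] at hx
    rcases hx with hx | hx
    · have hx0 : x = 0 := by
        by_contra h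
        exact pow_ne_zero n h hx
      rw [hx0]
      intro z hz0
      have hz1 : z = 0 := by
        by_contra h
        exact pow_ne_zero 2 h hz0
      rw [hz1]
      simpa using hδ
    · intro z hzx
      apply hz z
      rw [← hFX z, hzx, hfg x, hP N x hx, mul_zero]
  · have h8 : TendstoLocallyUniformly (fun (_ : ℕ) (x : ℂ) => x ^ n) (fun x : ℂ => x ^ n) atTop := by
      intro u hu x
      exact ⟨Set.univ, Filter.univ_mem, Filter.Eventually.of_forall fun N y _ => refl_mem_uniformity hu⟩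
    have h9 := h8.mul₀ hlim (continuous_pow n) hgd.continuous
    have e1 : (fun (N : ℕ) (x : ℂ) => aeval x (Polynomial.X ^ n * P N)) =
        (fun (_ : ℕ) (x : ℂ) => x ^ n) * fun (N : ℕ) (x : ℂ) => aeval x (P N) := by
      funext N x
      simp
    have e2 : FF D = (fun x : ℂ => x ^ n) * g := by
      funext x
      exact hfg x
    rw [e1, e2]
    exact h9

end Pool.Agent.H986R2.GD
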