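import Pool.Agent.H986R2.GD.Spec
import Pool.Agent.H986R2.DBN.AppT

set_option autoImplicit false

namespace Pool.Agent.H986R2.GD

open Complex Filter Topology Polynomial MeasureTheory
open Pool.Agent.H24R2.JP (Par Good App arc SHad SDer SGL SJen SPar SCircle SNewton SArc TT TI)
open Pool.Agent.H471R3.GJ
open Pool.Agent.H986R2.DBN (ParD SCPoly PL)

namespace AppTG

open Pool.Agent.H24R2.JP.MomAux (Cl L L_integrable L_norm_le)
open Pool.Agent.H986R2.DBN.AppTAux (av avi_close avi_L ll ll_sq cosh_pow_le tendsto_cosh Cl_absexp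
  Cl.coshPow exists_sq iter_poly)

theorem Cl_heatG {w : ℝ → ℝ} {C c1 c2 : ℝ} (hc : Continuous w) (h1 : 0 < c1) (h2 : 0 < c2)
    (hw : ∀ t, |w t| ≤ C * Real.exp (-c1 * Real.exp (c2 * |t|))) {τ : ℝ} (hτ : 0 ≤ τ) :
    Cl (fun t => w t * Real.exp (τ * t ^ 2)) := by
  have hC : 0 ≤ C := by
    have h := (abs_nonneg _).trans (hw 0)
    exact nonneg_of_mul_nonneg_left h (Real.exp_pos _)
  refine ⟨hc.mul (by fun_prop), fun M => ?_⟩
  obtain ⟨B, hB⟩ : ∃ B : ℝ, B = |M| + τ + 1 := ⟨_, rfl⟩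
  have hB1 : 1 ≤ B := by rw [hB]; linarith [abs_nonneg M]
  obtain ⟨b, hb⟩ : ∃ b : ℝ, b = c1 * c2 ^ 3 / 6 := ⟨_, rfl⟩
  have hb0 : 0 < b := by rw [hb]; positivity
  refine ⟨C * Real.exp (B + B ^ 3 / b ^ 2), fun t => ?_⟩
  obtain ⟨s, hs⟩ : ∃ s : ℝ, s = |t| := ⟨_, rfl⟩
  have hs0 : 0 ≤ s := by rw [hs]; exact abs_nonneg t
  have ht2 : t ^ 2 = s ^ 2 := by rw [hs, sq_abs]
  have h3 : b * s ^ 3 ≤ c1 * Real.exp (c2 * s) := by
    have h := Real.pow_div_factorial_le_exp (c2 * s) (by positivity) 3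
    have h4 : (c2 * s) ^ 3 / (Nat.factorial 3 : ℝ) = c2 ^ 3 / 6 * s ^ 3 := by
      have : (Nat.factorial 3 : ℝ) = 6 := by norm_num [Nat.factorial]
      rw [this]; ring
    rw [h4] at h
    have h5 := mul_le_mul_of_nonneg_left h h1.le
    rw [hb]
    linarith
  have h4 : B * s ^ 2 - b * s ^ 3 ≤ B ^ 3 / b ^ 2 := by
    rcases le_total s (B / b) with h | h
    · have h5 : s ^ 2 ≤ (B / b) ^ 2 := pow_le_pow_left₀ hs0 h 2
      have h6 : 0 ≤ b * s ^ 3 := by positivity
      have h7 : B * (B / b) ^ 2 = B ^ 3 / b ^ 2 := by field_simp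
      have h8 := mul_le_mul_of_nonneg_left h5 (by linarith : (0 : ℝ) ≤ B)
      linarith
    · have h5 : B ≤ b * s := by rwa [div_le_iff₀' hb0] at h
      have h6 : 0 ≤ s ^ 2 * (b * s - B) := mul_nonneg (sq_nonneg s) (by linarith)
      have h7 : 0 ≤ B ^ 3 / b ^ 2 := by positivity
      nlinarith
  have h5 : M * s + (τ + 1) * s ^ 2 ≤ B + B * s ^ 2 := by
    have h6 : M ≤ |M| := le_abs_self M
    have h7 : s ≤ 1 + s ^ 2 := by nlinarith [sq_nonneg (s - 1)]
    have h8 : 0 ≤ |M| := abs_nonneg M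
    have h9 : M * s ≤ |M| * (1 + s ^ 2) := by
      calc M * s ≤ |M| * s := by gcongr
        _ ≤ _ := by gcongr
    have h10 : (τ + 1) * s ^ 2 ≤ (τ + 1) * (1 + s ^ 2) := by
      have : 0 ≤ τ + 1 := by linarith
      nlinarith
    rw [hB]
    linarith
  calc |w t * Real.exp (τ * t ^ 2)| * Real.exp (M * |t|)
      = |w t| * (Real.exp (τ * t ^ 2) * Real.exp (M * |t|)) := by
        rw [abs_mul, abs_of_pos (Real.exp_pos _)]; ring
    _ ≤ C * Real.exp (-c1 * Real.exp (c2 * |t|)) *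
          (Real.exp (τ * t ^ 2) * Real.exp (M * |t|)) := by
        gcongr
        exact hw t
    _ = C * Real.exp ((-c1 * Real.exp (c2 * s)) + (τ * s ^ 2 + M * s)) := by
        rw [← Real.exp_add, mul_assoc, ← Real.exp_add, ht2, hs]
    _ ≤ C * Real.exp ((B + B ^ 3 / b ^ 2) + (-1 * t ^ 2)) := by
        refine mul_le_mul_of_nonneg_left (Real.exp_le_exp.2 ?_) hC
        rw [ht2]
        linarith
    _ = _ := by rw [Real.exp_add]; ring

/-- The error. -/
noncomputable def EE (w : ℝ → ℝ) (τ R : ℝ) (m : ℕ) : ℝ :=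
  ∫ t : ℝ, |w t * (Real.exp (τ * t ^ 2) - Real.cosh (ll τ m * t) ^ m)| * Real.exp (R * |t|)

theorem tendsto_EE {w : ℝ → ℝ} (hc : Continuous w) {τ : ℝ} (hτ : 0 ≤ τ)
    (hw : Cl (fun t => w t * Real.exp (τ * t ^ 2))) (R : ℝ) : Tendsto (EE w τ R) atTop (𝓝 0) := by
  have h : Tendsto (EE w τ R) atTop (𝓝 (∫ t : ℝ, (0 : ℝ))) := by
    refine tendsto_integral_filter_of_dominated_convergence
      (fun t => |w t * Real.exp (τ * t ^ 2)| * Real.exp (R * |t|)) ?_ ?_
      (Cl_absexp hw R) ?_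
    · refine Eventually.of_forall fun m => Continuous.aestronglyMeasurable ?_
      have h1 : Continuous (fun t : ℝ => Real.cosh (ll τ m * t) ^ m) :=
        (Real.continuous_cosh.comp (by fun_prop)).pow m
      have h2 : Continuous (fun t : ℝ => Real.exp (τ * t ^ 2)) := by fun_prop
      have h3 : Continuous (fun t : ℝ => Real.exp (R * |t|)) := by fun_prop
      exact ((hc.mul (h2.sub h1)).abs).mul h3
    · filter_upwards [eventually_ge_atTop 1] with m hm
      refine Eventually.of_forall fun t => ?_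
      rw [Real.norm_eq_abs, abs_of_nonneg (by positivity)]
      refine mul_le_mul_of_nonneg_right ?_ (Real.exp_pos _).le
      rw [abs_mul, abs_mul]
      refine mul_le_mul_of_nonneg_left ?_ (abs_nonneg _)
      have h1 := cosh_pow_le hτ hm t
      have h2 : 0 ≤ Real.cosh (ll τ m * t) ^ m := pow_nonneg (Real.cosh_pos _).le m
      rw [abs_of_nonneg (by linarith), abs_of_pos (Real.exp_pos _)]
      linarith
    · refine Eventually.of_forall fun t => ?_
      have h1 := tendsto_cosh hτ t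
      have h2 : Tendsto (fun m : ℕ => |w t * (Real.exp (τ * t ^ 2) - Real.cosh (ll τ m * t) ^ m)| *
          Real.exp (R * |t|)) atTop
          (𝓝 (|w t * (Real.exp (τ * t ^ 2) - Real.exp (τ * t ^ 2))| * Real.exp (R * |t|))) :=
        (((tendsto_const_nhds.sub h1).const_mul _).abs).mul_const _
      simpa using h2
  simpa using h

theorem close {w : ℝ → ℝ} (hw : Cl w) {τ : ℝ} 
    (hh : Cl (fun t => w t * Real.exp (τ * t ^ 2))) {R : ℝ} {m : ℕ} (z : ℂ)
    (hz : |z.re| ≤ R) :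
    ‖(av (ll τ m))^[m] (fun z => 8 * L w z) z - 8 * L (fun t => w t * Real.exp (τ * t ^ 2)) z‖ ≤
      8 * EE w τ R m := by
  rw [avi_L hw]
  have hc := Cl.coshPow hw (ll τ m) m
  have e1 : L (fun t => Real.cosh (ll τ m * t) ^ m * w t) z -
      L (fun t => w t * Real.exp (τ * t ^ 2)) z =
      -∫ t : ℝ, ((w t * (Real.exp (τ * t ^ 2) - Real.cosh (ll τ m * t) ^ m) : ℝ) : ℂ) *
        cexp (z * t) := by
    unfold L
    rw [← integral_sub (L_integrable hc z) (L_integrable hh z), ← integral_neg]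
    refine integral_congr_ae (Eventually.of_forall fun t => ?_)
    simp only
    push_cast
    ring
  have e2 : (fun z => 8 * L (fun t => Real.cosh (ll τ m * t) ^ m * w t) z) z -
      8 * L (fun t => w t * Real.exp (τ * t ^ 2)) z =
      8 * (L (fun t => Real.cosh (ll τ m * t) ^ m * w t) z -
      L (fun t => w t * Real.exp (τ * t ^ 2)) z) := by ring
  rw [e2, norm_mul, e1, norm_neg]
  have h8 : ‖(8 : ℂ)‖ = 8 := by simp
  rw [h8]
  refine mul_le_mul_of_nonneg_left ?_ (by norm_num)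
  unfold EE
  refine norm_integral_le_of_norm_le ?_ (Eventually.of_forall fun t => ?_)
  · have hd : Cl (fun t => w t * (Real.exp (τ * t ^ 2) - Real.cosh (ll τ m * t) ^ m)) := by
      refine ⟨?_, fun M => ?_⟩
      · have h1 : Continuous (fun t : ℝ => Real.cosh (ll τ m * t) ^ m) :=
          (Real.continuous_cosh.comp (by fun_prop)).pow m
        have h2 : Continuous (fun t : ℝ => Real.exp (τ * t ^ 2)) := by fun_prop
        exact hw.1.mul (h2.sub h1)
      · obtain ⟨C1, h1⟩ := hc.2 M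
        obtain ⟨C2, h2⟩ := hh.2 M
        refine ⟨C2 + C1, fun t => ?_⟩
        have e3 : w t * (Real.exp (τ * t ^ 2) - Real.cosh (ll τ m * t) ^ m) =
          w t * Real.exp (τ * t ^ 2) - Real.cosh (ll τ m * t) ^ m * w t := by ring
        simp only
        rw [e3]
        calc |w t * Real.exp (τ * t ^ 2) - Real.cosh (ll τ m * t) ^ m * w t| * Real.exp (M * |t|)
            ≤ (|w t * Real.exp (τ * t ^ 2)| + |Real.cosh (ll τ m * t) ^ m * w t|) *
              Real.exp (M * |t|) := by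
              gcongr
              exact abs_sub _ _
          _ ≤ _ := by
              have := h1 t
              have := h2 t
              linarith
    exact Cl_absexp hd R
  · refine (L_norm_le (fun t => w t * (Real.exp (τ * t ^ 2) - Real.cosh (ll τ m * t) ^ m)) z t).trans ?_
    gcongr

end AppTG

open AppTG Pool.Agent.H986R2.DBN.AppTAux in
theorem appT (D : Dat) (h : IsL D) (h1 : SCPoly) (h2 : SKer D) (h3 : SB1 D) (h4 : SB1T D) :
    SAppT D := by
  intro δ P0 hδ hP0 hlim τ hτ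
  rcases hτ.eq_or_lt with h0 | hpos
  · -- `τ = 0`
    subst h0
    refine ⟨P0, fun N x hx => ?_, ?_⟩
    · have := hP0 N x hx
      rwa [mul_zero, sub_zero, max_eq_left hδ]
    · have e : FT D 0 = FF D := by
        funext x
        obtain ⟨z, hz⟩ := exists_sq x
        rw [← hz, (h4 0 le_rfl).2.1 z, h3.2.1 z, h2.1]
      rwa [e]
  · obtain ⟨C, c1, c2, hc1, hc2, hdec⟩ := h.Φ_dec
    obtain ⟨w, hw⟩ : ∃ w : ℝ → ℝ, w = fun t => D.Φ t / 8 := ⟨_, rfl⟩
    have hwc : Continuous w := by rw [hw]; exact h.Φ_cont.div_const 8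
    have hwd : ∀ t, |w t| ≤ (C / 8) * Real.exp (-c1 * Real.exp (c2 * |t|)) := by
      intro t
      rw [hw]
      simp only
      rw [abs_div, abs_of_pos (by norm_num : (0 : ℝ) < 8)]
      have := hdec t
      linarith
    have hcl : ∀ σ : ℝ, 0 ≤ σ → Pool.Agent.H24R2.JP.MomAux.Cl (fun t => w t * Real.exp (σ * t ^ 2)) :=
      fun σ hσ => Cl_heatG hwc hc1 hc2 hwd hσ
    have hcl0 : Pool.Agent.H24R2.JP.MomAux.Cl w := by
      have := hcl 0 le_rfl
      simpa using this
    have hXX : D.XX = fun z => 8 * Pool.Agent.H24R2.JP.MomAux.L w z := by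
      funext z
      rw [h.XX_eq z, hw]
      unfold Pool.Agent.H24R2.JP.MomAux.L
      rw [← integral_const_mul]
      refine integral_congr_ae (Eventually.of_forall fun t => ?_)
      simp only
      push_cast
      ring
    have hXT : ∀ z, XT D τ z =
        8 * Pool.Agent.H24R2.JP.MomAux.L (fun t => w t * Real.exp (τ * t ^ 2)) z := by
      intro z
      rw [hw]
      unfold XT Pool.Agent.H24R2.JP.MomAux.L
      rw [← integral_const_mul]
      refine integral_congr_ae (Eventually.of_forall fun t => ?_)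
      simp only
      push_cast
      ring
    have key : ∀ k : ℕ, ∃ Q : ℝ[X],
        (∀ x : ℂ, aeval x Q = 0 → x ∈ ParD (max (δ - 2 * τ) 0)) ∧
        ∀ x : ℂ, ‖x‖ ≤ k → ‖aeval x Q - FT D τ x‖ ≤ 1 / ((k : ℝ) + 1) := by
      intro k
      have hk : (0 : ℝ) < (k : ℝ) + 1 := by positivity
      have hε : (0 : ℝ) < 1 / (16 * ((k : ℝ) + 1)) := by positivity
      have hE := AppTG.tendsto_EE hwc hτ (hcl τ hτ) ((k : ℝ) + 1)
      obtain ⟨m, hm1, hm⟩ : ∃ m : ℕ, 1 ≤ m ∧ AppTG.EE w τ ((k : ℝ) + 1) m < 1 / (16 * ((k : ℝ) + 1)) :=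
        ((eventually_ge_atTop 1).and (hE.eventually (gt_mem_nhds hε))).exists
      obtain ⟨B, hB⟩ : ∃ B : ℝ, B = (k : ℝ) + 1 + m * |ll τ m| := ⟨_, rfl⟩
      have hcomp : IsCompact (Metric.closedBall (0 : ℂ) (B ^ 2)) := isCompact_closedBall _ _
      have hunif := (tendstoLocallyUniformlyOn_iff_tendstoUniformlyOn_of_compact hcomp).1
        (hlim.tendstoLocallyUniformlyOn (s := Metric.closedBall (0 : ℂ) (B ^ 2)))
      rw [Metric.tendstoUniformlyOn_iff] at hunif
      have hε2 : (0 : ℝ) < 1 / (2 * ((k : ℝ) + 1)) := by positivity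
      obtain ⟨N, hN⟩ := (hunif _ hε2).exists
      obtain ⟨Q, hQ1, hQ2⟩ := iter_poly h1 hδ (ll τ m) (P0 N) (hP0 N) m
      refine ⟨Q, fun x hx => ?_, fun x hx => ?_⟩
      · have := hQ2 x hx
        rwa [ll_sq hτ hm1] at this
      · obtain ⟨z, hz⟩ := exists_sq x
        have hzn : ‖z‖ ^ 2 ≤ k := by rw [← norm_pow, hz]; exact hx
        have hz1 : ‖z‖ ≤ (k : ℝ) + 1 := by
          nlinarith [norm_nonneg z, Nat.cast_nonneg (α := ℝ) k, sq_nonneg (‖z‖ - 1)]
        have hzr : |z.re| ≤ (k : ℝ) + 1 := (Complex.abs_re_le_norm z).trans hz1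
        rw [← hz, (h4 τ hτ).2.1 z, hQ1 z]
        have h5 : ‖(av (ll τ m))^[m] (fun w => aeval (w ^ 2) (P0 N)) z -
            (av (ll τ m))^[m] D.XX z‖ ≤ 1 / (2 * ((k : ℝ) + 1)) := by
          refine avi_close (ll τ m) _ m _ _ ((k : ℝ) + 1) (fun w hw => ?_) z hz1
          rw [← h3.2.1 w]
          have hw2 : w ^ 2 ∈ Metric.closedBall (0 : ℂ) (B ^ 2) := by
            rw [mem_closedBall_zero_iff, norm_pow, hB]
            exact pow_le_pow_left₀ (norm_nonneg w) hw 2
          have := hN (w ^ 2) hw2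
          rw [dist_comm, dist_eq_norm] at this
          exact this.le
        have h6 : ‖(av (ll τ m))^[m] D.XX z - XT D τ z‖ ≤ 8 * AppTG.EE w τ ((k : ℝ) + 1) m := by
          rw [hXX, hXT z]
          exact AppTG.close hcl0 (hcl τ hτ) z hzr
        have h7 : (8 : ℝ) * (1 / (16 * ((k : ℝ) + 1))) = 1 / (2 * ((k : ℝ) + 1)) := by
          field_simp
          norm_num
        have h8 : 1 / (2 * ((k : ℝ) + 1)) + 1 / (2 * ((k : ℝ) + 1)) = 1 / ((k : ℝ) + 1) := by
          field_simp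
          norm_num
        calc ‖(av (ll τ m))^[m] (fun w => aeval (w ^ 2) (P0 N)) z - XT D τ z‖
            ≤ ‖(av (ll τ m))^[m] (fun w => aeval (w ^ 2) (P0 N)) z - (av (ll τ m))^[m] D.XX z‖ +
              ‖(av (ll τ m))^[m] D.XX z - XT D τ z‖ := norm_sub_le_norm_sub_add_norm_sub _ _ _
          _ ≤ 1 / ((k : ℝ) + 1) := by linarith
    choose P hP1 hP2 using key
    refine ⟨P, hP1, ?_⟩
    rw [Metric.tendstoLocallyUniformly_iff]
    intro ε hε x
    refine ⟨Metric.ball x 1, Metric.ball_mem_nhds x one_pos, ?_⟩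
    obtain ⟨n0, hn0⟩ := exists_nat_gt (max (‖x‖ + 1) (1 / ε))
    filter_upwards [eventually_ge_atTop n0] with n hn y hy
    have hn' : (n0 : ℝ) ≤ n := by exact_mod_cast hn
    have h5 : ‖x‖ + 1 < n := lt_of_le_of_lt (le_max_left _ _) (lt_of_lt_of_le hn0 hn')
    have h6 : 1 / ε < n := lt_of_le_of_lt (le_max_right _ _) (lt_of_lt_of_le hn0 hn')
    have h7 : ‖y‖ ≤ n := by
      have h8 : ‖y - x‖ < 1 := by rw [← dist_eq_norm]; exact hy
      have h9 : ‖y‖ ≤ ‖y - x‖ + ‖x‖ := by simpa using norm_add_le (y - x) x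
      linarith
    rw [dist_comm, dist_eq_norm]
    refine lt_of_le_of_lt (hP2 n y h7) ?_
    have hn1 : (0 : ℝ) < n := lt_trans (by positivity) h6
    rw [div_lt_iff₀ (by linarith)]
    rw [div_lt_iff₀ hε] at h6
    nlinarith

end Pool.Agent.H986R2.GD
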