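import Pool.Agent.H986R2.GD.Spec

/-!
# Basic facts about `FT D τ` (task B1T, generic version, helper872)
-/

set_option autoImplicit false

namespace Pool.Agent.H986R2.GD

open Complex Filter Topology Polynomial MeasureTheory
open Pool.Agent.H471R3.GJ

namespace B1TAux

theorem iter_conj (f : ℂ → ℂ) (hf : ∀ z, f ((starRingEnd ℂ) z) = (starRingEnd ℂ) (f z)) (n : ℕ) :
    ∀ z, iteratedDeriv n f ((starRingEnd ℂ) z) = (starRingEnd ℂ) (iteratedDeriv n f z) := by
  induction n generalizing f with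
  | zero => simpa using hf
  | succ n ih =>
    intro z
    rw [iteratedDeriv_succ']
    refine ih (deriv f) ?_ z
    intro w
    have e : f = (starRingEnd ℂ) ∘ f ∘ (starRingEnd ℂ) := by
      funext u
      rw [Function.comp_apply, Function.comp_apply, hf, Complex.conj_conj]
    conv_lhs => rw [e]
    rw [deriv_conj_conj, Function.comp_apply, Function.comp_apply, Complex.conj_conj]

theorem hcongr {f g : ℕ → ℂ} {a : ℂ} (h : HasSum f a) (e : ∀ k, g k = f k) :
    HasSum g a := by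
  have : g = f := funext e
  rw [this]
  exact h

/-- the hypotheses on `XT D τ` -/
structure Hyp (D : Dat) (τ : ℝ) : Prop where
  diff : Differentiable ℂ (XT D τ)
  neg : ∀ z, XT D τ (-z) = XT D τ z
  conj : ∀ z, XT D τ ((starRingEnd ℂ) z) = (starRingEnd ℂ) (XT D τ z)

theorem hyp_of {D : Dat} (h : SKer D) {τ : ℝ} (hτ : 0 ≤ τ) : Hyp D τ :=
  ⟨(h.2 τ hτ).1, (h.2 τ hτ).2.1, (h.2 τ hτ).2.2.1⟩

variable {D : Dat} {τ : ℝ}

theorem odd_zero (H : Hyp D τ) (k : ℕ) : iteratedDeriv (2 * k + 1) (XT D τ) 0 = 0 := by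
  have h := iteratedDeriv_comp_neg (2 * k + 1) (XT D τ) 0
  have e : (fun x => XT D τ (-x)) = XT D τ := by
    funext x
    exact H.neg x
  rw [e, neg_zero, pow_succ, pow_mul] at h
  simp at h
  linear_combination (1 / 2 : ℂ) * h

theorem even_real (H : Hyp D τ) (k : ℕ) :
    ((iteratedDeriv (2 * k) (XT D τ) 0).re : ℂ) = iteratedDeriv (2 * k) (XT D τ) 0 := by
  have h := iter_conj (XT D τ) H.conj (2 * k) 0
  rw [map_zero] at h
  exact Complex.conj_eq_iff_re.1 h.symm

theorem hasSum_XT (H : Hyp D τ) (z : ℂ) :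
    HasSum (fun k : ℕ => ((gamT D τ k : ℝ) : ℂ) / (k.factorial : ℂ) * (z ^ 2) ^ k) (XT D τ z) := by
  have h := hasSum_taylorSeries_of_entire H.diff 0 z
  have hinj : Function.Injective (fun k : ℕ => 2 * k) := fun a b hab => by
    have : 2 * a = 2 * b := hab
    omega
  rw [← hinj.hasSum_iff] at h
  · refine hcongr h fun k => ?_
    show _ = (((2 * k).factorial : ℂ))⁻¹ • (z - 0) ^ (2 * k) • iteratedDeriv (2 * k) (XT D τ) 0
    unfold gamT
    have h1 : (k.factorial : ℂ) ≠ 0 := by exact_mod_cast k.factorial_ne_zero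
    have h2 : ((2 * k).factorial : ℂ) ≠ 0 := by exact_mod_cast (2 * k).factorial_ne_zero
    rw [← even_real H k]
    push_cast
    rw [smul_eq_mul, smul_eq_mul, sub_zero, pow_mul, Complex.ofReal_re]
    field_simp
  · intro x hx
    have hodd : ∃ k, x = 2 * k + 1 := by
      rcases Nat.even_or_odd' x with ⟨k, hk | hk⟩
      · exact absurd ⟨k, hk.symm⟩ hx
      · exact ⟨k, hk⟩
    obtain ⟨k, rfl⟩ := hodd
    rw [odd_zero H, smul_zero, smul_zero]

theorem FT_sq (H : Hyp D τ) (z : ℂ) : FT D τ (z ^ 2) = XT D τ z := (hasSum_XT H z).tsum_eq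

theorem hasSum_FT (H : Hyp D τ) (x : ℂ) :
    HasSum (fun k : ℕ => ((gamT D τ k : ℝ) : ℂ) / (k.factorial : ℂ) * x ^ k) (FT D τ x) := by
  obtain ⟨z, hz⟩ := IsAlgClosed.exists_pow_nat_eq x (n := 2) (by norm_num)
  rw [← hz, FT_sq H]
  exact hasSum_XT H z

theorem FT_conj (H : Hyp D τ) (x : ℂ) : FT D τ ((starRingEnd ℂ) x) = (starRingEnd ℂ) (FT D τ x) := by
  have h1 := hasSum_FT H ((starRingEnd ℂ) x)
  have h2 := Complex.hasSum_conj'.2 (hasSum_FT H x)
  refine h1.unique (hcongr h2 fun k => ?_)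
  rw [map_mul, map_div₀, map_pow, Complex.conj_ofReal, map_natCast]

/-- the power series -/
noncomputable def ps (D : Dat) (τ : ℝ) : FormalMultilinearSeries ℂ ℂ ℂ :=
  FormalMultilinearSeries.ofScalars ℂ (fun k : ℕ => ((gamT D τ k : ℝ) : ℂ) / (k.factorial : ℂ))

theorem ps_apply (n : ℕ) (x : ℂ) :
    ps D τ n (fun _ => x) = ((gamT D τ n : ℝ) : ℂ) / (n.factorial : ℂ) * x ^ n := by
  unfold ps
  rw [FormalMultilinearSeries.ofScalars_apply_eq, smul_eq_mul]

theorem ps_norm (n : ℕ) : ‖ps D τ n‖ = ‖((gamT D τ n : ℝ) : ℂ) / (n.factorial : ℂ)‖ := by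
  unfold ps
  exact FormalMultilinearSeries.ofScalars_norm (𝕜 := ℂ) (E := ℂ)
    (fun k : ℕ => ((gamT D τ k : ℝ) : ℂ) / (k.factorial : ℂ)) n

theorem ps_radius (H : Hyp D τ) : (ps D τ).radius = ⊤ := by
  refine FormalMultilinearSeries.radius_eq_top_of_summable_norm _ fun r => ?_
  have h := (hasSum_FT H ((r : ℝ) : ℂ)).summable.norm
  refine h.congr fun n => ?_
  rw [ps_norm, norm_mul, norm_pow]
  simp

theorem hfps (H : Hyp D τ) : HasFPowerSeriesOnBall (FT D τ) (ps D τ) 0 ⊤ := by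
  refine ⟨by rw [ps_radius H], by simp, ?_⟩
  intro y _
  rw [zero_add]
  simp only [ps_apply]
  exact hasSum_FT H y

end B1TAux

open B1TAux in
theorem b1T (D : Dat) (h : SKer D) : SB1T D := by
  intro τ hτ
  have H := hyp_of h hτ
  refine ⟨?_, FT_sq H, FT_conj H, fun n => ?_⟩
  · intro x
    exact (hfps H).differentiableOn.differentiableAt (by simp)
  · have h := (hfps H).factorial_smul 1 n
    rw [← iteratedDeriv_eq_iteratedFDeriv, ps_apply, one_pow, mul_one, nsmul_eq_mul] at h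
    rw [← h]
    have h1 : (n.factorial : ℂ) ≠ 0 := by exact_mod_cast n.factorial_ne_zero
    field_simp

end Pool.Agent.H986R2.GD
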