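import Pool.Agent.H986R2.GD.Spec
import Pool.Agent.H986R2.DBN.GoodT

set_option autoImplicit false

/-!
# Task BIG
-/

namespace Pool.Agent.H986R2.GD

open Complex Filter Topology Polynomial MeasureTheory
open Pool.Agent.H24R2.JP (Par Good App arc SHad SDer SGL SJen SPar SCircle SNewton SArc TT TI)
open Pool.Agent.H471R3.GJ
open Pool.Agent.H986R2.DBN (ParD SCPoly PL par_iff parD_mono)

theorem big (D : Dat) (h : IsL D) (h1 : SAppT D) (h2 : SApp0 D) (h3 : SWkT D) : SBig D := by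
  intro τ hτ
  have hτ0 : 0 ≤ τ := by linarith
  obtain ⟨hd, -, hn⟩ := h3 τ hτ0
  obtain ⟨P0, hP0, hlim⟩ := h2 (1 / 4) (by norm_num) (fun z hz => by
    have h1 := abs_le.1 (h.XX_zero z hz)
    nlinarith [h1.1, h1.2])
  obtain ⟨P, hP, hPl⟩ := h1 (1 / 4) P0 (by norm_num) hP0 hlim τ hτ0
  refine ⟨hd, ⟨P, fun N x hx => parD_mono ?_ (hP N x hx), hPl⟩, hn⟩
  exact max_le (by linarith) le_rfl

end Pool.Agent.H986R2.GD
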