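import Pool.Agent.H986R2.GD.Spec
import Pool.Agent.H24R2.JP.Chain
import Pool.Agent.H471R3.GJ.Hyp

set_option autoImplicit false

/-!
# Task CHAINT: the chain argument, uniformly in the heat flow (generic version of helper405's
`Pool.Agent.H986R2.DBN.ChainT`)
-/

namespace Pool.Agent.H986R2.GD.ChnT

open Complex
open Pool.Agent.H24R2.JP (Par)

/-- zeros of all derivatives are in `Par` -/
def ParA (f : ℂ → ℂ) : Prop := ∀ (n : ℕ) (w : ℂ), iteratedDeriv n f w = 0 → w ∈ Par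

/-- Jensen circles for all derivatives -/
def Circ (f : ℂ → ℂ) : Prop := ∀ (n : ℕ) (w : ℂ), w.im ≠ 0 → iteratedDeriv (n + 1) f w = 0 →
    ∃ z : ℂ, z.im ≠ 0 ∧ iteratedDeriv n f z = 0 ∧ ‖w - (z.re : ℂ)‖ ≤ |z.im|

/-- one step of the Jensen circle relation -/
lemma step_bd {w z : ℂ} (hzw : ‖w - (z.re : ℂ)‖ ≤ |z.im|) :
    |w.im| ≤ |z.im| ∧ |w.re| ≤ |z.re| + |z.im| := by
  have j1 : |w.im| ≤ |z.im| := by
    have := Complex.abs_im_le_norm (w - (z.re : ℂ))
    simp only [Complex.sub_im, Complex.ofReal_im, sub_zero] at this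
    exact this.trans hzw
  have j2 : |w.re - z.re| ≤ |z.im| := by
    have := Complex.abs_re_le_norm (w - (z.re : ℂ))
    simp only [Complex.sub_re, Complex.ofReal_re] at this
    exact this.trans hzw
  have j3 : |w.re| ≤ |z.re| + |w.re - z.re| := by
    have := abs_add_le z.re (w.re - z.re)
    simpa using this
  exact ⟨j1, by linarith⟩

/-- drift of the nonreal zeros -/
lemma drift {f : ℂ → ℂ} (h2 : Circ f) {A B : ℝ} {k0 : ℕ}
    (h : ∀ w : ℂ, w.im ≠ 0 → iteratedDeriv k0 f w = 0 → |w.im| ≤ A ∧ |w.re| ≤ B) :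
    ∀ j : ℕ, ∀ w : ℂ, w.im ≠ 0 → iteratedDeriv (k0 + j) f w = 0 →
      |w.im| ≤ A ∧ |w.re| ≤ B + A * j := by
  intro j
  induction j with
  | zero =>
    intro w him hw
    simpa using h w him hw
  | succ j ih =>
    intro w him hw
    obtain ⟨z, hzim, hz0, hzw⟩ := h2 (k0 + j) w him hw
    obtain ⟨i1, i2⟩ := ih z hzim hz0
    obtain ⟨j1, j2⟩ := step_bd hzw
    refine ⟨j1.trans i1, ?_⟩
    push_cast
    linarith [mul_add A (j : ℝ) 1]

/-- crude bound: quadratic drift -/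
lemma drift2 {f : ℂ → ℂ} (h1 : ParA f) (h2 : Circ f) {b : ℝ} (hb : 1 ≤ b)
    (h : ∀ w : ℂ, w.im ≠ 0 → iteratedDeriv 0 f w = 0 → ‖w‖ ≤ b ^ 2) :
    ∀ j : ℕ, ∀ w : ℂ, w.im ≠ 0 → iteratedDeriv j f w = 0 → ‖w‖ ≤ (b + j) ^ 2 := by
  intro j
  induction j with
  | zero =>
    intro w him hw
    simpa using h w him hw
  | succ j ih =>
    intro w him hw
    obtain ⟨z, hzim, hz0, hzw⟩ := h2 j w him hw
    have i1 := ih z hzim hz0
    have hzPar : z.re + z.im ^ 2 ≤ 1 / 4 := h1 j z hz0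
    have hbj : 1 ≤ b + j := by
      have : (0:ℝ) ≤ j := Nat.cast_nonneg j
      linarith
    obtain ⟨j1, j2⟩ := step_bd hzw
    have h3 : |z.re| ≤ (b + j) ^ 2 := (Complex.abs_re_le_norm z).trans i1
    have h4 : |z.im| ≤ b + j + 1 / 2 := by
      have h6 := neg_abs_le z.re
      have h7 : z.im ^ 2 ≤ (b + j + 1 / 2) ^ 2 := by nlinarith
      exact abs_le_of_sq_le_sq h7 (by linarith)
    have h5 : ‖w‖ ≤ |z.re| + |z.im| := by
      have : ‖w‖ ≤ ‖((z.re : ℝ) : ℂ)‖ + ‖w - (z.re : ℂ)‖ := by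
        have := norm_add_le ((z.re : ℝ) : ℂ) (w - (z.re : ℂ))
        simpa using this
      rw [Complex.norm_real, Real.norm_eq_abs] at this
      linarith
    push_cast
    nlinarith

/-- level 0: nonreal zeros are bounded -/
lemma level0 {F X : ℂ → ℂ} {τ C1 : ℝ} (h1 : ∀ w : ℂ, F w = 0 → w ∈ Par)
    (h6 : ∀ σ t : ℝ, 0 < σ → σ ≤ 1 / 2 → Real.exp (C1 / τ) ≤ t → X (σ + I * t) ≠ 0)
    (h7 : ∀ z, F (z ^ 2) = X z)
    (h8 : ∀ x, F ((starRingEnd ℂ) x) = (starRingEnd ℂ) (F x))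
    {w : ℂ} (him : w.im ≠ 0) (hw : F w = 0) : ‖w‖ ≤ (Real.exp (C1 / τ) + 1) ^ 2 := by
  -- the version with positive coordinates
  have key : ∀ s t : ℝ, 0 < s → 0 < t → F (((s : ℂ) + I * t) ^ 2) = 0 →
      s ^ 2 + t ^ 2 ≤ (Real.exp (C1 / τ) + 1) ^ 2 := by
    intro s t hs ht h0
    have hp : (((s : ℂ) + I * t) ^ 2).re + (((s : ℂ) + I * t) ^ 2).im ^ 2 ≤ 1 / 4 := h1 _ h0
    have e1 : (((s : ℂ) + I * t) ^ 2).re = s ^ 2 - t ^ 2 := by
      simp [pow_two]
    have e2 : (((s : ℂ) + I * t) ^ 2).im = 2 * s * t := by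
      simp [pow_two]; ring
    rw [e1, e2] at hp
    have hs2 : s ≤ 1 / 2 := by
      by_contra hcon
      push Not at hcon
      have g1 : 0 < 4 * s ^ 2 - 1 := by nlinarith
      have g2 : 0 < t ^ 2 + 1 / 4 := by positivity
      have g3 := mul_pos g1 g2
      nlinarith
    have ht2 : t < Real.exp (C1 / τ) := by
      by_contra hcon
      push Not at hcon
      apply h6 s t hs hs2 hcon
      rw [← h7]
      exact h0
    have := Real.exp_pos (C1 / τ)
    nlinarith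
  obtain ⟨z, hz⟩ : ∃ z : ℂ, z ^ 2 = w := ⟨w ^ (1 / 2 : ℂ), by
    rw [← Complex.cpow_nat_mul]; norm_num⟩
  have hzz : z = (z.re : ℂ) + I * (z.im : ℂ) := by
    rw [mul_comm]; exact (Complex.re_add_im z).symm
  have him2 : w.im = 2 * z.re * z.im := by
    rw [← hz]; simp [pow_two]; ring
  have hre : z.re ≠ 0 := by
    intro h; apply him; rw [him2, h]; ring
  have himz : z.im ≠ 0 := by
    intro h; apply him; rw [him2, h]; ring
  have hn : ‖w‖ = z.re ^ 2 + z.im ^ 2 := by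
    rw [← hz, norm_pow, ← Complex.normSq_eq_norm_sq, Complex.normSq_apply]; ring
  rw [hn]
  -- choose signs
  rcases lt_or_gt_of_ne hre with hr | hr <;> rcases lt_or_gt_of_ne himz with hi | hi
  · have := key (-z.re) (-z.im) (by linarith) (by linarith) (by
      have e : (((-z.re : ℝ) : ℂ) + I * ((-z.im : ℝ) : ℂ)) ^ 2 = w := by
        rw [← hz]
        conv_rhs => rw [hzz]
        push_cast; ring
      rw [e]; exact hw)
    nlinarith
  · have := key (-z.re) z.im (by linarith) hi (by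
      have e : (((-z.re : ℝ) : ℂ) + I * (z.im : ℂ)) ^ 2 = (starRingEnd ℂ) w := by
        rw [← hz, map_pow]
        conv_rhs => rw [hzz]
        simp only [map_add, map_mul, Complex.conj_I, Complex.conj_ofReal]
        push_cast; ring
      rw [e, h8, hw, map_zero])
    nlinarith
  · have := key z.re (-z.im) hr (by linarith) (by
      have e : ((z.re : ℂ) + I * ((-z.im : ℝ) : ℂ)) ^ 2 = (starRingEnd ℂ) w := by
        rw [← hz, map_pow]
        conv_rhs => rw [hzz]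
        simp only [map_add, map_mul, Complex.conj_I, Complex.conj_ofReal]
        push_cast; ring
      rw [e, h8, hw, map_zero])
    nlinarith
  · exact key z.re z.im hr hi (by rw [← hzz, hz]; exact hw)


lemma growth {α : ℝ} (hal : 0 < α) : ∃ m0 : ℕ, ∀ m : ℕ, m0 ≤ m →
      Real.exp (49 / 50 * (α * ((m : ℝ) + 1))) + 1 +
        2 * Real.sqrt (Real.exp (49 / 50 * (α * ((m : ℝ) + 1))) + 1 / 2) ≤
        Real.exp (51 / 50 * (α * m)) := by
  obtain ⟨m0, hm0⟩ := exists_nat_ge (50 / α + 25)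
  refine ⟨m0, fun m hm => ?_⟩
  have hm' : 50 / α + 25 ≤ (m : ℝ) := hm0.trans (by exact_mod_cast hm)
  have hm'' : 50 + 25 * α ≤ α * m := by
    have h5 := mul_le_mul_of_nonneg_left hm' hal.le
    have h6 : α * (50 / α + 25) = 50 + 25 * α := by
      field_simp
    linarith
  set E := Real.exp (49 / 50 * (α * ((m : ℝ) + 1))) with hE
  have hE1 : 1 ≤ E := Real.one_le_exp (by positivity)
  have hs : Real.sqrt (E + 1 / 2) ≤ E + 1 / 2 := by
    rw [Real.sqrt_le_left (by linarith)]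
    nlinarith
  have hle : E + 1 + 2 * Real.sqrt (E + 1 / 2) ≤ 5 * E := by linarith
  have h6 : (5 : ℝ) ≤ Real.exp 2 := by
    have h7 : (2.7 : ℝ) < Real.exp 1 := by
      have := Real.exp_one_gt_d9
      linarith
    have h8 : Real.exp 2 = Real.exp 1 * Real.exp 1 := by rw [← Real.exp_add]; norm_num
    rw [h8]; nlinarith
  calc E + 1 + 2 * Real.sqrt (E + 1 / 2) ≤ 5 * E := hle
    _ ≤ Real.exp 2 * E := by
        exact mul_le_mul_of_nonneg_right h6 (by linarith)
    _ = Real.exp (2 + 49 / 50 * (α * ((m : ℝ) + 1))) := by rw [hE, ← Real.exp_add]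
    _ ≤ Real.exp (51 / 50 * (α * m)) := Real.exp_le_exp.2 (by linarith)

/-- the numerical comparison at the level `k1` -/
lemma top_level {α C1 τ s : ℝ} (hα : 0 < α) (hC1 : 1 ≤ C1) (hτ : 0 < τ) (hτ8 : τ ≤ 1 / 8)
    (hs : s = (2 * C1 + 4 + α) / α + 1) {k1 : ℕ}
    (hk1 : (k1 : ℝ) ≤ s ^ 2 / τ) (hk2 : s ^ 2 / τ - 1 ≤ k1) :
    (Real.exp (C1 / τ) + 1 + k1) ^ 2 ≤ Real.exp (51 / 50 * (α * k1)) := by
  set y := 1 / τ with hy
  have hy8 : 8 ≤ y := by
    rw [hy, le_div_iff₀ hτ]; linarith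
  have hs1 : 1 ≤ s := by
    have : 0 ≤ (2 * C1 + 4 + α) / α := by positivity
    linarith
  have hsα : 2 * C1 + 4 + α ≤ α * s := by
    rw [hs]
    have : α * ((2 * C1 + 4 + α) / α + 1) = 2 * C1 + 4 + α + α := by field_simp
    linarith
  have e1 : C1 / τ = C1 * y := by rw [hy]; ring
  have e2 : s ^ 2 / τ = s ^ 2 * y := by rw [hy]; ring
  rw [e2] at hk1 hk2
  rw [e1]
  have hE1 : 1 ≤ Real.exp (C1 * y) := Real.one_le_exp (by positivity)
  have h1 : Real.exp (C1 * y) + 1 + k1 ≤ Real.exp (C1 * y + 2 * s * y) := by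
    rw [Real.exp_add]
    have h3 := Real.quadratic_le_exp_of_nonneg (show (0:ℝ) ≤ 2 * s * y by positivity)
    have hsy : 8 ≤ s * y := by nlinarith
    have h4 : 2 + s ^ 2 * y ≤ Real.exp (2 * s * y) := by
      refine le_trans ?_ h3
      have h5 : s ^ 2 * y ≤ (s * y) ^ 2 := by
        have : (s * y) ^ 2 = s ^ 2 * y * y := by ring
        rw [this]
        have h6 : 0 ≤ s ^ 2 * y := by positivity
        nlinarith
      nlinarith
    have h5 : Real.exp (C1 * y) * (2 + s ^ 2 * y) ≤ Real.exp (C1 * y) * Real.exp (2 * s * y) :=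
      mul_le_mul_of_nonneg_left h4 (by linarith)
    have h6 : 0 ≤ s ^ 2 * y := by positivity
    nlinarith
  have h0 : 0 ≤ Real.exp (C1 * y) + 1 + k1 := by positivity
  calc (Real.exp (C1 * y) + 1 + k1) ^ 2 ≤ (Real.exp (C1 * y + 2 * s * y)) ^ 2 :=
        pow_le_pow_left₀ h0 h1 2
    _ = Real.exp (2 * C1 * y + 4 * s * y) := by
        rw [← Real.exp_nat_mul]; congr 1; push_cast; ring
    _ ≤ Real.exp (51 / 50 * (α * k1)) := by
        apply Real.exp_le_exp.2
        have h7 : α * (s ^ 2 * y - 1) ≤ α * k1 := mul_le_mul_of_nonneg_left hk2 hα.le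
        have h8 : (2 * C1 + 4 * s + α) * y ≤ α * s ^ 2 * y := by
          apply mul_le_mul_of_nonneg_right _ (by linarith)
          have h9 : (2 * C1 + 4 + α) * s ≤ α * s * s := mul_le_mul_of_nonneg_right hsα (by linarith)
          nlinarith
        have h10 : α ≤ α * y := by nlinarith
        have h11 : 0 ≤ α * k1 := by positivity
        nlinarith

end Pool.Agent.H986R2.GD.ChnT

namespace Pool.Agent.H986R2.GD

open Complex Filter Topology ChnT
open Pool.Agent.H471R3.GJ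
open Pool.Agent.H24R2.JP (Par)
open Pool.Agent.H24R2.JP.ChainAux (parent_norm)

theorem chainT (D : Dat) (h : IsL D) (hWk : SWk) (h2' : SWkT D) (h3 : SWinT D) (h4 : SLowT D)
    (h5 : SHeatNZ D) (h7 : SB1T D) : SChainT D := by
  have hal : 0 < al D := HypAux.al_pos D h
  set α := al D with hα
  obtain ⟨C1, hC1, h6⟩ := h5
  obtain ⟨s, hs⟩ : ∃ s : ℝ, s = (2 * C1 + 4 + α) / α + 1 := ⟨_, rfl⟩
  have hs1 : 1 ≤ s := by
    have : 0 ≤ (2 * C1 + 4 + α) / α := by positivity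
    linarith
  set K0 : ℝ := s ^ 2 with hK0
  have hK01 : 1 ≤ K0 := by nlinarith
  have hK0pos : 0 < K0 := by linarith
  obtain ⟨n1, hwin⟩ := h3 K0 hK01
  obtain ⟨m0, hgrow⟩ := growth hal
  set n2 := max (max n1 m0) 2 with hn2
  have hn2a : n1 ≤ n2 := (le_max_left _ _).trans (le_max_left _ _)
  have hn2m : m0 ≤ n2 := (le_max_right _ _).trans (le_max_left _ _)
  have hn2b : 2 ≤ n2 := le_max_right _ _
  set A : ℝ := Real.exp (49 / 50 * (α * (n2 : ℝ))) with hA
  have hA0 : 0 < A := Real.exp_pos _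
  set A' : ℝ := (Real.exp (C1 * (n2 + 1) / K0) + 1) ^ 2 with hA'
  have hA'0 : 0 < A' := by positivity
  obtain ⟨N0, hN0⟩ := h4 (3 * A)
  obtain ⟨N0', hN0'⟩ := h4 (3 * A')
  refine ⟨K0, max (max N0 N0') 1, hK0pos, ?_⟩
  intro τ hτ hτ8 n hn hnτ w hw
  by_contra him
  have hnN0 : N0 ≤ n := ((le_max_left _ _).trans (le_max_left _ _)).trans hn
  have hnN0' : N0' ≤ n := ((le_max_right _ _).trans (le_max_left _ _)).trans hn
  have hn1 : 1 ≤ n := (le_max_right _ _).trans hn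
  have hn1' : (1 : ℝ) ≤ n := by exact_mod_cast hn1
  obtain ⟨h1, h2⟩ := hWk (FT D τ) (h2' τ hτ.le)
  obtain ⟨-, hB2, hB3, -⟩ := h7 τ hτ.le
  -- level 0
  have hL0 : ∀ w : ℂ, w.im ≠ 0 → iteratedDeriv 0 (FT D τ) w = 0 →
      ‖w‖ ≤ (Real.exp (C1 / τ) + 1) ^ 2 := by
    intro w him hw
    rw [iteratedDeriv_zero] at hw
    refine level0 (fun w hw => h1 0 w (by rw [iteratedDeriv_zero]; exact hw)) ?_ hB2 hB3
      him hw
    intro σ t hσ hσ2 ht
    exact h6 τ hτ hτ8 σ t hσ hσ2 ht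
  rcases lt_or_ge (K0 / τ) ((n2 : ℝ) + 1) with hcase | hcase
  · -- small n
    have hE : Real.exp (C1 / τ) ≤ Real.exp (C1 * (n2 + 1) / K0) := by
      apply Real.exp_le_exp.2
      have h8 : K0 < (n2 + 1) * τ := by rwa [div_lt_iff₀ hτ] at hcase
      rw [div_le_div_iff₀ hτ hK0pos]
      nlinarith
    have hL0' : ∀ w : ℂ, w.im ≠ 0 → iteratedDeriv 0 (FT D τ) w = 0 →
        |w.im| ≤ A' ∧ |w.re| ≤ A' := by
      intro w him hw
      have h8 : ‖w‖ ≤ A' := by
        refine (hL0 w him hw).trans ?_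
        rw [hA']
        have := Real.exp_pos (C1 / τ)
        exact pow_le_pow_left₀ (by linarith) (by linarith) 2
      exact ⟨(Complex.abs_im_le_norm w).trans h8, (Complex.abs_re_le_norm w).trans h8⟩
    obtain ⟨i1, i2⟩ := drift h2 hL0' n w him (by rw [zero_add]; exact hw)
    have h9 : ‖w‖ ≤ |w.re| + |w.im| := Complex.norm_le_abs_re_add_abs_im w
    have h10 := hN0' τ hτ.le hτ8 n hnN0' w hw
    nlinarith
  · -- the main case
    set k1 := ⌊K0 / τ⌋₊ with hk1
    have hdiv0 : 0 ≤ K0 / τ := by positivity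
    have hk1le : (k1 : ℝ) ≤ K0 / τ := Nat.floor_le hdiv0
    have hk1gt : K0 / τ - 1 ≤ k1 := by
      have := Nat.lt_floor_add_one (K0 / τ)
      linarith
    have hk1τ : (k1 : ℝ) * τ ≤ K0 := by rwa [le_div_iff₀ hτ] at hk1le
    have hn2k1 : n2 ≤ k1 := by
      apply Nat.le_floor
      linarith
    have hwinlev : ∀ k : ℕ, n2 ≤ k → k ≤ k1 → ∀ x : ℂ, x ∈ Par → x.im ≠ 0 →
        Real.exp (49 / 50 * (α * k)) ≤ ‖x‖ → ‖x‖ ≤ Real.exp (51 / 50 * (α * k)) →
        iteratedDeriv k (FT D τ) x ≠ 0 := by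
      intro k hk hk' x hx hxi ha hb
      refine hwin τ hτ hτ8 k (hn2a.trans hk) ?_ x hx hxi ha hb
      have : (k : ℝ) ≤ k1 := by exact_mod_cast hk'
      nlinarith
    have key : ∀ k : ℕ, n2 + k ≤ k1 → ∀ w : ℂ, w.im ≠ 0 → iteratedDeriv (n2 + k) (FT D τ) w = 0 →
        ‖w‖ ≤ Real.exp (49 / 50 * (α * ((n2 + k : ℕ) : ℝ))) → |w.im| ≤ A ∧ |w.re| ≤ A * (k + 1) := by
      intro k
      induction k with
      | zero =>
        intro _ w _ _ hw
        simp only [add_zero] at hw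
        rw [← hA] at hw
        refine ⟨(Complex.abs_im_le_norm w).trans hw, ?_⟩
        simpa using (Complex.abs_re_le_norm w).trans hw
      | succ k ih =>
        intro hkk w him hw0 hw
        have hcast : ((n2 + (k + 1) : ℕ) : ℝ) = ((n2 + k : ℕ) : ℝ) + 1 := by push_cast; ring
        rw [hcast] at hw
        obtain ⟨z, hzim, hz0, hzw⟩ := h2 (n2 + k) w him hw0
        have hzPar : z ∈ Par := h1 (n2 + k) z hz0
        have hzn := (parent_norm hzPar hzw hw).trans (hgrow (n2 + k) (by omega))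
        have hzlt : ‖z‖ ≤ Real.exp (49 / 50 * (α * ((n2 + k : ℕ) : ℝ))) := by
          by_contra hcon
          push Not at hcon
          exact hwinlev (n2 + k) (by omega) (by omega) z hzPar hzim hcon.le hzn hz0
        obtain ⟨i1, i2⟩ := ih (by omega) z hzim hz0 hzlt
        obtain ⟨j1, j2⟩ := step_bd hzw
        refine ⟨j1.trans i1, ?_⟩
        push_cast
        linarith [mul_add A ((k : ℝ) + 1) 1]
    -- all nonreal zeros of the level k1
    have hlev : ∀ w : ℂ, w.im ≠ 0 → iteratedDeriv k1 (FT D τ) w = 0 →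
        |w.im| ≤ A ∧ |w.re| ≤ A * ((k1 - n2 : ℕ) + 1) := by
      intro w him hw
      have hb1 : (1 : ℝ) ≤ Real.exp (C1 / τ) + 1 := by
        have := Real.exp_pos (C1 / τ)
        linarith
      have h8 := drift2 h1 h2 hb1 hL0 k1 w him hw
      have h9 := h8.trans (top_level hal hC1 hτ hτ8 hs hk1le hk1gt)
      have h10 : ‖w‖ ≤ Real.exp (49 / 50 * (α * (k1 : ℝ))) := by
        by_contra hcon
        push Not at hcon
        exact hwinlev k1 hn2k1 le_rfl w (h1 k1 w hw) him hcon.le h9 hw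
      have h11 : n2 + (k1 - n2) = k1 := by omega
      have := key (k1 - n2) (by omega) w him (by rw [h11]; exact hw) (by rw [h11]; exact h10)
      exact this
    have hnk1 : k1 ≤ n := by
      have h12 : K0 / τ ≤ n := by rw [div_le_iff₀ hτ]; exact hnτ
      exact_mod_cast hk1le.trans h12
    obtain ⟨j, rfl⟩ := Nat.exists_eq_add_of_le hnk1
    obtain ⟨i1, i2⟩ := drift h2 hlev j w him hw
    have h9 : ‖w‖ ≤ |w.re| + |w.im| := Complex.norm_le_abs_re_add_abs_im w
    have h10 := hN0 τ hτ.le hτ8 (k1 + j) hnN0 w hw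
    have h13 : ((k1 - n2 : ℕ) : ℝ) = (k1 : ℝ) - n2 := by
      rw [Nat.cast_sub hn2k1]
    rw [h13] at i2
    have h14 : (2 : ℝ) ≤ n2 := by exact_mod_cast hn2b
    push_cast at h10
    have h15 : (0:ℝ) ≤ (k1 : ℝ) + j := by positivity
    nlinarith [mul_nonneg hA0.le h15, mul_le_mul_of_nonneg_left h14 hA0.le]

end Pool.Agent.H986R2.GD
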