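import Pool.Agent.H986R2.GD.Spec

set_option autoImplicit false

/-!
# Task FINX (generic version): all zeros of the derivatives are real and negative if `C ≤ n τ`
-/

namespace Pool.Agent.H986R2.GD

open Complex Filter Topology Polynomial MeasureTheory
open Pool.Agent.H24R2.JP (Par Good App arc SHad SDer SGL SJen SPar SCircle SNewton SArc TT TI)
open Pool.Agent.H471R3.GJ
open Pool.Agent.H986R2.DBN (ParD SCPoly PL)

namespace FinXG

theorem iter_add (F : ℂ → ℂ) (n j : ℕ) :
    iteratedDeriv j (iteratedDeriv n F) = iteratedDeriv (n + j) F := by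
  rw [iteratedDeriv_eq_iterate, iteratedDeriv_eq_iterate, iteratedDeriv_eq_iterate, add_comm n j,
    Function.iterate_add_apply]

/-- The derivatives do not vanish on the nonnegative half line. -/
theorem pos_of_nonneg (F : ℂ → ℂ) (hF : Differentiable ℂ F) (g : ℕ → ℝ)
    (hg : ∀ n, iteratedDeriv n F 0 = ((g n : ℝ) : ℂ)) (n : ℕ) (hpos : ∀ k, n ≤ k → 0 < g k)
    (x : ℝ) (hx : 0 ≤ x) : 0 < (iteratedDeriv n F (x : ℂ)).re := by
  have hd : Differentiable ℂ (iteratedDeriv n F) :=
    (hF.contDiff (n := ⊤)).differentiable_iteratedDeriv n (by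
      exact_mod_cast WithTop.coe_lt_top (n : ℕ∞))
  have h1 := Complex.hasSum_taylorSeries_of_entire hd 0 (x : ℂ)
  have h2 := Complex.hasSum_re h1
  have h3 : ∀ j : ℕ, (((j.factorial : ℂ)⁻¹ • ((x : ℂ) - 0) ^ j •
      iteratedDeriv j (iteratedDeriv n F) 0 : ℂ)).re = (j.factorial : ℝ)⁻¹ * (x ^ j * g (n + j)) := by
    intro j
    rw [iter_add, hg, sub_zero, smul_eq_mul, smul_eq_mul, ← Complex.ofReal_pow,
      ← Complex.ofReal_mul]
    have h4 : (j.factorial : ℂ)⁻¹ = (((j.factorial : ℝ)⁻¹ : ℝ) : ℂ) := by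
      push_cast
      rfl
    rw [h4, ← Complex.ofReal_mul, Complex.ofReal_re]
  have h5 : HasSum (fun j : ℕ => (j.factorial : ℝ)⁻¹ * (x ^ j * g (n + j)))
      (iteratedDeriv n F (x : ℂ)).re := by
    refine h2.congr_fun ?_
    intro j
    exact (h3 j).symm
  have h6 : (0 : ℝ) < ((0 : ℕ).factorial : ℝ)⁻¹ * (x ^ 0 * g (n + 0)) := by
    have := hpos n le_rfl
    simpa using this
  refine h6.trans_le (le_hasSum h5 0 fun j _ => ?_)
  have := hpos (n + j) (by omega)
  positivity

end FinXG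

open FinXG

theorem finX (D : Dat) (_h : IsL D) (h1 : SChainT D) (h2 : SBig D) (h3 : SLPI) (h4 : SZ2LPI)
    (h5 : SPosT D) (h6 : SB1T D) (h7 : SGrowT D) (h8 : SWkT D) : SFinX D := by
  obtain ⟨C, N1, hC, hch⟩ := h1
  obtain ⟨k0, hk0⟩ := h5
  refine ⟨C + N1 + k0 + 1, by positivity, ?_⟩
  intro τ hτ n hn
  rcases le_or_gt (1 / 8) τ with hτ8 | hτ8
  · exact (h3 _ (h2 τ hτ8)).2.1 n
  · obtain ⟨hd, -, hconj, hder⟩ := h6 τ hτ.le
    have hN1 : (0 : ℝ) ≤ N1 := Nat.cast_nonneg _
    have hk0' : (0 : ℝ) ≤ k0 := Nat.cast_nonneg _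
    have hn8 : (N1 : ℝ) + k0 ≤ n := by
      have h9 : (n : ℝ) * τ ≤ n * (1 / 8) :=
        mul_le_mul_of_nonneg_left hτ8.le (Nat.cast_nonneg _)
      linarith
    have hnN : N1 ≤ n := by
      have : (N1 : ℝ) ≤ n := by linarith
      exact_mod_cast this
    have hnk : k0 ≤ n := by
      have : (k0 : ℝ) ≤ n := by linarith
      exact_mod_cast this
    refine h4 (FT D τ) hd hconj (h7 τ hτ.le) (h8 τ hτ.le).2.2 n ?_
    intro x hx z hz
    have him : x.im = 0 := hch τ hτ hτ8.le n hnN (by linarith) x hx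
    have hneg : x.re < 0 := by
      by_contra hge
      push Not at hge
      have h10 := pos_of_nonneg (FT D τ) hd (gamT D τ) hder n
        (fun k hk => hk0 τ hτ.le k (hnk.trans hk)) x.re hge
      have h11 : ((x.re : ℝ) : ℂ) = x := by
        apply Complex.ext
        · simp
        · simp [him]
      rw [h11, hx] at h10
      simp at h10
    -- `z ^ 2 = x < 0`
    have h12 : z.re * z.re - z.im * z.im = x.re := by
      rw [← hz, pow_two, Complex.mul_re]
    have h13 : z.re * z.im + z.im * z.re = 0 := by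
      rw [← him, ← hz, pow_two, Complex.mul_im]
    have h14 : z.re * z.im = 0 := by linarith
    rcases mul_eq_zero.1 h14 with h15 | h15
    · rw [h15]; norm_num
    · rw [h15] at h12
      nlinarith [mul_self_nonneg z.re]

end Pool.Agent.H986R2.GD
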