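import Pool.Agent.H986R2.GD.Spec
import Pool.Agent.H986R2.DBN.GoodT

set_option autoImplicit false

/-!
# Task GOODT
-/

namespace Pool.Agent.H986R2.GD

open Complex Filter Topology Polynomial MeasureTheory
open Pool.Agent.H24R2.JP (Par Good App arc SHad SDer SGL SJen SPar SCircle SNewton SArc TT TI)
open Pool.Agent.H471R3.GJ
open Pool.Agent.H986R2.DBN (ParD SCPoly PL par_iff parD_mono)

theorem goodT (D : Dat) (h1 : SWkT D) (h2 : SPosT D) (h3 : SB1T D) (h4 : SDer) (h5 : SGL) :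
    SGoodT D := by
  obtain ⟨k0, hk0⟩ := h2
  refine ⟨k0, fun τ hτ k hk => ?_⟩
  obtain ⟨hd, ⟨Q, hApp⟩, -⟩ := h1 τ hτ
  obtain ⟨-, -, -, hi⟩ := h3 τ hτ
  have hne : ∀ k, k0 ≤ k → iteratedDeriv k (FT D τ) 0 ≠ 0 := by
    intro k hk
    rw [hi k]
    exact_mod_cast (hk0 τ hτ k hk).ne'
  refine ⟨?_, ?_, ?_⟩
  · exact hd.contDiff.differentiable_iteratedDeriv' k
  · have hD := (h4 (FT D τ) _ hApp k).1
    have hpt : Tendsto (fun N : ℕ => aeval (0 : ℂ) (derivative^[k] (Q N))) atTop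
        (𝓝 (iteratedDeriv k (FT D τ) 0)) := by
      have h8 := tendstoLocallyUniformlyOn_univ.2 hD
      exact h8.tendsto_at (Set.mem_univ 0)
    have hne' : ∀ᶠ N in atTop, aeval (0 : ℂ) (derivative^[k] (Q N)) ≠ 0 :=
      hpt.eventually_ne (hne k hk)
    obtain ⟨N0, hN0⟩ := eventually_atTop.1 hne'
    refine ⟨fun N => derivative^[k] (Q (N + N0)), ?_, ?_⟩
    · intro N x hx
      refine h5 (Q (N + N0)) k (hApp.1 _) (fun h0 => ?_) x hx
      exact hN0 (N + N0) (by omega) (by rw [h0]; simp)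
    · intro u hu x
      obtain ⟨t, ht, h⟩ := hD u hu x
      exact ⟨t, ht, (tendsto_add_atTop_nat N0).eventually h⟩
  · intro j
    have e : iteratedDeriv j (iteratedDeriv k (FT D τ)) = iteratedDeriv (j + k) (FT D τ) := by
      rw [iteratedDeriv_eq_iterate, iteratedDeriv_eq_iterate, iteratedDeriv_eq_iterate,
        Function.iterate_add_apply]
    rw [e]
    exact hne _ (by omega)

end Pool.Agent.H986R2.GD
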