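import Pool.Agent.H986R2.GD.Ker

set_option autoImplicit false

/-! Task HEAT, generic version (adapted from the zeta version of helper278) -/

namespace Pool.Agent.H986R2.GD

open Complex Filter Topology Polynomial MeasureTheory
open Pool.Agent.H471R3.GJ

namespace HeatG

/-- the integrand of the double integral -/
noncomputable def F (w : ℝ → ℝ) (τ : ℝ) (z : ℂ) (v u : ℝ) : ℂ :=
  ((Real.exp (-v ^ 2) : ℝ) : ℂ) *
    (((w u : ℝ) : ℂ) * cexp ((z + ((2 * Real.sqrt τ * v : ℝ) : ℂ)) * u))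

theorem F_cont {w : ℝ → ℝ} (hw : Continuous w) (τ : ℝ) (z : ℂ) :
    Continuous (Function.uncurry (F w τ z)) := by
  have h1 : Continuous (fun p : ℝ × ℝ => ((w p.2 : ℝ) : ℂ)) :=
    Complex.continuous_ofReal.comp (hw.comp continuous_snd)
  have h2 : Continuous (fun p : ℝ × ℝ => ((Real.exp (-p.1 ^ 2) : ℝ) : ℂ)) := by fun_prop
  have h3 : Continuous (fun p : ℝ × ℝ =>
    cexp ((z + ((2 * Real.sqrt τ * p.1 : ℝ) : ℂ)) * (p.2 : ℂ))) := by fun_prop
  exact h2.mul (h1.mul h3)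

theorem F_int {w : ℝ → ℝ} (hw : Continuous w) (τ : ℝ) (hτ : 0 ≤ τ)
    (hcl : Pool.Agent.H24R2.JP.MomAux.Cl (fun u => w u * Real.exp (2 * τ * u ^ 2))) (z : ℂ) :
    Integrable (Function.uncurry (F w τ z)) (volume.prod volume) := by
  obtain ⟨-, hCl⟩ := hcl
  obtain ⟨C, hC⟩ := hCl |z.re|
  have i1 : Integrable (fun v : ℝ => Real.exp (-(1/2) * v ^ 2)) :=
    integrable_exp_neg_mul_sq (by norm_num)
  have i2 : Integrable (fun u : ℝ => C * Real.exp (-1 * u ^ 2)) :=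
    (integrable_exp_neg_mul_sq one_pos).const_mul C
  refine Integrable.mono' (i1.mul_prod i2) (F_cont hw τ z).aestronglyMeasurable
    (Eventually.of_forall fun p => ?_)
  obtain ⟨v, u⟩ := p
  simp only [Function.uncurry]
  unfold F
  rw [norm_mul, norm_mul, Complex.norm_real, Complex.norm_real, Real.norm_eq_abs,
    Real.norm_eq_abs, Complex.norm_exp, abs_of_pos (Real.exp_pos _)]
  have h1 : ((z + ((2 * Real.sqrt τ * v : ℝ) : ℂ)) * (u : ℂ)).re
      = (z.re + 2 * Real.sqrt τ * v) * u := by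
    rw [Complex.mul_re, Complex.add_re, Complex.ofReal_re, Complex.ofReal_re, Complex.ofReal_im]
    ring
  rw [h1]
  have hs : Real.sqrt τ ^ 2 = τ := Real.sq_sqrt hτ
  have h2 : (z.re + 2 * Real.sqrt τ * v) * u ≤
      |z.re| * |u| + (1/2 * v ^ 2 + 2 * τ * u ^ 2) := by
    have e1 : z.re * u ≤ |z.re| * |u| := by
      rw [← abs_mul]; exact le_abs_self _
    have e2 : 0 ≤ (v - 2 * Real.sqrt τ * u) ^ 2 := sq_nonneg _
    have e3 : (v - 2 * Real.sqrt τ * u) ^ 2 =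
        v ^ 2 - 4 * Real.sqrt τ * v * u + 4 * Real.sqrt τ ^ 2 * u ^ 2 := by ring
    rw [e3, hs] at e2
    nlinarith
  calc Real.exp (-v ^ 2) * (|w u| * Real.exp ((z.re + 2 * Real.sqrt τ * v) * u))
      ≤ Real.exp (-v ^ 2) * (|w u| * Real.exp (|z.re| * |u| + (1/2 * v ^ 2 + 2 * τ * u ^ 2))) := by
        gcongr
    _ = Real.exp (-(1/2) * v ^ 2) *
        (|w u * Real.exp (2 * τ * u ^ 2)| * Real.exp (|z.re| * |u|)) := by
        rw [abs_mul, abs_of_pos (Real.exp_pos (2 * τ * u ^ 2))]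
        have : Real.exp (-(1/2) * v ^ 2) = Real.exp (-v ^ 2) * Real.exp (1/2 * v ^ 2) := by
          rw [← Real.exp_add]; congr 1; ring
        rw [this, Real.exp_add, Real.exp_add]
        ring
    _ ≤ Real.exp (-(1/2) * v ^ 2) * (C * Real.exp (-1 * u ^ 2)) :=
        mul_le_mul_of_nonneg_left (hC u) (Real.exp_pos _).le

theorem gauss (a : ℝ) : ∫ v : ℝ, Real.exp (-(v - a) ^ 2) = Real.sqrt Real.pi := by
  have h1 := integral_sub_right_eq_self (μ := (volume : Measure ℝ))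
    (fun v : ℝ => Real.exp (-v ^ 2)) a
  rw [h1]
  have h2 := integral_gaussian 1
  rw [div_one] at h2
  rw [← h2]
  refine integral_congr_ae (Eventually.of_forall fun v => ?_)
  simp

theorem inner (w : ℝ → ℝ) (τ : ℝ) (hτ : 0 ≤ τ) (z : ℂ) (u : ℝ) : ∫ v : ℝ, F w τ z v u =
    ((Real.sqrt Real.pi : ℝ) : ℂ) *
      (((w u * Real.exp (τ * u ^ 2) : ℝ) : ℂ) * cexp (z * u)) := by
  have hs : Real.sqrt τ ^ 2 = τ := Real.sq_sqrt hτ
  have h1 : ∀ v : ℝ, F w τ z v u = ((Real.exp (-(v - Real.sqrt τ * u) ^ 2) : ℝ) : ℂ) *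
      (((w u * Real.exp (τ * u ^ 2) : ℝ) : ℂ) * cexp (z * u)) := by
    intro v
    unfold F
    rw [add_mul, Complex.exp_add]
    have e1 : cexp (((2 * Real.sqrt τ * v : ℝ) : ℂ) * (u : ℂ)) =
        ((Real.exp (2 * Real.sqrt τ * v * u) : ℝ) : ℂ) := by
      push_cast; rfl
    rw [e1]
    have e2 : Real.exp (-v ^ 2) * Real.exp (2 * Real.sqrt τ * v * u) =
        Real.exp (-(v - Real.sqrt τ * u) ^ 2) * Real.exp (τ * u ^ 2) := by
      rw [← Real.exp_add, ← Real.exp_add]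
      congr 1
      have : (v - Real.sqrt τ * u) ^ 2 = v ^ 2 - 2 * Real.sqrt τ * v * u
        + Real.sqrt τ ^ 2 * u ^ 2 := by ring
      rw [this, hs]; ring
    have e3 : ((Real.exp (-v ^ 2) : ℝ) : ℂ) * ((Real.exp (2 * Real.sqrt τ * v * u) : ℝ) : ℂ) =
        ((Real.exp (-(v - Real.sqrt τ * u) ^ 2) : ℝ) : ℂ) *
          ((Real.exp (τ * u ^ 2) : ℝ) : ℂ) := by
      rw [← Complex.ofReal_mul, ← Complex.ofReal_mul, e2]
    rw [Complex.ofReal_mul (w u)]
    linear_combination ((w u : ℝ) : ℂ) * cexp (z * u) * e3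
  simp only [h1]
  rw [integral_mul_const, integral_complex_ofReal, gauss]

theorem outer (D : Dat) (h : IsL D) (τ : ℝ) (z : ℂ) (v : ℝ) :
    ((Real.exp (-v ^ 2) : ℝ) : ℂ) * D.XX (z + ((2 * Real.sqrt τ * v : ℝ) : ℂ)) =
      ∫ u : ℝ, F D.Φ τ z v u := by
  rw [h.XX_eq]
  unfold F
  rw [integral_const_mul]

end HeatG

open HeatG in
theorem heat (D : Dat) (h : IsL D) : SHeat D := by
  intro τ z hτ
  have hF := F_int h.Φ_cont τ hτ (Cl_w D h (2 * τ) (by linarith)) z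
  have h1 : (fun v : ℝ => ((Real.exp (-v ^ 2) : ℝ) : ℂ) *
      D.XX (z + ((2 * Real.sqrt τ * v : ℝ) : ℂ))) = fun v => ∫ u : ℝ, F D.Φ τ z v u := by
    funext v; exact outer D h τ z v
  have hspi : ((Real.sqrt Real.pi : ℝ) : ℂ) ≠ 0 := by
    rw [Complex.ofReal_ne_zero]
    exact (Real.sqrt_pos.2 Real.pi_pos).ne'
  refine ⟨?_, ?_⟩
  · rw [h1]
    exact hF.integral_prod_left
  · rw [h1]
    have h2 : ∫ v : ℝ, ∫ u : ℝ, F D.Φ τ z v u = ∫ u : ℝ, ∫ v : ℝ, F D.Φ τ z v u :=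
      integral_integral_swap hF
    rw [h2]
    simp only [inner D.Φ τ hτ z]
    rw [integral_const_mul]
    unfold XT
    generalize (∫ u : ℝ, ((D.Φ u * Real.exp (τ * u ^ 2) : ℝ) : ℂ) * cexp (z * u)) = X
    push_cast
    field_simp

end Pool.Agent.H986R2.GD
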