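import Pool.Agent.H986R2.GD.Spec

set_option autoImplicit false

/-!
# Task HEATNZ: no zeros of `XT D τ` above height `exp (C / τ)`
-/

namespace Pool.Agent.H986R2.GD

open Complex Filter Topology Polynomial MeasureTheory
open Pool.Agent.H24R2.JP (Par Good App arc SHad SDer SGL SJen SPar SCircle SNewton SArc TT TI)
open Pool.Agent.H471R3.GJ
open Pool.Agent.H986R2.DBN (ParD SCPoly PL)

namespace Hnz

/-- the integrand after the change of variables `r = 2 √τ v + σ`. -/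
noncomputable def g (D : Dat) (τ t σ r : ℝ) : ℂ :=
  ((Real.exp (-(r - σ) ^ 2 / (4 * τ)) : ℝ) : ℂ) * D.XX (I * t + r)

theorem XX_neg {D : Dat} (h : SB1 D) (z : ℂ) : D.XX (-z) = D.XX z := by
  rw [← h.2.1 (-z), ← h.2.1 z, neg_sq]

theorem XX_conj {D : Dat} (h : SB1 D) (z : ℂ) : D.XX ((starRingEnd ℂ) z) = (starRingEnd ℂ) (D.XX z) := by
  rw [← h.2.1, ← h.2.1 z, ← h.2.2.1, map_pow]

theorem XX_refl {D : Dat} (h : SB1 D) (t r : ℝ) : D.XX (I * t + ((-r : ℝ) : ℂ)) = (starRingEnd ℂ) (D.XX (I * t + r)) := by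
  rw [← XX_conj h, ← XX_neg h]
  congr 1
  apply Complex.ext <;> simp

theorem g_comp {D : Dat} (τ t σ v : ℝ) (hτ : 0 < τ) :
    g D τ t σ (σ + 2 * Real.sqrt τ * v) =
      ((Real.exp (-v ^ 2) : ℝ) : ℂ) * D.XX ((σ + I * t) + ((2 * Real.sqrt τ * v : ℝ) : ℂ)) := by
  have h1 : -(σ + 2 * Real.sqrt τ * v - σ) ^ 2 / (4 * τ) = -v ^ 2 := by
    have : (Real.sqrt τ) ^ 2 = τ := Real.sq_sqrt hτ.le
    rw [div_eq_iff (by positivity)]
    linear_combination (-4 * v ^ 2) * this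
  unfold g
  rw [h1]
  congr 2
  push_cast
  ring

theorem g_int {D : Dat} (h : SHeat D) (τ t σ : ℝ) (hτ : 0 < τ) : Integrable (g D τ t σ) ∧
    XT D τ (σ + I * t) = ((1 / Real.sqrt Real.pi : ℝ) : ℂ) *
      (|(2 * Real.sqrt τ)⁻¹| • ∫ r : ℝ, g D τ t σ r) := by
  obtain ⟨h1, h2⟩ := h τ (σ + I * t) hτ.le
  have hc : (2 * Real.sqrt τ) ≠ 0 := by positivity
  have e : (fun v : ℝ => ((Real.exp (-v ^ 2) : ℝ) : ℂ) *
      D.XX ((σ + I * t) + ((2 * Real.sqrt τ * v : ℝ) : ℂ))) =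
      fun v : ℝ => (fun x : ℝ => g D τ t σ (σ + x)) ((2 * Real.sqrt τ) * v) := by
    funext v
    exact (g_comp τ t σ v hτ).symm
  rw [e] at h1
  rw [h2, e]
  constructor
  · have h3 := (integrable_comp_mul_left_iff (fun x : ℝ => g D τ t σ (σ + x)) hc).1 h1
    have h4 := h3.comp_add_left (-σ)
    refine h4.congr (Eventually.of_forall fun x => ?_)
    simp only [add_neg_cancel_left]
  · rw [Measure.integral_comp_mul_left (fun x : ℝ => g D τ t σ (σ + x)) (2 * Real.sqrt τ)]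
    rw [integral_add_left_eq_self (fun x => g D τ t σ x) σ]

theorem g_pos {D : Dat} (τ t σ r : ℝ) (hτ : 0 < τ) : g D τ t σ r = ((Real.exp (-σ ^ 2 / (4 * τ)) : ℝ) : ℂ) *
    (cexp (-(r : ℂ) ^ 2 / (4 * τ) + ((σ / (2 * τ) : ℝ) : ℂ) * r) * D.XX (I * t + r)) := by
  unfold g
  rw [← mul_assoc]
  congr 1
  rw [Complex.ofReal_exp, Complex.ofReal_exp, ← Complex.exp_add]
  congr 1
  have : (τ : ℂ) ≠ 0 := by exact_mod_cast hτ.ne'
  push_cast
  field_simp
  ring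

theorem g_neg {D : Dat} (h : SB1 D) (τ t σ r : ℝ) (hτ : 0 < τ) :
    g D τ t σ (-r) = ((Real.exp (-σ ^ 2 / (4 * τ)) : ℝ) : ℂ) *
      (starRingEnd ℂ) (cexp (-(r : ℂ) ^ 2 / (4 * τ) + (-((σ / (2 * τ) : ℝ) : ℂ)) * r) *
        D.XX (I * t + r)) := by
  unfold g
  rw [map_mul, XX_refl h, ← mul_assoc]
  congr 1
  rw [← Complex.exp_conj, Complex.ofReal_exp, Complex.ofReal_exp, ← Complex.exp_add]
  congr 1
  have : (τ : ℂ) ≠ 0 := by exact_mod_cast hτ.ne'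
  simp only [map_add, map_mul, map_neg, map_div₀, map_pow, Complex.conj_ofReal]
  have h4 : (starRingEnd ℂ) (4 : ℂ) = 4 := by
    have := Complex.conj_ofReal 4
    simpa using this
  rw [h4]
  push_cast
  field_simp
  ring

theorem integral_g {D : Dat} (h0 : SHeat D) (h : SB1 D) (τ t σ : ℝ) (hτ : 0 < τ) :
    ∫ r : ℝ, g D τ t σ r = ((Real.exp (-σ ^ 2 / (4 * τ)) : ℝ) : ℂ) *
      (JT D τ t ((σ / (2 * τ) : ℝ) : ℂ) + (starRingEnd ℂ) (JT D τ t (-((σ / (2 * τ) : ℝ) : ℂ)))) := by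
  have hi := (g_int h0 τ t σ hτ).1
  rw [← intervalIntegral.integral_Iic_add_Ioi (b := 0) hi.integrableOn hi.integrableOn]
  have h1 : ∫ r in Set.Iic (0 : ℝ), g D τ t σ r = ∫ r in Set.Ioi (0 : ℝ), g D τ t σ (-r) := by
    rw [integral_comp_neg_Ioi, neg_zero]
  rw [h1, add_comm, mul_add]
  congr 1
  · unfold JT
    rw [← integral_const_mul]
    refine integral_congr_ae (Eventually.of_forall fun r => ?_)
    exact g_pos τ t σ r hτ
  · unfold JT
    rw [← integral_conj, ← integral_const_mul]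
    refine integral_congr_ae (Eventually.of_forall fun r => ?_)
    exact g_neg h τ t σ r hτ

theorem norm_JT_eq {D : Dat} (h0 : SHeat D) (h : SB1 D) (τ t σ : ℝ) (hτ : 0 < τ) (hz : XT D τ (σ + I * t) = 0) :
    ‖JT D τ t ((σ / (2 * τ) : ℝ) : ℂ)‖ = ‖JT D τ t (-((σ / (2 * τ) : ℝ) : ℂ))‖ := by
  rw [(g_int h0 τ t σ hτ).2, integral_g h0 h τ t σ hτ] at hz
  have h1 : ((1 / Real.sqrt Real.pi : ℝ) : ℂ) ≠ 0 := by
    have : (1 / Real.sqrt Real.pi : ℝ) ≠ 0 := by positivity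
    exact_mod_cast this
  have h2 : |(2 * Real.sqrt τ)⁻¹| ≠ 0 := by positivity
  have h3 : ((Real.exp (-σ ^ 2 / (4 * τ)) : ℝ) : ℂ) ≠ 0 := by
    exact_mod_cast (Real.exp_pos _).ne'
  have h4 := (mul_eq_zero.1 ((smul_eq_zero.1 ((mul_eq_zero.1 hz).resolve_left h1)).resolve_left
    h2)).resolve_left h3
  have h5 := eq_neg_of_add_eq_zero_left h4
  rw [h5, norm_neg, Complex.norm_conj]

/-- The ratio. -/
noncomputable def R (D : Dat) (τ t : ℝ) (a : ℂ) : ℂ := JT D τ t a / MT D τ t a - 1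

theorem MT_ne {D : Dat} (τ t : ℝ) (hτ : 0 < τ) (hH : D.HH (I * t) ≠ 0) (a : ℂ) : MT D τ t a ≠ 0 := by
  unfold MT
  have : (Real.sqrt (4 * Real.pi * τ) : ℝ) ≠ 0 := by positivity
  refine mul_ne_zero (mul_ne_zero (by exact_mod_cast this) hH) (Complex.exp_ne_zero _)

theorem MT_diff {D : Dat} (τ t : ℝ) (a : ℂ) : DifferentiableAt ℂ (MT D τ t) a := by
  unfold MT
  fun_prop

theorem norm_MT {D : Dat} (τ t : ℝ) (x : ℝ) :
    ‖MT D τ t x‖ = ‖MT D τ t (-x)‖ * Real.exp (4 * τ * x * (be D t).re) := by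
  unfold MT
  have e : (τ : ℂ) * (be D t + x) ^ 2 = (τ : ℂ) * (be D t + -x) ^ 2 + ((4 * τ * x : ℝ) : ℂ) * be D t := by
    push_cast
    ring
  have e2 : Real.exp (4 * τ * x * (be D t).re) = ‖cexp (((4 * τ * x : ℝ) : ℂ) * be D t)‖ := by
    rw [Complex.norm_exp, Complex.re_ofReal_mul]
  rw [e2, e, Complex.exp_add, ← norm_mul]
  congr 1
  ring

theorem R_diff {D : Dat} (τ t : ℝ) (hτ : 0 < τ) (hH : D.HH (I * t) ≠ 0) (a : ℂ)
    (hJ : DifferentiableAt ℂ (JT D τ t) a) : DifferentiableAt ℂ (R D τ t) a :=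
  (hJ.div (MT_diff τ t a) (MT_ne τ t hτ hH a)).sub_const 1

theorem R_le {D : Dat} (τ t : ℝ) (hτ : 0 < τ) (hH : D.HH (I * t) ≠ 0) (a : ℂ)
    (hJ : ‖JT D τ t a - MT D τ t a‖ ≤ 1 / 100 * ‖MT D τ t a‖) : ‖R D τ t a‖ ≤ 1 / 100 := by
  have hM := MT_ne τ t hτ hH a
  have : R D τ t a = (JT D τ t a - MT D τ t a) / MT D τ t a := by
    unfold R
    field_simp
  rw [this, norm_div, div_le_iff₀ (norm_pos_iff.2 hM)]
  exact hJ

theorem key {D : Dat} (τ t : ℝ) (hτ : 0 < τ) (hH : D.HH (I * t) ≠ 0) (hbe : 10 ≤ τ * (be D t).re)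
    (hJ : ∀ a : ℂ, |a.re| ≤ 1 / (4 * τ) + 1 → |a.im| ≤ 1 →
      DifferentiableAt ℂ (JT D τ t) a ∧ ‖JT D τ t a - MT D τ t a‖ ≤ 1 / 100 * ‖MT D τ t a‖)
    (a : ℝ) (ha : 0 < a) (ha' : a ≤ 1 / (4 * τ)) :
    ‖JT D τ t (a : ℂ)‖ ≠ ‖JT D τ t (-(a : ℂ))‖ := by
  intro heq
  have hR : ∀ x : ℂ, |x.re| ≤ 1 / (4 * τ) + 1 → |x.im| ≤ 1 → ‖R D τ t x‖ ≤ 1 / 100 := fun x h1 h2 =>
    R_le τ t hτ hH x (hJ x h1 h2).2
  have hRd : ∀ x : ℂ, |x.re| ≤ 1 / (4 * τ) + 1 → |x.im| ≤ 1 → DifferentiableAt ℂ (R D τ t) x :=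
    fun x h1 h2 => R_diff τ t hτ hH x (hJ x h1 h2).1
  have hseg : ∀ x ∈ segment ℝ (-(a : ℂ)) (a : ℂ), |x.re| ≤ 1 / (4 * τ) ∧ x.im = 0 := by
    rintro x ⟨u, v, hu, hv, huv, rfl⟩
    constructor
    · have : (u • (-(a : ℂ)) + v • (a : ℂ)).re = (v - u) * a := by
        simp [Complex.real_smul]
        ring
      rw [this, abs_mul, abs_of_pos ha]
      have h1 : |v - u| ≤ 1 := by rw [abs_le]; constructor <;> linarith
      calc |v - u| * a ≤ 1 * a := by gcongr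
        _ = a := one_mul a
        _ ≤ _ := ha'
    · simp [Complex.real_smul]
  have hder : ∀ x ∈ segment ℝ (-(a : ℂ)) (a : ℂ), ‖deriv (R D τ t) x‖ ≤ 1 / 100 := by
    intro x hx
    obtain ⟨hx1, hx2⟩ := hseg x hx
    have hball : ∀ z ∈ Metric.closedBall x 1, |z.re| ≤ 1 / (4 * τ) + 1 ∧ |z.im| ≤ 1 := by
      intro z hz
      rw [Metric.mem_closedBall, dist_eq_norm] at hz
      constructor
      · have h1 := (Complex.abs_re_le_norm (z - x)).trans hz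
        rw [Complex.sub_re] at h1
        have h2 : |z.re| ≤ |z.re - x.re| + |x.re| := by
          have := abs_add_le (z.re - x.re) x.re
          rwa [sub_add_cancel] at this
        linarith
      · have h1 := (Complex.abs_im_le_norm (z - x)).trans hz
        rwa [Complex.sub_im, hx2, sub_zero] at h1
    have h := Complex.norm_deriv_le_of_forall_mem_sphere_norm_le (f := R D τ t) (c := x) (R := 1)
      (C := 1 / 100) one_pos ?_ ?_
    · simpa using h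
    · apply DifferentiableOn.diffContOnCl
      rw [closure_ball x one_ne_zero]
      intro z hz
      obtain ⟨h1, h2⟩ := hball z hz
      exact (hRd z h1 h2).differentiableWithinAt
    · intro z hz
      obtain ⟨h1, h2⟩ := hball z (Metric.sphere_subset_closedBall hz)
      exact hR z h1 h2
  have hlip : ‖R D τ t (a : ℂ) - R D τ t (-(a : ℂ))‖ ≤ 1 / 100 * ‖(a : ℂ) - (-(a : ℂ))‖ := by
    refine (convex_segment (-(a : ℂ)) (a : ℂ)).norm_image_sub_le_of_norm_deriv_le (𝕜 := ℂ)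
      (fun x hx => ?_) hder (left_mem_segment ℝ _ _) (right_mem_segment ℝ _ _)
    obtain ⟨h1, h2⟩ := hseg x hx
    exact hRd x (by linarith) (by rw [h2]; simp)
  have hn : ‖(a : ℂ) - (-(a : ℂ))‖ = 2 * a := by
    rw [sub_neg_eq_add, ← two_mul, norm_mul, Complex.norm_real, Real.norm_of_nonneg ha.le]
    simp
  rw [hn] at hlip
  have hRa : ‖R D τ t (a : ℂ)‖ ≤ 1 / 100 := hR _ (by
    rw [Complex.ofReal_re, abs_of_pos ha]; linarith) (by simp)
  have hM1 := MT_ne τ t hτ hH (a : ℂ)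
  have hM2 := MT_ne τ t hτ hH (-(a : ℂ))
  have e1 : JT D τ t (a : ℂ) = (1 + R D τ t a) * MT D τ t a := by
    unfold R; field_simp; ring
  have e2 : JT D τ t (-(a : ℂ)) = (1 + R D τ t (-(a : ℂ))) * MT D τ t (-(a : ℂ)) := by
    unfold R; field_simp; ring
  rw [e1, e2, norm_mul, norm_mul, norm_MT] at heq
  have hMp : 0 < ‖MT D τ t (-(a : ℂ))‖ := norm_pos_iff.2 hM2
  have h3 : ‖1 + R D τ t (a : ℂ)‖ * Real.exp (4 * τ * a * (be D t).re) = ‖1 + R D τ t (-(a : ℂ))‖ := by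
    have : (‖1 + R D τ t (a : ℂ)‖ * Real.exp (4 * τ * a * (be D t).re)) * ‖MT D τ t (-(a : ℂ))‖ =
        ‖1 + R D τ t (-(a : ℂ))‖ * ‖MT D τ t (-(a : ℂ))‖ := by
      rw [← heq]; ring
    exact mul_right_cancel₀ hMp.ne' this
  have h4 : 1 + 40 * a ≤ Real.exp (4 * τ * a * (be D t).re) := by
    have h5 := Real.add_one_le_exp (4 * τ * a * (be D t).re)
    have h6 : 40 * a ≤ 4 * τ * a * (be D t).re := by
      have : 4 * τ * a * (be D t).re = 4 * a * (τ * (be D t).re) := by ring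
      rw [this]
      nlinarith
    linarith
  have h7 : 99 / 100 ≤ ‖1 + R D τ t (a : ℂ)‖ := by
    have h8 : ‖(1 : ℂ)‖ ≤ ‖1 + R D τ t (a : ℂ)‖ + ‖R D τ t (a : ℂ)‖ := by
      have := norm_sub_le (1 + R D τ t (a : ℂ)) (R D τ t (a : ℂ))
      rwa [add_sub_cancel_right] at this
    rw [norm_one] at h8
    linarith
  have h9 : ‖1 + R D τ t (-(a : ℂ))‖ ≤ ‖1 + R D τ t (a : ℂ)‖ + 1 / 100 * (2 * a) := by
    have h10 : 1 + R D τ t (-(a : ℂ)) = (1 + R D τ t (a : ℂ)) - (R D τ t (a : ℂ) - R D τ t (-(a : ℂ))) := by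
      ring
    rw [h10]
    exact (norm_sub_le _ _).trans (by linarith)
  have h11 : ‖1 + R D τ t (a : ℂ)‖ * (1 + 40 * a) ≤ ‖1 + R D τ t (a : ℂ)‖ + 1 / 100 * (2 * a) := by
    refine le_trans ?_ h9
    rw [← h3]
    gcongr
  nlinarith

end Hnz

open Hnz in
theorem heatNZ (D : Dat) (h : IsL D) (h1 : SJest D) (h2 : SHeat D) (h3 : SStir2 D) (h4 : SB1 D) :
    SHeatNZ D := by
  obtain ⟨C1, T1, hC1, hT1, hJ⟩ := h1
  obtain ⟨K, T0, hK, hT0, hS⟩ := h3
  have hc := h.c_pos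
  have hκ := h.κ_pos
  have hp1 : 0 < C1 / D.c := by positivity
  have hp2 : 0 < (10 + K) / (D.κ * D.c) := by positivity
  refine ⟨C1 / D.c + (10 + K) / (D.κ * D.c) + T0 + T1, by linarith, ?_⟩
  intro τ hτ hτ8 σ t hσ hσ2 ht hz
  set C := C1 / D.c + (10 + K) / (D.κ * D.c) + T0 + T1 with hC
  have hCpos : 0 < C := by linarith
  have h5 : 8 * C ≤ C / τ := by
    rw [le_div_iff₀ hτ]
    nlinarith
  have h6 : C ≤ t := by
    have := Real.add_one_le_exp (C / τ)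
    linarith
  have htpos : 0 < t := by linarith
  have h7 : C / τ ≤ Real.log t := (Real.le_log_iff_exp_le htpos).2 ht
  have h8 : C ≤ τ * Real.log t := by
    rw [div_le_iff₀ hτ] at h7
    linarith
  have h8a : C1 ≤ τ * Om D t := by
    have e1 : C1 / D.c ≤ τ * Real.log t := by linarith
    rw [div_le_iff₀ hc] at e1
    unfold Om
    linarith
  have h8b : 10 + K ≤ τ * (D.κ * Om D t) := by
    have e1 : (10 + K) / (D.κ * D.c) ≤ τ * Real.log t := by linarith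
    rw [div_le_iff₀ (by positivity)] at e1
    unfold Om
    linarith
  obtain ⟨hH, hbe, -⟩ := hS t (by linarith)
  have h9 : D.κ * Om D t - K ≤ (be D t).re := by
    have := (Complex.abs_re_le_norm (be D t - ((D.κ * Om D t : ℝ) : ℂ))).trans hbe
    rw [Complex.sub_re, Complex.ofReal_re, abs_le] at this
    linarith
  have h10 : 10 ≤ τ * (be D t).re := by
    have h11 : τ * (D.κ * Om D t - K) ≤ τ * (be D t).re := by gcongr
    have h12 : τ * K ≤ 1 / 8 * K := by gcongr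
    nlinarith
  refine key τ t hτ hH h10 (hJ t τ (by linarith) hτ hτ8 (by linarith)) (σ / (2 * τ)) (by positivity)
    ?_ (norm_JT_eq h2 h4 τ t σ hτ hz)
  rw [div_le_div_iff₀ (by positivity) (by positivity)]
  nlinarith

end Pool.Agent.H986R2.GD
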