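import Pool.Agent.H986R2.GD.Spec
import Pool.Agent.H471R3.GJ.B1
import Pool.Agent.H986R2.DBN.JEstA
import Pool.Agent.H986R2.DBN.JEstB

set_option autoImplicit false
set_option maxHeartbeats 4000000

/-!
# Task JEST (generic version): the upper half of the Gaussian integral
-/

namespace Pool.Agent.H986R2.GD

open Complex Filter Topology Polynomial MeasureTheory
open Pool.Agent.H24R2.JP (Par Good App arc SHad SDer SGL SJen SPar SCircle SNewton SArc TT TI)
open Pool.Agent.H471R3.GJ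
open Pool.Agent.H986R2.DBN.Jst (gauss_c g G g_pos g_norm gauss_r g_mono pow74 e7 e8 leexp)

namespace GJst

/-- the majorant -/
noncomputable def E (τ h c1 c2 c3 c4 x2 x3 x4 r : ℝ) : ℝ :=
  h * (c1 * g τ 0 r + c2 * g τ x2 r + c3 * g τ x3 r + c4 * g τ x4 r + g (2 * τ) 0 r)

theorem E_int (τ h c1 c2 c3 c4 x2 x3 x4 : ℝ) (hτ : 0 < τ) :
    Integrable (E τ h c1 c2 c3 c4 x2 x3 x4) ∧
    ∫ r, E τ h c1 c2 c3 c4 x2 x3 x4 r =
  h * (c1 * G τ 0 + c2 * G τ x2 + c3 * G τ x3 + c4 * G τ x4 + G (2 * τ) 0) := by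
  have i1 := gauss_r τ hτ 0
  have i2 := gauss_r τ hτ x2
  have i3 := gauss_r τ hτ x3
  have i4 := gauss_r τ hτ x4
  have i5 := gauss_r (2 * τ) (by linarith) 0
  have j1 := i1.1.const_mul c1
  have j2 := i2.1.const_mul c2
  have j3 := i3.1.const_mul c3
  have j4 := i4.1.const_mul c4
  have k2 := j1.add j2
  have k3 := k2.add j3
  have k4 := k3.add j4
  have k5 := k4.add i5.1
  constructor
  · exact k5.const_mul h
  · unfold E
    rw [integral_const_mul]
    congr 1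
    have e5 := integral_add k4 i5.1
    have e4 := integral_add k3 j4
    have e3 := integral_add k2 j3
    have e2 := integral_add j1 j2
    simp only [Pi.add_apply] at e5 e4 e3 e2
    rw [e5, e4, e3, e2, integral_const_mul, integral_const_mul, integral_const_mul,
      integral_const_mul, i1.2, i2.2, i3.2, i4.2, i5.2]

/-- data at height `t` -/
structure Dt (K t Ω W κ : ℝ) (H β : ℂ) (X : ℝ → ℂ) : Prop where
  K1 : 1 ≤ K
  t1 : 256 ≤ t
  t2 : 16 * (16 * K ^ 4) ≤ t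
  b : ‖β - (Ω : ℂ)‖ ≤ K
  W0 : 0 ≤ W
  X1 : ∀ r : ℝ, 0 < r → r ≤ t / 16 → ‖X r‖ ≤ K * W * ‖H‖ * Real.exp ((Ω + K) * r)
  X2 : ∀ r : ℝ, t / 16 ≤ r → ‖X r‖ ≤ ‖H‖ * Real.exp (K * r ^ (7 / 4 : ℝ))
  X3 : ∀ r : ℝ, K ≤ r → K * r ^ 2 ≤ t →
    ‖X r - H * cexp (β * r)‖ ≤ K * ((2 : ℝ) ^ (-(κ * r)) + r ^ 2 / t) * ‖H * cexp (β * r)‖

/-- the majorant with the actual constants -/
noncomputable def EE (τ t K W κ δ A h r : ℝ) : ℝ :=
  E τ h (K * W * Real.exp ((A + 2 * K) * K) + Real.exp (A * K) + 1) K (2 * K / (δ ^ 2 * t))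
    ((K * W + 1) * Real.exp (-Real.sqrt (t / K))) (A - κ * Real.log 2) (A + δ) (A + 2 * K + 1) r

theorem pt {K t Ω W κ δ : ℝ} {H β : ℂ} {X : ℝ → ℂ} (D : Dt K t Ω W κ H β X) (hδ : 0 < δ) {τ : ℝ}
    (hτ : 0 < τ)
    (hτ8 : τ ≤ 1 / 8) {a : ℂ} (ha : |a.re| ≤ 1 / (4 * τ) + 1) (hA : 0 ≤ β.re + a.re) {r : ℝ}
    (hr : 0 < r) :
    ‖cexp (-(r : ℂ) ^ 2 / (4 * τ) + a * r) * X r - cexp (-(r : ℂ) ^ 2 / (4 * τ) + (β + a) * r) * H‖ ≤
      EE τ t K W κ δ (β.re + a.re) ‖H‖ r := by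
  obtain ⟨hK1, ht1, ht2, hb, hW, hX1, hX2, hX3⟩ := D
  have htp : 0 < t := by linarith
  set A := β.re + a.re with hAdef
  set h := ‖H‖ with hh
  have hh0 : 0 ≤ h := norm_nonneg _
  have hO : Ω ≤ β.re + K := by
    have h1 : |(β - (Ω : ℂ)).re| ≤ K := (abs_re_le_norm _).trans hb
    rw [sub_re, ofReal_re] at h1
    have := (abs_le.1 h1).1
    linarith
  have p1 := (g_pos τ 0 r).le
  have p2 := (g_pos τ (A - κ * Real.log 2) r).le
  have p3 := (g_pos τ (A + δ) r).le
  have p4 := (g_pos τ (A + 2 * K + 1) r).le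
  have p5 := (g_pos (2 * τ) 0 r).le
  have c1 : 0 ≤ K * W * Real.exp ((A + 2 * K) * K) + Real.exp (A * K) + 1 := by positivity
  have c3 : 0 ≤ 2 * K / (δ ^ 2 * t) := by positivity
  have c4 : 0 ≤ (K * W + 1) * Real.exp (-Real.sqrt (t / K)) := by positivity
  have q1 := mul_nonneg c1 p1
  have q2 := mul_nonneg (show (0:ℝ) ≤ K by linarith) p2
  have q3 := mul_nonneg c3 p3
  have q4 := mul_nonneg c4 p4
  have hn1 : ‖cexp (-(r : ℂ) ^ 2 / (4 * τ) + a * r)‖ = g τ a.re r := g_norm τ r a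
  have hn2 : ‖cexp (-(r : ℂ) ^ 2 / (4 * τ) + (β + a) * r)‖ = g τ A r := by
    rw [g_norm τ r (β + a), add_re]
  -- the two-term bound
  have two : ‖cexp (-(r : ℂ) ^ 2 / (4 * τ) + a * r) * X r -
      cexp (-(r : ℂ) ^ 2 / (4 * τ) + (β + a) * r) * H‖ ≤ g τ a.re r * ‖X r‖ + g τ A r * h := by
    refine (norm_sub_le _ _).trans ?_
    rw [norm_mul, norm_mul, hn1, hn2]
  have hX1' : r ≤ t / 16 → g τ a.re r * ‖X r‖ ≤ h * (K * W * g τ (A + 2 * K) r) := by
    intro hrt
    have h1 := hX1 r hr hrt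
    have h2 : g τ a.re r * Real.exp ((Ω + K) * r) ≤ g τ (A + 2 * K) r := by
      unfold g
      rw [← Real.exp_add]
      apply Real.exp_le_exp.2
      have := mul_le_mul_of_nonneg_right (show a.re + (Ω + K) ≤ A + 2 * K by linarith) hr.le
      linarith
    calc g τ a.re r * ‖X r‖ ≤ g τ a.re r * (K * W * h * Real.exp ((Ω + K) * r)) :=
          mul_le_mul_of_nonneg_left h1 (g_pos _ _ _).le
      _ = h * (K * W * (g τ a.re r * Real.exp ((Ω + K) * r))) := by ring
      _ ≤ h * (K * W * g τ (A + 2 * K) r) := by gcongr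
  unfold EE E
  rcases lt_or_ge r K with hr1 | hr1
  · -- small r
    refine two.trans ?_
    have hKK : K ≤ t / 16 := by
      have hK4 : K ≤ K ^ 4 := le_self_pow₀ hK1 (by norm_num)
      linarith
    have h1 := hX1' (by linarith)
    have h2 : g τ (A + 2 * K) r ≤ Real.exp ((A + 2 * K) * K) * g τ 0 r := by
      apply g_mono
      have : (A + 2 * K) * r ≤ (A + 2 * K) * K := mul_le_mul_of_nonneg_left hr1.le (by linarith)
      linarith
    have h3 : g τ A r ≤ Real.exp (A * K) * g τ 0 r := by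
      apply g_mono
      have : A * r ≤ A * K := mul_le_mul_of_nonneg_left hr1.le (by linarith)
      linarith
    have h4 : h * (K * W * g τ (A + 2 * K) r) ≤
        h * (K * W * (Real.exp ((A + 2 * K) * K) * g τ 0 r)) := by gcongr
    have h5 : g τ A r * h ≤ h * (Real.exp (A * K) * g τ 0 r) := by
      rw [mul_comm]
      gcongr
    have h6 : 0 ≤ h * (1 * g τ 0 r + K * g τ (A - κ * Real.log 2) r +
      2 * K / (δ ^ 2 * t) * g τ (A + δ) r +
      (K * W + 1) * Real.exp (-Real.sqrt (t / K)) * g τ (A + 2 * K + 1) r + g (2 * τ) 0 r) := by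
      apply mul_nonneg hh0
      linarith
    linarith [h1, h4, h5, h6]
  · have hr1' : 1 ≤ r := hK1.trans hr1
    rcases le_or_gt (K * r ^ 2) t with hKr | hKr
    · -- middle
      have e1 : cexp (-(r : ℂ) ^ 2 / (4 * τ) + a * r) * X r -
          cexp (-(r : ℂ) ^ 2 / (4 * τ) + (β + a) * r) * H =
          cexp (-(r : ℂ) ^ 2 / (4 * τ) + a * r) * (X r - H * cexp (β * r)) := by
        have : cexp (-(r : ℂ) ^ 2 / (4 * τ) + (β + a) * r) =
            cexp (-(r : ℂ) ^ 2 / (4 * τ) + a * r) * cexp (β * r) := by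
          rw [← Complex.exp_add]
          congr 1
          ring
        rw [this]
        ring
      rw [e1, norm_mul, hn1]
      have h1 := hX3 r hr1 hKr
      have e2 : ‖H * cexp (β * r)‖ = h * Real.exp (β.re * r) := by
        rw [norm_mul, norm_exp, re_mul_ofReal]
      rw [e2] at h1
      have e3 : g τ a.re r * Real.exp (β.re * r) = g τ A r := by
        unfold g
        rw [← Real.exp_add]
        congr 1
        rw [hAdef]
        ring
      have e4 : (2 : ℝ) ^ (-(κ * r)) * g τ A r = g τ (A - κ * Real.log 2) r := by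
        unfold g
        rw [Real.rpow_def_of_pos (by norm_num), ← Real.exp_add]
        congr 1
        ring
      have e5 : r ^ 2 * g τ A r ≤ 2 / δ ^ 2 * g τ (A + δ) r := by
        have h2 : r ^ 2 ≤ 2 / δ ^ 2 * Real.exp (δ * r) := by
          have := Real.quadratic_le_exp_of_nonneg (mul_pos hδ hr).le
          rw [div_mul_eq_mul_div, le_div_iff₀ (by positivity)]
          have h8 := mul_pos hδ hr
          have h9 : r ^ 2 * δ ^ 2 = (δ * r) ^ 2 := by ring
          rw [h9]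
          linarith
        have h3 : g τ (A + δ) r = Real.exp (δ * r) * g τ A r := by
          unfold g
          rw [← Real.exp_add]
          congr 1
          ring
        rw [h3]
        have := mul_le_mul_of_nonneg_right h2 (g_pos τ A r).le
        linarith
      calc g τ a.re r * ‖X r - H * cexp (β * r)‖
          ≤ g τ a.re r * (K * ((2 : ℝ) ^ (-(κ * r)) + r ^ 2 / t) * (h * Real.exp (β.re * r))) :=
            mul_le_mul_of_nonneg_left h1 (g_pos _ _ _).le
        _ = h * (K * ((2 : ℝ) ^ (-(κ * r)) * (g τ a.re r * Real.exp (β.re * r))) +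
              K / t * (r ^ 2 * (g τ a.re r * Real.exp (β.re * r)))) := by ring
        _ = h * (K * g τ (A - κ * Real.log 2) r + K / t * (r ^ 2 * g τ A r)) := by rw [e3, e4]
        _ ≤ h * (K * g τ (A - κ * Real.log 2) r + K / t * (2 / δ ^ 2 * g τ (A + δ) r)) := by gcongr
        _ ≤ _ := by
            apply mul_le_mul_of_nonneg_left _ hh0
            have : K / t * (2 / δ ^ 2 * g τ (A + δ) r) = 2 * K / (δ ^ 2 * t) * g τ (A + δ) r := by
              field_simp
            linarith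
    · -- large r
      have hR : Real.sqrt (t / K) ≤ r := by
        apply Real.sqrt_le_iff.2
        refine ⟨hr.le, ?_⟩
        rw [div_le_iff₀ (by linarith)]
        linarith
      have h3 : g τ A r ≤ Real.exp (-Real.sqrt (t / K)) * g τ (A + 2 * K + 1) r := by
        apply g_mono
        have : 0 ≤ 2 * K * r := by positivity
        linarith
      have h5 : g τ A r * h ≤ h * (Real.exp (-Real.sqrt (t / K)) * g τ (A + 2 * K + 1) r) := by
        rw [mul_comm]
        gcongr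
      refine two.trans ?_
      rcases le_or_gt r (t / 16) with hrt | hrt
      · have h1 := hX1' hrt
        have h2 : g τ (A + 2 * K) r ≤ Real.exp (-Real.sqrt (t / K)) * g τ (A + 2 * K + 1) r := by
          apply g_mono
          linarith
        have h4 : h * (K * W * g τ (A + 2 * K) r) ≤
            h * (K * W * (Real.exp (-Real.sqrt (t / K)) * g τ (A + 2 * K + 1) r)) := by gcongr
        have h6 : 0 ≤ h * ((K * W * Real.exp ((A + 2 * K) * K) + Real.exp (A * K) + 1) * g τ 0 r +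
          K * g τ (A - κ * Real.log 2) r + 2 * K / (δ ^ 2 * t) * g τ (A + δ) r + g (2 * τ) 0 r) := by
          apply mul_nonneg hh0
          linarith
        linarith [h1, h4, h5, h6]
      · have h1 := hX2 r hrt.le
        have h16 : 16 * K ^ 4 ≤ r := by linarith
        have h74 := pow74 hK1 h16
        have hr8 : 16 ≤ r := by linarith
        have h2 : g τ a.re r * Real.exp (K * r ^ (7 / 4 : ℝ)) ≤ g (2 * τ) 0 r := by
          unfold g
          rw [← Real.exp_add]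
          apply Real.exp_le_exp.2
          have ha' : a.re ≤ 1 / (4 * τ) + 1 := (abs_le.1 ha).2
          have h7 : a.re * r ≤ (1 / (4 * τ) + 1) * r := mul_le_mul_of_nonneg_right ha' hr.le
          have h8 : -r ^ 2 / (4 * τ) = -(2 * (1 / (8 * τ)) * r ^ 2) := by field_simp; ring
          have h9 : -r ^ 2 / (4 * (2 * τ)) = -((1 / (8 * τ)) * r ^ 2) := by field_simp; ring
          have h10 : 1 / (4 * τ) = 2 * (1 / (8 * τ)) := by field_simp; ring
          have h11 : 1 ≤ 1 / (8 * τ) := by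
            rw [le_div_iff₀ (by positivity)]
            linarith
          rw [h8, h9]
          rw [h10] at h7
          set y := 1 / (8 * τ) with hy
          have h13 : 16 * r ≤ r * r := mul_le_mul_of_nonneg_right hr8 hr.le
          have h12 : 1 * (r ^ 2 - 2 * r) ≤ y * (r ^ 2 - 2 * r) := by
            apply mul_le_mul_of_nonneg_right h11
            rw [_root_.sq]
            linarith
          rw [_root_.sq] at h12 h74 ⊢
          linarith
        have h4 : g τ a.re r * ‖X r‖ ≤ h * g (2 * τ) 0 r := by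
          calc g τ a.re r * ‖X r‖ ≤ g τ a.re r * (h * Real.exp (K * r ^ (7 / 4 : ℝ))) :=
                mul_le_mul_of_nonneg_left h1 (g_pos _ _ _).le
            _ = h * (g τ a.re r * Real.exp (K * r ^ (7 / 4 : ℝ))) := by ring
            _ ≤ h * g (2 * τ) 0 r := by gcongr
        have h6 : 0 ≤ h * ((K * W * Real.exp ((A + 2 * K) * K) + Real.exp (A * K) + 1) * g τ 0 r +
          K * g τ (A - κ * Real.log 2) r + 2 * K / (δ ^ 2 * t) * g τ (A + δ) r +
          K * W * (Real.exp (-Real.sqrt (t / K)) * g τ (A + 2 * K + 1) r)) := by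
          apply mul_nonneg hh0
          have : 0 ≤ K * W * (Real.exp (-Real.sqrt (t / K)) * g τ (A + 2 * K + 1) r) := by
            positivity
          linarith
        linarith [h4, h5, h6]

theorem ptneg {K t Ω W κ δ : ℝ} {H β : ℂ} {X : ℝ → ℂ} (D : Dt K t Ω W κ H β X) (hδ : 0 < δ) {τ : ℝ}
    {a : ℂ} (hA : 0 ≤ β.re + a.re) {r : ℝ} (hr : r ≤ 0) :
    ‖cexp (-(r : ℂ) ^ 2 / (4 * τ) + (β + a) * r) * H‖ ≤ EE τ t K W κ δ (β.re + a.re) ‖H‖ r := by
  obtain ⟨hK1, ht1, ht2, hb, hW, hX1, hX2, hX3⟩ := D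
  have htp : 0 < t := by linarith
  set A := β.re + a.re with hAdef
  set h := ‖H‖ with hh
  have hh0 : 0 ≤ h := norm_nonneg _
  have p1 := (g_pos τ 0 r).le
  have p2 := (g_pos τ (A - κ * Real.log 2) r).le
  have p3 := (g_pos τ (A + δ) r).le
  have p4 := (g_pos τ (A + 2 * K + 1) r).le
  have p5 := (g_pos (2 * τ) 0 r).le
  have c1 : 0 ≤ K * W * Real.exp ((A + 2 * K) * K) + Real.exp (A * K) := by positivity
  have c3 : 0 ≤ 2 * K / (δ ^ 2 * t) := by positivity
  have c4 : 0 ≤ (K * W + 1) * Real.exp (-Real.sqrt (t / K)) := by positivity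
  have q1 := mul_nonneg c1 p1
  have q2 := mul_nonneg (show (0:ℝ) ≤ K by linarith) p2
  have q3 := mul_nonneg c3 p3
  have q4 := mul_nonneg c4 p4
  rw [norm_mul, g_norm τ r (β + a), add_re, ← hAdef]
  have h3 : g τ A r ≤ g τ 0 r := by
    unfold g
    apply Real.exp_le_exp.2
    nlinarith
  have h5 : g τ A r * h ≤ h * g τ 0 r := by
    rw [mul_comm]
    gcongr
  unfold EE E
  refine h5.trans ?_
  apply mul_le_mul_of_nonneg_left _ hh0
  linarith

/-- crude bound for all `r > 0` -/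
theorem crude {K t Ω W κ : ℝ} {H β : ℂ} {X : ℝ → ℂ} (D : Dt K t Ω W κ H β X) (hO : 0 ≤ Ω) {r : ℝ}
    (hr : 0 < r) :
    ‖X r‖ ≤ (K * W * ‖H‖ + ‖H‖) * Real.exp (K * (16 * K ^ 4) ^ (7 / 4 : ℝ)) *
      Real.exp ((Ω + K) * r + r ^ 2 / 2) := by
  obtain ⟨hK1, ht1, ht2, hb, hW, hX1, hX2, hX3⟩ := D
  have htp : 0 < t := by linarith
  have a1 : 0 ≤ K * (16 * K ^ 4) ^ (7 / 4 : ℝ) := by positivity
  have a2 : 1 ≤ Real.exp (K * (16 * K ^ 4) ^ (7 / 4 : ℝ)) := Real.one_le_exp a1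
  have a3 : Real.exp ((Ω + K) * r) ≤ Real.exp ((Ω + K) * r + r ^ 2 / 2) :=
    Real.exp_le_exp.2 (by nlinarith)
  have a4 : 0 ≤ K * W * ‖H‖ := by positivity
  rcases le_or_gt r (t / 16) with h | h
  · refine (hX1 r hr h).trans ?_
    calc K * W * ‖H‖ * Real.exp ((Ω + K) * r)
        ≤ (K * W * ‖H‖ + ‖H‖) * 1 * Real.exp ((Ω + K) * r + r ^ 2 / 2) := by
          rw [mul_one]
          gcongr
          linarith [norm_nonneg H]
      _ ≤ _ := by gcongr
  · refine (hX2 r h.le).trans ?_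
    have b1 : K * r ^ (7 / 4 : ℝ) ≤ r ^ 2 / 2 := pow74 hK1 (by linarith)
    have b2 : Real.exp (K * r ^ (7 / 4 : ℝ)) ≤ Real.exp ((Ω + K) * r + r ^ 2 / 2) := by
      apply Real.exp_le_exp.2
      have : 0 ≤ (Ω + K) * r := by positivity
      linarith
    calc ‖H‖ * Real.exp (K * r ^ (7 / 4 : ℝ))
        ≤ (K * W * ‖H‖ + ‖H‖) * 1 * Real.exp ((Ω + K) * r + r ^ 2 / 2) := by
          rw [mul_one]
          gcongr
          linarith
      _ ≤ _ := by gcongr

structure Num (K τ Ω A t W κ δ θ η : ℝ) : Prop where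
  K1 : 1 ≤ K
  τ0 : 0 < τ
  τ8 : τ ≤ 1 / 8
  κ0 : 0 < κ
  δ0 : 0 < δ
  δ1 : δ ≤ 1
  δθ : δ ≤ θ
  η0 : 0 ≤ η
  C1 : 8 * (η + 8 * K ^ 2 + 8) ≤ τ * Ω
  C2 : (2 * (K + 8 + (K + 1) ^ 2) + κ ^ 2) / κ ≤ τ * Ω
  C3 : (9 + K + 1 / δ ^ 2 + (K + 1) ^ 2) / θ ≤ τ * Ω
  C4 : K * (η + 10 + 5 * K ^ 2) / θ ^ 2 ≤ τ * Ω
  ht : t = Real.exp (θ * Ω)
  hW : W = Real.exp (η * Ω)
  A1 : Ω / 2 ≤ A
  A2 : A ≤ 2 * Ω

theorem num {K τ Ω A t W κ δ θ η : ℝ} (D : Num K τ Ω A t W κ δ θ η) {S : ℝ}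
    (hS : S = τ * A ^ 2 - (K + 1) ^ 2 / 8) :
    (K * W * Real.exp ((A + 2 * K) * K) + Real.exp (A * K) + 1) ≤ 1 / 500 * Real.exp S ∧
    K * Real.exp (τ * (A - κ * Real.log 2) ^ 2) ≤ 1 / 500 * Real.exp S ∧
    2 * K / (δ ^ 2 * t) * Real.exp (τ * (A + δ) ^ 2) ≤ 1 / 500 * Real.exp S ∧
    (K * W + 1) * Real.exp (-Real.sqrt (t / K)) * Real.exp (τ * (A + 2 * K + 1) ^ 2) ≤
      1 / 500 * Real.exp S ∧
    2 ≤ 1 / 500 * Real.exp S := by
  have D' := D
  obtain ⟨hK, hτ, hτ8, hκ, hδ, hδ1, hδθ, hη, hC1, hC2, hC3, hC4, ht, hW, hA1, hA2⟩ := D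
  clear hC2 hC3 hC4
  have hKe := leexp K
  have hθ : 0 < θ := hδ.trans_le hδθ
  have hKK : K ≤ K ^ 2 := by nlinarith
  have hK20 := sq_nonneg K
  have hCpos : 0 < τ * Ω := by linarith
  have hΩ0 : 0 < Ω := by
    by_contra hcon
    push Not at hcon
    have := mul_nonpos_of_nonneg_of_nonpos hτ.le hcon
    linarith
  have hΩ8 : 8 * (τ * Ω) ≤ Ω := by
    have := mul_le_mul_of_nonneg_right hτ8 hΩ0.le
    linarith
  have hΩ1 : 1 ≤ Ω := by linarith
  have hA0 : 0 < A := by linarith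
  have hτA : τ * Ω / 2 ≤ τ * A := by
    have : τ * (Ω / 2) ≤ τ * A := mul_le_mul_of_nonneg_left hA1 hτ.le
    linarith
  have hτA' : τ * A ≤ Ω / 4 := by
    calc τ * A ≤ 1 / 8 * A := mul_le_mul_of_nonneg_right hτ8 hA0.le
      _ ≤ _ := by linarith
  have hτAA : (τ * Ω) * Ω / 4 ≤ τ * A ^ 2 := by
    have h1 : τ * A * (Ω / 2) ≤ τ * A * A := mul_le_mul_of_nonneg_left hA1 (by positivity)
    have h2 : τ * Ω / 2 * (Ω / 2) ≤ τ * A * (Ω / 2) := mul_le_mul_of_nonneg_right hτA (by positivity)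
    linarith
  set B1 := K + η * Ω + 2 * K * Ω + 2 * K ^ 2 with hB1
  have hS1 : B1 + 8 ≤ S := by
    have h1 : 8 * (η + 8 * K ^ 2 + 8) * Ω ≤ (τ * Ω) * Ω := mul_le_mul_of_nonneg_right hC1 hΩ0.le
    have h2 : K * Ω ≤ K ^ 2 * Ω := mul_le_mul_of_nonneg_right hKK hΩ0.le
    have h3 : K ^ 2 * 1 ≤ K ^ 2 * Ω := mul_le_mul_of_nonneg_left hΩ1 (by positivity)
    have h4 : 0 ≤ η * Ω := by positivity
    rw [hS, hB1]
    linarith
  have x8 := e8
  have x7 := e7
  refine ⟨?_, ?_, ?_, ?_, ?_⟩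
  · have a1 : K * W * Real.exp ((A + 2 * K) * K) ≤ Real.exp B1 := by
      calc K * W * Real.exp ((A + 2 * K) * K) ≤
            Real.exp K * Real.exp (η * Ω) * Real.exp ((A + 2 * K) * K) := by
            rw [hW]; gcongr
        _ = Real.exp (K + η * Ω + (A + 2 * K) * K) := by rw [← Real.exp_add, ← Real.exp_add]
        _ ≤ _ := Real.exp_le_exp.2 (by
          rw [hB1]
          have := mul_le_mul_of_nonneg_right hA2 (show 0 ≤ K by linarith)
          linarith)
    have a2 : Real.exp (A * K) ≤ Real.exp B1 := Real.exp_le_exp.2 (by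
      rw [hB1]
      have h4 : 0 ≤ η * Ω := by positivity
      have := mul_le_mul_of_nonneg_right hA2 (show 0 ≤ K by linarith)
      linarith)
    have a3 : 1 ≤ Real.exp B1 := Real.one_le_exp (by rw [hB1]; positivity)
    have a4 : Real.exp B1 * Real.exp 8 ≤ Real.exp S := by
      rw [← Real.exp_add]
      exact Real.exp_le_exp.2 hS1
    have a5 : Real.exp B1 * 1500 ≤ Real.exp B1 * Real.exp 8 :=
      mul_le_mul_of_nonneg_left x8 (Real.exp_pos _).le
    linarith
  · have hl1 := Real.log_two_gt_d9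
    have hl2 := Real.log_two_lt_d9
    set l := Real.log 2 with hl
    have a1 : K + 7 + τ * (A - κ * l) ^ 2 ≤ S := by
      have b0 : 2 * (K + 8 + (K + 1) ^ 2) + κ ^ 2 ≤ τ * Ω * κ := (div_le_iff₀ hκ).1 D'.C2
      have b1 : τ * Ω / 2 * (2 * κ * l) ≤ τ * A * (2 * κ * l) :=
        mul_le_mul_of_nonneg_right hτA (by positivity)
      have b2 : (τ * Ω * κ) * (1 / 2) ≤ (τ * Ω * κ) * l :=
        mul_le_mul_of_nonneg_left (by linarith) (by positivity)
      have b3 : τ * (κ * l) ^ 2 ≤ κ ^ 2 / 8 := by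
        have h1 : (κ * l) ^ 2 ≤ κ ^ 2 := by
          rw [mul_pow]
          have : l ^ 2 ≤ 1 := by
            apply pow_le_one₀ (by linarith) (by linarith)
          have h9 := mul_le_mul_of_nonneg_left this (sq_nonneg κ)
          linarith
        have h2 : τ * (κ * l) ^ 2 ≤ 1 / 8 * (κ * l) ^ 2 := by gcongr
        linarith
      have b5 := sq_nonneg κ
      have b6 := sq_nonneg (K + 1)
      rw [hS]
      linarith
    have a2 : K * Real.exp (τ * (A - κ * l) ^ 2) * 500 ≤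
        Real.exp K * Real.exp (τ * (A - κ * l) ^ 2) * Real.exp 7 := by
      gcongr
      linarith
    rw [← Real.exp_add, ← Real.exp_add] at a2
    have a3 : Real.exp (K + τ * (A - κ * l) ^ 2 + 7) ≤ Real.exp S := Real.exp_le_exp.2 (by linarith)
    linarith
  · have a0 : 2 * K / (δ ^ 2 * t) ≤ Real.exp (K + 1 + 1 / δ ^ 2 - θ * Ω) := by
      have h2 : 2 ≤ Real.exp 1 := by have := Real.exp_one_gt_d9; linarith
      have h3 := leexp (1 / δ ^ 2)
      rw [ht, Real.exp_sub, Real.exp_add, Real.exp_add]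
      rw [show 2 * K / (δ ^ 2 * Real.exp (θ * Ω)) = (K * 2 * (1 / δ ^ 2)) / Real.exp (θ * Ω) by
        field_simp]
      apply div_le_div_of_nonneg_right _ (Real.exp_pos _).le
      gcongr
    have a1 : K + 1 + 1 / δ ^ 2 - θ * Ω + 7 + τ * (A + δ) ^ 2 ≤ S := by
      have b0 : 9 + K + 1 / δ ^ 2 + (K + 1) ^ 2 ≤ τ * Ω * θ := (div_le_iff₀ hθ).1 D'.C3
      have b1 : τ * Ω * θ ≤ 1 / 8 * Ω * θ := by gcongr
      have b5 : 0 ≤ 1 / δ ^ 2 := by positivity
      have b2 : 2 * (τ * A) * δ ≤ 2 * (Ω / 4) * θ := by gcongr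
      have b3 : τ * δ ^ 2 ≤ 1 / 8 * 1 := by
        have : δ ^ 2 ≤ 1 := pow_le_one₀ hδ.le hδ1
        gcongr
      rw [hS]
      linarith
    have a2 : 2 * K / (δ ^ 2 * t) * Real.exp (τ * (A + δ) ^ 2) * 500 ≤
        Real.exp (K + 1 + 1 / δ ^ 2 - θ * Ω) * Real.exp (τ * (A + δ) ^ 2) * Real.exp 7 := by
      gcongr
      linarith
    rw [← Real.exp_add, ← Real.exp_add] at a2
    have a3 : Real.exp (K + 1 + 1 / δ ^ 2 - θ * Ω + τ * (A + δ) ^ 2 + 7) ≤ Real.exp S :=
      Real.exp_le_exp.2 (by linarith)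
    linarith
  · have a0 : K * W + 1 ≤ Real.exp (K + η * Ω + 1) := by
      have h1 : K * W ≤ Real.exp (K + η * Ω) := by
        rw [hW, Real.exp_add]
        gcongr
      have h2 : 1 ≤ Real.exp (K + η * Ω) := Real.one_le_exp (by positivity)
      have : 2 ≤ Real.exp 1 := by have := Real.exp_one_gt_d9; linarith
      rw [Real.exp_add _ 1]
      have h7 := mul_le_mul_of_nonneg_left this (Real.exp_pos (K + η * Ω)).le
      linarith
    have hR : (θ * Ω) ^ 2 / (8 * K) ≤ Real.sqrt (t / K) := by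
      apply Real.le_sqrt_of_sq_le
      have h1 : (θ * Ω) ^ 2 / 8 ≤ Real.exp (θ * Ω / 2) := by
        have := Real.quadratic_le_exp_of_nonneg (x := θ * Ω / 2) (by positivity)
        have h0 : 0 < θ * Ω := by positivity
        linarith
      have h2 : t = Real.exp (θ * Ω / 2) ^ 2 := by
        rw [ht, ← Real.exp_nat_mul]
        congr 1
        push_cast
        ring
      have h3 : ((θ * Ω) ^ 2 / 8) ^ 2 ≤ t := by
        rw [h2]
        gcongr
      rw [div_pow, div_le_div_iff₀ (by positivity) (by positivity)]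
      have h6 : 0 < t := by rw [ht]; exact Real.exp_pos _
      have h4 : ((θ * Ω) ^ 2 / 8) ^ 2 * K ≤ t * K := by gcongr
      have h5 : t * K ≤ t * K ^ 2 := by gcongr
      have h7 : ((θ * Ω) ^ 2) ^ 2 * K = 64 * (((θ * Ω) ^ 2 / 8) ^ 2 * K) := by ring
      rw [h7]
      have h8 : t * (8 * K) ^ 2 = 64 * (t * K ^ 2) := by ring
      rw [h8]
      linarith
    have hR2 : (η + 10 + 5 * K ^ 2) * Ω ≤ (θ * Ω) ^ 2 / (8 * K) := by
      rw [le_div_iff₀ (by positivity)]
      have b0 : K * (η + 10 + 5 * K ^ 2) ≤ τ * Ω * θ ^ 2 :=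
        (div_le_iff₀ (by positivity)).1 D'.C4
      have b1 : τ * Ω * θ ^ 2 ≤ 1 / 8 * Ω * θ ^ 2 := by gcongr
      calc (η + 10 + 5 * K ^ 2) * Ω * (8 * K) = 8 * (K * (η + 10 + 5 * K ^ 2)) * Ω := by ring
        _ ≤ 8 * (1 / 8 * Ω * θ ^ 2) * Ω :=
            mul_le_mul_of_nonneg_right (by linarith) hΩ0.le
        _ = (θ * Ω) ^ 2 := by ring
    have a1 : K + η * Ω + 1 - Real.sqrt (t / K) + 7 + τ * (A + 2 * K + 1) ^ 2 ≤ S := by
      rw [hS]
      have b1 : τ * (A + 2 * K + 1) ^ 2 = τ * A ^ 2 + 2 * (τ * A) * (2 * K + 1) + τ * (2 * K + 1) ^ 2 := by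
        ring
      have b2 : 2 * (τ * A) * (2 * K + 1) ≤ 2 * (Ω / 4) * (2 * K + 1) := by gcongr
      have b3 : τ * (2 * K + 1) ^ 2 ≤ 1 / 8 * (2 * K + 1) ^ 2 := by gcongr
      have b4 : (2 * K + 1) ^ 2 ≤ 9 * K ^ 2 := by linarith
      have b5 : K * Ω ≤ K ^ 2 * Ω := mul_le_mul_of_nonneg_right hKK hΩ0.le
      have b6 : K ^ 2 * 1 ≤ K ^ 2 * Ω := mul_le_mul_of_nonneg_left hΩ1 (by positivity)
      have b7 : (K + 1) ^ 2 ≤ 4 * K ^ 2 := by linarith
      rw [b1]
      linarith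
    have a2 : (K * W + 1) * Real.exp (-Real.sqrt (t / K)) * Real.exp (τ * (A + 2 * K + 1) ^ 2) * 500 ≤
        Real.exp (K + η * Ω + 1) * Real.exp (-Real.sqrt (t / K)) * Real.exp (τ * (A + 2 * K + 1) ^ 2) *
          Real.exp 7 := by
      gcongr
      linarith
    rw [← Real.exp_add, ← Real.exp_add, ← Real.exp_add] at a2
    have a3 : Real.exp (K + η * Ω + 1 + -Real.sqrt (t / K) + τ * (A + 2 * K + 1) ^ 2 + 7) ≤
        Real.exp S := Real.exp_le_exp.2 (by linarith)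
    linarith
  · have h0 : 0 ≤ B1 := by rw [hB1]; positivity
    have : Real.exp 7 ≤ Real.exp S := Real.exp_le_exp.2 (by linarith)
    linarith

theorem dat {D : Dat} (hD : IsL D) {K1 T1 K2 T2 : ℝ} (hK1 : 1 ≤ K1)
    (h1 : ∀ t : ℝ, T1 ≤ t → D.HH (I * t) ≠ 0 ∧ ‖be D t - ((D.κ * Om D t : ℝ) : ℂ)‖ ≤ K1)
    (h2 : ∀ (t : ℝ) (u : ℂ), T2 ≤ t →
  |u.im| ≤ rr D + 2 →
  (|u.re| ≤ t / 16 → ‖D.XX (I * t + u)‖ ≤
    K2 * ‖D.HH (I * t)‖ * Real.exp ((D.A + 3) * Om D t + (D.κ * Om D t + K2) * |u.re|)) ∧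
  (t / 16 ≤ |u.re| →
    ‖D.XX (I * t + u)‖ ≤ ‖D.HH (I * t)‖ * Real.exp (K2 * |u.re| ^ (7 / 4 : ℝ))) ∧
  (u.im = 0 → K2 ≤ u.re → K2 * u.re ^ 2 ≤ t →
    ‖D.XX (I * t + u) - D.HH (I * t) * cexp (be D t * u)‖ ≤
      K2 * ((2 : ℝ) ^ (-(D.κ * u.re)) + u.re ^ 2 / t) * ‖D.HH (I * t) * cexp (be D t * u)‖))
    {t : ℝ} (ht1 : T1 ≤ t) (ht2 : T2 ≤ t) (ht3 : 256 ≤ t)
    (ht4 : 16 * (16 * (max K1 K2) ^ 4) ≤ t) :
    Dt (max K1 K2) t (D.κ * Om D t) (Real.exp ((D.A + 3) * Om D t)) D.κ (D.HH (I * t)) (be D t)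
      (fun r : ℝ => D.XX (I * t + r)) := by
  have hm1 := le_max_left K1 K2
  have hm2 := le_max_right K1 K2
  set K := max K1 K2
  have hrr : 0 ≤ rr D := by
    unfold rr
    have h5 := hD.A_nonneg
    have h6 := hD.w_large
    have h7 := hD.κ_pos
    apply div_nonneg _ h7.le
    linarith
  have hz : ∀ r : ℝ, |((r : ℂ)).im| ≤ rr D + 2 := by
    intro r
    rw [ofReal_im, abs_zero]
    linarith
  refine ⟨by linarith, ht3, ht4, (h1 t ht1).2.trans hm1, (Real.exp_pos _).le, ?_, ?_, ?_⟩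
  · intro r hr hrt
    have h := (h2 t (r : ℂ) ht2 (hz r)).1 (by rw [ofReal_re, abs_of_pos hr]; exact hrt)
    rw [ofReal_re, abs_of_pos hr] at h
    refine h.trans ?_
    rw [Real.exp_add]
    calc K2 * ‖D.HH (I * t)‖ * (Real.exp ((D.A + 3) * Om D t) *
          Real.exp ((D.κ * Om D t + K2) * r))
        = K2 * Real.exp ((D.A + 3) * Om D t) * ‖D.HH (I * t)‖ *
          Real.exp ((D.κ * Om D t + K2) * r) := by ring
      _ ≤ _ := by gcongr
  · intro r hr
    have hr0 : 0 < r := by linarith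
    have h := (h2 t (r : ℂ) ht2 (hz r)).2.1 (by rw [ofReal_re, abs_of_pos hr0]; exact hr)
    rw [ofReal_re, abs_of_pos hr0] at h
    refine h.trans ?_
    gcongr
  · intro r hr hrt
    have hr2 : K2 * r ^ 2 ≤ K * r ^ 2 := by gcongr
    have h := (h2 t (r : ℂ) ht2 (hz r)).2.2 (ofReal_im r) (by rw [ofReal_re]; linarith)
      (by rw [ofReal_re]; linarith)
    rw [ofReal_re] at h
    refine h.trans ?_
    gcongr

end GJst

open GJst

theorem jest (D : Dat) (h : IsL D) (h1 : SStir2 D) (h2 : SXB D) : SJest D := by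
  have hXc : Continuous D.XX := (Pool.Agent.H471R3.GJ.B1h.XX_diff D h).continuous
  obtain ⟨K1, T1, hK1, hT1, h1⟩ := h1
  obtain ⟨K2, T2, hK2, hT2, h2⟩ := h2
  have hκ := h.κ_pos
  have hc := h.c_pos
  have hAn := h.A_nonneg
  set K := max K1 K2 with hKdef
  have hK : 1 ≤ K := le_trans hK1 (le_max_left _ _)
  set κ := D.κ with hκdef
  set θ : ℝ := 1 / (κ * D.c) with hθdef
  have hθ : 0 < θ := by positivity
  set η : ℝ := (D.A + 3) / κ with hηdef
  have hη : 0 ≤ η := by positivity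
  set δ : ℝ := min 1 θ with hδdef
  have hδ : 0 < δ := lt_min one_pos hθ
  have hδ1 : δ ≤ 1 := min_le_left _ _
  have hδθ : δ ≤ θ := min_le_right _ _
  set c1 : ℝ := 8 * (η + 8 * K ^ 2 + 8) with hc1
  set c2 : ℝ := (2 * (K + 8 + (K + 1) ^ 2) + κ ^ 2) / κ with hc2
  set c3 : ℝ := (9 + K + 1 / δ ^ 2 + (K + 1) ^ 2) / θ with hc3
  set c4 : ℝ := K * (η + 10 + 5 * K ^ 2) / θ ^ 2 with hc4
  have hc10 : 0 ≤ c1 := by positivity
  have hc20 : 0 ≤ c2 := by positivity
  have hc30 : 0 ≤ c3 := by positivity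
  have hc40 : 0 ≤ c4 := by positivity
  refine ⟨(c1 + c2 + c3 + c4) / κ + 1, max (max T1 T2) (max 256 (16 * (16 * K ^ 4))),
    by have : 0 ≤ (c1 + c2 + c3 + c4) / κ := by positivity
       linarith,
    le_trans (by norm_num) ((le_max_left (256 : ℝ) _).trans (le_max_right _ _)), ?_⟩
  intro t τ ht hτ hτ8 hC a hare haim
  have ht1 : T1 ≤ t := le_trans ((le_max_left _ _).trans (le_max_left _ _)) ht
  have ht2 : T2 ≤ t := le_trans ((le_max_right _ _).trans (le_max_left _ _)) ht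
  have ht3 : 256 ≤ t := le_trans ((le_max_left _ _).trans (le_max_right _ _)) ht
  have ht4 : 16 * (16 * K ^ 4) ≤ t := le_trans ((le_max_right _ _).trans (le_max_right _ _)) ht
  have htp : 0 < t := by linarith
  have DD := dat h hK1 (fun t ht => ⟨(h1 t ht).1, (h1 t ht).2.1⟩) h2 ht1 ht2 ht3 ht4
  rw [← hKdef] at DD
  have hH0 : D.HH (I * t) ≠ 0 := (h1 t ht1).1
  set H := D.HH (I * t) with hHdef
  set β := be D t with hβdef
  set Ω := D.κ * Om D t with hΩdef
  set W := Real.exp ((D.A + 3) * Om D t) with hWdef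
  have htexp : t = Real.exp (θ * Ω) := by
    rw [hΩdef, hθdef]
    unfold Om
    rw [show 1 / (κ * D.c) * (D.κ * (D.c * Real.log t)) = Real.log t by
      rw [← hκdef]; field_simp, Real.exp_log htp]
  have hWexp : W = Real.exp (η * Ω) := by
    rw [hWdef, hηdef, hΩdef, ← hκdef]
    congr 1
    field_simp
  -- size of Ω
  have hCC : c1 + c2 + c3 + c4 ≤ τ * Ω := by
    have h3 : (c1 + c2 + c3 + c4) / κ ≤ τ * Om D t := by linarith
    rw [div_le_iff₀ hκ] at h3
    calc c1 + c2 + c3 + c4 ≤ τ * Om D t * κ := h3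
      _ = τ * Ω := by rw [hΩdef, hκdef]; ring
  have hC1 : c1 ≤ τ * Ω := by linarith
  have hC1' : 8 * (8 * K ^ 2 + 8) ≤ τ * Ω := by
    refine le_trans ?_ hC1
    rw [hc1]
    linarith
  have hKK : K ≤ K ^ 2 := by nlinarith
  have hΩ0 : 0 < Ω := by
    by_contra hcon
    push Not at hcon
    have := mul_nonpos_of_nonneg_of_nonpos hτ.le hcon
    linarith [sq_nonneg K]
  have hΩ8 : 8 * (8 * (8 * K ^ 2 + 8)) ≤ Ω := by
    have : τ * Ω ≤ 1 / 8 * Ω := by gcongr
    linarith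
  have hbre : |β.re - Ω| ≤ K := by
    have h3 : |(β - (Ω : ℂ)).re| ≤ K := (abs_re_le_norm _).trans DD.b
    rwa [sub_re, ofReal_re] at h3
  have hbim : |β.im| ≤ K := by
    have h3 : |(β - (Ω : ℂ)).im| ≤ K := (abs_im_le_norm _).trans DD.b
    rwa [sub_im, ofReal_im, sub_zero] at h3
  have hinv : 1 / (4 * τ) ≤ Ω / 256 := by
    rw [div_le_iff₀ (by positivity)]
    have : 64 ≤ τ * Ω := by linarith [sq_nonneg K]
    linarith
  set A := β.re + a.re with hAdef
  have hbre' := abs_le.1 hbre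
  have hare' := abs_le.1 hare
  have hA1 : Ω / 2 ≤ A := by linarith [hbre'.1, hare'.1]
  have hA2 : A ≤ 2 * Ω := by linarith [hbre'.2, hare'.2]
  have hA0 : 0 ≤ A := by linarith
  have hN : Num K τ Ω A t W κ δ θ η := ⟨hK, hτ, hτ8, hκ, hδ, hδ1, hδθ, hη, hC1, by linarith,
    by linarith, by linarith, htexp, hWexp, hA1, hA2⟩
  -- the two functions
  set F : ℂ → ℝ → ℂ := fun a r => cexp (-(r : ℂ) ^ 2 / (4 * τ) + a * r) * D.XX (I * t + r) with hF
  set Gc : ℝ → ℂ := fun r => cexp (-(r : ℂ) ^ 2 / (4 * τ) + (β + a) * r) * H with hGc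
  have hFc : ∀ a, Continuous (F a) := by
    intro a
    have := hXc
    simp only [hF]
    fun_prop
  have hGi : Integrable Gc := ((gauss_c τ hτ (β + a)).1).mul_const H
  have hGint : ∫ r, Gc r = MT D τ t a := by
    simp only [hGc]
    rw [integral_mul_const, (gauss_c τ hτ (β + a)).2]
    unfold MT
    ring
  obtain ⟨hEi, hEint⟩ := E_int τ ‖H‖ (K * W * Real.exp ((A + 2 * K) * K) + Real.exp (A * K) + 1) K
    (2 * K / (δ ^ 2 * t)) ((K * W + 1) * Real.exp (-Real.sqrt (t / K))) (A - κ * Real.log 2) (A + δ)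
    (A + 2 * K + 1) hτ
  have hEi : Integrable (EE τ t K W κ δ A ‖H‖) := hEi
  have hEint : ∫ r, EE τ t K W κ δ A ‖H‖ r = _ := hEint
  have hpos : ∀ r : ℝ, 0 < r → ‖F a r - Gc r‖ ≤ EE τ t K W κ δ A ‖H‖ r :=
    fun r hr => pt DD hδ hτ hτ8 hare hA0 hr
  have hneg : ∀ r : ℝ, r ≤ 0 → ‖Gc r‖ ≤ EE τ t K W κ δ A ‖H‖ r := fun r hr => ptneg DD hδ hA0 hr
  have hFGi : IntegrableOn (fun r => F a r - Gc r) (Set.Ioi 0) := by
    refine Integrable.mono' hEi.integrableOn ?_ ?_
    · exact ((hFc a).aestronglyMeasurable.sub hGi.1).restrict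
    · exact (ae_restrict_mem measurableSet_Ioi).mono fun r hr => hpos r hr
  have hFi : IntegrableOn (F a) (Set.Ioi 0) := by
    have := hFGi.add hGi.integrableOn
    refine this.congr ?_
    refine Filter.Eventually.of_forall fun r => ?_
    simp
  constructor
  · -- differentiability
    set M := |a.re| + 1 with hM
    set c := (K * W * ‖H‖ + ‖H‖) * Real.exp (K * (16 * K ^ 4) ^ (7 / 4 : ℝ)) with hc
    have hc0 : 0 ≤ c := by
      have hK0 : 0 ≤ K := by linarith
      have hH1 := norm_nonneg H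
      have hq : 0 ≤ K * W * ‖H‖ := mul_nonneg (mul_nonneg hK0 (Real.exp_pos _).le) hH1
      rw [hc]
      exact mul_nonneg (by linarith) (Real.exp_pos _).le
    have key := hasDerivAt_integral_of_dominated_loc_of_deriv_le (μ := volume.restrict (Set.Ioi (0:ℝ)))
      (F := F) (F' := fun a r => (r : ℂ) * F a r) (x₀ := a) (s := Metric.ball a 1)
      (bound := fun r => c * g (1 / 6) (M + 1 + (Ω + K)) r)
      (Metric.ball_mem_nhds a one_pos)
      (Filter.Eventually.of_forall fun x => (hFc x).aestronglyMeasurable)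
      hFi
      ((continuous_ofReal.mul (hFc a)).aestronglyMeasurable)
      ?_ (((gauss_r (1 / 6) (by norm_num) _).1.const_mul c).integrableOn) ?_
    · exact key.2.differentiableAt
    · refine (ae_restrict_mem measurableSet_Ioi).mono fun r hr x hx => ?_
      have hr0 : 0 < r := hr
      simp only [hF]
      rw [norm_mul, norm_mul, g_norm τ r x, norm_real, Real.norm_of_nonneg hr0.le]
      have b1 := crude DD hΩ0.le hr0
      have b2 : x.re ≤ M := by
        have h3 : |(x - a).re| ≤ 1 := (abs_re_le_norm _).trans (mem_ball_iff_norm.1 hx).le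
        rw [sub_re] at h3
        have h4 := (abs_le.1 h3).2
        have h5 := le_abs_self a.re
        linarith
      have b3 : g τ x.re r ≤ Real.exp (-2 * r ^ 2 + M * r) := by
        unfold g
        apply Real.exp_le_exp.2
        have h3 : x.re * r ≤ M * r := mul_le_mul_of_nonneg_right b2 hr0.le
        have h4 : 2 * r ^ 2 ≤ r ^ 2 / (4 * τ) := by
          rw [le_div_iff₀ (by positivity)]
          have h8 := mul_le_mul_of_nonneg_left hτ8 (sq_nonneg r)
          linarith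
        rw [neg_div]
        linarith
      have b4 : r ≤ Real.exp r := leexp r
      have b5 : 0 ≤ g τ x.re r := (g_pos _ _ _).le
      calc r * (g τ x.re r * ‖D.XX (I * t + r)‖)
          ≤ Real.exp r * (Real.exp (-2 * r ^ 2 + M * r) * (c *
              Real.exp ((Ω + K) * r + r ^ 2 / 2))) := by gcongr
        _ = c * (Real.exp r * Real.exp (-2 * r ^ 2 + M * r) *
              Real.exp ((Ω + K) * r + r ^ 2 / 2)) := by ring
        _ = c * g (1 / 6) (M + 1 + (Ω + K)) r := by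
            rw [← Real.exp_add, ← Real.exp_add]
            unfold g
            congr 2
            ring
    · refine Filter.Eventually.of_forall fun r x _ => ?_
      simp only [hF]
      have d1 : HasDerivAt (fun x : ℂ => -(r : ℂ) ^ 2 / (4 * τ) + x * r) (r : ℂ) x := by
        have := ((hasDerivAt_id x).mul_const (r : ℂ)).const_add (-(r : ℂ) ^ 2 / (4 * τ))
        simpa using this
      have d2 := (d1.cexp).mul_const (D.XX (I * t + r))
      refine d2.congr_deriv ?_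
      ring
  · -- estimate
    have hJ : JT D τ t a - MT D τ t a =
        (∫ r in Set.Ioi (0:ℝ), (F a r - Gc r)) - ∫ r in Set.Iic (0:ℝ), Gc r := by
      have e1 : JT D τ t a = ∫ r in Set.Ioi (0:ℝ), F a r := rfl
      have e2 := intervalIntegral.integral_Iic_add_Ioi (b := (0:ℝ)) hGi.integrableOn hGi.integrableOn
      rw [e1, ← hGint, ← e2, integral_sub hFi hGi.integrableOn]
      ring
    have hn1 : ‖∫ r in Set.Ioi (0:ℝ), (F a r - Gc r)‖ ≤
        ∫ r in Set.Ioi (0:ℝ), EE τ t K W κ δ A ‖H‖ r :=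
      norm_integral_le_of_norm_le hEi.integrableOn
        ((ae_restrict_mem measurableSet_Ioi).mono fun r hr => hpos r hr)
    have hn2 : ‖∫ r in Set.Iic (0:ℝ), Gc r‖ ≤ ∫ r in Set.Iic (0:ℝ), EE τ t K W κ δ A ‖H‖ r :=
      norm_integral_le_of_norm_le hEi.integrableOn
        ((ae_restrict_mem measurableSet_Iic).mono fun r hr => hneg r hr)
    have hsum := intervalIntegral.integral_Iic_add_Ioi (b := (0:ℝ)) hEi.integrableOn
      hEi.integrableOn
    have htot : ‖JT D τ t a - MT D τ t a‖ ≤ ∫ r, EE τ t K W κ δ A ‖H‖ r := by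
      rw [hJ, ← hsum]
      refine (norm_sub_le _ _).trans ?_
      linarith
    refine htot.trans ?_
    rw [hEint]
    obtain ⟨n1, n2, n3, n4, n5⟩ := num hN rfl
    set S := τ * A ^ 2 - (K + 1) ^ 2 / 8 with hS
    set s4 := Real.sqrt (4 * Real.pi * τ) with hs4
    have hs40 : 0 ≤ s4 := Real.sqrt_nonneg _
    have hG5 : G (2 * τ) 0 ≤ 2 * s4 := by
      unfold G
      have e1 : Real.sqrt (4 * Real.pi * (2 * τ)) ≤ 2 * s4 := by
        apply Real.sqrt_le_iff.2
        refine ⟨by positivity, ?_⟩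
        rw [mul_pow, hs4, Real.sq_sqrt (by positivity)]
        have h8 := mul_pos Real.pi_pos hτ
        linarith
      have e2 : Real.exp (2 * τ * 0 ^ 2) = 1 := by
        rw [show 2 * τ * (0:ℝ) ^ 2 = 0 by ring, Real.exp_zero]
      rw [e2, mul_one]
      exact e1
    have hG0 : G τ 0 = s4 := by
      unfold G
      rw [show τ * (0:ℝ) ^ 2 = 0 by ring, Real.exp_zero, mul_one]
    have hG2 : G τ (A - κ * Real.log 2) = s4 * Real.exp (τ * (A - κ * Real.log 2) ^ 2) := rfl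
    have hG3 : G τ (A + δ) = s4 * Real.exp (τ * (A + δ) ^ 2) := rfl
    have hG4 : G τ (A + 2 * K + 1) = s4 * Real.exp (τ * (A + 2 * K + 1) ^ 2) := rfl
    have hle : (K * W * Real.exp ((A + 2 * K) * K) + Real.exp (A * K) + 1) * G τ 0 +
        K * G τ (A - κ * Real.log 2) + 2 * K / (δ ^ 2 * t) * G τ (A + δ) +
        (K * W + 1) * Real.exp (-Real.sqrt (t / K)) * G τ (A + 2 * K + 1) + G (2 * τ) 0 ≤
        s4 * (1 / 100 * Real.exp S) := by
      rw [hG0, hG2, hG3, hG4]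
      have m1 := mul_le_mul_of_nonneg_left n1 hs40
      have m2 := mul_le_mul_of_nonneg_left n2 hs40
      have m3 := mul_le_mul_of_nonneg_left n3 hs40
      have m4 := mul_le_mul_of_nonneg_left n4 hs40
      have m5 := mul_le_mul_of_nonneg_left n5 hs40
      linarith
    have hMT : ‖MT D τ t a‖ = s4 * ‖H‖ * Real.exp (τ * (A ^ 2 - (β.im + a.im) ^ 2)) := by
      unfold MT
      rw [norm_mul, norm_mul, norm_real, Real.norm_of_nonneg hs40, norm_exp]
      congr 2
      rw [re_ofReal_mul, _root_.sq (β + a), mul_re, add_re, add_im]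
      ring
    rw [hMT]
    have hB : S ≤ τ * (A ^ 2 - (β.im + a.im) ^ 2) := by
      have h3 : |β.im + a.im| ≤ K + 1 := (abs_add_le _ _).trans (by linarith)
      have h4 : (β.im + a.im) ^ 2 ≤ (K + 1) ^ 2 := by
        rw [← sq_abs]
        gcongr
      have h5 : τ * (β.im + a.im) ^ 2 ≤ 1 / 8 * (K + 1) ^ 2 := by gcongr
      rw [hS]
      linarith
    have hB' := Real.exp_le_exp.2 hB
    calc ‖H‖ * _ ≤ ‖H‖ * (s4 * (1 / 100 * Real.exp S)) :=
          mul_le_mul_of_nonneg_left hle (norm_nonneg _)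
      _ ≤ ‖H‖ * (s4 * (1 / 100 * Real.exp (τ * (A ^ 2 - (β.im + a.im) ^ 2)))) := by gcongr
      _ = _ := by ring

end Pool.Agent.H986R2.GD
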