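import Pool.Agent.H986R2.GD.Spec
import Pool.Agent.H471R3.GJ.Mom

set_option autoImplicit false

/-! Task KER, generic version -/

namespace Pool.Agent.H986R2.GD

open Complex Filter Topology Polynomial MeasureTheory
open Pool.Agent.H24R2.JP (MomAux.Cl MomAux.L MomAux.L_hasDerivAt MomAux.iteratedDeriv_L)
open Pool.Agent.H471R3.GJ

theorem Cl_w (D : Dat) (h : IsL D) (τ : ℝ) (hτ : 0 ≤ τ) :
    MomAux.Cl (fun u => D.Φ u * Real.exp (τ * u ^ 2)) := by
  obtain ⟨C, c1, c2, h1, h2, hw⟩ := h.Φ_dec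
  refine ⟨h.Φ_cont.mul (by fun_prop), fun M => ?_⟩
  obtain ⟨B, hB⟩ := Mom.exp_dom h1 h2 (|M| + 1 + τ) 2
  have hC : 0 ≤ C := Mom.const_nonneg hw
  refine ⟨C * Real.exp B, fun t => ?_⟩
  have h3 := hB |t| (abs_nonneg t)
  have h4 : 0 ≤ |t| := abs_nonneg t
  have h5 : M * |t| ≤ |M| * |t| := mul_le_mul_of_nonneg_right (le_abs_self M) h4
  have h6 : |t| ^ 2 = t ^ 2 := sq_abs t
  have h7 : 0 ≤ |M| := abs_nonneg M
  rw [abs_mul, abs_of_pos (Real.exp_pos _)]
  calc |D.Φ t| * Real.exp (τ * t ^ 2) * Real.exp (M * |t|) ≤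
        C * Real.exp (-c1 * Real.exp (c2 * |t|)) * Real.exp (τ * t ^ 2) * Real.exp (M * |t|) := by
        have := hw t
        gcongr
    _ = C * Real.exp (-c1 * Real.exp (c2 * |t|) + τ * t ^ 2 + M * |t|) := by
        rw [Real.exp_add, Real.exp_add]
        ring
    _ ≤ C * Real.exp (B + -1 * t ^ 2) := by
        refine mul_le_mul_of_nonneg_left (Real.exp_le_exp.2 ?_) hC
        rw [← h6]
        nlinarith [mul_nonneg h7 h4, mul_nonneg h7 (sq_nonneg (1 + |t|)),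
          mul_nonneg h7 (sq_nonneg |t|), mul_nonneg hτ h4, mul_nonneg hτ (sq_nonneg |t|)]
    _ = _ := by rw [Real.exp_add]; ring

theorem XT_eq_L (D : Dat) (τ : ℝ) :
    XT D τ = MomAux.L (fun u => D.Φ u * Real.exp (τ * u ^ 2)) := rfl

namespace KerAux

theorem XT_neg (D : Dat) (h : IsL D) (τ : ℝ) (z : ℂ) : XT D τ (-z) = XT D τ z := by
  unfold XT
  rw [← integral_neg_eq_self]
  refine integral_congr_ae (Eventually.of_forall fun u => ?_)
  simp only [h.Φ_even, neg_sq]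
  congr 2
  push_cast
  ring

theorem XT_conj (D : Dat) (τ : ℝ) (z : ℂ) :
    XT D τ ((starRingEnd ℂ) z) = (starRingEnd ℂ) (XT D τ z) := by
  unfold XT
  rw [← integral_conj]
  refine integral_congr_ae (Eventually.of_forall fun u => ?_)
  simp only [map_mul, Complex.conj_ofReal, ← Complex.exp_conj]

end KerAux

open KerAux in
theorem ker (D : Dat) (h : IsL D) : SKer D := by
  refine ⟨?_, fun τ hτ => ⟨?_, XT_neg D h τ, XT_conj D τ, ?_⟩⟩
  · funext z
    rw [h.XX_eq]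
    unfold XT
    simp
  · rw [XT_eq_L]
    exact fun z => (MomAux.L_hasDerivAt (Cl_w D h τ hτ) z).differentiableAt
  · intro n z
    rw [XT_eq_L, MomAux.iteratedDeriv_L (Cl_w D h τ hτ)]
    rfl

end Pool.Agent.H986R2.GD
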