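import Pool.Agent.H986R2.GD.Spec
import Pool.Agent.H471R3.GJ.MainT

set_option autoImplicit false

/-!
# Task LMAIN (generic version): the upper arc is the main term up to a relative error `1/10`,
general local data
-/

namespace Pool.Agent.H986R2.GD

open Complex Filter Topology
open Pool.Agent.H24R2.JP (arc SArc)
open Pool.Agent.H24R2.JP.MainT (re_cpow_half_pos four)
open Pool.Agent.H471R3.GJ
open Pool.Agent.H471R3.GJ.MainT (re_neg_pos sq_mem_ball ratio_le sum_sq_le)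
open Pool.Agent.H986R2.DBN (PL)

namespace LMainAux

theorem sq_near {t r : ℝ} (hr : 0 ≤ r) (ht : r < t) {ξ : ℂ}
    (h : ξ ∈ Metric.closedBall (((-t ^ 2 : ℝ)) : ℂ) (r * t)) :
    ‖H24R2.JP.sq ξ - I * t‖ ≤ r := by
  have ht0 : 0 < t := by linarith
  have hξ := re_neg_pos ht ht0 h
  have hs : -ξ ∈ slitPlane := mem_slitPlane_iff.2 (Or.inl hξ)
  have h2 : 0 < (H24R2.JP.sq ξ).im := by
    have := re_cpow_half_pos hs
    unfold H24R2.JP.sq
    rw [Complex.I_mul_im]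
    exact this
  have h3 : (H24R2.JP.sq ξ) ^ 2 = ξ := by
    unfold H24R2.JP.sq
    rw [mul_pow, Complex.I_sq, ← Complex.cpow_nat_mul]
    norm_num
  rw [mem_closedBall_iff_norm] at h
  have e : ξ - ((-t ^ 2 : ℝ) : ℂ) = (H24R2.JP.sq ξ - I * t) * (H24R2.JP.sq ξ + I * t) := by
    conv_lhs => rw [← h3]
    push_cast
    have hI : I ^ 2 = -1 := Complex.I_sq
    linear_combination ((t : ℂ) ^ 2) * hI
  rw [e, norm_mul] at h
  have h5 : t ≤ ‖H24R2.JP.sq ξ + I * t‖ := by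
    have h6 := Complex.abs_im_le_norm (H24R2.JP.sq ξ + I * t)
    have h7 : (H24R2.JP.sq ξ + I * t).im = (H24R2.JP.sq ξ).im + t := by simp
    rw [h7, abs_of_pos (by linarith)] at h6
    linarith
  by_contra hcon
  push Not at hcon
  have h8 : r * t < ‖H24R2.JP.sq ξ - I * t‖ * ‖H24R2.JP.sq ξ + I * t‖ := by
    calc r * t < ‖H24R2.JP.sq ξ - I * t‖ * t := mul_lt_mul_of_pos_right hcon ht0
      _ ≤ ‖H24R2.JP.sq ξ - I * t‖ * ‖H24R2.JP.sq ξ + I * t‖ :=
        mul_le_mul_of_nonneg_left h5 (norm_nonneg _)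
  linarith

theorem diff_PL (p : ℕ → ℂ → ℂ) (m : ℕ) {t r : ℝ} (hr : 0 ≤ r) (ht : r < t)
    (hd : ∀ u : ℂ, ‖u‖ ≤ r + 4 → DifferentiableAt ℂ (p m) (I * t + u)) {ξ : ℂ}
    (h : ξ ∈ Metric.closedBall (((-t ^ 2 : ℝ)) : ℂ) (r * t)) :
    DifferentiableAt ℂ (PL p m) ξ := by
  have hξ := re_neg_pos ht (by linarith) h
  have hs : -ξ ∈ slitPlane := mem_slitPlane_iff.2 (Or.inl hξ)
  have h1 : DifferentiableAt ℂ H24R2.JP.sq ξ := by
    unfold H24R2.JP.sq
    have : DifferentiableAt ℂ (fun ξ : ℂ => (-ξ) ^ (1 / 2 : ℂ)) ξ :=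
      DifferentiableAt.cpow (by fun_prop) (by fun_prop) hs
    exact this.const_mul I
  have h2 := hd (H24R2.JP.sq ξ - I * t) ((sq_near hr ht h).trans (by linarith))
  rw [add_sub_cancel] at h2
  exact DifferentiableAt.comp (g := p m) (f := H24R2.JP.sq) ξ h2 h1

theorem mmL_one (D : Dat) (n : ℕ) (t : ℝ) (c β : ℂ) (a : ℕ → ℂ) (ha : a 1 = 1) (z : ℂ) :
    mmL D 1 n t c β a z = mtL n t c β z := by
  simp [mmL, mtL, ha]

theorem norm_mmL_le (D : Dat) (h : IsL D) (K : ℝ) (hK : 1 ≤ K) (m n : ℕ) (t : ℝ) (c β : ℂ)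
    (a : ℕ → ℂ) (z : ℂ) (hO : 100 * K ≤ D.κ * Om D t) (ha : ‖a m‖ ≤ D.A0 * (m : ℝ) ^ D.A)
    (hb : ‖β - ((D.κ * Om D t : ℝ) : ℂ)‖ ≤ K) (hm : 2 ≤ m)
    (hmt : (m : ℝ) ≤ Real.exp (2 / 5 * Om D t)) (hW : Win D t n z) :
    ‖mmL D m n t c β a z‖ ≤ ‖mtL n t c β z‖ * (1 / 4000 * (1 / (m : ℝ) ^ 2)) := by
  have hκ := h.κ_pos
  have hA := h.A_nonneg
  have hw := h.w_large
  have hOm : 0 < Om D t := by
    by_contra hc
    push Not at hc
    have : D.κ * Om D t ≤ 0 := mul_nonpos_of_nonneg_of_nonpos hκ.le hc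
    linarith
  have hm2 : (2 : ℝ) ≤ m := by exact_mod_cast hm
  have hm0 : (0 : ℝ) < m := by linarith
  set y : ℝ := Real.log m with hy_def
  have hylog2 : Real.log 2 ≤ y := Real.log_le_log (by norm_num) hm2
  have hy0 : 0 ≤ y := Real.log_nonneg (by linarith)
  have hy : y ≤ 2 / 5 * Om D t := (Real.log_le_iff_le_exp hm0).2 hmt
  have h1 := ratio_le β (D.κ * Om D t) K (D.κ * y) hK hO hb (by positivity) (by nlinarith)
  have e1 : 3 / 4 * (D.κ * y) / (D.κ * Om D t) = 3 / 4 * y / Om D t := by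
    field_simp
  rw [e1] at h1
  have h1n : ‖β - ((D.κ * y : ℝ) : ℂ)‖ ^ n ≤
      Real.exp (-(73 / 100 * D.w * y)) * ‖β‖ ^ n := by
    calc ‖β - ((D.κ * y : ℝ) : ℂ)‖ ^ n ≤ (‖β‖ * Real.exp (-(3 / 4 * y / Om D t))) ^ n :=
          pow_le_pow_left₀ (norm_nonneg _) h1 n
      _ = Real.exp ((n : ℝ) * -(3 / 4 * y / Om D t)) * ‖β‖ ^ n := by
          rw [mul_pow, ← Real.exp_nat_mul]; ring
      _ ≤ Real.exp (-(73 / 100 * D.w * y)) * ‖β‖ ^ n := by
          apply mul_le_mul_of_nonneg_right _ (by positivity)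
          apply Real.exp_le_exp.2
          have h12 : 73 / 100 * D.w * y ≤ (n : ℝ) * (3 / 4 * y / Om D t) := by
            rw [show (n : ℝ) * (3 / 4 * y / Om D t) = (n : ℝ) * (3 / 4 * y) / Om D t by ring,
              le_div_iff₀ hOm]
            have h13 := mul_le_mul_of_nonneg_right hW.1 (by positivity : 0 ≤ 3 / 4 * y)
            have hw0 : 0 ≤ D.w := by linarith
            have h14 : 0 ≤ D.w * y * Om D t := by positivity
            nlinarith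
          linarith
  have h2 : ‖cexp ((β - ((D.κ * y : ℝ) : ℂ)) * (z - I * t))‖ ≤
      ‖cexp (β * (z - I * t))‖ * Real.exp (D.κ * y) := by
    have e : (β - ((D.κ * y : ℝ) : ℂ)) * (z - I * t) = β * (z - I * t) +
        (-((D.κ * y : ℝ) : ℂ)) * (z - I * t) := by ring
    rw [e, Complex.exp_add, norm_mul]
    apply mul_le_mul_of_nonneg_left _ (norm_nonneg _)
    rw [Complex.norm_exp]
    apply Real.exp_le_exp.2
    have h5 : ((-((D.κ * y : ℝ) : ℂ)) * (z - I * t)).re = -(D.κ * y * (z - I * t).re) := by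
      rw [neg_mul, Complex.neg_re, Complex.re_ofReal_mul]
    rw [h5]
    have h3 := Complex.abs_re_le_norm (z - I * t)
    have h6 := (abs_le.1 (h3.trans hW.2.2)).1
    have hky : 0 ≤ D.κ * y := by positivity
    nlinarith
  have h3 : ‖((β - ((D.κ * y : ℝ) : ℂ)) / (2 * (I * t))) ^ n‖ ≤
      Real.exp (-(73 / 100 * D.w * y)) * ‖(β / (2 * (I * t))) ^ n‖ := by
    rw [norm_pow, norm_pow, norm_div, norm_div, div_pow, div_pow, ← mul_div_assoc]
    exact div_le_div_of_nonneg_right h1n (by positivity)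
  have hA0 : 0 ≤ D.A0 := by linarith [h.A0_one]
  have h4 : ‖c * a m‖ ≤ ‖c‖ * (D.A0 * Real.exp (D.A * y)) := by
    rw [norm_mul]
    apply mul_le_mul_of_nonneg_left _ (norm_nonneg _)
    rw [Real.rpow_def_of_pos hm0, ← hy_def, mul_comm y] at ha
    exact ha
  have h6 : D.A0 * (Real.exp ((D.A + D.κ) * y) * Real.exp (-(73 / 100 * D.w * y))) ≤
      1 / 4000 * (1 / (m : ℝ) ^ 2) := by
    have h7 : Real.exp ((D.A + D.κ) * y) * Real.exp (-(73 / 100 * D.w * y)) ≤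
        Real.exp (-(Real.log 2 * (D.w / 2))) * Real.exp (-(2 * y)) := by
      rw [← Real.exp_add, ← Real.exp_add]
      apply Real.exp_le_exp.2
      have hw20 : 20 ≤ D.w := by nlinarith
      have h8 : (D.A + D.κ) * y ≤ D.w / 20 * y := mul_le_mul_of_nonneg_right (by linarith) hy0
      have h9 : Real.log 2 * (D.w / 2) ≤ y * (D.w / 2) :=
        mul_le_mul_of_nonneg_right hylog2 (by linarith)
      nlinarith [mul_le_mul_of_nonneg_right hw20 hy0]
    have h10 : Real.exp (-(Real.log 2 * (D.w / 2))) = 1 / (2 : ℝ) ^ (D.w / 2) := by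
      rw [Real.exp_neg, Real.rpow_def_of_pos (by norm_num : (0 : ℝ) < 2), one_div]
    have h11 : Real.exp (-(2 * y)) = 1 / (m : ℝ) ^ 2 := by
      rw [show (2 : ℝ) * y = ((2 : ℕ) : ℝ) * y by norm_num, Real.exp_neg, Real.exp_nat_mul,
        hy_def, Real.exp_log hm0, one_div]
    rw [h10, h11] at h7
    have h12 : D.A0 * (1 / (2 : ℝ) ^ (D.w / 2)) ≤ 1 / 4000 := by
      have hp : (0 : ℝ) < (2 : ℝ) ^ (D.w / 2) := Real.rpow_pos_of_pos (by norm_num) _
      rw [mul_one_div, div_le_div_iff₀ hp (by norm_num)]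
      linarith [h.w_large2]
    calc D.A0 * (Real.exp ((D.A + D.κ) * y) * Real.exp (-(73 / 100 * D.w * y)))
        ≤ D.A0 * (1 / (2 : ℝ) ^ (D.w / 2) * (1 / (m : ℝ) ^ 2)) :=
          mul_le_mul_of_nonneg_left h7 hA0
      _ = D.A0 * (1 / (2 : ℝ) ^ (D.w / 2)) * (1 / (m : ℝ) ^ 2) := by ring
      _ ≤ 1 / 4000 * (1 / (m : ℝ) ^ 2) := by
          apply mul_le_mul_of_nonneg_right h12; positivity
  have e3 : ‖mmL D m n t c β a z‖ = ‖c * a m‖ *
      ‖cexp ((β - ((D.κ * y : ℝ) : ℂ)) * (z - I * t))‖ *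
        ‖((β - ((D.κ * y : ℝ) : ℂ)) / (2 * (I * t))) ^ n‖ := by
    unfold mmL
    rw [norm_mul, norm_mul]
  have e2 : ‖mtL n t c β z‖ = ‖c‖ * ‖cexp (β * (z - I * t))‖ * ‖(β / (2 * (I * t))) ^ n‖ := by
    unfold mtL
    rw [norm_mul, norm_mul]
  rw [e3, e2]
  calc ‖c * a m‖ * ‖cexp ((β - ((D.κ * y : ℝ) : ℂ)) * (z - I * t))‖ *
        ‖((β - ((D.κ * y : ℝ) : ℂ)) / (2 * (I * t))) ^ n‖
      ≤ (‖c‖ * (D.A0 * Real.exp (D.A * y))) * (‖cexp (β * (z - I * t))‖ * Real.exp (D.κ * y)) *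
        (Real.exp (-(73 / 100 * D.w * y)) * ‖(β / (2 * (I * t))) ^ n‖) := by
        gcongr
    _ = ‖c‖ * ‖cexp (β * (z - I * t))‖ * ‖(β / (2 * (I * t))) ^ n‖ *
        (D.A0 * (Real.exp ((D.A + D.κ) * y) * Real.exp (-(73 / 100 * D.w * y)))) := by
        rw [add_mul, Real.exp_add]
        ring
    _ ≤ ‖c‖ * ‖cexp (β * (z - I * t))‖ * ‖(β / (2 * (I * t))) ^ n‖ *
        (1 / 4000 * (1 / (m : ℝ) ^ 2)) := mul_le_mul_of_nonneg_left h6 (by positivity)

end LMainAux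

open LMainAux in
/-- The upper arc of `f` is the main term up to a relative error `1/10`. -/
theorem lmain (D : Dat) (h : IsL D) (h1 : SLArc D) (h2 : SLPiece D) (h3 : SArc) : SLMain D := by
  intro K hK
  obtain ⟨T1, hT1, H1⟩ := h1 K (1 / 100) hK (by norm_num)
  obtain ⟨K3, T3, hK3, hT3, H3⟩ := h2 K hK
  have hκ := h.κ_pos
  have hc := h.c_pos
  have hA := h.A_nonneg
  have hw := h.w_large
  have hw0 : 0 < D.w := by linarith
  have hrr : 40 ≤ rr D := by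
    unfold rr
    rw [le_div_iff₀ hκ]
    linarith
  set q : ℝ := 41 / 40 * (D.w * D.c) with hq
  have hq0 : 0 < q := by positivity
  have hsmall : ∀ᶠ t : ℝ in atTop, K3 * (q ^ 2 * Real.log t ^ 2) ≤ 1 / 100 * t ^ (1 / 4 : ℝ) := by
    have h := (isLittleO_log_rpow_atTop (r := (1 / 8 : ℝ)) (by norm_num)).bound
      (c := 1 / (1 + 100 * (q ^ 2 * K3))) (by positivity)
    filter_upwards [h, eventually_gt_atTop 1] with t ht ht1
    have hl0 : 0 ≤ Real.log t := Real.log_nonneg ht1.le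
    have ht8 : 0 ≤ t ^ (1 / 8 : ℝ) := Real.rpow_nonneg (by linarith) _
    rw [Real.norm_eq_abs, abs_of_nonneg hl0, Real.norm_eq_abs, abs_of_nonneg ht8] at ht
    have hQ0 : 0 < q ^ 2 * K3 := by positivity
    have hC0 : 0 < 1 / (1 + 100 * (q ^ 2 * K3)) := by positivity
    have hC : 1 / (1 + 100 * (q ^ 2 * K3)) ≤ 1 := by
      rw [div_le_one (by positivity)]
      linarith
    have ht4 : 0 ≤ t ^ (1 / 4 : ℝ) := Real.rpow_nonneg (by linarith) _
    have h4 : Real.log t ^ 2 ≤ 1 / (1 + 100 * (q ^ 2 * K3)) * t ^ (1 / 4 : ℝ) := by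
      calc Real.log t ^ 2 ≤ (1 / (1 + 100 * (q ^ 2 * K3)) * t ^ (1 / 8 : ℝ)) ^ 2 :=
            pow_le_pow_left₀ hl0 ht 2
        _ = (1 / (1 + 100 * (q ^ 2 * K3))) ^ 2 * t ^ (1 / 4 : ℝ) := by
            rw [mul_pow, ← Real.rpow_natCast (t ^ (1 / 8 : ℝ)), ← Real.rpow_mul (by linarith)]
            norm_num
        _ ≤ 1 / (1 + 100 * (q ^ 2 * K3)) * t ^ (1 / 4 : ℝ) := by
            apply mul_le_mul_of_nonneg_right _ ht4
            nlinarith
    have := mul_le_mul_of_nonneg_left h4 hQ0.le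
    have h6 : q ^ 2 * K3 * (1 / (1 + 100 * (q ^ 2 * K3))) ≤ 1 / 100 := by
      rw [mul_one_div, div_le_div_iff₀ (by positivity) (by norm_num)]
      linarith
    calc K3 * (q ^ 2 * Real.log t ^ 2) = q ^ 2 * K3 * Real.log t ^ 2 := by ring
      _ ≤ q ^ 2 * K3 * (1 / (1 + 100 * (q ^ 2 * K3)) * t ^ (1 / 4 : ℝ)) := this
      _ = q ^ 2 * K3 * (1 / (1 + 100 * (q ^ 2 * K3))) * t ^ (1 / 4 : ℝ) := by ring
      _ ≤ 1 / 100 * t ^ (1 / 4 : ℝ) := mul_le_mul_of_nonneg_right h6 ht4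
  obtain ⟨T6, H6⟩ := eventually_atTop.1 hsmall
  refine ⟨max (max T1 T3) (max (max T6 (rr D + 1)) (Real.exp (100 * K / (D.κ * D.c)))), ?_, ?_⟩
  · exact le_max_of_le_left (le_max_of_le_left hT1)
  intro t f c β a p ht hL n z hW
  have ht1 : T1 ≤ t := le_trans (by simp) ht
  have ht3 : T3 ≤ t := le_trans (by simp) ht
  have ht6 : T6 ≤ t := le_trans (by simp) ht
  have ht41 : rr D + 1 ≤ t := le_trans (by simp) ht
  have hte : Real.exp (100 * K / (D.κ * D.c)) ≤ t := le_trans (by simp) ht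
  have ht0 : 0 < t := by linarith
  have hlog : 0 ≤ Real.log t := Real.log_nonneg (by linarith)
  have hO : 100 * K ≤ D.κ * Om D t := by
    unfold Om
    have := (Real.le_log_iff_exp_le ht0).2 hte
    rw [div_le_iff₀ (by positivity)] at this
    linarith
  have hOm0 : 0 ≤ Om D t := by
    unfold Om
    positivity
  have hb := hL.beta
  set M : ℕ := MM D t with hM
  have hM1 : 1 ≤ M := by
    rw [hM, MM, Nat.one_le_floor_iff]
    exact Real.one_le_exp (by positivity)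
  have hmM : ∀ m ∈ Finset.Icc 1 M, (m : ℝ) ≤ Real.exp (2 / 5 * Om D t) := by
    intro m hm
    have h := (Finset.mem_Icc.1 hm).2
    exact (Nat.le_floor_iff (Real.exp_pos _).le).1 h
  obtain ⟨hup, hdown⟩ := H1 t f c β a p ht1 hL n z hW
  have h1mem : 1 ∈ Finset.Icc 1 M := Finset.mem_Icc.2 ⟨le_refl 1, hM1⟩
  have hmm : ∀ m ∈ (Finset.Icc 1 M).erase 1,
      ‖mmL D m n t c β a z‖ ≤ ‖mtL n t c β z‖ * (1 / 4000 * (1 / (m : ℝ) ^ 2)) := by
    intro m hm
    obtain ⟨hne, hm'⟩ := Finset.mem_erase.1 hm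
    have := (Finset.mem_Icc.1 hm').1
    exact norm_mmL_le D h K hK m n t c β a z hO
      (hL.a_le m this (Finset.mem_Icc.1 hm').2) hb (by omega) (hmM m hm') hW
  have hS := sum_sq_le M hM1
  have hS' : ∑ m ∈ (Finset.Icc 1 M).erase 1, 1 / (m : ℝ) ^ 2 ≤ 1 := by
    have h9 := Finset.add_sum_erase (Finset.Icc 1 M) (fun m : ℕ => 1 / (m : ℝ) ^ 2) h1mem
    simp only [Nat.cast_one, one_pow, div_one] at h9
    have : (0 : ℝ) ≤ 1 / (M : ℝ) := by positivity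
    linarith
  have hsumE : ∑ m ∈ (Finset.Icc 1 M).erase 1, ‖mmL D m n t c β a z‖ ≤
      ‖mtL n t c β z‖ * (1 / 4000) := by
    calc ∑ m ∈ (Finset.Icc 1 M).erase 1, ‖mmL D m n t c β a z‖
        ≤ ∑ m ∈ (Finset.Icc 1 M).erase 1, ‖mtL n t c β z‖ * (1 / 4000 * (1 / (m : ℝ) ^ 2)) :=
          Finset.sum_le_sum hmm
      _ = ‖mtL n t c β z‖ * (1 / 4000) * ∑ m ∈ (Finset.Icc 1 M).erase 1, 1 / (m : ℝ) ^ 2 := by
          rw [Finset.mul_sum]
          exact Finset.sum_congr rfl fun m _ => by ring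
      _ ≤ ‖mtL n t c β z‖ * (1 / 4000) * 1 := mul_le_mul_of_nonneg_left hS' (by positivity)
      _ = ‖mtL n t c β z‖ * (1 / 4000) := by ring
  have harc : ∀ m ∈ Finset.Icc 1 M, arc (PL p m) n (-t ^ 2) (rr D * t) 0 Real.pi (z ^ 2) =
      iteratedDeriv n (PL p m) (z ^ 2) -
        arc (PL p m) n (-t ^ 2) (rr D * t) Real.pi (2 * Real.pi) (z ^ 2) := by
    intro m hm
    have h := (h3 (PL p m) n (-t ^ 2) (rr D * t) (z ^ 2) (by positivity)
      (fun ξ hξ => diff_PL p m (by linarith) (by linarith)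
        (hL.diff m (Finset.mem_Icc.1 hm).1 (Finset.mem_Icc.1 hm).2) hξ)
      (sq_mem_ball (by linarith) hrr hW.2.2)).1
    rw [h]
    ring
  have hn : K3 * (n : ℝ) ^ 2 * t ^ (-(1 / 4) : ℝ) ≤ 1 / 100 := by
    have hnle : (n : ℝ) ≤ q * Real.log t := by
      have := hW.2.1
      unfold Om at this
      rw [hq]
      linarith
    have h7 : (n : ℝ) ^ 2 ≤ q ^ 2 * Real.log t ^ 2 := by
      calc (n : ℝ) ^ 2 ≤ (q * Real.log t) ^ 2 := by
            apply pow_le_pow_left₀ (by positivity) hnle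
        _ = q ^ 2 * Real.log t ^ 2 := by ring
    rw [Real.rpow_neg ht0.le, ← div_eq_mul_inv, div_le_iff₀ (Real.rpow_pos_of_pos ht0 _)]
    calc K3 * (n : ℝ) ^ 2 ≤ K3 * (q ^ 2 * Real.log t ^ 2) := by
          apply mul_le_mul_of_nonneg_left h7 (by linarith)
      _ ≤ 1 / 100 * t ^ (1 / 4 : ℝ) := H6 t ht6
  have hA : ‖mtL n t c β z‖ ≥ 0 := norm_nonneg _
  -- the errors of the pieces
  have hE : ‖∑ m ∈ Finset.Icc 1 M, (iteratedDeriv n (PL p m) (z ^ 2) - mmL D m n t c β a z)‖ ≤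
      1 / 100 * (‖mtL n t c β z‖ * (1 + 1 / 4000)) := by
    refine (norm_sum_le _ _).trans ?_
    calc ∑ m ∈ Finset.Icc 1 M, ‖iteratedDeriv n (PL p m) (z ^ 2) - mmL D m n t c β a z‖
        ≤ ∑ m ∈ Finset.Icc 1 M, 1 / 100 * ‖mmL D m n t c β a z‖ := by
          apply Finset.sum_le_sum
          intro m hm
          have h8 := H3 t f c β a p ht3 hL n m z hW (Finset.mem_Icc.1 hm).1 (Finset.mem_Icc.1 hm).2
          exact h8.trans (mul_le_mul_of_nonneg_right hn (norm_nonneg _))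
      _ = 1 / 100 * (‖mtL n t c β z‖ + ∑ m ∈ (Finset.Icc 1 M).erase 1, ‖mmL D m n t c β a z‖) := by
          rw [← Finset.mul_sum, ← Finset.add_sum_erase _ _ h1mem, mmL_one D _ _ _ _ _ hL.a_one]
      _ ≤ 1 / 100 * (‖mtL n t c β z‖ * (1 + 1 / 4000)) := by
          apply mul_le_mul_of_nonneg_left _ (by norm_num)
          linarith
  -- the main terms `m ≥ 2`
  have hB : ‖∑ m ∈ Finset.Icc 1 M, mmL D m n t c β a z - mtL n t c β z‖ ≤
      ‖mtL n t c β z‖ * (1 / 4000) := by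
    rw [← Finset.add_sum_erase _ _ h1mem, mmL_one D _ _ _ _ _ hL.a_one, add_sub_cancel_left]
    exact (norm_sum_le _ _).trans hsumE
  have hDn : ‖∑ m ∈ Finset.Icc 1 M,
      arc (PL p m) n (-t ^ 2) (rr D * t) Real.pi (2 * Real.pi) (z ^ 2)‖ ≤
      1 / 100 * ‖mtL n t c β z‖ := (norm_sum_le _ _).trans hdown
  have hsum : ∑ m ∈ Finset.Icc 1 M, arc (PL p m) n (-t ^ 2) (rr D * t) 0 Real.pi (z ^ 2) =
      ∑ m ∈ Finset.Icc 1 M, (iteratedDeriv n (PL p m) (z ^ 2) - mmL D m n t c β a z) +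
      ∑ m ∈ Finset.Icc 1 M, mmL D m n t c β a z -
      ∑ m ∈ Finset.Icc 1 M, arc (PL p m) n (-t ^ 2) (rr D * t) Real.pi (2 * Real.pi) (z ^ 2) := by
    rw [← Finset.sum_add_distrib, ← Finset.sum_sub_distrib]
    apply Finset.sum_congr rfl
    intro m hm
    rw [harc m hm]
    ring
  have hfin : arc f n (-t ^ 2) (rr D * t) 0 Real.pi (z ^ 2) - mtL n t c β z =
      (arc f n (-t ^ 2) (rr D * t) 0 Real.pi (z ^ 2) -
        ∑ m ∈ Finset.Icc 1 M, arc (PL p m) n (-t ^ 2) (rr D * t) 0 Real.pi (z ^ 2)) +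
      ∑ m ∈ Finset.Icc 1 M, (iteratedDeriv n (PL p m) (z ^ 2) - mmL D m n t c β a z) +
      (∑ m ∈ Finset.Icc 1 M, mmL D m n t c β a z - mtL n t c β z) -
      ∑ m ∈ Finset.Icc 1 M, arc (PL p m) n (-t ^ 2) (rr D * t) Real.pi (2 * Real.pi) (z ^ 2) := by
    rw [hsum]
    ring
  rw [hfin]
  refine (four _ _ _ _).trans ?_
  linarith

end Pool.Agent.H986R2.GD
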