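import Pool.Agent.H986R2.GD.Spec
import Pool.Agent.H24R2.JP.Off

set_option autoImplicit false

/-!
# Task LOFF: no zeros off the line at height `t`, general local data
-/

namespace Pool.Agent.H986R2.GD

open Complex Filter Topology Polynomial
open Pool.Agent.H24R2.JP (Par Good App arc SHad SDer SGL SJen SPar SCircle SNewton SArc TT TI)
open Pool.Agent.H471R3.GJ
open Pool.Agent.H986R2.DBN (ParD SCPoly PL)

namespace LOffAux

theorem norm_mtL (n : ℕ) (t : ℝ) (c β : ℂ) (s : ℝ) :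
    ‖mtL n t c β (s + I * t)‖ = ‖c‖ * Real.exp (s * β.re) *
      ‖(β / (2 * (I * t))) ^ n‖ := by
  rw [mtL, norm_mul, norm_mul, Complex.norm_exp]
  congr 3
  simp
  ring

end LOffAux

open LOffAux in
theorem loff (D : Dat) (h : IsL D) (h1 : SLMain D) (h2 : SArc) : SLoc D := by
  have hκ := h.κ_pos
  have hc := h.c_pos
  have hrr : 40 ≤ rr D := by
    have h5 := h.A_nonneg
    have h6 := h.w_large
    unfold rr
    rw [le_div_iff₀ hκ]
    nlinarith
  intro K hK
  obtain ⟨T1, hT1, H1⟩ := h1 K hK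
  refine ⟨max T1 (Real.exp ((2 * K + 2) / (D.κ * D.c))), le_max_of_le_left hT1, ?_⟩
  intro t f c β a p ht hLoc n s hn1 hn2 hs0 hs1 hzero
  have htT1 : T1 ≤ t := (le_max_left _ _).trans ht
  have htE : Real.exp ((2 * K + 2) / (D.κ * D.c)) ≤ t := (le_max_right _ _).trans ht
  have ht1 : 1 ≤ t := hT1.trans htT1
  have ht0 : 0 < t := by linarith
  have hHH : c ≠ 0 := hLoc.c_ne
  have hbe : ‖β - ((D.κ * Om D t : ℝ) : ℂ)‖ ≤ K := hLoc.beta
  have hOm : 2 * K + 2 ≤ D.κ * Om D t := by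
    rw [Om]
    have h5 : (2 * K + 2) / (D.κ * D.c) ≤ Real.log t := (Real.le_log_iff_exp_le ht0).2 htE
    rw [div_le_iff₀ (by positivity)] at h5
    linarith
  have hbre : 1 ≤ β.re := by
    have h5 := Complex.abs_re_le_norm (β - ((D.κ * Om D t : ℝ) : ℂ))
    have h6 : (β - ((D.κ * Om D t : ℝ) : ℂ)).re = β.re - D.κ * Om D t := by
      rw [Complex.sub_re, Complex.ofReal_re]
    rw [h6] at h5
    have h7 := (abs_le.1 (h5.trans hbe)).1
    linarith
  have hbne : β ≠ 0 := by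
    intro h0
    rw [h0] at hbre
    norm_num at hbre
  have hIt : (2 : ℂ) * (I * t) ≠ 0 := by
    have : (t : ℂ) ≠ 0 := by exact_mod_cast ht0.ne'
    simp [this]
  have hmtne : ∀ z, mtL n t c β z ≠ 0 := by
    intro z
    rw [mtL]
    exact mul_ne_zero (mul_ne_zero hHH (Complex.exp_ne_zero _))
      (pow_ne_zero _ (div_ne_zero hbne hIt))
  set A : ℂ → ℂ := fun z => arc f n (-t ^ 2) (rr D * t) 0 Real.pi (z ^ 2) with hA
  set R : ℂ → ℂ := fun z => A z / mtL n t c β z - 1 with hR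
  have hρ : 0 < rr D * t := by positivity
  have hρ40 : 40 * t ≤ rr D * t := mul_le_mul_of_nonneg_right hrr ht0.le
  have hin : ∀ z : ℂ, ‖z - I * t‖ ≤ 3 / 4 → ‖z ^ 2 - ((-t ^ 2 : ℝ) : ℂ)‖ < rr D * t := by
    intro z hz
    refine lt_of_lt_of_le ?_ hρ40
    have e : z ^ 2 - ((-t ^ 2 : ℝ) : ℂ) = (z - I * t) * ((z - I * t) + 2 * (I * t)) := by
      have hI : I ^ 2 = -1 := Complex.I_sq
      push_cast
      linear_combination ((t : ℂ) ^ 2) * hI
    rw [e, norm_mul]
    have h5 : ‖(z - I * t) + 2 * (I * t)‖ ≤ 3 / 4 + 2 * t := by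
      refine (norm_add_le _ _).trans ?_
      have : ‖(2 : ℂ) * (I * t)‖ = 2 * t := by
        simp [abs_of_pos ht0]
      rw [this]
      linarith
    have h6 := norm_nonneg (z - I * t)
    have h7 := norm_nonneg ((z - I * t) + 2 * (I * t))
    nlinarith
  have hRd : ∀ z : ℂ, ‖z - I * t‖ ≤ 3 / 4 → DifferentiableAt ℂ R z := by
    intro z hz
    have h5 : DifferentiableAt ℂ A z := by
      have h6 := Pool.Agent.H24R2.JP.OffAux.arc_diff f hLoc.entire.continuous n (-t ^ 2) (rr D * t) 0 Real.pi hρ (z ^ 2) (hin z hz)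
      have h8 : DifferentiableAt ℂ (fun z : ℂ => z ^ 2) z := by fun_prop
      exact DifferentiableAt.comp (g := fun x => arc f n (-t ^ 2) (rr D * t) 0 Real.pi x)
        (f := fun z : ℂ => z ^ 2) z h6 h8
    have h7 : DifferentiableAt ℂ (fun z => mtL n t c β z) z := by
      unfold mtL
      fun_prop
    exact (h5.div h7 (hmtne z)).sub_const 1
  have hRb : ∀ z : ℂ, ‖z - I * t‖ ≤ 3 / 4 → ‖R z‖ ≤ 1 / 10 := by
    intro z hz
    have h5 := H1 t f c β a p htT1 hLoc n z ⟨hn1, hn2, hz⟩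
    have h6 : R z = (A z - mtL n t c β z) / mtL n t c β z := by
      rw [hR]; simp only
      rw [sub_div, div_self (hmtne z)]
    rw [h6, norm_div, div_le_iff₀ (norm_pos_iff.2 (hmtne z))]
    exact h5
  -- derivative bound
  have hder : ∀ c' ∈ Metric.closedBall (I * t : ℂ) (1 / 2), ‖deriv R c'‖ ≤ (1 / 10) / (1 / 4) := by
    intro c' hc
    rw [mem_closedBall_iff_norm] at hc
    have hsub : ∀ z ∈ Metric.closedBall c' (1 / 4 : ℝ), ‖z - I * t‖ ≤ 3 / 4 := by
      intro z hz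
      rw [mem_closedBall_iff_norm] at hz
      have : z - I * t = (z - c') + (c' - I * t) := by ring
      rw [this]
      refine (norm_add_le _ _).trans ?_
      linarith
    apply Complex.norm_deriv_le_of_forall_mem_sphere_norm_le (by norm_num)
    · apply DifferentiableOn.diffContOnCl
      intro z hz
      rw [closure_ball c' (by norm_num)] at hz
      exact (hRd z (hsub z hz)).differentiableWithinAt
    · intro z hz
      exact hRb z (hsub z (Metric.sphere_subset_closedBall hz))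
  have hz1 : (s + I * t : ℂ) ∈ Metric.closedBall (I * t : ℂ) (1 / 2) := by
    rw [mem_closedBall_iff_norm]
    simp only [add_sub_cancel_right, Complex.norm_real, Real.norm_eq_abs]
    rw [abs_of_pos hs0]; exact hs1
  have hz2 : (((-s : ℝ) : ℂ) + I * t : ℂ) ∈ Metric.closedBall (I * t : ℂ) (1 / 2) := by
    rw [mem_closedBall_iff_norm]
    simp only [add_sub_cancel_right, Complex.norm_real, Real.norm_eq_abs]
    rw [abs_neg, abs_of_pos hs0]; exact hs1
  have hlip : ‖R (s + I * t) - R (((-s : ℝ) : ℂ) + I * t)‖ ≤ (1 / 10) / (1 / 4) * (2 * s) := by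
    have h5 := Convex.norm_image_sub_le_of_norm_deriv_le (𝕜 := ℂ) (f := R)
      (s := Metric.closedBall (I * t : ℂ) (1 / 2)) (x := ((-s : ℝ) : ℂ) + I * t)
      (y := (s : ℂ) + I * t) (C := (1 / 10) / (1 / 4))
      (fun z hz => hRd z (by rw [mem_closedBall_iff_norm] at hz; linarith)) hder
      (convex_closedBall _ _) hz2 hz1
    refine h5.trans (le_of_eq ?_)
    congr 1
    have : (s : ℂ) + I * t - (((-s : ℝ) : ℂ) + I * t) = ((2 * s : ℝ) : ℂ) := by
      push_cast; ring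
    rw [this, Complex.norm_real, Real.norm_eq_abs, abs_of_pos (by linarith)]
  -- the reflection
  have hxball : ((s : ℂ) + I * t) ^ 2 ∈ Metric.ball (((-t ^ 2 : ℝ) : ℂ)) (rr D * t) := by
    rw [mem_ball_iff_norm]
    apply hin
    rw [mem_closedBall_iff_norm] at hz1
    linarith
  obtain ⟨e1, e2⟩ := h2 f n (-t ^ 2) (rr D * t) (((s : ℂ) + I * t) ^ 2) hρ
    (fun ξ _ => hLoc.entire ξ) hxball
  have e3 := e2 hLoc.conj
  have hconj : (starRingEnd ℂ) (((s : ℂ) + I * t) ^ 2) = (((-s : ℝ) : ℂ) + I * t) ^ 2 := by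
    simp only [map_pow, map_add, map_mul, Complex.conj_I, Complex.conj_ofReal]
    push_cast
    ring
  rw [hconj] at e3
  have e4 : A (s + I * t) + (starRingEnd ℂ) (A (((-s : ℝ) : ℂ) + I * t)) = 0 := by
    rw [hA]; simp only
    rw [← e3, ← e1]; exact hzero
  have e5 : ‖A (s + I * t)‖ = ‖A (((-s : ℝ) : ℂ) + I * t)‖ := by
    have : A (s + I * t) = -(starRingEnd ℂ) (A (((-s : ℝ) : ℂ) + I * t)) := by
      linear_combination e4
    rw [this, norm_neg, RCLike.norm_conj]
  have hAR : ∀ z, A z = (R z + 1) * mtL n t c β z := by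
    intro z
    rw [hR]; simp only
    rw [sub_add_cancel, div_mul_cancel₀ _ (hmtne z)]
  rw [hAR, hAR, norm_mul, norm_mul, norm_mtL, norm_mtL] at e5
  set q1 : ℝ := ‖R (s + I * t) + 1‖ with hq1
  set q2 : ℝ := ‖R (((-s : ℝ) : ℂ) + I * t) + 1‖ with hq2
  set b : ℝ := β.re with hb
  have hP : 0 < ‖c‖ * ‖(β / (2 * (I * t))) ^ n‖ :=
    mul_pos (norm_pos_iff.2 hHH) (norm_pos_iff.2 (pow_ne_zero _ (div_ne_zero hbne hIt)))
  have e6 : q1 * Real.exp (s * b) = q2 * Real.exp (-s * b) := by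
    have : (q1 * Real.exp (s * b)) * (‖c‖ * ‖(β / (2 * (I * t))) ^ n‖) =
        (q2 * Real.exp (-s * b)) * (‖c‖ * ‖(β / (2 * (I * t))) ^ n‖) := by
      linear_combination e5
    exact mul_right_cancel₀ hP.ne' this
  have e7 : q1 * Real.exp (2 * s * b) = q2 := by
    have h5 : Real.exp (2 * s * b) = Real.exp (s * b) * Real.exp (s * b) := by
      rw [← Real.exp_add]; congr 1; ring
    have h6 : Real.exp (-s * b) * Real.exp (s * b) = 1 := by
      rw [← Real.exp_add]; simp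
    rw [h5, ← mul_assoc, e6, mul_assoc, h6, mul_one]
  have e8 : 1 + 2 * s ≤ Real.exp (2 * s * b) := by
    have h5 := Real.add_one_le_exp (2 * s * b)
    nlinarith
  have hq2l : 9 / 10 ≤ q2 := by
    have h5 := hRb (((-s : ℝ) : ℂ) + I * t) (by rw [mem_closedBall_iff_norm] at hz2; linarith)
    have h6 : ‖(1 : ℂ)‖ ≤ ‖R (((-s : ℝ) : ℂ) + I * t) + 1‖ + ‖R (((-s : ℝ) : ℂ) + I * t)‖ := by
      have : (1 : ℂ) = (R (((-s : ℝ) : ℂ) + I * t) + 1) - R (((-s : ℝ) : ℂ) + I * t) := by ring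
      conv_lhs => rw [this]
      exact norm_sub_le _ _
    rw [norm_one] at h6
    linarith
  have hq12 : q2 - 4 / 5 * s ≤ q1 := by
    have h6 : ‖R (((-s : ℝ) : ℂ) + I * t) + 1‖ ≤ ‖R (s + I * t) + 1‖ +
        ‖R (s + I * t) - R (((-s : ℝ) : ℂ) + I * t)‖ := by
      have : R (((-s : ℝ) : ℂ) + I * t) + 1 = (R (s + I * t) + 1) -
        (R (s + I * t) - R (((-s : ℝ) : ℂ) + I * t)) := by ring
      conv_lhs => rw [this]
      exact norm_sub_le _ _
    linarith
  have hq1p : 0 ≤ q1 := norm_nonneg _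
  nlinarith

end Pool.Agent.H986R2.GD
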