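import Pool.Agent.H986R2.GD.Spec
import Pool.Agent.H24R2.JP.ParCirc

set_option autoImplicit false

/-! # Task WK (adaptation of `Pool.Agent.H24R2.JP.ParCirc`) -/

namespace Pool.Agent.H986R2.GD.WkAux

open Complex Filter Topology Polynomial
open Pool.Agent.H24R2.JP (Par Good App SDer SGL SJen SPar SCircle)
open Pool.Agent.H24R2.JP.ParCircAux

/-- nonzero derivatives -/
theorem wk_ev_ne {f : ℂ → ℂ} (h1 : SDer) {P : ℕ → ℝ[X]} (hP : App f P) (n : ℕ) {b : ℂ}
    (hb : iteratedDeriv n f b ≠ 0) : ∀ᶠ N in atTop, derivative^[n] (P N) ≠ 0 := by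
  have h := (tendstoLocallyUniformlyOn_univ.2 (h1 f P hP n).1).tendsto_at (Set.mem_univ b)
  filter_upwards [h.eventually_ne hb] with N hN h0
  apply hN
  rw [h0]
  simp

theorem wk_par (h1 : SDer) (h2 : SGL) (f : ℂ → ℂ) (hf : Wk f) (n : ℕ) (w : ℂ)
    (hw : iteratedDeriv n f w = 0) : w ∈ Par := by
  obtain ⟨hfd, ⟨P, hP⟩, hne⟩ := hf
  obtain ⟨b, hb⟩ := hne n
  have hder := (h1 f P hP n).1
  have hev0 := wk_ev_ne h1 hP n hb
  have key : w ∈ closure Par := by
    rw [Metric.mem_closure_iff]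
    intro ε hε
    have hh := hurw (F := fun (N : ℕ) (x : ℂ) => aeval x (derivative^[n] (P N)))
      (fun N => diff_aeval _) hder (diff_iter hfd n) hw hb hε
    obtain ⟨N, ⟨z, hz, hz0⟩, hN⟩ := (hh.and hev0).exists
    refine ⟨z, h2 (P N) n (hP.1 N) hN z hz0, ?_⟩
    rw [dist_comm, dist_eq_norm]
    exact hz
  rwa [closed_par.closure_eq] at key

theorem wk_circ (h1 : SDer) (h2 : SGL) (h3 : SJen) (f : ℂ → ℂ) (hf : Wk f) (n : ℕ) (w : ℂ)
    (hwim : w.im ≠ 0) (hw : iteratedDeriv (n + 1) f w = 0) :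
    ∃ z : ℂ, z.im ≠ 0 ∧ iteratedDeriv n f z = 0 ∧ ‖w - (z.re : ℂ)‖ ≤ |z.im| := by
  obtain ⟨hfd, ⟨P, hP⟩, hne⟩ := hf
  obtain ⟨b1, hb1⟩ := hne (n + 1)
  obtain ⟨b0, hb0⟩ := hne n
  have hder := (h1 f P hP (n + 1)).1
  have hder0 := (h1 f P hP n).1
  have hev1 := wk_ev_ne h1 hP (n + 1) hb1
  have hev0 := wk_ev_ne h1 hP n hb0
  have hwpos : 0 < |w.im| := abs_pos.2 hwim
  have step : ∀ k : ℕ, ∃ (N : ℕ) (v z : ℂ), k ≤ N ∧ ‖v - w‖ < 1 / ((k : ℝ) + 1) ∧ z.im ≠ 0 ∧
      aeval z (derivative^[n] (P N)) = 0 ∧ ‖v - (z.re : ℂ)‖ ≤ |z.im| ∧ z ∈ Par := by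
    intro k
    have hkpos : (0 : ℝ) < 1 / ((k : ℝ) + 1) := by positivity
    have hh := hurw (F := fun (N : ℕ) (x : ℂ) => aeval x (derivative^[n + 1] (P N)))
      (fun N => diff_aeval _) hder (diff_iter hfd (n + 1)) hw hb1
      (lt_min hkpos hwpos)
    obtain ⟨N, ⟨⟨⟨v, hv, hv0⟩, hN1⟩, hN0⟩, hkN⟩ :=
      (((hh.and hev1).and hev0).and (eventually_ge_atTop k)).exists
    have hvim : v.im ≠ 0 := by
      intro h0
      have h4 : |(v - w).im| ≤ ‖v - w‖ := Complex.abs_im_le_norm _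
      have h5 : ‖v - w‖ < |w.im| := hv.trans_le (min_le_right _ _)
      rw [Complex.sub_im, h0, zero_sub, abs_neg] at h4
      linarith
    rw [Function.iterate_succ_apply'] at hv0 hN1
    obtain ⟨z, hzim, hz0, hzv⟩ := h3 (derivative^[n] (P N)) hN1 v hvim hv0
    exact ⟨N, v, z, hkN, hv.trans_le (min_le_left _ _), hzim, hz0, hzv,
      h2 (P N) n (hP.1 N) hN0 z hz0⟩
  choose N v z hN hv hzim hz0 hzv hzP using step
  -- boundedness
  set W : ℝ := ‖w‖ + 1 with hW
  have hW1 : 1 ≤ W := by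
    have := norm_nonneg w
    linarith
  have hbd : ∀ k, z k ∈ Metric.closedBall (0 : ℂ) (4 + 3 * W) := by
    intro k
    rw [mem_closedBall_zero_iff]
    have hv1 : ‖v k‖ ≤ W := by
      have h4 : ‖v k‖ ≤ ‖v k - w‖ + ‖w‖ := by
        have := norm_add_le (v k - w) w
        simpa using this
      have h5 : 1 / ((k : ℝ) + 1) ≤ 1 := by
        rw [div_le_one (by positivity)]
        have := Nat.cast_nonneg (α := ℝ) k
        linarith
      have := hv k
      linarith
    have h6 : |(v k).re - (z k).re| ≤ |(z k).im| := by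
      have h7 := Complex.abs_re_le_norm (v k - ((z k).re : ℂ))
      simp only [Complex.sub_re, Complex.ofReal_re] at h7
      exact h7.trans (hzv k)
    have h8 : |(v k).re| ≤ W := (Complex.abs_re_le_norm _).trans hv1
    have h9 : |(z k).re| ≤ W + |(z k).im| := by
      have h10 : (z k).re = (v k).re - ((v k).re - (z k).re) := by ring
      rw [h10]
      exact (abs_sub _ _).trans (by linarith)
    have h10 : (z k).re + (z k).im ^ 2 ≤ 1 / 4 := hzP k
    have h11 : |(z k).im| ≤ 2 + W := by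
      by_contra hcon
      push Not at hcon
      have h12 : (z k).im ^ 2 = |(z k).im| ^ 2 := (sq_abs _).symm
      have h13 := neg_abs_le (z k).re
      nlinarith
    have h14 := Complex.norm_le_abs_re_add_abs_im (z k)
    linarith
  obtain ⟨z', -, φ, hφ, hlim⟩ := (isCompact_closedBall (0 : ℂ) (4 + 3 * W)).tendsto_subseq hbd
  have hNt : Tendsto (fun k => N (φ k)) atTop atTop :=
    tendsto_atTop_mono (fun k => (hφ.id_le k).trans (hN (φ k))) tendsto_id
  have hvt : Tendsto v atTop (𝓝 w) := by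
    rw [tendsto_iff_norm_sub_tendsto_zero]
    exact squeeze_zero (fun _ => norm_nonneg _) (fun k => (hv k).le)
      tendsto_one_div_add_atTop_nhds_zero_nat
  refine ⟨z', ?_, ?_, ?_⟩
  rotate_left
  · -- zero of the derivative
    have hcomp : TendstoLocallyUniformly
        (fun (k : ℕ) (x : ℂ) => aeval x (derivative^[n] (P (N (φ k))))) (iteratedDeriv n f) atTop := by
      intro u hu x
      obtain ⟨t, ht, h⟩ := hder0 u hu x
      exact ⟨t, ht, hNt.eventually h⟩
    have ht := hcomp.tendsto_comp (diff_iter hfd n).continuous.continuousAt hlim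
    have hzero : (fun k => aeval ((z ∘ φ) k) (derivative^[n] (P (N (φ k))))) = fun _ => (0 : ℂ) := by
      funext k
      exact hz0 (φ k)
    rw [hzero] at ht
    exact (tendsto_nhds_unique ht tendsto_const_nhds)
  · have ha : Tendsto (fun k => ‖v (φ k) - ((z (φ k)).re : ℂ)‖) atTop (𝓝 ‖w - (z'.re : ℂ)‖) := by
      have h4 : Tendsto (fun k => (((z (φ k)).re : ℝ) : ℂ)) atTop (𝓝 (z'.re : ℂ)) :=
        (Complex.continuous_ofReal.tendsto _).comp ((Complex.continuous_re.tendsto _).comp hlim)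
      exact ((hvt.comp hφ.tendsto_atTop).sub h4).norm
    have hb : Tendsto (fun k => |(z (φ k)).im|) atTop (𝓝 |z'.im|) :=
      ((Complex.continuous_im.tendsto _).comp hlim).abs
    exact le_of_tendsto_of_tendsto' ha hb (fun k => hzv (φ k))
  · have ha : Tendsto (fun k => ‖v (φ k) - ((z (φ k)).re : ℂ)‖) atTop (𝓝 ‖w - (z'.re : ℂ)‖) := by
      have h4 : Tendsto (fun k => (((z (φ k)).re : ℝ) : ℂ)) atTop (𝓝 (z'.re : ℂ)) :=
        (Complex.continuous_ofReal.tendsto _).comp ((Complex.continuous_re.tendsto _).comp hlim)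
      exact ((hvt.comp hφ.tendsto_atTop).sub h4).norm
    have hb : Tendsto (fun k => |(z (φ k)).im|) atTop (𝓝 |z'.im|) :=
      ((Complex.continuous_im.tendsto _).comp hlim).abs
    have hc := le_of_tendsto_of_tendsto' ha hb (fun k => hzv (φ k))
    intro h0
    have h5 := Complex.abs_im_le_norm (w - (z'.re : ℂ))
    simp only [Complex.sub_im, Complex.ofReal_im, sub_zero] at h5
    rw [h0, abs_zero] at hc
    linarith

end Pool.Agent.H986R2.GD.WkAux

namespace Pool.Agent.H986R2.GD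

open Pool.Agent.H24R2.JP (SDer SGL SJen)

theorem wk (h1 : SDer) (h2 : SGL) (h3 : SJen) : SWk := fun f hf =>
  ⟨fun n w hw => WkAux.wk_par h1 h2 f hf n w hw,
    fun n w hwim hw => WkAux.wk_circ h1 h2 h3 f hf n w hwim hw⟩

end Pool.Agent.H986R2.GD
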