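import Pool.Agent.H986R2.GD.Spec
import Pool.Agent.H24R2.JP.ParCirc
import Pool.Agent.H24R2.JP.OpGood
import Pool.Agent.H986R2.GD.Wk

set_option autoImplicit false

/-! # Task LPI: closure properties of the Laguerre-Pólya class of type I -/

namespace Pool.Agent.H986R2.GD.LPIAux

open Complex Filter Topology Polynomial
open Pool.Agent.H24R2.JP (Par Good App SDer TT)
open Pool.Agent.H24R2.JP.ParCircAux Pool.Agent.H24R2.JP.OpGoodAux
open Pool.Agent.H986R2.DBN (ParD)
open Pool.Agent.H24R2.JP.OpBase (TT_diff iter_TT)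

/-- the closed negative half line -/
def NN : Set ℂ := {x | x.im = 0 ∧ x.re ≤ 0}

theorem parD0 : ParD 0 = NN := by
  ext x
  constructor
  · intro hx
    obtain ⟨z, hz⟩ := IsAlgClosed.exists_pow_nat_eq x (n := 2) (by norm_num)
    have h1 := hx z hz
    have h2 : z.re = 0 := by nlinarith
    have h3 : x.re = z.re * z.re - z.im * z.im := by
      rw [← hz, sq, Complex.mul_re]
    have h4 : x.im = z.re * z.im + z.im * z.re := by
      rw [← hz, sq, Complex.mul_im]
    refine ⟨?_, ?_⟩
    · rw [h4, h2]; ring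
    · rw [h3, h2]; nlinarith [mul_self_nonneg z.im]
  · rintro ⟨hx1, hx2⟩ z hz
    have h3 : x.re = z.re * z.re - z.im * z.im := by
      rw [← hz, sq, Complex.mul_re]
    have h4 : x.im = z.re * z.im + z.im * z.re := by
      rw [← hz, sq, Complex.mul_im]
    rw [hx1] at h4
    rw [h3] at hx2
    have h5 : z.re * z.im = 0 := by linarith
    rcases mul_eq_zero.1 h5 with h6 | h6
    · rw [h6]; norm_num
    · rw [h6] at hx2
      nlinarith

theorem closed_NN : IsClosed NN := by
  have h1 : IsClosed {x : ℂ | x.im = 0} := isClosed_eq Complex.continuous_im continuous_const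
  have h2 : IsClosed {x : ℂ | x.re ≤ 0} := isClosed_le Complex.continuous_re continuous_const
  exact h1.inter h2

theorem convex_NN : Convex ℝ NN := by
  intro x hx y hy a b ha hb hab
  obtain ⟨hx1, hx2⟩ := hx
  obtain ⟨hy1, hy2⟩ := hy
  refine ⟨?_, ?_⟩
  · simp [hx1, hy1]
  · simp only [Complex.add_re, Complex.real_smul, Complex.re_ofReal_mul]
    nlinarith

theorem NN_sub_par : NN ⊆ Par := by
  rintro x ⟨h1, h2⟩
  simp only [Par, Set.mem_ofPred_eq]
  rw [h1]
  linarith

theorem gl_step (Q : ℝ[X]) (hQ : derivative Q ≠ 0)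
    (h : ∀ x : ℂ, aeval x Q = 0 → x ∈ NN) (x : ℂ) (hx : aeval x (derivative Q) = 0) :
    x ∈ NN := by
  set P : ℂ[X] := Q.map (algebraMap ℝ ℂ) with hP
  have hd : 0 < P.degree := by
    rw [hP, degree_map]
    by_contra hcon
    push Not at hcon
    apply hQ
    rw [eq_C_of_degree_le_zero hcon, derivative_C]
  have hPd : derivative P ≠ 0 := by
    rw [hP, derivative_map]
    exact (Polynomial.map_ne_zero_iff (algebraMap ℝ ℂ).injective).2 hQ
  have hmem : x ∈ P.derivative.rootSet ℂ := by
    rw [mem_rootSet]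
    refine ⟨hPd, ?_⟩
    rw [hP, derivative_map, aeval_map_algebraMap]
    exact hx
  have h1 := rootSet_derivative_subset_convexHull_rootSet hd hmem
  refine convexHull_min ?_ convex_NN h1
  intro z hz
  rw [mem_rootSet] at hz
  apply h z
  have := hz.2
  rw [hP, aeval_map_algebraMap] at this
  exact this

theorem gl_NN (P : ℝ[X]) (n : ℕ) (h : ∀ x : ℂ, aeval x P = 0 → x ∈ NN) :
    derivative^[n] P ≠ 0 → ∀ x : ℂ, aeval x (derivative^[n] P) = 0 → x ∈ NN := by
  induction n with
  | zero =>
    intro _ x hx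
    exact h x hx
  | succ n ih =>
    intro hne x hx
    rw [Function.iterate_succ_apply'] at hne hx
    apply gl_step _ hne _ x hx
    apply ih
    intro h0
    rw [h0] at hne
    simp at hne

/-- separation of a point outside `NN` from `NN` -/
theorem sepN {w : ℂ} (hw : w ∉ NN) : ∃ u : ℂ, ∀ p ∈ NN, 0 < (u * (1 / (w - p))).re := by
  have hne : ∀ p ∈ NN, 0 < Complex.normSq (w - p) := by
    intro p hp
    apply Complex.normSq_pos.2
    intro h
    rw [sub_eq_zero] at h
    exact hw (h ▸ hp)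
  rcases lt_trichotomy w.im 0 with h | h | h
  · refine ⟨-I, fun p hp => ?_⟩
    have e : ((-I : ℂ) * (1 / (w - p))).re = -w.im / Complex.normSq (w - p) := by
      rw [one_div, Complex.mul_re, Complex.inv_re, Complex.inv_im]
      simp [hp.1]
    rw [e]
    exact div_pos (by linarith) (hne p hp)
  · refine ⟨1, fun p hp => ?_⟩
    have hw0 : 0 < w.re := by
      by_contra hcon
      exact hw ⟨h, not_lt.1 hcon⟩
    have e : ((1 : ℂ) * (1 / (w - p))).re = (w.re - p.re) / Complex.normSq (w - p) := by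
      rw [one_div, one_mul, Complex.inv_re]
      simp
    rw [e]
    exact div_pos (by linarith [hp.2]) (hne p hp)
  · refine ⟨I, fun p hp => ?_⟩
    have e : ((I : ℂ) * (1 / (w - p))).re = w.im / Complex.normSq (w - p) := by
      rw [one_div, Complex.mul_re, Complex.inv_re, Complex.inv_im]
      simp [hp.1]
      ring
    rw [e]
    exact div_pos h (hne p hp)

theorem zero_mem_NN : (0 : ℂ) ∈ NN := by
  simp [NN]

/-- Gauss-Lucas for `a P + X P'` -/
theorem op_NN (a : ℝ) (ha : 0 < a) (P : ℝ[X]) (hP : ∀ x : ℂ, aeval x P = 0 → x ∈ NN) (w : ℂ)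
    (hw : aeval w (QQ a P) = 0) : w ∈ NN := by
  by_contra hcon
  obtain ⟨u, hu⟩ := sepN hcon
  have hPw : aeval w P ≠ 0 := fun h => hcon (hP w h)
  set Q : ℂ[X] := P.map (algebraMap ℝ ℂ) with hQ
  have hQe : ∀ z : ℂ, Q.eval z = aeval z P := by
    intro z
    rw [hQ, eval_map_algebraMap]
  have hQd : ∀ z : ℂ, Q.derivative.eval z = aeval z (derivative P) := by
    intro z
    rw [hQ, derivative_map, eval_map_algebraMap]
  have hQw : Q.eval w ≠ 0 := by
    rw [hQe]
    exact hPw
  have hQ0 : Q ≠ 0 := by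
    intro h
    rw [h] at hQw
    simp at hQw
  have e1 := (IsAlgClosed.splits Q).eval_derivative_div_eval_of_ne_zero hQw
  rw [aeval_QQ] at hw
  have hw0 : w ≠ 0 := by
    intro h
    rw [h] at hcon
    exact hcon zero_mem_NN
  have e2 : (a : ℂ) * (1 / (w - 0)) + (Q.roots.map fun z => 1 / (w - z)).sum = 0 := by
    rw [← e1, hQd, hQe, sub_zero]
    field_simp
    linear_combination hw
  have h1 : 0 ≤ (u * (Q.roots.map fun z => 1 / (w - z)).sum).re := by
    apply sum_nonneg_re
    intro z hz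
    apply hu
    apply hP
    rw [mem_roots hQ0, IsRoot, hQe] at hz
    exact hz
  have h2 := hu 0 zero_mem_NN
  have h3 : 0 < ((a : ℂ) * (u * (1 / (w - 0)))).re := by
    rw [Complex.re_ofReal_mul]
    exact mul_pos ha h2
  have h4 := congrArg (fun c => (u * c).re) e2
  simp only [mul_zero, Complex.zero_re] at h4
  have h5 : (u * ((a : ℂ) * (1 / (w - 0)) +
      (Q.roots.map fun z => 1 / (w - z)).sum)).re =
      ((a : ℂ) * (u * (1 / (w - 0)))).re +
      (u * (Q.roots.map fun z => 1 / (w - z)).sum).re := by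
    rw [← Complex.add_re]
    congr 1
    ring
  linarith

theorem iter_iter (f : ℂ → ℂ) (n j : ℕ) :
    iteratedDeriv j (iteratedDeriv n f) = iteratedDeriv (j + n) f := by
  rw [iteratedDeriv_eq_iterate, iteratedDeriv_eq_iterate, iteratedDeriv_eq_iterate,
    Function.iterate_add_apply]

/-- an entire function with vanishing Taylor coefficients is zero -/
theorem entire_zero {g : ℂ → ℂ} (hg : Differentiable ℂ g) (h : ∀ j, iteratedDeriv j g 0 = 0)
    (z : ℂ) : g z = 0 := by
  have := Complex.taylorSeries_eq_of_entire' (c := 0) (z := z) hg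
  rw [← this]
  simp [h]

theorem app_of {f : ℂ → ℂ} {P : ℕ → ℝ[X]}
    (h1 : ∀ (N : ℕ) (x : ℂ), aeval x (P N) = 0 → x ∈ ParD 0)
    (h2 : TendstoLocallyUniformly (fun (N : ℕ) (x : ℂ) => aeval x (P N)) f atTop) : App f P :=
  ⟨fun N x hx => NN_sub_par (parD0 ▸ h1 N x hx), h2⟩

end Pool.Agent.H986R2.GD.LPIAux

namespace Pool.Agent.H986R2.GD

open Complex Filter Topology Polynomial
open Pool.Agent.H24R2.JP (Par Good App SDer TT)
open Pool.Agent.H24R2.JP.ParCircAux Pool.Agent.H24R2.JP.OpGoodAux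
open Pool.Agent.H986R2.DBN (ParD)
open Pool.Agent.H24R2.JP.OpBase (TT_diff iter_TT)
open LPIAux WkAux

theorem lpi (h1 : SDer) : SLPI := by
  intro f hf
  obtain ⟨hfd, ⟨P, hP1, hP2⟩, hne⟩ := hf
  have happ : App f P := app_of hP1 hP2
  have hPN : ∀ (N : ℕ) (x : ℂ), aeval x (P N) = 0 → x ∈ NN := fun N x hx => parD0 ▸ hP1 N x hx
  refine ⟨?_, ?_, ?_⟩
  · intro x hx
    obtain ⟨b, hb⟩ := hne 0
    rw [iteratedDeriv_zero] at hb
    rw [parD0]
    have key : x ∈ closure NN := by
      rw [Metric.mem_closure_iff]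
      intro ε hε
      have hh := hurw (F := fun (N : ℕ) (x : ℂ) => aeval x (P N))
        (fun N => diff_aeval _) hP2 hfd hx hb hε
      obtain ⟨N, z, hz, hz0⟩ := hh.exists
      refine ⟨z, hPN N z hz0, ?_⟩
      rw [dist_comm, dist_eq_norm]
      exact hz
    rwa [closed_NN.closure_eq] at key
  · intro n
    obtain ⟨b, hb⟩ := hne n
    have hev := wk_ev_ne h1 happ n hb
    obtain ⟨N0, hN0⟩ := eventually_atTop.1 hev
    refine ⟨Pool.Agent.H24R2.JP.OpBase.diff_iter hfd n, ⟨fun N => derivative^[n] (P (N + N0)), ?_, ?_⟩, ?_⟩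
    · intro N x hx
      rw [parD0]
      exact gl_NN (P (N + N0)) n (hPN _) (hN0 _ (by omega)) x hx
    · have hder := (h1 f P happ n).1
      intro u hu x
      obtain ⟨t, ht, h⟩ := hder u hu x
      exact ⟨t, ht, (tendsto_add_atTop_nat N0).eventually h⟩
    · intro j
      rw [iter_iter]
      exact hne (j + n)
  · intro a ha
    refine ⟨TT_diff a hfd, ⟨fun N => QQ a (P N), ?_, tend_QQ h1 happ a⟩, ?_⟩
    · intro N x hx
      rw [parD0]
      exact op_NN a ha (P N) (hPN N) x hx
    · intro n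
      by_contra hcon
      push Not at hcon
      obtain ⟨b, hb⟩ := hne n
      apply hb
      apply entire_zero (Pool.Agent.H24R2.JP.OpBase.diff_iter hfd n)
      intro j
      have h2 : iteratedDeriv j (iteratedDeriv n (TT a f)) 0 = 0 := by
        have h3 : iteratedDeriv n (TT a f) = fun _ => (0 : ℂ) := funext hcon
        rw [h3]
        simp
      rw [iter_iter, iter_TT a hfd (j + n)] at h2
      unfold TT at h2
      rw [zero_mul, add_zero] at h2
      rw [iter_iter]
      have h4 : ((a + ((j + n : ℕ) : ℝ) : ℝ) : ℂ) ≠ 0 := by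
        exact_mod_cast (by positivity : (0 : ℝ) < a + ((j + n : ℕ) : ℝ)).ne'
      exact (mul_eq_zero.1 h2).resolve_left h4

end Pool.Agent.H986R2.GD
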