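import Pool.Agent.H986R2.GD.Spec
import Pool.Agent.H471R3.GJ.Piece
import Pool.Agent.H986R2.DBN.LPiece

set_option autoImplicit false

/-!
# SLPiece: the derivative of a single piece, generic version (helper986, after helper394)
-/

namespace Pool.Agent.H986R2.GD.LPc

open Complex Filter Topology Pool.Agent.H471R3.GJ Pool.Agent.H471R3.GJ.PieceAux
open Pool.Agent.H24R2
open Pool.Agent.H24R2.JP.Piece (sq_pow sq_im fact_bound diff_sq)
open Pool.Agent.H986R2.DBN (PL)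

variable {D : Dat}

/-- Numerical facts in the window. -/
theorem window_facts (h : IsL D) {K0 t : ℝ} {n m : ℕ} {z β : ℂ} (hK : 1 ≤ K0)
    (ht : 200 * rr D ≤ t) (ht2 : Real.exp (100 * K0 / (D.κ * D.c)) ≤ t)
    (ht3 : (3 * ((rr D + 2) * (D.w * D.c))) ^ 2 ≤ t) (hw : Win D t n z) (hm : 1 ≤ m)
    (hm2 : m ≤ MM D t) (hb : ‖β - ((D.κ * Om D t : ℝ) : ℂ)‖ ≤ K0) :
    0 < ‖β - ((D.κ * Real.log m : ℝ) : ℂ)‖ ∧ 1 ≤ n ∧
      (n : ℝ) ≤ 7 / 8 * rr D * ‖β - ((D.κ * Real.log m : ℝ) : ℂ)‖ ∧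
      (rr D + 2) * (n : ℝ) ≤ t := by
  obtain ⟨h1, h2, h3⟩ := hw
  have hκ := h.κ_pos
  have hc := h.c_pos
  have hrr := rr_ge h
  have hw20 := w_ge h
  have htpos : 0 < t := by linarith
  have hκc : 0 < D.κ * D.c := by positivity
  have hlog : 100 * K0 ≤ D.κ * D.c * Real.log t := by
    have h4 : 100 * K0 / (D.κ * D.c) ≤ Real.log t := by
      rw [Real.le_log_iff_exp_le htpos]; exact ht2
    rw [div_le_iff₀ hκc] at h4
    linarith
  have hOm : Om D t = D.c * Real.log t := rfl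
  have hOmκ : 100 * K0 ≤ D.κ * Om D t := by rw [hOm]; linarith
  have hlogpos : 0 < Real.log t := by
    by_contra hneg
    have : D.κ * D.c * Real.log t ≤ 0 := mul_nonpos_of_nonneg_of_nonpos hκc.le (not_lt.1 hneg)
    linarith
  have hOmpos : 0 < Om D t := by rw [hOm]; positivity
  have hmpos : (0 : ℝ) < m := by exact_mod_cast hm
  have hmle : (m : ℝ) ≤ Real.exp (2 / 5 * Om D t) := by
    have h5 : ((MM D t : ℕ) : ℝ) ≤ Real.exp (2 / 5 * Om D t) := Nat.floor_le (Real.exp_pos _).le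
    exact le_trans (by exact_mod_cast hm2) h5
  have hlm : Real.log m ≤ 2 / 5 * Om D t := by
    rw [Real.log_le_iff_le_exp hmpos]
    exact hmle
  have hre : 59 / 100 * (D.κ * Om D t) ≤ ‖β - ((D.κ * Real.log m : ℝ) : ℂ)‖ := by
    have h4 : (β - ((D.κ * Real.log m : ℝ) : ℂ)).re ≤
      ‖β - ((D.κ * Real.log m : ℝ) : ℂ)‖ := Complex.re_le_norm _
    have h5 : |(β - ((D.κ * Om D t : ℝ) : ℂ)).re| ≤ K0 := (Complex.abs_re_le_norm _).trans hb
    have h6 := (abs_le.1 h5).1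
    have h7 : D.κ * Real.log m ≤ D.κ * (2 / 5 * Om D t) := by gcongr
    simp only [Complex.sub_re, Complex.ofReal_re] at h4 h6
    linarith
  have hlamn : (n : ℝ) ≤ 7 / 8 * rr D * ‖β - ((D.κ * Real.log m : ℝ) : ℂ)‖ := by
    have h8 : 7 / 8 * rr D * (59 / 100 * (D.κ * Om D t)) ≤
        7 / 8 * rr D * ‖β - ((D.κ * Real.log m : ℝ) : ℂ)‖ := by gcongr
    have h9 : rr D * D.κ = 2 * D.w := by
      unfold rr
      field_simp
    have h10 : 7 / 8 * rr D * (59 / 100 * (D.κ * Om D t)) =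
        7 / 8 * 59 / 100 * (rr D * D.κ) * Om D t := by ring
    rw [h10, h9] at h8
    have h11 : 0 < D.w * Om D t := by positivity
    nlinarith
  have hsq : Real.log t ≤ 2 * (Real.sqrt t - 1) := by
    have h7 : Real.log t = 2 * Real.log (Real.sqrt t) := by
      rw [Real.log_sqrt htpos.le]; ring
    rw [h7]
    have := Real.log_le_sub_one_of_pos (Real.sqrt_pos.2 htpos)
    linarith
  have hsq2 : 3 * ((rr D + 2) * (D.w * D.c)) ≤ Real.sqrt t := by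
    apply Real.le_sqrt_of_sq_le; linarith
  have hsq3 : Real.sqrt t * Real.sqrt t = t := Real.mul_self_sqrt htpos.le
  refine ⟨lt_of_lt_of_le (by positivity) hre, ?_, hlamn, ?_⟩
  · have : (0 : ℝ) < n := lt_of_lt_of_le (by positivity) h1
    exact_mod_cast this
  · have hs0 : 0 ≤ Real.sqrt t := Real.sqrt_nonneg t
    calc (rr D + 2) * (n : ℝ) ≤ (rr D + 2) * (41 / 40 * (D.w * Om D t)) := by gcongr
      _ = 41 / 40 * ((rr D + 2) * (D.w * D.c)) * Real.log t := by rw [hOm]; ring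
      _ ≤ 41 / 40 * ((rr D + 2) * (D.w * D.c)) * (2 * Real.sqrt t) := by
        gcongr
        linarith
      _ ≤ 3 * ((rr D + 2) * (D.w * D.c)) * Real.sqrt t := by
        have : 0 ≤ (rr D + 2) * (D.w * D.c) * Real.sqrt t := by positivity
        nlinarith
      _ ≤ Real.sqrt t * Real.sqrt t := by gcongr
      _ = t := hsq3

/-- The pointwise comparison on the ball. -/
theorem pointwise {K0 t : ℝ} {f : ℂ → ℂ} {c β : ℂ} {a : ℕ → ℂ} {p : ℕ → ℂ → ℂ}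
    {n m : ℕ} {z ξ : ℂ} (hL : Loc D K0 t f c β a p) (hK : 1 ≤ K0) (hR : 40 ≤ rr D)
    (ht : 200 * rr D ≤ t)
    (hm : 1 ≤ m) (hmt : m ≤ MM D t) (hn : 1 ≤ n) (hnt : (rr D + 2) * (n : ℝ) ≤ t)
    (hz : ‖z - I * t‖ ≤ 3 / 4)
    (hlam : 0 < ‖β - ((D.κ * Real.log m : ℝ) : ℂ)‖)
    (hnl : (n : ℝ) ≤ 7 / 8 * rr D * ‖β - ((D.κ * Real.log m : ℝ) : ℂ)‖)
    (hξ : ‖ξ - z ^ 2‖ ≤ 2 * t * n / ‖β - ((D.κ * Real.log m : ℝ) : ℂ)‖) :
    ‖PL p m ξ - c * a m * cexp ((β - ((D.κ * Real.log m : ℝ) : ℂ)) * (z - I * t)) *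
      cexp ((β - ((D.κ * Real.log m : ℝ) : ℂ)) / (2 * (I * t)) * (ξ - z ^ 2))‖ ≤
    ‖c * a m * cexp ((β - ((D.κ * Real.log m : ℝ) : ℂ)) * (z - I * t))‖ *
      Real.exp n * ((3 * K0 + 2 * (rr D + 2)) * n * t ^ (-(1 / 4) : ℝ)) := by
  have htpos : 0 < t := by linarith
  have hnpos : (0 : ℝ) < n := by exact_mod_cast hn
  set R : ℝ := rr D with hRdef
  set lam : ℂ := β - ((D.κ * Real.log m : ℝ) : ℂ) with hlamdef
  set c' : ℂ := c * a m * cexp (lam * (z - I * t)) with hc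
  set r : ℝ := 2 * t * n / ‖lam‖ with hr
  have hr75 : r ≤ 7 / 4 * R * t := by
    rw [hr, div_le_iff₀ hlam]
    nlinarith
  have hr0 : 0 ≤ r := by positivity
  obtain ⟨g1, g2, g3, g4, g5, g6⟩ := geometry hR ht hz hr75 hξ
  set ζ : ℂ := JP.sq ξ with hζ
  have hT0 : 0 < t ^ (-(1 / 4) : ℝ) := Real.rpow_pos_of_pos htpos _
  have hTt : 1 / t ≤ t ^ (-(1 / 4) : ℝ) := by
    rw [one_div, ← Real.rpow_neg_one]
    exact Real.rpow_le_rpow_of_exponent_le (by linarith) (by norm_num)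
  -- the exact identity
  have hid : c * a m * cexp (lam * (ζ - I * t)) = c' * cexp (lam * (ζ - z)) := by
    rw [hc, mul_assoc _ (cexp _) (cexp _), ← Complex.exp_add]
    congr 2; ring
  have h1 : ‖PL p m ξ - c' * cexp (lam * (ζ - z))‖ ≤
      K0 * t ^ (-(1 / 4) : ℝ) * ‖c' * cexp (lam * (ζ - z))‖ := by
    have hs := hL.app m hm hmt (ζ - I * t) (g6.trans (by linarith))
    have e : I * t + (ζ - I * t) = ζ := by ring
    rw [e, ← hlamdef, hid] at hs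
    exact hs
  set w0 : ℂ := lam / (2 * (I * t)) * (ξ - z ^ 2) with hw0
  have htC : (t : ℂ) ≠ 0 := by exact_mod_cast htpos.ne'
  have hw0n : ‖w0‖ ≤ n := by
    rw [hw0, norm_mul, norm_div]
    have : ‖2 * (I * (t : ℂ))‖ = 2 * t := by
      simp [abs_of_pos htpos]
    rw [this]
    calc ‖lam‖ / (2 * t) * ‖ξ - z ^ 2‖ ≤ ‖lam‖ / (2 * t) * (2 * t * n / ‖lam‖) := by gcongr
      _ = n := by field_simp
  set δ : ℂ := lam * (ζ - z) - w0 with hδ
  have hδn : ‖δ‖ ≤ (R + 2) * n / t := by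
    have e5 : δ = lam * (ζ - z) * ((2 * (I * t) - (ζ + z)) / (2 * (I * t))) := by
      rw [hδ, hw0, ← g3]
      field_simp
    have e6 : ‖2 * (I * (t : ℂ))‖ = 2 * t := by simp [abs_of_pos htpos]
    have e7 : ‖2 * (I * (t : ℂ)) - (ζ + z)‖ ≤ R + 2 := by
      have : 2 * (I * (t : ℂ)) - (ζ + z) = -((ζ - I * t) + (z - I * t)) := by ring
      rw [this, norm_neg]
      refine (norm_add_le _ _).trans ?_
      linarith
    rw [e5, norm_mul, norm_div, norm_mul, e6]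
    have hn0 : 0 ≤ (R + 2) * (n : ℝ) / t := by positivity
    calc ‖lam‖ * ‖ζ - z‖ * (‖2 * (I * (t : ℂ)) - (ζ + z)‖ / (2 * t))
        ≤ ‖lam‖ * (r / (198 / 100 * t)) * ((R + 2) / (2 * t)) := by gcongr
      _ = 100 / 198 * ((R + 2) * n / t) := by
        rw [hr]; field_simp
      _ ≤ (R + 2) * n / t := by linarith
  have hδ1 : ‖δ‖ ≤ 1 := by
    refine hδn.trans ?_
    rw [div_le_one htpos]; exact hnt
  have hE := Complex.norm_exp_sub_one_le hδ1
  have hE2 : ‖cexp δ‖ ≤ 3 := by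
    have : cexp δ = (cexp δ - 1) + 1 := by ring
    rw [this]
    refine (norm_add_le _ _).trans ?_
    rw [norm_one]; linarith
  have hw0e : ‖cexp w0‖ ≤ Real.exp n := by
    refine (Complex.norm_exp_le_exp_norm _).trans (Real.exp_le_exp.2 hw0n)
  have hsplit : cexp (lam * (ζ - z)) = cexp w0 * cexp δ := by
    rw [← Complex.exp_add, hδ]; congr 1; ring
  have h2 : ‖c' * cexp (lam * (ζ - z)) - c' * cexp w0‖ ≤
      ‖c'‖ * Real.exp n * (2 * (R + 2) * n * t ^ (-(1 / 4) : ℝ)) := by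
    have e8 : c' * cexp (lam * (ζ - z)) - c' * cexp w0 = c' * cexp w0 * (cexp δ - 1) := by
      rw [hsplit]; ring
    rw [e8, norm_mul, norm_mul]
    have e9 : ‖cexp δ - 1‖ ≤ 2 * (R + 2) * n * t ^ (-(1 / 4) : ℝ) := by
      refine hE.trans ?_
      calc 2 * ‖δ‖ ≤ 2 * ((R + 2) * n / t) := by gcongr
        _ = 2 * (R + 2) * n * (1 / t) := by ring
        _ ≤ 2 * (R + 2) * n * t ^ (-(1 / 4) : ℝ) := by gcongr
    gcongr
  have h3 : K0 * t ^ (-(1 / 4) : ℝ) * ‖c' * cexp (lam * (ζ - z))‖ ≤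
      ‖c'‖ * Real.exp n * (3 * K0 * n * t ^ (-(1 / 4) : ℝ)) := by
    rw [hsplit, norm_mul c', norm_mul (cexp w0)]
    have hn1 : (1 : ℝ) ≤ n := by exact_mod_cast hn
    calc K0 * t ^ (-(1 / 4) : ℝ) * (‖c'‖ * (‖cexp w0‖ * ‖cexp δ‖)) ≤
          K0 * t ^ (-(1 / 4) : ℝ) * (‖c'‖ * (Real.exp n * 3)) := by gcongr
      _ = ‖c'‖ * Real.exp n * (3 * K0 * 1 * t ^ (-(1 / 4) : ℝ)) := by ring
      _ ≤ ‖c'‖ * Real.exp n * (3 * K0 * n * t ^ (-(1 / 4) : ℝ)) := by gcongr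
  calc ‖PL p m ξ - c' * cexp w0‖ = ‖(PL p m ξ - c' * cexp (lam * (ζ - z))) +
        (c' * cexp (lam * (ζ - z)) - c' * cexp w0)‖ := by congr 1; ring
    _ ≤ ‖PL p m ξ - c' * cexp (lam * (ζ - z))‖ + ‖c' * cexp (lam * (ζ - z)) - c' * cexp w0‖ :=
        norm_add_le _ _
    _ ≤ ‖c'‖ * Real.exp n * (3 * K0 * n * t ^ (-(1 / 4) : ℝ)) +
        ‖c'‖ * Real.exp n * (2 * (R + 2) * n * t ^ (-(1 / 4) : ℝ)) :=
        add_le_add (h1.trans h3) h2
    _ = ‖c'‖ * Real.exp n * ((3 * K0 + 2 * (R + 2)) * n * t ^ (-(1 / 4) : ℝ)) := by ring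

end Pool.Agent.H986R2.GD.LPc

namespace Pool.Agent.H986R2.GD

open Complex Filter Topology Pool.Agent.H471R3.GJ Pool.Agent.H471R3.GJ.PieceAux
open Pool.Agent.H24R2
open Pool.Agent.H24R2.JP.Piece (sq_pow sq_im fact_bound diff_sq)
open Pool.Agent.H986R2.DBN (PL)

theorem lpiece (D : Dat) (h : IsL D) : SLPiece D := by
  intro K0 hK0
  have hR := rr_ge h
  refine ⟨9 * K0 + 6 * (rr D + 2), max (200 * rr D)
    (max (Real.exp (100 * K0 / (D.κ * D.c))) ((3 * ((rr D + 2) * (D.w * D.c))) ^ 2)), by linarith,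
    le_max_of_le_left (by linarith), ?_⟩
  intro t f c β a p ht hL n m z hw hm hm2
  have ht6 : 200 * rr D ≤ t := (le_max_left _ _).trans ht
  have hte : Real.exp (100 * K0 / (D.κ * D.c)) ≤ t :=
    (le_max_left _ _).trans ((le_max_right _ _).trans ht)
  have htq : (3 * ((rr D + 2) * (D.w * D.c))) ^ 2 ≤ t :=
    (le_max_right _ _).trans ((le_max_right _ _).trans ht)
  obtain ⟨hlam, hn, hnl, hnt⟩ := LPc.window_facts h hK0 ht6 hte htq hw hm hm2 hL.beta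
  have hz := hw.2.2
  have htpos : 0 < t := by linarith
  have hnpos : (0 : ℝ) < n := by exact_mod_cast hn
  have hT0 : 0 < t ^ (-(1 / 4) : ℝ) := Real.rpow_pos_of_pos htpos _
  unfold mmL
  set R : ℝ := rr D with hRdef
  set lam : ℂ := β - ((D.κ * Real.log m : ℝ) : ℂ) with hlamdef
  set c' : ℂ := c * a m * cexp (lam * (z - I * t)) with hc
  set r : ℝ := 2 * t * n / ‖lam‖ with hr
  have hrpos : 0 < r := by positivity
  have hr75 : r ≤ 7 / 4 * R * t := by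
    rw [hr, div_le_iff₀ hlam]
    nlinarith
  -- the comparison function
  set g : ℂ → ℂ := fun ξ => c' * cexp (lam / (2 * (I * t)) * (ξ - z ^ 2)) with hg
  have hgd : Differentiable ℂ g := by
    intro ξ
    rw [hg]
    fun_prop
  have hGd : ∀ ξ ∈ Metric.closedBall (z ^ 2) r, DifferentiableAt ℂ (PL p m) ξ := by
    intro ξ hξ
    rw [mem_closedBall_iff_norm] at hξ
    obtain ⟨g1, g2, -, -, -, g6⟩ := geometry hR ht6 hz hr75 hξ
    have hs := diff_sq (ξ := ξ) (by nlinarith)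
    have hp := hL.diff m hm hm2 (JP.sq ξ - I * t) (g6.trans (by linarith))
    have e : I * t + (JP.sq ξ - I * t) = JP.sq ξ := by ring
    rw [e] at hp
    exact DifferentiableAt.comp ξ hp hs
  have hpt : ∀ ξ ∈ Metric.sphere (z ^ 2) r, ‖(PL p m - g) ξ‖ ≤
      ‖c'‖ * Real.exp n * ((3 * K0 + 2 * (R + 2)) * n * t ^ (-(1 / 4) : ℝ)) := by
    intro ξ hξ
    rw [mem_sphere_iff_norm] at hξ
    exact LPc.pointwise hL hK0 hR ht6 hm hm2 hn hnt hz hlam hnl hξ.le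
  have hdc : DiffContOnCl ℂ (PL p m - g) (Metric.ball (z ^ 2) r) := by
    apply DifferentiableOn.diffContOnCl
    rw [closure_ball _ hrpos.ne']
    intro ξ hξ
    exact ((hGd ξ hξ).sub (hgd ξ)).differentiableWithinAt
  have hC := Complex.norm_iteratedDeriv_le_of_forall_mem_sphere_norm_le n hrpos hdc hpt
  have hGan : ContDiffAt ℂ n (PL p m) (z ^ 2) := by
    have : AnalyticAt ℂ (PL p m) (z ^ 2) := by
      have hO : DifferentiableOn ℂ (PL p m) (Metric.ball (z ^ 2) r) := fun ξ hξ =>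
        (hGd ξ (Metric.ball_subset_closedBall hξ)).differentiableWithinAt
      exact hO.analyticAt (Metric.ball_mem_nhds _ hrpos)
    exact this.contDiffAt
  have hgan : ContDiffAt ℂ n g (z ^ 2) := (hgd.contDiff).contDiffAt
  rw [iteratedDeriv_sub hGan hgan] at hC
  have hgder : iteratedDeriv n g (z ^ 2) = c' * (lam / (2 * (I * t))) ^ n := by
    rw [hg]
    rw [iteratedDeriv_const_mul_field]
    congr 1
    have e := iteratedDeriv_comp_sub_const (𝕜 := ℂ) (F := ℂ) n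
      (fun w : ℂ => cexp (lam / (2 * (I * t)) * w)) (z ^ 2)
    have e2 := congrFun e (z ^ 2)
    rw [e2, iteratedDeriv_cexp_const_mul]
    simp
  rw [hgder] at hC
  refine hC.trans ?_
  have hfb := fact_bound n hn
  have hnorm : ‖c' * (lam / (2 * (I * t))) ^ n‖ = ‖c'‖ * (‖lam‖ / (2 * t)) ^ n := by
    rw [norm_mul, norm_pow, norm_div]
    have : ‖2 * (I * (t : ℂ))‖ = 2 * t := by simp [abs_of_pos htpos]
    rw [this]
  rw [hnorm, hr]
  have e3 : (n.factorial : ℝ) * (‖c'‖ * Real.exp n * ((3 * K0 + 2 * (R + 2)) * n * t ^ (-(1 / 4) : ℝ))) /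
      (2 * t * n / ‖lam‖) ^ n = ‖c'‖ * (‖lam‖ / (2 * t)) ^ n *
      (((n.factorial : ℝ) * Real.exp n) / (n : ℝ) ^ n *
        ((3 * K0 + 2 * (R + 2)) * n * t ^ (-(1 / 4) : ℝ))) := by
    rw [div_pow, div_pow, mul_pow]
    field_simp
  rw [e3]
  have e4 : ((n.factorial : ℝ) * Real.exp n) / (n : ℝ) ^ n ≤ 3 * n := by
    rw [div_le_iff₀ (by positivity)]
    refine hfb.trans ?_
    have := Real.exp_one_lt_d9
    have h3 : Real.exp 1 ≤ 3 := by linarith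
    gcongr
  calc ‖c'‖ * (‖lam‖ / (2 * t)) ^ n *
      (((n.factorial : ℝ) * Real.exp n) / (n : ℝ) ^ n *
        ((3 * K0 + 2 * (R + 2)) * n * t ^ (-(1 / 4) : ℝ)))
      ≤ ‖c'‖ * (‖lam‖ / (2 * t)) ^ n *
        (3 * n * ((3 * K0 + 2 * (R + 2)) * n * t ^ (-(1 / 4) : ℝ))) := by gcongr
    _ = (9 * K0 + 6 * (R + 2)) * (n : ℝ) ^ 2 * t ^ (-(1 / 4) : ℝ) *
        (‖c'‖ * (‖lam‖ / (2 * t)) ^ n) := by ring

end Pool.Agent.H986R2.GD
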