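import Pool.Agent.H986R2.GD.Spec
import Pool.Agent.H24R2.JP.Low

set_option autoImplicit false

namespace Pool.Agent.H986R2.GD

open Complex Filter Topology Polynomial MeasureTheory
open Pool.Agent.H24R2.JP (Par Good App arc SHad SDer SGL SJen SPar SCircle SNewton SArc TT TI)
open Pool.Agent.H471R3.GJ
open Pool.Agent.H986R2.DBN (ParD SCPoly PL)

namespace LowTAux

theorem nozero {f : ℂ → ℂ} {g : ℕ → ℝ} (hd : Differentiable ℂ f)
    (h0 : ∀ n, iteratedDeriv n f 0 = ((g n : ℝ) : ℂ)) {k0 : ℕ} (hpos : ∀ n, k0 ≤ n → 0 < g n)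
    (N1 : ℕ) (hN1 : ∀ n, N1 ≤ n → k0 ≤ n → g (n + 1) / g n < 1 / 8) : ∀ n : ℕ, N1 ≤ n → k0 ≤ n →
    ∀ w : ℂ, ‖w‖ ≤ 2 → iteratedDeriv n f w ≠ 0 := by
  intro n hn hnk w hw hz
  have hstep : ∀ j : ℕ, g (n + j) ≤ g n * (1 / 8) ^ j := by
    intro j
    induction j with
    | zero => simp
    | succ j ih =>
      have h1 := hN1 (n + j) (by omega) (by omega)
      rw [div_lt_iff₀ (hpos _ (by omega))] at h1
      rw [← Nat.add_assoc, pow_succ]
      nlinarith [hpos n hnk]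
  have hD : Differentiable ℂ (iteratedDeriv n f) :=
    (hd.contDiff (n := ⊤)).differentiable_iteratedDeriv n (by exact_mod_cast WithTop.coe_lt_top _)
  have hs := Complex.hasSum_taylorSeries_of_entire hD 0 w
  rw [hz] at hs
  simp only [Pool.Agent.H24R2.JP.low_iter_add, h0, sub_zero] at hs
  -- split off the first term
  have hs1 := (hasSum_nat_add_iff' 1).2 hs
  simp only [Finset.range_one, Finset.sum_singleton, Nat.factorial_zero, Nat.cast_one, inv_one,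
    pow_zero, one_smul, Nat.add_zero, zero_sub] at hs1
  have hgeo : HasSum (fun j : ℕ => g n * (1 / 4) * (1 / 4 : ℝ) ^ j) (g n * (1 / 4) * (1 - 1 / 4)⁻¹) :=
    (hasSum_geometric_of_lt_one (by norm_num) (by norm_num)).mul_left _
  have hle : ‖-((g n : ℝ) : ℂ)‖ ≤ g n * (1 / 4) * (1 - 1 / 4)⁻¹ := by
    refine hs1.norm_le_of_bounded hgeo ?_
    intro j
    have hg := hstep (j + 1)
    have hgp := hpos (n + (j + 1)) (by omega)
    rw [smul_eq_mul, smul_eq_mul, norm_mul, norm_mul, norm_inv, norm_pow, Complex.norm_real,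
      Complex.norm_natCast, Real.norm_of_nonneg hgp.le]
    have hf : (((j + 1).factorial : ℝ))⁻¹ ≤ 1 :=
      inv_le_one_of_one_le₀ (by exact_mod_cast Nat.succ_le_of_lt (Nat.factorial_pos _))
    have hf0 : (0 : ℝ) ≤ (((j + 1).factorial : ℝ))⁻¹ := by positivity
    have hw2 : ‖w‖ ^ (j + 1) ≤ 2 ^ (j + 1) := pow_le_pow_left₀ (norm_nonneg _) hw _
    have h3 : ‖w‖ ^ (j + 1) * g (n + (j + 1)) ≤ 2 ^ (j + 1) * (g n * (1 / 8) ^ (j + 1)) :=
      mul_le_mul hw2 hg hgp.le (by positivity)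
    calc (((j + 1).factorial : ℝ))⁻¹ * (‖w‖ ^ (j + 1) * g (n + (j + 1)))
        ≤ 1 * (2 ^ (j + 1) * (g n * (1 / 8) ^ (j + 1))) :=
          mul_le_mul hf h3 (mul_nonneg (by positivity) hgp.le) (by norm_num)
      _ = g n * (1 / 4) * (1 / 4) ^ j := by
          have : (1 / 4 : ℝ) ^ (j + 1) = 2 ^ (j + 1) * (1 / 8) ^ (j + 1) := by
            rw [← mul_pow]; norm_num
          rw [one_mul, mul_left_comm, ← this, pow_succ]; ring
  rw [norm_neg, Complex.norm_real, Real.norm_of_nonneg (hpos n hnk).le] at hle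
  have := hpos n hnk
  nlinarith

theorem small (K : ℝ) : ∃ N1 : ℕ, ∀ n : ℕ, N1 ≤ n →
    K * ((n : ℝ) + 1) ^ (-(3 / 4) : ℝ) < 1 / 8 := by
  have h1 : Tendsto (fun n : ℕ => ((n : ℝ) + 1)) atTop atTop :=
    tendsto_atTop_add_const_right _ _ tendsto_natCast_atTop_atTop
  have h2 : Tendsto (fun n : ℕ => ((n : ℝ) + 1) ^ (-(3 / 4) : ℝ)) atTop (𝓝 0) :=
    (tendsto_rpow_neg_atTop (by norm_num : (0 : ℝ) < 3 / 4)).comp h1
  have h3 : Tendsto (fun n : ℕ => K * ((n : ℝ) + 1) ^ (-(3 / 4) : ℝ)) atTop (𝓝 (K * 0)) :=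
    h2.const_mul K
  rw [mul_zero] at h3
  exact eventually_atTop.1 (h3.eventually (gt_mem_nhds (by norm_num)))

end LowTAux

theorem lowT (D : Dat) (h1 : SNewton) (h2 : SGoodT D) (h3 : SGamT D) (h4 : SB1T D) : SLowT D := by
  intro C
  obtain ⟨k1, hgood⟩ := h2
  obtain ⟨k0, K, hK, hKK⟩ := h3
  obtain ⟨N1, hN1⟩ := LowTAux.small K
  obtain ⟨N2, hN2⟩ := exists_nat_gt ((8 * K * C ^ 2) ^ 2)
  refine ⟨max N1 (max N2 (max 1 (max k0 k1))), fun τ hτ0 hτ1 n hn w hw => ?_⟩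
  simp only [max_le_iff] at hn
  obtain ⟨hnN1, hnN2, hn1, hnk0, hnk1⟩ := hn
  obtain ⟨hpos, hKn, hrat⟩ := hKK τ hτ0 hτ1
  obtain ⟨hd, -, -, h0⟩ := h4 τ hτ0
  have hno := LowTAux.nozero hd h0 hpos N1
    (fun k hk hk0 => lt_of_le_of_lt (hrat k hk0) (hN1 k hk)) n hnN1 hnk0
  have hn0 : (0 : ℝ) < n := by exact_mod_cast hn1
  have hw2 : 2 < ‖w‖ := by
    by_contra hc
    exact hno w (not_lt.1 hc) hw
  have hN := h1 (iteratedDeriv k1 (FT D τ)) (hgood τ hτ0 k1 le_rfl) (n - k1)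
  simp only [Pool.Agent.H24R2.JP.low_iter_add] at hN
  rw [show k1 + (n - k1) = n by omega, show k1 + (n - k1 + 1) = n + 1 by omega,
    show k1 + (n - k1 + 2) = n + 2 by omega] at hN
  have hN := hN hno w hw
  rw [h0, h0, h0] at hN
  have hre : (((gamT D τ (n + 1) : ℝ) : ℂ) / ((gamT D τ n : ℝ) : ℂ)) ^ 2 -
      ((gamT D τ (n + 2) : ℝ) : ℂ) / ((gamT D τ n : ℝ) : ℂ)
      = (((gamT D τ (n + 1) / gamT D τ n) ^ 2 - gamT D τ (n + 2) / gamT D τ n : ℝ) : ℂ) := by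
    push_cast; ring
  rw [hre, Complex.ofReal_re] at hN
  have hle := hN.trans (hKn n hnk0 hn1)
  by_contra hc
  have hc' : ‖w‖ ≤ C * n := not_lt.1 hc
  have hsq : ‖w‖ ^ 2 ≤ (C * n) ^ 2 := pow_le_pow_left₀ (norm_nonneg _) hc' 2
  have hwpos : 0 < ‖w‖ ^ 2 := by positivity
  have h5 : (n : ℝ) ^ (-(5 / 2) : ℝ) = ((n : ℝ) ^ 2 * Real.sqrt n)⁻¹ := by
    rw [Real.rpow_neg hn0.le, Real.sqrt_eq_rpow, ← Real.rpow_natCast, ← Real.rpow_add hn0]
    norm_num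
  rw [h5] at hle
  have hs0 : 0 < Real.sqrt n := Real.sqrt_pos.2 hn0
  have h6 : (n : ℝ) ^ 2 * Real.sqrt n ≤ K * (8 * ‖w‖ ^ 2) := by
    rw [div_le_iff₀ (by positivity), ← div_eq_mul_inv, div_mul_eq_mul_div, le_div_iff₀ (by positivity),
      one_mul] at hle
    exact hle
  have h7 : (n : ℝ) ^ 2 * Real.sqrt n ≤ (n : ℝ) ^ 2 * (8 * K * C ^ 2) := by nlinarith
  have h8 : Real.sqrt n ≤ 8 * K * C ^ 2 := le_of_mul_le_mul_left h7 (by positivity)
  have h9 : (n : ℝ) ≤ (8 * K * C ^ 2) ^ 2 := by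
    have := pow_le_pow_left₀ hs0.le h8 2
    rwa [Real.sq_sqrt hn0.le] at this
  have h10 : (N2 : ℝ) ≤ n := by exact_mod_cast hnN2
  linarith

end Pool.Agent.H986R2.GD
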