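import Pool.Agent.H986R2.GD.Spec
import Pool.Agent.H471R3.GJ.Mom

set_option autoImplicit false

/-!
# Positivity of the Taylor coefficients of high order, uniformly along the heat flow (task POST)
-/

namespace Pool.Agent.H986R2.GD

open Complex Filter Topology Polynomial MeasureTheory
open Pool.Agent.H471R3.GJ

namespace PosTAux

open Pool.Agent.H24R2.JP.MomAux Pool.Agent.H471R3.GJ.Mom

theorem cl_heat {w : ℝ → ℝ} (hc : Continuous w) {C c1 c2 : ℝ} (h1 : 0 < c1) (h2 : 0 < c2)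
    (hw : ∀ t, |w t| ≤ C * Real.exp (-c1 * Real.exp (c2 * |t|))) (τ : ℝ) :
    Cl (fun t => w t * Real.exp (τ * t ^ 2)) := by
  obtain ⟨B, hB⟩ := exp_dom (half_pos h1) h2 |τ| 2
  have hC : 0 ≤ C := const_nonneg hw
  have hcont : Continuous (fun t => w t * Real.exp (τ * t ^ 2)) :=
    hc.mul (Real.continuous_exp.comp (continuous_const.mul (continuous_id.pow 2)))
  refine cl_of_dec (C := C * Real.exp B) hcont (half_pos h1) h2 fun t => ?_
  have h3 := hB |t| (abs_nonneg t)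
  have h4 : 0 ≤ |t| := abs_nonneg t
  have h6 : |t| ^ 2 = t ^ 2 := sq_abs t
  have h7 : 0 ≤ |τ| := abs_nonneg τ
  have h8 : τ * t ^ 2 ≤ |τ| * (1 + |t|) ^ 2 := by
    have e1 : τ * t ^ 2 ≤ |τ| * t ^ 2 := mul_le_mul_of_nonneg_right (le_abs_self τ) (sq_nonneg t)
    have e2 : t ^ 2 ≤ (1 + |t|) ^ 2 := by nlinarith
    exact e1.trans (mul_le_mul_of_nonneg_left e2 h7)
  rw [abs_mul, abs_of_pos (Real.exp_pos _)]
  calc |w t| * Real.exp (τ * t ^ 2) ≤
        C * Real.exp (-c1 * Real.exp (c2 * |t|)) * Real.exp (τ * t ^ 2) :=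
        mul_le_mul_of_nonneg_right (hw t) (Real.exp_pos _).le
    _ = C * Real.exp (-c1 * Real.exp (c2 * |t|) + τ * t ^ 2) := by rw [mul_assoc, ← Real.exp_add]
    _ ≤ C * Real.exp (B + -(c1 / 2) * Real.exp (c2 * |t|)) := by
        refine mul_le_mul_of_nonneg_left (Real.exp_le_exp.2 ?_) hC
        linarith
    _ = _ := by rw [Real.exp_add]; ring

end PosTAux

open PosTAux Pool.Agent.H24R2.JP.MomAux Pool.Agent.H471R3.GJ.Mom in
theorem posT (D : Dat) (h : IsL D) (h1 : SKer D) : SPosT D := by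
  obtain ⟨T, hT⟩ := h.Φ_pos
  obtain ⟨C, c1, c2, hc1, hc2, hd⟩ := h.Φ_dec
  obtain ⟨p, hp⟩ : ∃ p : ℝ → ℝ, p = fun t => max (D.Φ t) 0 := ⟨_, rfl⟩
  obtain ⟨m, hm⟩ : ∃ m : ℝ → ℝ, m = fun t => max (-D.Φ t) 0 := ⟨_, rfl⟩
  have hpc : Continuous p := by rw [hp]; exact h.Φ_cont.max continuous_const
  have hmc : Continuous m := by rw [hm]; exact h.Φ_cont.neg.max continuous_const
  have hpd : ∀ t, |p t| ≤ C * Real.exp (-c1 * Real.exp (c2 * |t|)) := fun t => by
    rw [hp]; exact (max_abs _).trans (hd t)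
  have hmd : ∀ t, |m t| ≤ C * Real.exp (-c1 * Real.exp (c2 * |t|)) := fun t => by
    rw [hm]; exact (max_abs _).trans (by rw [abs_neg]; exact hd t)
  have hpcl : Cl p := cl_of_dec hpc hc1 hc2 hpd
  have hmcl : Cl m := cl_of_dec hmc hc1 hc2 hmd
  have hp0 : ∀ t, 0 ≤ p t := fun t => by rw [hp]; exact le_max_right _ _
  have hm0 : ∀ t, 0 ≤ m t := fun t => by rw [hm]; exact le_max_right _ _
  have hpm : ∀ t, D.Φ t = p t - m t := fun t => by
    rw [hp, hm]; exact (max_sub (D.Φ t)).symm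
  obtain ⟨a, ha⟩ : ∃ a : ℝ, a = max T 1 := ⟨_, rfl⟩
  have ha1 : 1 ≤ a := by rw [ha]; exact le_max_right _ _
  have haT : T ≤ a := by rw [ha]; exact le_max_left _ _
  have hap : 0 < a := by linarith
  obtain ⟨c, hc⟩ : ∃ c : ℝ, c = ∫ t : ℝ in (a + 1)..(a + 2), p t := ⟨_, rfl⟩
  have hc0 : 0 < c := by
    rw [hc]
    refine intervalIntegral.intervalIntegral_pos_of_pos_on (hpc.intervalIntegrable _ _)
      (fun t ht => ?_) (by linarith)
    rw [hp]
    exact lt_of_lt_of_le (hT t (by linarith [ht.1])) (le_max_left _ _)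
  obtain ⟨J, hJ⟩ : ∃ J : ℝ, J = ∫ t : ℝ, m t := ⟨_, rfl⟩
  have hJ0 : 0 ≤ J := by rw [hJ]; exact integral_nonneg hm0
  have hbig : ∀ t : ℝ, a < |t| → 0 < D.Φ t := by
    intro t ht
    have h4 : 0 < D.Φ |t| := hT _ (by linarith)
    rcases abs_cases t with ⟨e, -⟩ | ⟨e, -⟩
    · rwa [e] at h4
    · rw [e, h.Φ_even] at h4
      exact h4
  have hy0 : 0 ≤ (a / (a + 1)) ^ 2 := by positivity
  have hy1 : (a / (a + 1)) ^ 2 < 1 := by
    have : a / (a + 1) < 1 := by rw [div_lt_one (by linarith)]; linarith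
    have h3 : 0 ≤ a / (a + 1) := by positivity
    nlinarith
  obtain ⟨k0, hk0⟩ := exists_pow_lt_of_lt_one (show 0 < c / (J + 1) by positivity) hy1
  refine ⟨k0, fun τ hτ k hk => ?_⟩
  obtain ⟨-, hker⟩ := h1
  obtain ⟨-, -, -, hit⟩ := hker τ hτ
  have hcl : Cl (fun t => D.Φ t * Real.exp (τ * t ^ 2)) := cl_heat h.Φ_cont hc1 hc2 hd τ
  have hgam : gamT D τ k = (k.factorial : ℝ) / ((2 * k).factorial : ℝ) *
      ∫ u : ℝ, u ^ (2 * k) * (D.Φ u * Real.exp (τ * u ^ 2)) := by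
    unfold gamT
    rw [hit (2 * k) 0]
    congr 1
    have e : (∫ u : ℝ, ((u ^ (2 * k) * (D.Φ u * Real.exp (τ * u ^ 2)) : ℝ) : ℂ) *
        cexp (0 * u)) =
        ((∫ u : ℝ, u ^ (2 * k) * (D.Φ u * Real.exp (τ * u ^ 2)) : ℝ) : ℂ) := by
      rw [← integral_complex_ofReal]
      refine integral_congr_ae (Eventually.of_forall fun t => ?_)
      simp
    rw [e, ofReal_re]
  rw [hgam]
  refine mul_pos (by positivity) ?_
  -- the comparison function
  obtain ⟨A, hA⟩ : ∃ A : ℝ, A = (a + 1) ^ (2 * k) * Real.exp (τ * (a + 1) ^ 2) := ⟨_, rfl⟩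
  obtain ⟨B, hB⟩ : ∃ B : ℝ, B = a ^ (2 * k) * Real.exp (τ * a ^ 2) := ⟨_, rfl⟩
  have hA0 : 0 ≤ A := by rw [hA]; positivity
  have hB0 : 0 ≤ B := by rw [hB]; positivity
  have hint1 : Integrable (fun u : ℝ => (Set.Ioc (a + 1) (a + 2)).indicator p u) :=
    hpcl.integrable.indicator measurableSet_Ioc
  have hint2 : Integrable m := hmcl.integrable
  have hcomp : ∫ u : ℝ, (A * (Set.Ioc (a + 1) (a + 2)).indicator p u - B * m u) ≤
      ∫ u : ℝ, u ^ (2 * k) * (D.Φ u * Real.exp (τ * u ^ 2)) := by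
    refine integral_mono ((hint1.const_mul A).sub (hint2.const_mul B)) (hcl.pow (2 * k)).integrable
      fun u => ?_
    show A * (Set.Ioc (a + 1) (a + 2)).indicator p u - B * m u ≤
      u ^ (2 * k) * (D.Φ u * Real.exp (τ * u ^ 2))
    have hu0 : 0 ≤ u ^ (2 * k) := by rw [pow_mul]; positivity
    by_cases hu : |u| ≤ a
    · have hnot : u ∉ Set.Ioc (a + 1) (a + 2) := by
        intro hmem
        have := (abs_le.mp hu).2
        linarith [hmem.1]
      rw [Set.indicator_of_notMem hnot, mul_zero, zero_sub]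
      have e1 : u ^ (2 * k) ≤ a ^ (2 * k) := by
        rw [pow_mul, ← sq_abs u, ← pow_mul]
        exact pow_le_pow_left₀ (abs_nonneg u) hu _
      have e2 : Real.exp (τ * u ^ 2) ≤ Real.exp (τ * a ^ 2) := by
        refine Real.exp_le_exp.2 (mul_le_mul_of_nonneg_left ?_ hτ)
        rw [← sq_abs u]
        exact pow_le_pow_left₀ (abs_nonneg u) hu _
      have e3 : u ^ (2 * k) * Real.exp (τ * u ^ 2) ≤ B := by
        rw [hB]
        exact mul_le_mul e1 e2 (Real.exp_pos _).le (by positivity)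
      have e4 : u ^ (2 * k) * Real.exp (τ * u ^ 2) * m u ≤ B * m u :=
        mul_le_mul_of_nonneg_right e3 (hm0 u)
      have e5 : 0 ≤ u ^ (2 * k) * Real.exp (τ * u ^ 2) * p u := by
        have := hp0 u
        positivity
      have e6 : u ^ (2 * k) * (D.Φ u * Real.exp (τ * u ^ 2)) =
          u ^ (2 * k) * Real.exp (τ * u ^ 2) * p u - u ^ (2 * k) * Real.exp (τ * u ^ 2) * m u := by
        rw [hpm u]; ring
      rw [e6]
      linarith
    · push Not at hu
      have hΦ := hbig u hu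
      have hmu : m u = 0 := by
        rw [hm]; exact max_eq_right (by linarith)
      have hpu : p u = D.Φ u := by
        rw [hp]; exact max_eq_left hΦ.le
      rw [hmu, mul_zero, sub_zero]
      by_cases hmem : u ∈ Set.Ioc (a + 1) (a + 2)
      · rw [Set.indicator_of_mem hmem, hpu]
        have e1 : (a + 1) ^ (2 * k) ≤ u ^ (2 * k) :=
          pow_le_pow_left₀ (by linarith) hmem.1.le _
        have e2 : Real.exp (τ * (a + 1) ^ 2) ≤ Real.exp (τ * u ^ 2) := by
          refine Real.exp_le_exp.2 (mul_le_mul_of_nonneg_left ?_ hτ)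
          exact pow_le_pow_left₀ (by linarith) hmem.1.le _
        have e3 : A ≤ u ^ (2 * k) * Real.exp (τ * u ^ 2) := by
          rw [hA]
          exact mul_le_mul e1 e2 (Real.exp_pos _).le hu0
        calc A * D.Φ u ≤ u ^ (2 * k) * Real.exp (τ * u ^ 2) * D.Φ u :=
              mul_le_mul_of_nonneg_right e3 hΦ.le
          _ = _ := by ring
      · rw [Set.indicator_of_notMem hmem, mul_zero]
        positivity
  refine lt_of_lt_of_le ?_ hcomp
  have hval : ∫ u : ℝ, (A * (Set.Ioc (a + 1) (a + 2)).indicator p u - B * m u) =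
      A * c - B * J := by
    rw [integral_sub (hint1.const_mul A) (hint2.const_mul B), integral_const_mul,
      integral_const_mul, integral_indicator measurableSet_Ioc, hc, hJ,
      intervalIntegral.integral_of_le (by linarith)]
  rw [hval]
  -- the final inequality
  have hyk : ((a / (a + 1)) ^ 2) ^ k < c / (J + 1) :=
    lt_of_le_of_lt (pow_le_pow_of_le_one hy0 hy1.le hk) hk0
  have hlt : a ^ (2 * k) * (J + 1) < (a + 1) ^ (2 * k) * c := by
    rw [lt_div_iff₀ (by positivity)] at hyk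
    have e1 : ((a / (a + 1)) ^ 2) ^ k = a ^ (2 * k) / (a + 1) ^ (2 * k) := by
      rw [← pow_mul, div_pow]
    rw [e1] at hyk
    have h5 : 0 < (a + 1) ^ (2 * k) := by positivity
    have h6 := mul_lt_mul_of_pos_left hyk h5
    have h7 : (a + 1) ^ (2 * k) * (a ^ (2 * k) / (a + 1) ^ (2 * k) * (J + 1)) =
        a ^ (2 * k) * (J + 1) := by field_simp
    rw [h7] at h6
    exact h6
  have hlt2 : a ^ (2 * k) * J < (a + 1) ^ (2 * k) * c := by
    have : 0 < a ^ (2 * k) := by positivity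
    linarith
  have hexp : Real.exp (τ * a ^ 2) ≤ Real.exp (τ * (a + 1) ^ 2) := by
    refine Real.exp_le_exp.2 (mul_le_mul_of_nonneg_left ?_ hτ)
    exact pow_le_pow_left₀ hap.le (by linarith) _
  have h8 : B * J ≤ a ^ (2 * k) * J * Real.exp (τ * (a + 1) ^ 2) := by
    rw [hB]
    have h9 : 0 ≤ a ^ (2 * k) * J := by positivity
    calc a ^ (2 * k) * Real.exp (τ * a ^ 2) * J = a ^ (2 * k) * J * Real.exp (τ * a ^ 2) := by ring
      _ ≤ _ := mul_le_mul_of_nonneg_left hexp h9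
  have h10 : a ^ (2 * k) * J * Real.exp (τ * (a + 1) ^ 2) <
      (a + 1) ^ (2 * k) * c * Real.exp (τ * (a + 1) ^ 2) :=
    mul_lt_mul_of_pos_right hlt2 (Real.exp_pos _)
  have h11 : A * c = (a + 1) ^ (2 * k) * c * Real.exp (τ * (a + 1) ^ 2) := by rw [hA]; ring
  linarith

end Pool.Agent.H986R2.GD
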