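import Pool.Agent.H986R2.GD.Spec
import Pool.Agent.H986R2.GD.PosT
import Pool.Agent.H471R3.GJ.Mom

set_option autoImplicit false

/-!
# Moments of the kernel along the heat flow, uniformly in `0 ≤ τ ≤ 1/8` (task MOMT)
-/

namespace Pool.Agent.H986R2.GD

open Complex Filter Topology Polynomial MeasureTheory
open Pool.Agent.H471R3.GJ

namespace MomTAux

open Pool.Agent.H24R2.JP.MomAux Pool.Agent.H471R3.GJ.Mom

/-- Uniform version of `PP_ratio`. -/
theorem PP_ratio_unif {C c1 c2 : ℝ} (hC : 0 ≤ C) (h1 : 0 < c1) (h2 : 0 < c2) {c : ℝ}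
    (hc : 0 < c) :
    ∃ K : ℝ, 0 < K ∧ ∀ w : ℝ → ℝ, Cl w → (∀ t, 0 ≤ w t) →
      (∀ t, |w t| ≤ C * Real.exp (-c1 * Real.exp (c2 * |t|))) → (∀ k, c ≤ PP w k) →
      ∀ k : ℕ, PP w (k + 1) ≤ K * ((k : ℝ) + 1) ^ (1 / 4 : ℝ) * PP w k := by
  obtain ⟨B, hB⟩ := exp_dom h1 h2 2 9
  obtain ⟨E, hE⟩ : ∃ E : ℝ, E = ∫ t : ℝ, Real.exp (-|t|) := ⟨_, rfl⟩
  have hE0 : 0 ≤ E := by rw [hE]; exact integral_nonneg fun t => (Real.exp_pos _).le
  obtain ⟨A, hA⟩ : ∃ A : ℝ, A = C * Real.exp B := ⟨_, rfl⟩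
  have hA0 : 0 ≤ A := by rw [hA]; positivity
  refine ⟨1 + A * E / c, by positivity, fun w hw h0 hd hge k => ?_⟩
  have hk1 : (1 : ℝ) ≤ (k : ℝ) + 1 := by linarith [Nat.cast_nonneg (α := ℝ) k]
  obtain ⟨V, hV⟩ : ∃ V : ℝ, V = ((k : ℝ) + 1) ^ (1 / 4 : ℝ) := ⟨_, rfl⟩
  have hV1 : 1 ≤ V := by rw [hV]; exact Real.one_le_rpow hk1 (by norm_num)
  have hV4 : V ^ 4 = (k : ℝ) + 1 := by
    rw [hV, ← Real.rpow_natCast, ← Real.rpow_mul (by linarith)]
    norm_num
  rw [← hV]
  have htail : ∀ t : ℝ, ((k : ℝ) + 1) ≤ |t| ^ 8 →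
      t ^ (2 * (k + 1)) * w t ≤ A * Real.exp (-|t|) := by
    intro t ht
    have h0' : 0 ≤ |t| := abs_nonneg t
    have h3 : t ^ (2 * (k + 1)) ≤ Real.exp (2 * |t| ^ 8 * |t|) := by
      have e : t ^ (2 * (k + 1)) = |t| ^ (2 * (k + 1)) := by
        rw [pow_mul, pow_mul, sq_abs]
      rw [e]
      calc |t| ^ (2 * (k + 1)) ≤ (Real.exp |t|) ^ (2 * (k + 1)) := by
            refine pow_le_pow_left₀ h0' ?_ _
            linarith [Real.add_one_le_exp |t|]
        _ = Real.exp ((2 * (k + 1) : ℕ) * |t|) := by rw [Real.exp_nat_mul]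
        _ ≤ _ := by
            refine Real.exp_le_exp.2 ?_
            push_cast
            nlinarith
    have h4 : w t ≤ C * Real.exp (-c1 * Real.exp (c2 * |t|)) := (le_abs_self _).trans (hd t)
    have h5 := hB |t| h0'
    have h6 : 2 * |t| ^ 8 * |t| + |t| ≤ 2 * (1 + |t|) ^ 9 := by
      have e9 : (1 + |t|) ^ 9 = (1 + |t|) ^ 8 * (1 + |t|) := by ring
      have h7 : |t| ^ 8 ≤ (1 + |t|) ^ 8 := pow_le_pow_left₀ h0' (by linarith) 8
      have h8 : 1 + |t| ≤ (1 + |t|) ^ 8 := le_self_pow₀ (by linarith) (by norm_num)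
      have h9 := mul_le_mul_of_nonneg_right h7 h0'
      rw [e9]
      linarith
    calc t ^ (2 * (k + 1)) * w t ≤ Real.exp (2 * |t| ^ 8 * |t|) *
          (C * Real.exp (-c1 * Real.exp (c2 * |t|))) :=
          mul_le_mul h3 h4 (h0 t) (Real.exp_pos _).le
      _ = C * Real.exp (2 * |t| ^ 8 * |t| + -c1 * Real.exp (c2 * |t|)) := by
          rw [Real.exp_add]; ring
      _ ≤ C * Real.exp (B + -|t|) := by
          refine mul_le_mul_of_nonneg_left (Real.exp_le_exp.2 ?_) hC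
          linarith
      _ = _ := by rw [hA, Real.exp_add]; ring
  have hpt : ∀ t : ℝ, t ^ (2 * (k + 1)) * w t ≤
      V * (t ^ (2 * k) * w t) + A * Real.exp (-|t|) := by
    intro t
    have hp := even_nonneg h0 k t
    rcases le_total (t ^ 2) V with h | h
    · have h1 : t ^ (2 * (k + 1)) * w t = t ^ 2 * (t ^ (2 * k) * w t) := by ring
      rw [h1]
      have h2 := mul_le_mul_of_nonneg_right h hp
      have h3 : 0 ≤ A * Real.exp (-|t|) := by positivity
      linarith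
    · have h1 : ((k : ℝ) + 1) ≤ |t| ^ 8 := by
        rw [← hV4]
        have e : |t| ^ 8 = (t ^ 2) ^ 4 := by
          rw [← sq_abs t]; ring
        rw [e]
        exact pow_le_pow_left₀ (by linarith) h 4
      have h2 := htail t h1
      have h3 : 0 ≤ V * (t ^ (2 * k) * w t) := by positivity
      linarith
  have hint : Integrable (fun t : ℝ => Real.exp (-|t|)) :=
    Pool.Agent.Helper242.KK.integrable_exp_neg_abs_aux
  have hI := integral_mono (int_pow' hw (2 * (k + 1)))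
    (((int_pow' hw (2 * k)).const_mul V).add (hint.const_mul A)) hpt
  rw [integral_add' ((int_pow' hw (2 * k)).const_mul V) (hint.const_mul A),
    integral_const_mul, integral_const_mul, ← hE] at hI
  have h5 : PP w (k + 1) ≤ V * PP w k + A * E := by
    unfold PP
    linarith
  have hk := hge k
  have h7 : A * E ≤ A * E / c * V * PP w k := by
    have h8 : A * E / c * V * PP w k ≥ A * E / c * 1 * c := by
      have : 0 < PP w k := lt_of_lt_of_le hc hk
      gcongr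
    have h9 : A * E / c * 1 * c = A * E := by field_simp
    linarith
  nlinarith

/-- Uniform decay of the heated kernels. -/
theorem dec_heat {C c1 c2 : ℝ} (h1 : 0 < c1) (h2 : 0 < c2) :
    ∃ B : ℝ, ∀ w : ℝ → ℝ, 0 ≤ C → (∀ t, |w t| ≤ C * Real.exp (-c1 * Real.exp (c2 * |t|))) →
      ∀ τ : ℝ, 0 ≤ τ → τ ≤ 1 / 8 → ∀ t, |w t * Real.exp (τ * t ^ 2)| ≤
        C * Real.exp B * Real.exp (-(c1 / 2) * Real.exp (c2 * |t|)) := by
  obtain ⟨B, hB⟩ := exp_dom (half_pos h1) h2 (1 / 8) 2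
  refine ⟨B, fun w hC hw τ hτ hτ' t => ?_⟩
  have h3 := hB |t| (abs_nonneg t)
  have h4 : 0 ≤ |t| := abs_nonneg t
  have h6 : |t| ^ 2 = t ^ 2 := sq_abs t
  have h8 : τ * t ^ 2 ≤ 1 / 8 * (1 + |t|) ^ 2 := by
    have e1 : τ * t ^ 2 ≤ 1 / 8 * t ^ 2 := mul_le_mul_of_nonneg_right hτ' (sq_nonneg t)
    have e2 : t ^ 2 ≤ (1 + |t|) ^ 2 := by nlinarith
    linarith
  rw [abs_mul, abs_of_pos (Real.exp_pos _)]
  calc |w t| * Real.exp (τ * t ^ 2) ≤
        C * Real.exp (-c1 * Real.exp (c2 * |t|)) * Real.exp (τ * t ^ 2) :=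
        mul_le_mul_of_nonneg_right (hw t) (Real.exp_pos _).le
    _ = C * Real.exp (-c1 * Real.exp (c2 * |t|) + τ * t ^ 2) := by rw [mul_assoc, ← Real.exp_add]
    _ ≤ C * Real.exp (B + -(c1 / 2) * Real.exp (c2 * |t|)) := by
        refine mul_le_mul_of_nonneg_left (Real.exp_le_exp.2 ?_) hC
        linarith
    _ = _ := by rw [Real.exp_add]; ring

end MomTAux

open PosTAux MomTAux Pool.Agent.H24R2.JP.MomAux Pool.Agent.H471R3.GJ.Mom in
theorem momT (D : Dat) (h : IsL D) (hker : SKer D) : SMomT D := by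
  obtain ⟨T, hT⟩ := h.Φ_pos
  obtain ⟨C, c1, c2, h1, h2, hd⟩ := h.Φ_dec
  obtain ⟨p, hp⟩ : ∃ p : ℝ → ℝ, p = fun t => max (D.Φ t) 0 := ⟨_, rfl⟩
  obtain ⟨m, hm⟩ : ∃ m : ℝ → ℝ, m = fun t => max (-D.Φ t) 0 := ⟨_, rfl⟩
  have hpc : Continuous p := by rw [hp]; exact h.Φ_cont.max continuous_const
  have hmc : Continuous m := by rw [hm]; exact h.Φ_cont.neg.max continuous_const
  have hpd : ∀ t, |p t| ≤ C * Real.exp (-c1 * Real.exp (c2 * |t|)) := fun t => by
    rw [hp]; exact (max_abs _).trans (hd t)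
  have hmd : ∀ t, |m t| ≤ C * Real.exp (-c1 * Real.exp (c2 * |t|)) := fun t => by
    rw [hm]; exact (max_abs _).trans (by rw [abs_neg]; exact hd t)
  have hC : 0 ≤ C := const_nonneg hd
  have hmcl0 : Cl m := cl_of_dec hmc h1 h2 hmd
  have hp0 : ∀ t, 0 ≤ p t := fun t => by rw [hp]; exact le_max_right _ _
  have hm0 : ∀ t, 0 ≤ m t := fun t => by rw [hm]; exact le_max_right _ _
  obtain ⟨a, ha⟩ : ∃ a : ℝ, a = max T 1 := ⟨_, rfl⟩
  have ha1 : 1 ≤ a := by rw [ha]; exact le_max_right _ _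
  have haT : T ≤ a := by rw [ha]; exact le_max_left _ _
  have hap : 0 < a := by linarith
  obtain ⟨c, hc⟩ : ∃ c : ℝ, c = ∫ t : ℝ in (a + 1)..(a + 1 + 1), p t := ⟨_, rfl⟩
  have hc0 : 0 < c := by
    rw [hc]
    refine intervalIntegral.intervalIntegral_pos_of_pos_on (hpc.intervalIntegrable _ _)
      (fun t ht => ?_) (by linarith)
    rw [hp]
    exact lt_of_lt_of_le (hT t (by linarith [ht.1])) (le_max_left _ _)
  obtain ⟨J, hJ⟩ : ∃ J : ℝ, J = ∫ t : ℝ, m t := ⟨_, rfl⟩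
  have hJ0 : 0 ≤ J := by rw [hJ]; exact integral_nonneg hm0
  obtain ⟨B, hB⟩ := dec_heat (C := C) h1 h2
  obtain ⟨K1, hK1, hr⟩ := PP_ratio_unif (C := C * Real.exp B) (by positivity) (half_pos h1) h2 hc0
  obtain ⟨δ, hδ⟩ : ∃ δ : ℝ, δ = 2 * Real.log ((a + 1) / a) := ⟨_, rfl⟩
  have hδ0 : 0 < δ := by
    rw [hδ]
    have : 1 < (a + 1) / a := by rw [lt_div_iff₀ hap]; linarith
    have := Real.log_pos this
    linarith
  have hδe : ∀ k : ℕ, Real.exp (-(δ * k)) = (a / (a + 1)) ^ (2 * k) := by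
    intro k
    have e1 : -(δ * k) = ((2 * k : ℕ) : ℝ) * Real.log (a / (a + 1)) := by
      have e2 : Real.log (a / (a + 1)) = -Real.log ((a + 1) / a) := by
        rw [← Real.log_inv, inv_div]
      rw [e2, hδ]
      push_cast
      ring
    rw [e1, Real.exp_nat_mul, Real.exp_log (by positivity)]
  obtain ⟨K, hK⟩ : ∃ K : ℝ, K = K1 + J / c + 1 := ⟨_, rfl⟩
  have hK0 : 0 < K := by rw [hK]; positivity
  refine ⟨⌈Real.log (2 * K) / δ⌉₊, K, δ, hK0, hδ0, fun τ hτ hτ' => ?_⟩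
  -- the heated kernels
  obtain ⟨pt, hpt⟩ : ∃ pt : ℝ → ℝ, pt = fun t => p t * Real.exp (τ * t ^ 2) := ⟨_, rfl⟩
  obtain ⟨mt', hmt⟩ : ∃ mt' : ℝ → ℝ, mt' = fun t => m t * Real.exp (τ * t ^ 2) := ⟨_, rfl⟩
  obtain ⟨ft, hft⟩ : ∃ ft : ℝ → ℝ, ft = fun t => D.Φ t * Real.exp (τ * t ^ 2) := ⟨_, rfl⟩
  have hptcl : Cl pt := by rw [hpt]; exact cl_heat hpc h1 h2 hpd τ
  have hmtcl : Cl mt' := by rw [hmt]; exact cl_heat hmc h1 h2 hmd τ
  have hftcl : Cl ft := by rw [hft]; exact cl_heat h.Φ_cont h1 h2 hd τ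
  have hpt0 : ∀ t, 0 ≤ pt t := fun t => by
    rw [hpt]; exact mul_nonneg (hp0 t) (Real.exp_pos _).le
  have hmt0 : ∀ t, 0 ≤ mt' t := fun t => by
    rw [hmt]; exact mul_nonneg (hm0 t) (Real.exp_pos _).le
  have hptd : ∀ t, |pt t| ≤ C * Real.exp B * Real.exp (-(c1 / 2) * Real.exp (c2 * |t|)) := by
    intro t; rw [hpt]; exact hB p hC hpd τ hτ hτ' t
  obtain ⟨G, hG⟩ : ∃ G : ℝ, G = Real.exp (τ * (a + 1) ^ 2) := ⟨_, rfl⟩
  have hG1 : 1 ≤ G := by rw [hG]; exact Real.one_le_exp (by positivity)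
  have hge : ∀ k, (a + 1) ^ (2 * k) * (G * c) ≤ PP pt k := fun k => by
    refine le_trans (mul_le_mul_of_nonneg_left ?_ (by positivity))
      (PP_ge hptcl hpt0 (show (0 : ℝ) ≤ a + 1 by linarith) k)
    rw [hc, ← intervalIntegral.integral_const_mul]
    refine intervalIntegral.integral_mono_on (by linarith)
      ((hpc.intervalIntegrable _ _).const_mul G) (hptcl.1.intervalIntegrable _ _) fun t ht => ?_
    rw [hpt]
    show G * p t ≤ p t * Real.exp (τ * t ^ 2)
    have e1 : G ≤ Real.exp (τ * t ^ 2) := by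
      rw [hG]
      refine Real.exp_le_exp.2 (mul_le_mul_of_nonneg_left ?_ hτ)
      exact pow_le_pow_left₀ (by linarith) ht.1 _
    have e2 := mul_le_mul_of_nonneg_right e1 (hp0 t)
    linarith
  have hge1 : ∀ k, c ≤ PP pt k := fun k => by
    refine le_trans ?_ (hge k)
    have h3 : (1 : ℝ) ≤ (a + 1) ^ (2 * k) := one_le_pow₀ (by linarith)
    have h4 : c ≤ G * c := by nlinarith
    have h5 : 0 ≤ G * c := by positivity
    nlinarith
  have hpos : ∀ k, 0 < PP pt k := fun k => lt_of_lt_of_le hc0 (hge1 k)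
  have hmle : ∀ k, PP mt' k ≤ a ^ (2 * k) * (G * J) := by
    intro k
    unfold PP
    rw [hJ, ← integral_const_mul, ← integral_const_mul]
    refine integral_mono (int_pow' hmtcl _)
      ((hmcl0.integrable.const_mul G).const_mul _) fun t => ?_
    show t ^ (2 * k) * mt' t ≤ a ^ (2 * k) * (G * m t)
    by_cases ht : |t| ≤ a
    · have e1 : t ^ (2 * k) ≤ a ^ (2 * k) := by
        rw [pow_mul, ← sq_abs t, ← pow_mul]
        exact pow_le_pow_left₀ (abs_nonneg t) ht _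
      have e2 : Real.exp (τ * t ^ 2) ≤ G := by
        rw [hG]
        refine Real.exp_le_exp.2 (mul_le_mul_of_nonneg_left ?_ hτ)
        rw [← sq_abs t]
        exact pow_le_pow_left₀ (abs_nonneg t) (by linarith) _
      have e3 : mt' t ≤ G * m t := by
        rw [hmt]
        show m t * Real.exp (τ * t ^ 2) ≤ G * m t
        have := mul_le_mul_of_nonneg_left e2 (hm0 t)
        linarith
      exact mul_le_mul e1 e3 (hmt0 t) (by positivity)
    · have h3 : 0 < D.Φ t := by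
        have h4 : 0 < D.Φ |t| := hT _ (by linarith [not_le.1 ht])
        rcases abs_cases t with ⟨e, -⟩ | ⟨e, -⟩
        · rwa [e] at h4
        · rw [e, h.Φ_even] at h4
          exact h4
      have h5 : m t = 0 := by
        rw [hm]
        exact max_eq_right (by linarith)
      have h6 : mt' t = 0 := by
        rw [hmt]
        show m t * Real.exp (τ * t ^ 2) = 0
        rw [h5, zero_mul]
      rw [h5, h6]
      simp
  have hm_nonneg : ∀ k, 0 ≤ PP mt' k := fun k => integral_nonneg fun t => even_nonneg hmt0 k t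
  have hsub : ∀ k, PP ft k = PP pt k - PP mt' k := by
    intro k
    unfold PP
    rw [← integral_sub (int_pow' hptcl _) (int_pow' hmtcl _)]
    refine integral_congr_ae (Eventually.of_forall fun t => ?_)
    have e := max_sub (D.Φ t)
    have e' : D.Φ t = p t - m t := by rw [hp, hm]; exact e.symm
    simp only [hpt, hmt, hft]
    rw [e']
    ring
  have hdiff : ∀ k, |PP ft k - PP pt k| ≤ K * Real.exp (-(δ * k)) * PP pt k := by
    intro k
    have e : PP ft k - PP pt k = -PP mt' k := by rw [hsub]; ring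
    rw [e, abs_neg, abs_of_nonneg (hm_nonneg k), hδe]
    have h3 : a ^ (2 * k) * (G * J) ≤ J / c * (a / (a + 1)) ^ (2 * k) * PP pt k := by
      have h4 := mul_le_mul_of_nonneg_left (hge k)
        (show 0 ≤ J / c * (a / (a + 1)) ^ (2 * k) by positivity)
      have h5 : J / c * (a / (a + 1)) ^ (2 * k) * ((a + 1) ^ (2 * k) * (G * c)) =
          a ^ (2 * k) * (G * J) := by
        rw [div_pow]
        field_simp
      linarith
    have h6 : J / c * (a / (a + 1)) ^ (2 * k) * PP pt k ≤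
        K * (a / (a + 1)) ^ (2 * k) * PP pt k := by
      have h7 : J / c ≤ K := by rw [hK]; linarith
      have h8 := hpos k
      gcongr
    linarith [hmle k]
  have hgam : ∀ k, gamT D τ k = (k.factorial : ℝ) / ((2 * k).factorial : ℝ) * PP ft k := by
    intro k
    obtain ⟨-, hk2⟩ := hker
    obtain ⟨-, -, -, hit⟩ := hk2 τ hτ
    unfold gamT PP
    rw [hit (2 * k) 0, hft]
    congr 1
    have e : (∫ u : ℝ, ((u ^ (2 * k) * (D.Φ u * Real.exp (τ * u ^ 2)) : ℝ) : ℂ) *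
        cexp (0 * u)) =
        ((∫ u : ℝ, u ^ (2 * k) * (D.Φ u * Real.exp (τ * u ^ 2)) : ℝ) : ℂ) := by
      rw [← integral_complex_ofReal]
      refine integral_congr_ae (Eventually.of_forall fun t => ?_)
      simp
    rw [e, ofReal_re]
  refine ⟨PP ft, PP pt, hgam, hpos, fun k => PP_cs hptcl hpt0 (hpos k), fun k => ?_, hdiff,
    fun k hk => ?_⟩
  · refine (hr pt hptcl hpt0 hptd hge1 k).trans ?_
    have h3 : K1 ≤ K := by
      rw [hK]
      have : 0 ≤ J / c := by positivity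
      linarith
    have h8 := hpos k
    gcongr
  · have h3 : Real.log (2 * K) / δ ≤ k := Nat.ceil_le.1 hk
    rw [div_le_iff₀ hδ0] at h3
    have h4 : K * Real.exp (-(δ * k)) ≤ 1 / 2 := by
      have h5 : Real.exp (-(δ * k)) ≤ Real.exp (-Real.log (2 * K)) :=
        Real.exp_le_exp.2 (by linarith)
      rw [Real.exp_neg (Real.log _), Real.exp_log (by positivity)] at h5
      calc K * Real.exp (-(δ * k)) ≤ K * (2 * K)⁻¹ := mul_le_mul_of_nonneg_left h5 hK0.le
        _ = 1 / 2 := by field_simp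
    have h6 := hdiff k
    have h7 := hpos k
    have h8 := (abs_le.1 h6).1
    have h9 := mul_le_mul_of_nonneg_right h4 h7.le
    linarith

end Pool.Agent.H986R2.GD
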