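import Pool.Agent.H986R2.GD.Spec
import Pool.Agent.H986R2.DBN.PStir

set_option autoImplicit false

/-!
# Task PSTIR (generic version): the pieces of the heat flow in the window
-/

namespace Pool.Agent.H986R2.GD

open Complex Filter Topology Polynomial MeasureTheory
open Pool.Agent.H471R3.GJ

namespace PStG

theorem asym (K q R : ℝ) : ∀ᶠ V : ℝ in atTop, 1 ≤ V ∧ R + 1 + V < V ^ 8 / 8 ∧
    K * (R + V) ^ 2 ≤ V ^ 8 ∧ 2 * (q * (8 * Real.log V) + K) ≤ V ∧
    (K * (R + V) ^ 2 / V ^ 8 + 2 * Real.exp (-V ^ 2 / 4)) * Real.exp (K ^ 2 / 8) ≤ 1 / V ^ 2 := by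
  set B : ℝ := (|R| + 1) ^ 2 with hB
  have e0 : ∀ᶠ V : ℝ in atTop, 8 * (|R| + 3) ≤ V := eventually_ge_atTop _
  have e1 : ∀ᶠ V : ℝ in atTop, B * |K| ≤ V := eventually_ge_atTop _
  have e2 : ∀ᶠ V : ℝ in atTop, |q| * (8 * Real.log V) ≤ V / 8 := by
    have := Real.isLittleO_log_id_atTop.bound
      (show (0 : ℝ) < 1 / (64 * (|q| + 1)) by positivity)
    filter_upwards [this, eventually_ge_atTop (1 : ℝ)] with V hV h1
    rw [Real.norm_eq_abs, id, Real.norm_eq_abs, abs_of_nonneg (by linarith : (0:ℝ) ≤ V)] at hV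
    have h2 := le_abs_self (Real.log V)
    have hq := abs_nonneg q
    calc |q| * (8 * Real.log V) ≤ |q| * (8 * (1 / (64 * (|q| + 1)) * V)) := by
          apply mul_le_mul_of_nonneg_left _ hq
          linarith
      _ = |q| / (|q| + 1) * (V / 8) := by
          field_simp
          ring
      _ ≤ 1 * (V / 8) := by
          apply mul_le_mul_of_nonneg_right _ (by linarith)
          rw [div_le_one (by linarith)]
          linarith
      _ = V / 8 := one_mul _
  have e3 : ∀ᶠ V : ℝ in atTop, 4 * |K| ≤ V := eventually_ge_atTop _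
  have e4 : ∀ᶠ V : ℝ in atTop, B * |K| * Real.exp (K ^ 2 / 8) * 2 ≤ V :=
    eventually_ge_atTop _
  have e5 : ∀ᶠ V : ℝ in atTop, (V ^ 2 / 4) * Real.exp (-(V ^ 2 / 4)) ≤
      1 / (16 * Real.exp (K ^ 2 / 8)) := by
    have h1 := Real.tendsto_pow_mul_exp_neg_atTop_nhds_zero 1
    have h2 : Tendsto (fun V : ℝ => V ^ 2 / 4) atTop atTop :=
      (tendsto_pow_atTop (two_ne_zero)).atTop_div_const (by norm_num)
    have h3 := h1.comp h2
    have h4 : (0 : ℝ) < 1 / (16 * Real.exp (K ^ 2 / 8)) := by positivity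
    filter_upwards [h3.eventually (gt_mem_nhds h4)] with V hV
    simp only [Function.comp, pow_one] at hV
    exact hV.le
  filter_upwards [e0, e1, e2, e3, e4, e5] with V h0 h1 h2 h3 h4 h5
  have hR := abs_nonneg R
  have hR' := le_abs_self R
  have hR'' := neg_abs_le R
  have hK := abs_nonneg K
  have hK' := le_abs_self K
  have hV1 : 24 ≤ V := by linarith
  have hV0 : 0 < V := by linarith
  have hlog0 : 0 ≤ Real.log V := Real.log_nonneg (by linarith)
  have hp2 : V ≤ V ^ 2 := by nlinarith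
  have hp4 : V ^ 2 ≤ V ^ 4 := by
    have : V ^ 4 = V ^ 2 * V ^ 2 := by ring
    rw [this]
    have : 1 ≤ V ^ 2 := by nlinarith
    nlinarith
  have hp8 : V ^ 2 * V ^ 4 ≤ V ^ 8 := by
    have : V ^ 8 = V ^ 2 * V ^ 4 * V ^ 2 := by ring
    rw [this]
    have : 1 ≤ V ^ 2 := by nlinarith
    have h0 : 0 ≤ V ^ 2 * V ^ 4 := by positivity
    nlinarith
  have hsq : (R + V) ^ 2 ≤ B * V ^ 2 := by
    have h6 : |R + V| ≤ (|R| + 1) * V := by
      rw [abs_le]
      constructor <;> nlinarith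
    calc (R + V) ^ 2 = |R + V| ^ 2 := (sq_abs _).symm
      _ ≤ ((|R| + 1) * V) ^ 2 := pow_le_pow_left₀ (abs_nonneg _) h6 2
      _ = B * V ^ 2 := by rw [hB]; ring
  refine ⟨by linarith, ?_, ?_, ?_, ?_⟩
  · have h7 : V ^ 2 ≤ V ^ 8 := by
      have h0 : 1 ≤ V ^ 4 := by nlinarith
      nlinarith [hp8, sq_nonneg V]
    have h8 : (|R| + 2) * V < V ^ 2 / 8 := by nlinarith
    nlinarith
  · calc K * (R + V) ^ 2 ≤ |K| * (B * V ^ 2) :=
        mul_le_mul hK' hsq (by positivity) hK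
      _ = (B * |K|) * V ^ 2 := by ring
      _ ≤ V * V ^ 2 := mul_le_mul_of_nonneg_right (by linarith) (by positivity)
      _ ≤ V ^ 4 * V ^ 2 := mul_le_mul_of_nonneg_right (by linarith) (by positivity)
      _ ≤ V ^ 8 := by linarith
  · have h6 : q * (8 * Real.log V) ≤ |q| * (8 * Real.log V) :=
      mul_le_mul_of_nonneg_right (le_abs_self q) (by positivity)
    linarith
  · set E := Real.exp (K ^ 2 / 8) with hE
    have hE0 : 0 < E := Real.exp_pos _
    have t1 : K * (R + V) ^ 2 / V ^ 8 * E ≤ 1 / (2 * V ^ 2) := by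
      rw [div_mul_eq_mul_div, div_le_div_iff₀ (by positivity) (by positivity)]
      have h6 : K * (R + V) ^ 2 ≤ |K| * (B * V ^ 2) :=
        mul_le_mul hK' hsq (by positivity) hK
      calc K * (R + V) ^ 2 * E * (2 * V ^ 2) ≤ |K| * (B * V ^ 2) * E * (2 * V ^ 2) := by
            apply mul_le_mul_of_nonneg_right _ (by positivity)
            exact mul_le_mul_of_nonneg_right h6 hE0.le
        _ = (B * |K| * E * 2) * (V ^ 2 * V ^ 2) := by ring
        _ ≤ V * (V ^ 2 * V ^ 2) := mul_le_mul_of_nonneg_right h4 (by positivity)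
        _ ≤ V ^ 2 * (V ^ 2 * V ^ 2) := mul_le_mul_of_nonneg_right hp2 (by positivity)
        _ = V ^ 2 * V ^ 4 := by ring
        _ ≤ 1 * V ^ 8 := by linarith
    have t2 : 2 * Real.exp (-V ^ 2 / 4) * E ≤ 1 / (2 * V ^ 2) := by
      have h6 : -V ^ 2 / 4 = -(V ^ 2 / 4) := by ring
      rw [h6]
      rw [le_div_iff₀ (by positivity)] at h5 ⊢
      have h7 : 2 * Real.exp (-(V ^ 2 / 4)) * E * (2 * V ^ 2) =
          V ^ 2 / 4 * Real.exp (-(V ^ 2 / 4)) * (16 * E) := by ring
      rw [h7]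
      exact h5
    have t3 : 1 / (2 * V ^ 2) + 1 / (2 * V ^ 2) = 1 / V ^ 2 := by
      field_simp
      norm_num
    rw [add_mul]
    linarith

end PStG

open PStG Pool.Agent.H986R2.DBN.PSt

theorem pstir (D : Dat) (hD : IsL D) (h : SStir2 D) : SPStir D := by
  obtain ⟨K, T1, hK, hT1, hst⟩ := h
  obtain ⟨V0, hV0⟩ := eventually_atTop.1 (PStG.asym K (D.κ * D.c) (rr D + 4))
  refine ⟨max T1 ((max V0 1) ^ 8), le_max_of_le_left hT1, ?_⟩
  intro t τ m ht hτ hτ8 hm hmt u hu
  have hκ := hD.κ_pos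
  have hc := hD.c_pos
  have hw : 0 < D.w := by
    have := hD.w_large
    have := hD.A_nonneg
    nlinarith
  have hrr : 0 ≤ rr D := by
    rw [rr]; positivity
  have htT1 : T1 ≤ t := le_trans (le_max_left _ _) ht
  have ht1 : 1 ≤ t := hT1.trans htT1
  have ht0 : 0 < t := by linarith
  set V : ℝ := t ^ (1 / 8 : ℝ) with hVdef
  have hVpos : 0 < V := Real.rpow_pos_of_pos ht0 _
  have hV8 : V ^ 8 = t := by
    rw [hVdef, ← Real.rpow_natCast, ← Real.rpow_mul ht0.le]
    norm_num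
  have hVge : V0 ≤ V := by
    have h1 : (max V0 1) ^ 8 ≤ t := le_trans (le_max_right _ _) ht
    have h2 : (max V0 1) ≤ V := by
      by_contra hlt
      push Not at hlt
      have h3 : V ^ 8 < (max V0 1) ^ 8 := pow_lt_pow_left₀ hlt hVpos.le (by norm_num)
      rw [hV8] at h3
      linarith
    exact (le_max_left _ _).trans h2
  obtain ⟨c1, c2, c3, c4, c5⟩ := hV0 V hVge
  rw [hV8] at c2 c3 c5
  have hlog : 8 * Real.log V = Real.log t := by
    rw [← hV8, Real.log_pow]; norm_num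
  have hlogt : 0 ≤ Real.log t := Real.log_nonneg ht1
  have hOm : D.κ * Om D t = D.κ * D.c * (8 * Real.log V) := by rw [Om, hlog]; ring
  have hOm0 : 0 ≤ Om D t := by rw [Om]; positivity
  obtain ⟨hne, hbe, -, hball, happ⟩ := hst t htT1
  -- constants
  have hs1 : 2 * Real.sqrt τ ≤ 1 := by
    have : Real.sqrt τ ≤ 1 / 2 := by
      rw [Real.sqrt_le_left (by norm_num)]
      linarith
    linarith
  have hs0 : 0 ≤ 2 * Real.sqrt τ := by positivity
  have hm0 : (m : ℂ) ≠ 0 := by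
    have : m ≠ 0 := by omega
    exact_mod_cast this
  have hlogm0 : 0 ≤ Real.log m := Real.log_natCast_nonneg m
  have hlogm1 : D.κ * Real.log m ≤ D.κ * Om D t := by
    apply mul_le_mul_of_nonneg_left _ hκ.le
    have hmR : (m : ℝ) ≤ Real.exp (2 / 5 * Om D t) := by
      have h1 : (m : ℝ) ≤ (MM D t : ℝ) := by exact_mod_cast hmt
      exact h1.trans (Nat.floor_le (Real.exp_pos _).le)
    have h1 : Real.log m ≤ Real.log (Real.exp (2 / 5 * Om D t)) :=
      Real.log_le_log (by exact_mod_cast hm) hmR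
    rw [Real.log_exp] at h1
    linarith
  have hκlogm0 : 0 ≤ D.κ * Real.log m := by positivity
  set b : ℂ := be D t - ((D.κ * Real.log m : ℝ) : ℂ) with hb
  have hbre : |b.re| ≤ D.κ * Om D t + K := by
    have h1 : |(be D t - ((D.κ * Om D t : ℝ) : ℂ)).re| ≤ K := (Complex.abs_re_le_norm _).trans hbe
    rw [Complex.sub_re, Complex.ofReal_re, abs_le] at h1
    have h2 : b.re = (be D t).re - D.κ * Real.log m := by
      rw [hb, Complex.sub_re, Complex.ofReal_re]
    rw [h2, abs_le]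
    constructor <;> linarith
  have hbim : |b.im| ≤ K := by
    have h1 : |(be D t - ((D.κ * Om D t : ℝ) : ℂ)).im| ≤ K := (Complex.abs_im_le_norm _).trans hbe
    rw [Complex.sub_im, Complex.ofReal_im, sub_zero] at h1
    have h2 : b.im = (be D t).im := by
      rw [hb, Complex.sub_im, Complex.ofReal_im, sub_zero]
    rw [h2]; exact h1
  set G : ℂ → ℂ := fun w => D.HH w * (D.a m * (m : ℂ) ^ (-(D.κ : ℂ) * w)) with hG
  have hGd : DifferentiableOn ℂ G (Metric.ball (I * t) (t / 8)) := by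
    intro w hw
    rw [mem_ball_iff_norm] at hw
    have h1 := (hball (w - I * t) hw.le).2.1
    rw [add_sub_cancel] at h1
    have h2 : DifferentiableAt ℂ (fun w : ℂ => (m : ℂ) ^ (-(D.κ : ℂ) * w)) w := by
      have h3 : DifferentiableAt ℂ (fun w : ℂ => (-(D.κ : ℂ) * w : ℂ)) w := by fun_prop
      exact h3.const_cpow (Or.inl hm0)
    exact (h1.mul (h2.const_mul _)).differentiableWithinAt
  have hw0 : ‖I * t + u - I * t‖ + 1 + 2 * Real.sqrt τ * V < t / 8 := by
    rw [add_sub_cancel_left]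
    have h1 : 2 * Real.sqrt τ * V ≤ 1 * V := mul_le_mul_of_nonneg_right hs1 hVpos.le
    linarith
  constructor
  · have h1 := diff_int G (I * t) (t / 8) V (2 * Real.sqrt τ) hGd hVpos.le hs0 (I * t + u) hw0
    have h2 := h1.const_mul ((1 / Real.sqrt Real.pi : ℝ) : ℂ)
    exact h2
  · set E : ℂ := D.HH (I * t) * (D.a m * (m : ℂ) ^ (-(D.κ : ℂ) * (I * t))) with hE
    set η : ℝ := K * (rr D + 4 + V) ^ 2 / t with hη
    have hη0 : 0 ≤ η := by positivity
    set F : ℝ → ℂ := fun v => G (I * t + u + ((2 * Real.sqrt τ * v : ℝ) : ℂ)) with hFdef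
    have hnorm : ∀ v ∈ Set.Icc (-V) V, ‖((2 * Real.sqrt τ * v : ℝ) : ℂ)‖ ≤ V := by
      intro v hv
      rw [Complex.norm_real, Real.norm_eq_abs, abs_mul, abs_of_nonneg hs0]
      calc 2 * Real.sqrt τ * |v| ≤ 1 * V :=
            mul_le_mul hs1 (abs_le.2 hv) (abs_nonneg _) zero_le_one
        _ = V := one_mul _
    have hFc : ContinuousOn F (Set.Icc (-V) V) := by
      apply hGd.continuousOn.comp
      · fun_prop
      · intro v hv
        rw [mem_ball_iff_norm]
        have h1 : I * t + u + ((2 * Real.sqrt τ * v : ℝ) : ℂ) - I * t =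
            u + ((2 * Real.sqrt τ * v : ℝ) : ℂ) := by ring
        rw [h1]
        have h2 := hnorm v hv
        have h3 := norm_add_le u ((2 * Real.sqrt τ * v : ℝ) : ℂ)
        linarith
    have hpow : ∀ z : ℂ, (m : ℂ) ^ (-(D.κ : ℂ) * (I * t + z)) =
        (m : ℂ) ^ (-(D.κ : ℂ) * (I * t)) * cexp (-((D.κ * Real.log m : ℝ) : ℂ) * z) := by
      intro z
      have h1 : (-(D.κ : ℂ) * (I * t + z) : ℂ) = (-(D.κ : ℂ) * (I * t)) + (-(D.κ : ℂ) * z) := by
        ring
      rw [h1, Complex.cpow_add _ _ hm0, Complex.cpow_def_of_ne_zero hm0 (-(D.κ : ℂ) * z),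
        ← Complex.natCast_log]
      congr 2
      push_cast
      ring
    have hF : ∀ v ∈ Set.Icc (-V) V,
        ‖F v - E * cexp (b * (u + ((2 * Real.sqrt τ * v : ℝ) : ℂ)))‖ ≤
        η * ‖E * cexp (b * (u + ((2 * Real.sqrt τ * v : ℝ) : ℂ)))‖ := by
      intro v hv
      set z : ℂ := u + ((2 * Real.sqrt τ * v : ℝ) : ℂ) with hz
      have hzn : ‖z‖ ≤ rr D + 4 + V := (norm_add_le _ _).trans (add_le_add hu (hnorm v hv))
      have hzn2 : K * ‖z‖ ^ 2 ≤ K * (rr D + 4 + V) ^ 2 :=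
        mul_le_mul_of_nonneg_left (pow_le_pow_left₀ (norm_nonneg _) hzn 2) (by linarith)
      have h1 := happ z (hzn2.trans c3)
      have h2 : F v = D.HH (I * t + z) * (D.a m * ((m : ℂ) ^ (-(D.κ : ℂ) * (I * t)) *
          cexp (-((D.κ * Real.log m : ℝ) : ℂ) * z))) := by
        rw [hFdef, hG]
        simp only
        have h3 : I * t + u + ((2 * Real.sqrt τ * v : ℝ) : ℂ) = I * t + z := by rw [hz]; ring
        rw [h3, hpow z]
      have h4 : E * cexp (b * z) = (D.HH (I * t) * cexp (be D t * z)) *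
          (D.a m * ((m : ℂ) ^ (-(D.κ : ℂ) * (I * t)) *
            cexp (-((D.κ * Real.log m : ℝ) : ℂ) * z))) := by
        have h5 : cexp (b * z) = cexp (be D t * z) *
            cexp (-((D.κ * Real.log m : ℝ) : ℂ) * z) := by
          rw [← Complex.exp_add, hb]
          congr 1
          ring
        rw [h5, hE]; ring
      rw [h2, h4, ← sub_mul, norm_mul, norm_mul (D.HH (I * t) * cexp (be D t * z))]
      rw [← mul_assoc η]
      refine mul_le_mul_of_nonneg_right ?_ (norm_nonneg _)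
      refine h1.trans (mul_le_mul_of_nonneg_right ?_ (norm_nonneg _))
      rw [hη]
      exact div_le_div_of_nonneg_right hzn2 ht0.le
    have hb4 : 4 * Real.sqrt τ * |b.re| ≤ V := by
      have h1 : |b.re| ≤ D.κ * D.c * (8 * Real.log V) + K := by rw [← hOm]; exact hbre
      have h2 : 4 * Real.sqrt τ ≤ 2 := by linarith
      calc 4 * Real.sqrt τ * |b.re| ≤ 2 * (D.κ * D.c * (8 * Real.log V) + K) :=
            mul_le_mul h2 h1 (abs_nonneg _) (by norm_num)
        _ ≤ V := c4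
    have key := approx E b u τ V η F hτ hVpos.le hη0 hb4 hFc hF
    have hPT : PT D τ t m (I * t + u) = ((1 / Real.sqrt Real.pi : ℝ) : ℂ) *
        (∫ v in (-V)..V, ((Real.exp (-v ^ 2) : ℝ) : ℂ) * F v) := rfl
    have hmain : cT D τ t * aT D τ t m * cexp (b * u) =
        E * cexp ((τ : ℂ) * b ^ 2) * cexp (b * u) := by
      have h1 : cexp ((τ : ℂ) * be D t ^ 2) * cexp ((τ : ℂ) * (b ^ 2 - be D t ^ 2)) =
          cexp ((τ : ℂ) * b ^ 2) := by
        rw [← Complex.exp_add]; congr 1; ring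
      rw [cT, aT, ← hb, hE, ← h1]; ring
    rw [hPT, hmain]
    refine key.trans ?_
    have hnm : ‖E * cexp ((τ : ℂ) * b ^ 2) * cexp (b * u)‖ =
        ‖E‖ * Real.exp ((b * u).re) * Real.exp (τ * b.re ^ 2 - τ * b.im ^ 2) := by
      rw [norm_mul, norm_mul, Complex.norm_exp, Complex.norm_exp, Complex.re_ofReal_mul]
      have h1 : (b ^ 2).re = b.re ^ 2 - b.im ^ 2 := by
        rw [pow_two, Complex.mul_re]; ring
      rw [h1, mul_sub]; ring
    rw [hnm]
    have hexp : Real.exp (τ * b.re ^ 2) ≤ Real.exp (K ^ 2 / 8) *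
        Real.exp (τ * b.re ^ 2 - τ * b.im ^ 2) := by
      rw [← Real.exp_add]
      apply Real.exp_le_exp.2
      have h1 : b.im ^ 2 ≤ K ^ 2 := by
        rw [← sq_abs b.im]
        exact pow_le_pow_left₀ (abs_nonneg _) hbim 2
      have h2 : τ * b.im ^ 2 ≤ 1 / 8 * K ^ 2 := mul_le_mul hτ8 h1 (by positivity) (by norm_num)
      linarith
    have ht4 : t ^ (-(1 / 4) : ℝ) = 1 / V ^ 2 := by
      have h1 : V ^ 2 = t ^ (1 / 4 : ℝ) := by
        rw [hVdef, ← Real.rpow_natCast, ← Real.rpow_mul ht0.le]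
        congr 1
        norm_num
      rw [h1, Real.rpow_neg ht0.le, one_div (t ^ (1 / 4 : ℝ))]
    rw [ht4]
    have hA0 : 0 ≤ ‖E‖ * Real.exp ((b * u).re) := by positivity
    calc (η + 2 * Real.exp (-V ^ 2 / 4)) * (‖E‖ * Real.exp ((b * u).re) * Real.exp (τ * b.re ^ 2))
        ≤ (η + 2 * Real.exp (-V ^ 2 / 4)) * (‖E‖ * Real.exp ((b * u).re) *
          (Real.exp (K ^ 2 / 8) * Real.exp (τ * b.re ^ 2 - τ * b.im ^ 2))) := by
          apply mul_le_mul_of_nonneg_left _ (by positivity)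
          exact mul_le_mul_of_nonneg_left hexp hA0
      _ = ((η + 2 * Real.exp (-V ^ 2 / 4)) * Real.exp (K ^ 2 / 8)) *
          (‖E‖ * Real.exp ((b * u).re) * Real.exp (τ * b.re ^ 2 - τ * b.im ^ 2)) := by ring
      _ ≤ 1 / V ^ 2 * (‖E‖ * Real.exp ((b * u).re) * Real.exp (τ * b.re ^ 2 - τ * b.im ^ 2)) := by
          apply mul_le_mul_of_nonneg_right c5
          positivity

end Pool.Agent.H986R2.GD
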