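import Pool.Agent.H986R2.GD.Spec

set_option autoImplicit false

/-!
# Task PUP (generic version): the pieces of the heat flow in the upper half of the window
-/

namespace Pool.Agent.H986R2.GD.PUpAux

open Complex Filter Topology MeasureTheory
open Pool.Agent.H471R3.GJ

/-- The exponent of the error. -/
noncomputable def EE (D : Dat) : ℝ := 39 / 50 * D.w - 1 / 2 - 3 / 4 * D.κ

/-- The radius. -/
noncomputable def RR (D : Dat) : ℝ := rr D / 2 + 1 / 10

/-- Conditions valid for all large `t`. -/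
theorem ev (D : Dat) (h : IsL D) (L : ℝ) (hL : 0 ≤ L) : ∃ T : ℝ, 1 ≤ T ∧ ∀ t : ℝ, T ≤ t →
    400 ≤ t ∧ RR D + t ^ (1 / 8 : ℝ) + RR D ≤ t / 16 ∧ RR D ≤ t ^ (1 / 8 : ℝ) ∧
    8 * L ≤ (t ^ (1 / 8 : ℝ)) ^ (1 / 4 : ℝ) ∧
    (D.κ * Om D t + L) ^ 2 + (D.A + 3) * Om D t + RR D * (D.κ * Om D t + L) + L ≤
      (t ^ (1 / 8 : ℝ)) ^ 2 / 2 := by
  have hκ := h.κ_pos
  have hc := h.c_pos
  have hA := h.A_nonneg
  have hw := h.w_large
  have hr : 0 ≤ RR D := by
    unfold RR rr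
    have : 0 ≤ 2 * D.w / D.κ := div_nonneg (by nlinarith) hκ.le
    linarith
  have h0 : Tendsto (fun t : ℝ => t ^ (1 / 8 : ℝ)) atTop atTop := tendsto_rpow_atTop (by norm_num)
  have h1 : Tendsto (fun t : ℝ => (t ^ (1 / 8 : ℝ)) ^ (1 / 4 : ℝ)) atTop atTop :=
    (tendsto_rpow_atTop (by norm_num)).comp h0
  -- a small constant
  set q : ℝ := 1 / (100 * (1 + D.κ * D.c + (D.A + 3) * D.c)) with hq
  have hden : 0 < 100 * (1 + D.κ * D.c + (D.A + 3) * D.c) := by positivity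
  have hq0 : 0 < q := by rw [hq]; positivity
  have h2 : ∀ᶠ t : ℝ in atTop, ‖Real.log t‖ ≤ q * ‖t ^ (1 / 8 : ℝ)‖ :=
    (isLittleO_log_rpow_atTop (by norm_num : (0 : ℝ) < 1 / 8)).bound hq0
  have hall : ∀ᶠ t : ℝ in atTop, 400 ≤ t ∧ RR D + t ^ (1 / 8 : ℝ) + RR D ≤ t / 16 ∧
    RR D ≤ t ^ (1 / 8 : ℝ) ∧
    8 * L ≤ (t ^ (1 / 8 : ℝ)) ^ (1 / 4 : ℝ) ∧
    (D.κ * Om D t + L) ^ 2 + (D.A + 3) * Om D t + RR D * (D.κ * Om D t + L) + L ≤
      (t ^ (1 / 8 : ℝ)) ^ 2 / 2 := by
    filter_upwards [h2, eventually_ge_atTop (1000 : ℝ), h0.eventually_ge_atTop 21,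
      h0.eventually_ge_atTop (100 * L), h1.eventually_ge_atTop (8 * L),
      h0.eventually_ge_atTop (RR D)] with t a1 a3 a4 a5 a6 a7
    have b0 : 0 < t := by linarith
    have b1 : 0 < t ^ (1 / 8 : ℝ) := Real.rpow_pos_of_pos b0 _
    have b2 : 0 ≤ Real.log t := Real.log_nonneg (by linarith)
    rw [Real.norm_of_nonneg b2, Real.norm_of_nonneg b1.le] at a1
    have b3 : (t ^ (1 / 8 : ℝ)) ^ 8 = t := by
      rw [← Real.rpow_natCast, ← Real.rpow_mul b0.le]; norm_num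
    set V := t ^ (1 / 8 : ℝ) with hV
    have a2 : 3 * V ≤ t / 16 := by
      have e1 : (21 : ℝ) ^ 7 ≤ V ^ 7 := pow_le_pow_left₀ (by norm_num) a4 7
      have e2 : t = V * V ^ 7 := by rw [← b3]; ring
      have e3 : V * 21 ^ 7 ≤ t := by rw [e2]; exact mul_le_mul_of_nonneg_left e1 b1.le
      norm_num at e3
      linarith
    refine ⟨by linarith, by linarith, a7, a6, ?_⟩
    have c1 : Om D t = D.c * Real.log t := rfl
    have c2 : 0 ≤ Om D t := by rw [c1]; positivity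
    have hqd : q * (100 * (1 + D.κ * D.c + (D.A + 3) * D.c)) = 1 := by
      rw [hq]; field_simp
    have c3 : D.κ * Om D t ≤ V / 100 := by
      have e1 : D.κ * Om D t ≤ D.κ * D.c * (q * V) := by
        rw [c1, mul_assoc D.κ D.c]
        gcongr
      have e2 : 0 ≤ (1 + (D.A + 3) * D.c) * (q * V) := by positivity
      have e3 : V / 100 = (1 + D.κ * D.c + (D.A + 3) * D.c) * (q * V) := by
        have : V / 100 = (q * (100 * (1 + D.κ * D.c + (D.A + 3) * D.c))) * V / 100 := by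
          rw [hqd, one_mul]
        rw [this]; ring
      rw [e3]
      linarith
    have c3' : (D.A + 3) * Om D t ≤ V / 100 := by
      have e1 : (D.A + 3) * Om D t ≤ (D.A + 3) * D.c * (q * V) := by
        rw [c1, mul_assoc (D.A + 3) D.c]
        gcongr
      have e2 : 0 ≤ (1 + D.κ * D.c) * (q * V) := by positivity
      have e3 : V / 100 = (1 + D.κ * D.c + (D.A + 3) * D.c) * (q * V) := by
        have : V / 100 = (q * (100 * (1 + D.κ * D.c + (D.A + 3) * D.c))) * V / 100 := by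
          rw [hqd, one_mul]
        rw [this]; ring
      rw [e3]
      linarith
    have c4 : L ≤ V / 100 := by linarith
    have c7 : 0 ≤ D.κ * Om D t := by positivity
    have c6 : (D.κ * Om D t + L) ^ 2 ≤ (V / 50) ^ 2 := by
      apply sq_le_sq'
      · linarith
      · linarith
    have c8 : RR D * (D.κ * Om D t + L) ≤ V * (V / 50) :=
      mul_le_mul a7 (by linarith) (by linarith) b1.le
    nlinarith
  obtain ⟨T, hT⟩ := eventually_atTop.1 hall
  exact ⟨max T 1, le_max_right _ _, fun t ht => hT t (le_trans (le_max_left _ _) ht)⟩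

/-- The Dirichlet piece. -/
noncomputable def pc (D : Dat) (m : ℕ) (z : ℂ) : ℂ :=
  D.HH z * (D.a m * (m : ℂ) ^ (-(D.κ : ℂ) * z))

/-- Data at the height `t`. -/
structure Dt (D : Dat) (t K2 K3 : ℝ) : Prop where
  t400 : 400 ≤ t
  k2 : 1 ≤ K2
  k3 : 1 ≤ K3
  hne : D.HH (I * t) ≠ 0
  hbe : ‖be D t - ((D.κ * Om D t : ℝ) : ℂ)‖ ≤ K2
  hHH : ∀ u : ℂ, ‖u‖ ≤ t / 8 → 0 < (I * t + u).im ∧ DifferentiableAt ℂ D.HH (I * t + u) ∧
    ‖D.HH (I * t + u)‖ ≤ ‖D.HH (I * t)‖ * Real.exp (D.κ * Om D t * u.re + K2 * ‖u‖)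
  tail : STail D
  hx : ∀ u : ℂ, |u.im| ≤ rr D + 2 →
    (|u.re| ≤ t / 16 → ‖D.XX (I * t + u)‖ ≤
      K3 * ‖D.HH (I * t)‖ * Real.exp ((D.A + 3) * Om D t + (D.κ * Om D t + K3) * |u.re|)) ∧
    (t / 16 ≤ |u.re| →
      ‖D.XX (I * t + u)‖ ≤ ‖D.HH (I * t)‖ * Real.exp (K3 * |u.re| ^ (7 / 4 : ℝ)))

theorem Om_nonneg (D : Dat) (h : IsL D) {t : ℝ} (ht : 1 ≤ t) : 0 ≤ Om D t :=
  mul_nonneg h.c_pos.le (Real.log_nonneg ht)

theorem MM_bounds (D : Dat) (h : IsL D) {t : ℝ} (ht : 1 ≤ t) : 1 ≤ MM D t ∧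
    ((MM D t : ℕ) : ℝ) ≤ Real.exp (2 / 5 * Om D t) ∧
    2 / 5 * Om D t - 1 ≤ Real.log (MM D t) ∧ Real.log (MM D t) ≤ 2 / 5 * Om D t := by
  have hO := Om_nonneg D h ht
  have hE1 : 1 ≤ Real.exp (2 / 5 * Om D t) := Real.one_le_exp (by positivity)
  have hM1 : 1 ≤ MM D t := Nat.le_floor (by simpa using hE1)
  have hM0 : (0 : ℝ) < MM D t := by exact_mod_cast hM1
  have hMle : ((MM D t : ℕ) : ℝ) ≤ Real.exp (2 / 5 * Om D t) := Nat.floor_le (Real.exp_pos _).le
  have hMge : Real.exp (2 / 5 * Om D t) ≤ 2 * (MM D t : ℕ) := by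
    have h5 : Real.exp (2 / 5 * Om D t) < ((MM D t : ℕ) : ℝ) + 1 := Nat.lt_floor_add_one _
    have h6 : (1 : ℝ) ≤ (MM D t : ℕ) := by exact_mod_cast hM1
    linarith
  refine ⟨hM1, hMle, ?_, ?_⟩
  · have := Real.log_le_log (Real.exp_pos _) hMge
    rw [Real.log_exp, Real.log_mul (by norm_num) hM0.ne'] at this
    have := Real.log_two_lt_d9
    linarith
  · have := Real.log_le_log hM0 hMle
    rwa [Real.log_exp] at this

/-- The absolutely convergent region. -/
theorem ptA {D : Dat} (h : IsL D) {t K2 K3 : ℝ} (P : Dt D t K2 K3) (z : ℂ) (R : ℝ)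
    (h1 : |z.im| ≤ R) (h2 : D.A + 2 ≤ D.κ * z.re) (h3 : z.re + R ≤ t / 8) :
    ‖D.XX (I * t + z) - ∑ m ∈ Finset.Icc 1 (MM D t), pc D m (I * t + z)‖ ≤
      2 * D.A0 * ‖D.HH (I * t)‖ * Real.exp (K2 * R) *
        Real.exp (2 / 5 * (D.A + 1) * Om D t + (3 / 5 * (D.κ * Om D t) + K2 + D.κ) * z.re) := by
  have hκ := h.κ_pos
  have hA := h.A_nonneg
  have hA0 := h.A0_one
  have ht := P.t400
  have k2 := P.k2
  have hre : 0 ≤ z.re := by
    by_contra hcon
    push Not at hcon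
    nlinarith
  have hn : ‖z‖ ≤ z.re + R := by
    refine (Complex.norm_le_abs_re_add_abs_im z).trans ?_
    rw [abs_of_nonneg hre]; linarith
  obtain ⟨i1, -, i3⟩ := P.hHH z (hn.trans h3)
  obtain ⟨hM1, hMle, hM2, hM3⟩ := MM_bounds D h (by linarith : 1 ≤ t)
  have hM0 : (0 : ℝ) < MM D t := by exact_mod_cast hM1
  have hzre : (I * t + z).re = z.re := by simp
  have e0 : ∑ m ∈ Finset.Icc 1 (MM D t), pc D m (I * t + z) =
      D.HH (I * t + z) * ∑ m ∈ Finset.Icc 1 (MM D t),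
        D.a m * (m : ℂ) ^ (-(D.κ : ℂ) * (I * t + z)) := by
    rw [Finset.mul_sum]; rfl
  have e1 := P.tail (I * t + z) (MM D t) i1 (by rw [hzre]; exact h2) hM1
  rw [hzre] at e1
  have e2 : ((MM D t : ℕ) : ℝ) ^ (D.A + 1 - D.κ * z.re) ≤
      Real.exp (2 / 5 * (D.A + 1) * Om D t - 2 / 5 * (D.κ * Om D t) * z.re + D.κ * z.re) := by
    rw [Real.rpow_def_of_pos hM0]
    apply Real.exp_le_exp.2
    have h5 : 0 ≤ D.κ * z.re - (D.A + 1) := by linarith
    have h6 := mul_le_mul_of_nonneg_right hM2 h5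
    nlinarith
  rw [e0]
  calc ‖D.XX (I * t + z) - D.HH (I * t + z) * ∑ m ∈ Finset.Icc 1 (MM D t),
        D.a m * (m : ℂ) ^ (-(D.κ : ℂ) * (I * t + z))‖
      ≤ 2 * D.A0 * ‖D.HH (I * t + z)‖ * ((MM D t : ℕ) : ℝ) ^ (D.A + 1 - D.κ * z.re) := e1
    _ ≤ 2 * D.A0 * (‖D.HH (I * t)‖ * Real.exp (D.κ * Om D t * z.re + K2 * (z.re + R))) *
        Real.exp (2 / 5 * (D.A + 1) * Om D t - 2 / 5 * (D.κ * Om D t) * z.re + D.κ * z.re) := by
        refine mul_le_mul (mul_le_mul_of_nonneg_left ?_ (by linarith)) e2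
          (Real.rpow_nonneg hM0.le _) (by positivity)
        refine i3.trans (mul_le_mul_of_nonneg_left (Real.exp_le_exp.2 ?_) (norm_nonneg _))
        have := mul_le_mul_of_nonneg_left hn (by linarith : 0 ≤ K2)
        linarith
    _ = _ := by
        have e3 : Real.exp (D.κ * Om D t * z.re + K2 * (z.re + R)) *
            Real.exp (2 / 5 * (D.A + 1) * Om D t - 2 / 5 * (D.κ * Om D t) * z.re + D.κ * z.re) =
            Real.exp (K2 * R) *
            Real.exp (2 / 5 * (D.A + 1) * Om D t + (3 / 5 * (D.κ * Om D t) + K2 + D.κ) * z.re) := by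
          rw [← Real.exp_add, ← Real.exp_add]; congr 1; ring
        calc _ = 2 * D.A0 * ‖D.HH (I * t)‖ * (Real.exp (D.κ * Om D t * z.re + K2 * (z.re + R)) *
            Real.exp (2 / 5 * (D.A + 1) * Om D t - 2 / 5 * (D.κ * Om D t) * z.re + D.κ * z.re)) := by
              ring
          _ = _ := by rw [e3]; ring

/-- The size of a term. -/
theorem norm_term (D : Dat) (h : IsL D) (m : ℕ) (hm : 1 ≤ m) (z : ℂ) :
    ‖D.a m * (m : ℂ) ^ (-(D.κ : ℂ) * z)‖ ≤
      D.A0 * Real.exp (Real.log m * D.A) * Real.exp (Real.log m * (-(D.κ * z.re))) := by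
  have hm0 : (0 : ℝ) < m := by exact_mod_cast hm
  rw [norm_mul, Complex.norm_natCast_cpow_of_pos (by omega)]
  have e1 : (-(D.κ : ℂ) * z).re = -(D.κ * z.re) := by
    rw [← Complex.ofReal_neg, Complex.re_ofReal_mul]; ring
  rw [e1, Real.rpow_def_of_pos hm0]
  refine mul_le_mul_of_nonneg_right ?_ (Real.exp_pos _).le
  have := h.a_le m hm
  rwa [Real.rpow_def_of_pos hm0] at this

/-- The rest of the region. -/
theorem ptB {D : Dat} (h : IsL D) {t K2 K3 : ℝ} (P : Dt D t K2 K3) (z : ℂ) (R y : ℝ) (hR : 0 ≤ R)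
    (hR2 : R ≤ rr D + 2) (hy : 0 ≤ y) (h1 : |z.im| ≤ R) (h2 : D.κ * z.re ≤ D.A + 2)
    (h4 : z.re ≤ R + y) (h5 : -z.re ≤ y) (h3 : 2 * R + y ≤ t / 16) :
    ‖D.XX (I * t + z) - ∑ m ∈ Finset.Icc 1 (MM D t), pc D m (I * t + z)‖ ≤
      (K3 * Real.exp (K3 * R) + D.A0 * Real.exp (2 * K2 * R)) * ‖D.HH (I * t)‖ *
        Real.exp ((2 * D.A + 5) * Om D t + (D.κ * Om D t + K2 + K3) * y) := by
  have hκ := h.κ_pos
  have hA := h.A_nonneg
  have hA0 := h.A0_one
  have ht := P.t400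
  have k2 := P.k2
  have k3 := P.k3
  have hO := Om_nonneg D h (by linarith : 1 ≤ t)
  have hκO : 0 ≤ D.κ * Om D t := by positivity
  have habs : |z.re| ≤ R + y := abs_le.2 ⟨by linarith, h4⟩
  have hn : ‖z‖ ≤ 2 * R + y := by
    refine (Complex.norm_le_abs_re_add_abs_im z).trans ?_
    linarith
  obtain ⟨i1, -, i3⟩ := P.hHH z (by linarith)
  -- κ Om |re| ≤ (A+2) Om + κ Om y
  have hko : D.κ * Om D t * |z.re| ≤ (D.A + 2) * Om D t + D.κ * Om D t * y := by
    rcases abs_cases z.re with ⟨e, -⟩ | ⟨e, -⟩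
    · rw [e]
      have := mul_le_mul_of_nonneg_right h2 hO
      have := mul_nonneg hκO hy
      nlinarith
    · rw [e]
      have := mul_le_mul_of_nonneg_left h5 hκO
      have : 0 ≤ (D.A + 2) * Om D t := by positivity
      linarith
  have f1 : ‖D.XX (I * t + z)‖ ≤ K3 * Real.exp (K3 * R) * ‖D.HH (I * t)‖ *
      Real.exp ((2 * D.A + 5) * Om D t + (D.κ * Om D t + K2 + K3) * y) := by
    refine ((P.hx z (by linarith)).1 (by linarith)).trans ?_
    have e1 : (D.A + 3) * Om D t + (D.κ * Om D t + K3) * |z.re| ≤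
        K3 * R + ((2 * D.A + 5) * Om D t + (D.κ * Om D t + K2 + K3) * y) := by
      have := mul_le_mul_of_nonneg_left habs (by linarith : 0 ≤ K3)
      have := mul_nonneg (by linarith : 0 ≤ K2) hy
      nlinarith
    calc K3 * ‖D.HH (I * t)‖ * Real.exp ((D.A + 3) * Om D t + (D.κ * Om D t + K3) * |z.re|)
        ≤ K3 * ‖D.HH (I * t)‖ *
          Real.exp (K3 * R + ((2 * D.A + 5) * Om D t + (D.κ * Om D t + K2 + K3) * y)) := by
          gcongr
      _ = _ := by rw [Real.exp_add]; ring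
  obtain ⟨hM1, hMle, hM2, hM3⟩ := MM_bounds D h (by linarith : 1 ≤ t)
  have hzre : (I * t + z).re = z.re := by simp
  have f2 : ∀ m ∈ Finset.Icc 1 (MM D t), ‖pc D m (I * t + z)‖ ≤ ‖D.HH (I * t)‖ *
      (D.A0 * Real.exp (2 * K2 * R) *
      Real.exp ((2 / 5 * D.A + (D.A + 2)) * Om D t + K2 * y)) := by
    intro m hm
    obtain ⟨m1, m2⟩ := Finset.mem_Icc.1 hm
    have m0 : (0 : ℝ) < m := by exact_mod_cast m1
    have l0 : 0 ≤ Real.log m := Real.log_natCast_nonneg m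
    have l1 : Real.log m ≤ 2 / 5 * Om D t :=
      (Real.log_le_log m0 (by exact_mod_cast m2)).trans hM3
    have g1 := norm_term D h m m1 (I * t + z)
    rw [hzre] at g1
    have g2 : Real.log m * D.A ≤ 2 / 5 * D.A * Om D t := by
      have := mul_le_mul_of_nonneg_right l1 hA
      linarith
    have g3 : D.κ * Om D t * z.re + Real.log m * (-(D.κ * z.re)) ≤ (D.A + 2) * Om D t := by
      rcases le_total 0 z.re with hs | hs
      · have a1 : 0 ≤ Real.log m * (D.κ * z.re) := by positivity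
        have a2 := mul_le_mul_of_nonneg_right h2 hO
        nlinarith
      · have a1 := mul_le_mul_of_nonneg_right l1 (by nlinarith : 0 ≤ -(D.κ * z.re))
        have a3 : 0 ≤ Om D t * (-(D.κ * z.re)) := mul_nonneg hO (by nlinarith)
        have a4 : 0 ≤ (D.A + 2) * Om D t := by positivity
        nlinarith
    rw [pc, norm_mul]
    calc ‖D.HH (I * t + z)‖ * ‖D.a m * (m : ℂ) ^ (-(D.κ : ℂ) * (I * t + z))‖
        ≤ (‖D.HH (I * t)‖ * Real.exp (D.κ * Om D t * z.re + K2 * (2 * R + y))) *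
          (D.A0 * Real.exp (2 / 5 * D.A * Om D t) * Real.exp (Real.log m * (-(D.κ * z.re)))) := by
          refine mul_le_mul ?_ ?_ (norm_nonneg _) (by positivity)
          · refine i3.trans (mul_le_mul_of_nonneg_left (Real.exp_le_exp.2 ?_) (norm_nonneg _))
            have := mul_le_mul_of_nonneg_left hn (by linarith : 0 ≤ K2)
            linarith
          · refine g1.trans ?_
            gcongr
      _ = ‖D.HH (I * t)‖ * (D.A0 * Real.exp ((D.κ * Om D t * z.re +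
            Real.log m * (-(D.κ * z.re))) + K2 * (2 * R + y) + 2 / 5 * D.A * Om D t)) := by
          rw [Real.exp_add, Real.exp_add, Real.exp_add, Real.exp_add]; ring
      _ ≤ ‖D.HH (I * t)‖ * (D.A0 * Real.exp (2 * K2 * R +
            ((2 / 5 * D.A + (D.A + 2)) * Om D t + K2 * y))) := by
          refine mul_le_mul_of_nonneg_left (mul_le_mul_of_nonneg_left (Real.exp_le_exp.2 ?_)
            (by linarith)) (norm_nonneg _)
          have e1 : K2 * (2 * R + y) = 2 * K2 * R + K2 * y := by ring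
          have e2 : (2 / 5 * D.A + (D.A + 2)) * Om D t =
            2 / 5 * D.A * Om D t + (D.A + 2) * Om D t := by ring
          rw [e1, e2]
          linarith
      _ = _ := by rw [Real.exp_add (2 * K2 * R)]; ring
  have f3 : ‖∑ m ∈ Finset.Icc 1 (MM D t), pc D m (I * t + z)‖ ≤
      D.A0 * Real.exp (2 * K2 * R) * ‖D.HH (I * t)‖ *
        Real.exp ((2 * D.A + 5) * Om D t + (D.κ * Om D t + K2 + K3) * y) := by
    refine (norm_sum_le _ _).trans ((Finset.sum_le_sum f2).trans ?_)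
    rw [Finset.sum_const, Nat.card_Icc, Nat.add_sub_cancel, nsmul_eq_mul]
    calc ((MM D t : ℕ) : ℝ) * (‖D.HH (I * t)‖ * (D.A0 * Real.exp (2 * K2 * R) *
          Real.exp ((2 / 5 * D.A + (D.A + 2)) * Om D t + K2 * y)))
        ≤ Real.exp (2 / 5 * Om D t) * (‖D.HH (I * t)‖ * (D.A0 * Real.exp (2 * K2 * R) *
          Real.exp ((2 / 5 * D.A + (D.A + 2)) * Om D t + K2 * y))) := by gcongr
      _ = D.A0 * Real.exp (2 * K2 * R) * ‖D.HH (I * t)‖ *
          Real.exp (2 / 5 * Om D t + ((2 / 5 * D.A + (D.A + 2)) * Om D t + K2 * y)) := by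
          rw [Real.exp_add (2 / 5 * Om D t)]; ring
      _ ≤ _ := by
          refine mul_le_mul_of_nonneg_left (Real.exp_le_exp.2 ?_) (by positivity)
          have a1 := mul_nonneg hκO hy
          have a2 := mul_nonneg (by linarith : 0 ≤ K3) hy
          have a3 := mul_nonneg hA hO
          nlinarith
  calc ‖D.XX (I * t + z) - ∑ m ∈ Finset.Icc 1 (MM D t), pc D m (I * t + z)‖
      ≤ ‖D.XX (I * t + z)‖ + ‖∑ m ∈ Finset.Icc 1 (MM D t), pc D m (I * t + z)‖ := norm_sub_le _ _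
    _ ≤ _ := by
      refine (add_le_add f1 f3).trans (le_of_eq ?_)
      ring

theorem ptC {D : Dat} (h : IsL D) {t K2 K3 L : ℝ} (P : Dt D t K2 K3) (hL : K3 ≤ L) (R : ℝ)
    (hR : 0 ≤ R) (hR2 : R ≤ rr D + 2)
    (v1 : R ≤ t ^ (1 / 8 : ℝ)) (v2 : 8 * L ≤ (t ^ (1 / 8 : ℝ)) ^ (1 / 4 : ℝ))
    (v3 : (D.κ * Om D t + L) ^ 2 + (D.A + 3) * Om D t + R * (D.κ * Om D t + L) + L ≤
      (t ^ (1 / 8 : ℝ)) ^ 2 / 2)
    (z : ℂ) (v : ℝ) (h1 : |z.im| ≤ R) (h2 : |z.re| ≤ R + |v|)
    (h3 : t ^ (1 / 8 : ℝ) ≤ |v|) :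
    Real.exp (-v ^ 2) * ‖D.XX (I * t + z)‖ ≤ ‖D.HH (I * t)‖ * Real.exp (-(1 / 4) * v ^ 2) := by
  have hκ := h.κ_pos
  have hA := h.A_nonneg
  have ht := P.t400
  have k2 := P.k2
  have k3 := P.k3
  have hO := Om_nonneg D h (by linarith : 1 ≤ t)
  have hκO : 0 ≤ D.κ * Om D t := by positivity
  have hV0 : 0 < t ^ (1 / 8 : ℝ) := Real.rpow_pos_of_pos (by linarith) _
  set V := t ^ (1 / 8 : ℝ) with hV
  have hv2 : |v| ^ 2 = v ^ 2 := sq_abs v
  have hVv : V ^ 2 ≤ v ^ 2 := by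
    rw [← hv2]; exact pow_le_pow_left₀ hV0.le h3 2
  rcases le_total |z.re| (t / 16) with hz | hz
  · have f1 := (P.hx z (by linarith)).1 hz
    have f2 : K3 ≤ Real.exp K3 := by have := Real.add_one_le_exp K3; linarith
    calc Real.exp (-v ^ 2) * ‖D.XX (I * t + z)‖
        ≤ Real.exp (-v ^ 2) * (Real.exp K3 * ‖D.HH (I * t)‖ *
            Real.exp ((D.A + 3) * Om D t + (D.κ * Om D t + K3) * (R + |v|))) := by
          refine mul_le_mul_of_nonneg_left (f1.trans ?_) (Real.exp_pos _).le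
          gcongr
      _ = ‖D.HH (I * t)‖ * Real.exp (-v ^ 2 + K3 +
            ((D.A + 3) * Om D t + (D.κ * Om D t + K3) * (R + |v|))) := by
          rw [Real.exp_add (-v ^ 2 + K3), Real.exp_add (-v ^ 2) K3]; ring
      _ ≤ _ := by
          refine mul_le_mul_of_nonneg_left (Real.exp_le_exp.2 ?_) (norm_nonneg _)
          have g1 : (D.κ * Om D t + K3) * |v| ≤ (1 / 4) * v ^ 2 + (D.κ * Om D t + K3) ^ 2 := by
            nlinarith [sq_nonneg ((1 / 2) * |v| - (D.κ * Om D t + K3))]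
          have g2 : (D.κ * Om D t + K3) ^ 2 ≤ (D.κ * Om D t + L) ^ 2 :=
            pow_le_pow_left₀ (by linarith) (by linarith) 2
          have g3 : (D.κ * Om D t + K3) * R ≤ R * (D.κ * Om D t + L) := by
            rw [mul_comm]
            exact mul_le_mul_of_nonneg_left (by linarith) hR
          nlinarith
  · have f1 := (P.hx z (by linarith)).2 hz
    have hvpos : 0 < |v| := by linarith
    have g0 : |z.re| ≤ 2 * |v| := by linarith
    have g1 : |z.re| ^ (7 / 4 : ℝ) ≤ 4 * |v| ^ (7 / 4 : ℝ) := by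
      refine (Real.rpow_le_rpow (abs_nonneg _) g0 (by norm_num)).trans ?_
      rw [Real.mul_rpow (by norm_num) hvpos.le]
      refine mul_le_mul_of_nonneg_right ?_ (Real.rpow_nonneg hvpos.le _)
      calc (2 : ℝ) ^ (7 / 4 : ℝ) ≤ (2 : ℝ) ^ (2 : ℝ) :=
            Real.rpow_le_rpow_of_exponent_le (by norm_num) (by norm_num)
        _ = 4 := by norm_num
    have g2 : 8 * K3 ≤ |v| ^ (1 / 4 : ℝ) := by
      have : V ^ (1 / 4 : ℝ) ≤ |v| ^ (1 / 4 : ℝ) := Real.rpow_le_rpow hV0.le h3 (by norm_num)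
      linarith
    have g3 : |v| ^ (1 / 4 : ℝ) * |v| ^ (7 / 4 : ℝ) = v ^ 2 := by
      rw [← Real.rpow_add hvpos, ← hv2, ← Real.rpow_natCast]; norm_num
    have g4 : 8 * K3 * |v| ^ (7 / 4 : ℝ) ≤ v ^ 2 := by
      rw [← g3]; exact mul_le_mul_of_nonneg_right g2 (Real.rpow_nonneg hvpos.le _)
    calc Real.exp (-v ^ 2) * ‖D.XX (I * t + z)‖
        ≤ Real.exp (-v ^ 2) * (‖D.HH (I * t)‖ * Real.exp (K3 * |z.re| ^ (7 / 4 : ℝ))) :=
          mul_le_mul_of_nonneg_left f1 (Real.exp_pos _).le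
      _ = ‖D.HH (I * t)‖ * Real.exp (-v ^ 2 + K3 * |z.re| ^ (7 / 4 : ℝ)) := by
          rw [Real.exp_add]; ring
      _ ≤ _ := by
          refine mul_le_mul_of_nonneg_left (Real.exp_le_exp.2 ?_) (norm_nonneg _)
          have := mul_le_mul_of_nonneg_left g1 (by linarith : 0 ≤ K3)
          nlinarith [sq_nonneg v]

/-- The Gaussian integrals. -/
theorem gaussI (B : ℝ) : Integrable (fun v : ℝ => Real.exp (-v ^ 2 + B * v)) ∧
    ∫ v : ℝ, Real.exp (-v ^ 2 + B * v) = Real.sqrt Real.pi * Real.exp (B ^ 2 / 4) := by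
  have h1 : (fun v : ℝ => Real.exp (-v ^ 2 + B * v)) =
      fun v : ℝ => Real.exp (B ^ 2 / 4) * Real.exp (-(1 : ℝ) * (v - B / 2) ^ 2) := by
    funext v
    rw [← Real.exp_add]; congr 1; ring
  have h2 : Integrable (fun v : ℝ => Real.exp (-(1 : ℝ) * v ^ 2)) := integrable_exp_neg_mul_sq one_pos
  constructor
  · rw [h1]
    exact (h2.comp_sub_right (B / 2)).const_mul _
  · rw [h1, integral_const_mul]
    have h3 := integral_sub_right_eq_self (fun v : ℝ => Real.exp (-(1 : ℝ) * v ^ 2)) (μ := volume) (B / 2)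
    rw [h3, integral_gaussian, div_one, mul_comm]

theorem main {D : Dat} (hD : IsL D) {t τ K0 K2 K3 L : ℝ} (P : Dt D t K2 K3)
    (hL : K2 + K3 + D.κ = L)
    (v0 : RR D + t ^ (1 / 8 : ℝ) + RR D ≤ t / 16)
    (v1 : RR D ≤ t ^ (1 / 8 : ℝ)) (v2 : 8 * L ≤ (t ^ (1 / 8 : ℝ)) ^ (1 / 4 : ℝ))
    (v3 : (D.κ * Om D t + L) ^ 2 + (D.A + 3) * Om D t + RR D * (D.κ * Om D t + L) + L ≤
      (t ^ (1 / 8 : ℝ)) ^ 2 / 2)
    (hτ : 0 < τ) (hτ8 : τ ≤ 1 / 8) (hK0 : τ * Om D t ≤ K0) (w : ℂ) (hw : ‖w - I * t‖ ≤ RR D)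
    (hw0 : 0 ≤ w.re)
    (heatI : Integrable (fun v : ℝ => ((Real.exp (-v ^ 2) : ℝ) : ℂ) *
      D.XX (w + ((2 * Real.sqrt τ * v : ℝ) : ℂ))))
    (heat : XT D τ w = ((1 / Real.sqrt Real.pi : ℝ) : ℂ) *
      ∫ v : ℝ, ((Real.exp (-v ^ 2) : ℝ) : ℂ) * D.XX (w + ((2 * Real.sqrt τ * v : ℝ) : ℂ))) :
    ‖XT D τ w - ∑ m ∈ Finset.Icc 1 (MM D t), PT D τ t m w‖ ≤
      ((2 * (2 * D.A0 * Real.exp ((2 * K2 + D.κ) * RR D) +
        (K3 * Real.exp (K3 * RR D) + D.A0 * Real.exp (2 * K2 * RR D))) *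
        Real.exp (2 * L * D.κ * K0 + L ^ 2) + 2) * Real.exp (2 * K2 * D.κ * K0 + K2 ^ 2)) *
        ‖cT D τ t‖ * Real.exp (EE D * Om D t) := by
  have hκ := hD.κ_pos
  have hA := hD.A_nonneg
  have hA0 := hD.A0_one
  have hwl := hD.w_large
  have ht := P.t400
  have k2 := P.k2
  have k3 := P.k3
  have hO := Om_nonneg D hD (by linarith : 1 ≤ t)
  have hκO : 0 ≤ D.κ * Om D t := by positivity
  have hrκ : D.κ * RR D = D.w + 1 / 10 * D.κ := by
    unfold RR rr; field_simp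
  have hR0 : 0 ≤ RR D := by
    by_contra hcon
    push Not at hcon
    nlinarith
  have hR2 : RR D ≤ rr D + 2 := by
    have : RR D = rr D / 2 + 1 / 10 := rfl
    linarith
  have hE0 : 0 ≤ EE D := by unfold EE; nlinarith
  have hE1 : 2 * D.A + 5 ≤ EE D := by unfold EE; nlinarith
  have hE2 : 2 / 5 * (D.A + 1) + 3 / 5 * (D.κ * RR D) ≤ EE D := by
    rw [hrκ]; unfold EE; nlinarith
  have hE1' := mul_le_mul_of_nonneg_right hE1 hO
  have hE2' := mul_le_mul_of_nonneg_right hE2 hO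
  have hEO : 0 ≤ EE D * Om D t := by positivity
  have hL0 : 0 ≤ L := by linarith
  set R := RR D with hRdef
  set E := EE D with hEdef
  have hV0 : 0 < t ^ (1 / 8 : ℝ) := Real.rpow_pos_of_pos (by linarith) _
  set V := t ^ (1 / 8 : ℝ) with hV
  set M := MM D t with hM
  set u : ℂ := w - I * t with hu
  have hur : u.re = w.re := by simp [hu]
  have hur1 : u.re ≤ R := (Complex.abs_re_le_norm u).trans hw |> (le_abs_self _).trans
  have hui : |u.im| ≤ R := (Complex.abs_im_le_norm u).trans hw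
  set q : ℝ := 2 * Real.sqrt τ with hq
  have hq0 : 0 ≤ q := by positivity
  have hq2 : q ^ 2 = 4 * τ := by rw [hq, mul_pow, Real.sq_sqrt hτ.le]; ring
  have hq1 : q ≤ 1 := by nlinarith
  -- the point
  have hz : ∀ v : ℝ, w + ((q * v : ℝ) : ℂ) = I * t + (u + ((q * v : ℝ) : ℂ)) := by
    intro v; rw [hu]; ring
  have hzim : ∀ v : ℝ, |(u + ((q * v : ℝ) : ℂ)).im| ≤ R := by
    intro v
    rw [Complex.add_im, Complex.ofReal_im, add_zero]; exact hui
  have hzre : ∀ v : ℝ, (u + ((q * v : ℝ) : ℂ)).re = u.re + q * v := by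
    intro v
    rw [Complex.add_re, Complex.ofReal_re]
  have hqv : ∀ v : ℝ, |q * v| ≤ |v| := by
    intro v
    rw [abs_mul, abs_of_nonneg hq0]
    have := mul_le_mul_of_nonneg_right hq1 (abs_nonneg v)
    linarith
  -- the integrands
  set F : ℝ → ℂ := fun v => ((Real.exp (-v ^ 2) : ℝ) : ℂ) * D.XX (w + ((q * v : ℝ) : ℂ)) with hF
  set S : ℝ → ℂ := fun v => ((Real.exp (-v ^ 2) : ℝ) : ℂ) *
    ∑ m ∈ Finset.Icc 1 M, pc D m (w + ((q * v : ℝ) : ℂ)) with hS
  have hVV : -V ≤ V := by linarith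
  -- continuity of the pieces
  have hcont : ∀ m ∈ Finset.Icc 1 M, ContinuousOn
      (fun v : ℝ => ((Real.exp (-v ^ 2) : ℝ) : ℂ) * pc D m (w + ((q * v : ℝ) : ℂ)))
      (Set.uIcc (-V) V) := by
    intro m hm
    rw [Set.uIcc_of_le hVV]
    intro v hv
    have hvV : |v| ≤ V := abs_le.2 ⟨hv.1, hv.2⟩
    have hn : ‖u + ((q * v : ℝ) : ℂ)‖ ≤ t / 8 := by
      refine (norm_add_le _ _).trans ?_
      rw [Complex.norm_real, Real.norm_eq_abs]
      have := hqv v
      linarith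
    have hd := (P.hHH _ hn).2.1
    rw [← hz v] at hd
    have hm0 : (m : ℂ) ≠ 0 := by
      have := (Finset.mem_Icc.1 hm).1
      exact_mod_cast (by omega : m ≠ 0)
    have hy : ContinuousAt (fun v : ℝ => w + ((q * v : ℝ) : ℂ)) v := by fun_prop
    have c1 : ContinuousAt (fun v : ℝ => D.HH (w + ((q * v : ℝ) : ℂ))) v :=
      ContinuousAt.comp (f := fun v : ℝ => w + ((q * v : ℝ) : ℂ)) (g := D.HH) hd.continuousAt hy
    have c2 : ContinuousAt (fun v : ℝ => (m : ℂ) ^ (-(D.κ : ℂ) * (w + ((q * v : ℝ) : ℂ)))) v :=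
      (continuousAt_const.mul hy).const_cpow (Or.inl hm0)
    have c3 : ContinuousAt (fun v : ℝ => ((Real.exp (-v ^ 2) : ℝ) : ℂ)) v := by fun_prop
    exact (c3.mul (c1.mul (continuousAt_const.mul c2))).continuousWithinAt
  have hint : ∀ m ∈ Finset.Icc 1 M, IntervalIntegrable
      (fun v : ℝ => ((Real.exp (-v ^ 2) : ℝ) : ℂ) * pc D m (w + ((q * v : ℝ) : ℂ))) volume (-V) V :=
    fun m hm => (hcont m hm).intervalIntegrable
  have hSint : IntervalIntegrable S volume (-V) V := by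
    have : S = fun v => ∑ m ∈ Finset.Icc 1 M,
        ((Real.exp (-v ^ 2) : ℝ) : ℂ) * pc D m (w + ((q * v : ℝ) : ℂ)) := by
      funext v; rw [hS]; exact Finset.mul_sum _ _ _
    rw [this]
    have h5 := IntervalIntegrable.sum _ hint
    have h6 : (∑ m ∈ Finset.Icc 1 M,
        fun v : ℝ => ((Real.exp (-v ^ 2) : ℝ) : ℂ) * pc D m (w + ((q * v : ℝ) : ℂ))) =
        fun v => ∑ m ∈ Finset.Icc 1 M,
        ((Real.exp (-v ^ 2) : ℝ) : ℂ) * pc D m (w + ((q * v : ℝ) : ℂ)) := by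
      funext v; simp only [Finset.sum_apply]
    rw [h6] at h5
    exact h5
  have hSon : IntegrableOn S (Set.Ioc (-V) V) volume :=
    (intervalIntegrable_iff_integrableOn_Ioc_of_le hVV).1 hSint
  have hSum : ∑ m ∈ Finset.Icc 1 M, PT D τ t m w =
      ((1 / Real.sqrt Real.pi : ℝ) : ℂ) * ∫ v : ℝ, (Set.Ioc (-V) V).indicator S v := by
    rw [integral_indicator measurableSet_Ioc, ← intervalIntegral.integral_of_le hVV]
    have e1 : ∫ v in (-V)..V, S v = ∑ m ∈ Finset.Icc 1 M, ∫ v in (-V)..V,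
        ((Real.exp (-v ^ 2) : ℝ) : ℂ) * pc D m (w + ((q * v : ℝ) : ℂ)) := by
      rw [← intervalIntegral.integral_finsetSum hint]
      refine intervalIntegral.integral_congr fun v _ => ?_
      exact Finset.mul_sum _ _ _
    rw [e1, Finset.mul_sum]
    rfl
  have hdiff : XT D τ w - ∑ m ∈ Finset.Icc 1 M, PT D τ t m w =
      ((1 / Real.sqrt Real.pi : ℝ) : ℂ) * ∫ v : ℝ, (F v - (Set.Ioc (-V) V).indicator S v) := by
    rw [heat, hSum, integral_sub heatI (hSon.integrable_indicator measurableSet_Ioc), mul_sub]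
  -- the majorant
  set C : ℝ := 2 * D.A0 * Real.exp ((2 * K2 + D.κ) * R) +
        (K3 * Real.exp (K3 * R) + D.A0 * Real.exp (2 * K2 * R)) with hC
  have hC0 : 0 < C := by positivity
  set B : ℝ := (D.κ * Om D t + L) * q with hB
  set h : ℝ := ‖D.HH (I * t)‖ with hh
  have hh0 : 0 ≤ h := norm_nonneg _
  set g : ℝ → ℝ := fun v => h * C * Real.exp (E * Om D t) *
    (Real.exp (-v ^ 2 + B * v) + Real.exp (-v ^ 2 + (-B) * v)) + h * Real.exp (-(1 / 4) * v ^ 2) with hg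
  have hgI1 : Integrable (fun v : ℝ => Real.exp (-v ^ 2 + B * v) + Real.exp (-v ^ 2 + (-B) * v)) :=
    (gaussI B).1.add (gaussI (-B)).1
  have hgI2 : Integrable (fun v : ℝ => Real.exp (-(1 / 4 : ℝ) * v ^ 2)) :=
    integrable_exp_neg_mul_sq (by norm_num)
  have hgI : Integrable g := (hgI1.const_mul _).add (hgI2.const_mul _)
  have hgint : ∫ v, g v = h * C * Real.exp (E * Om D t) *
      (2 * (Real.sqrt Real.pi * Real.exp (B ^ 2 / 4))) + h * (2 * Real.sqrt Real.pi) := by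
    have e1 : ∫ v : ℝ, (Real.exp (-v ^ 2 + B * v) + Real.exp (-v ^ 2 + (-B) * v)) =
        2 * (Real.sqrt Real.pi * Real.exp (B ^ 2 / 4)) := by
      rw [integral_add (gaussI B).1 (gaussI (-B)).1, (gaussI B).2, (gaussI (-B)).2, neg_sq]; ring
    have e2 : ∫ v : ℝ, Real.exp (-(1 / 4 : ℝ) * v ^ 2) = 2 * Real.sqrt Real.pi := by
      rw [integral_gaussian]
      have : Real.pi / (1 / 4) = 2 ^ 2 * Real.pi := by ring
      rw [this, Real.sqrt_mul (by norm_num), Real.sqrt_sq (by norm_num)]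
    rw [hg, integral_add (hgI1.const_mul _) (hgI2.const_mul _), integral_const_mul,
      integral_const_mul, e1, e2]
  have hpt : ∀ v : ℝ, ‖F v - (Set.Ioc (-V) V).indicator S v‖ ≤ g v := by
    intro v
    have hE : 0 < Real.exp (-v ^ 2) := Real.exp_pos _
    have hBv : Real.exp (-v ^ 2) * Real.exp ((D.κ * Om D t + L) * |q * v|) ≤
        Real.exp (-v ^ 2 + B * v) + Real.exp (-v ^ 2 + (-B) * v) := by
      rw [← Real.exp_add]
      rcases abs_cases (q * v) with ⟨h1, -⟩ | ⟨h1, -⟩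
      · rw [h1]
        have e1 : -v ^ 2 + (D.κ * Om D t + L) * (q * v) = -v ^ 2 + B * v := by rw [hB]; ring
        rw [e1]
        have := Real.exp_pos (-v ^ 2 + (-B) * v)
        linarith
      · rw [h1]
        have e1 : -v ^ 2 + (D.κ * Om D t + L) * (-(q * v)) = -v ^ 2 + (-B) * v := by rw [hB]; ring
        rw [e1]
        have := Real.exp_pos (-v ^ 2 + B * v)
        linarith
    by_cases hv : v ∈ Set.Ioc (-V) V
    · rw [Set.indicator_of_mem hv]
      have hvV : |v| ≤ V := abs_le.2 ⟨hv.1.le, hv.2⟩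
      have hyV : |q * v| ≤ V := (hqv v).trans hvV
      have hy0 : 0 ≤ |q * v| := abs_nonneg _
      have e1 : F v - S v = ((Real.exp (-v ^ 2) : ℝ) : ℂ) * (D.XX (I * t + (u + ((q * v : ℝ) : ℂ))) -
          ∑ m ∈ Finset.Icc 1 M, pc D m (I * t + (u + ((q * v : ℝ) : ℂ)))) := by
        rw [hF, hS]; simp only [hz v]; ring
      have hre := hzre v
      have hle : (u + ((q * v : ℝ) : ℂ)).re ≤ R + |q * v| := by
        rw [hre]
        have := le_abs_self (q * v); linarith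
      have hle2 : -(u + ((q * v : ℝ) : ℂ)).re ≤ |q * v| := by
        rw [hre]
        have := neg_abs_le (q * v); linarith
      have key : ‖D.XX (I * t + (u + ((q * v : ℝ) : ℂ))) -
          ∑ m ∈ Finset.Icc 1 M, pc D m (I * t + (u + ((q * v : ℝ) : ℂ)))‖ ≤
          h * C * Real.exp (E * Om D t) * Real.exp ((D.κ * Om D t + L) * |q * v|) := by
        rcases le_total (D.A + 2) (D.κ * (u + ((q * v : ℝ) : ℂ)).re) with hs | hs
        · refine (ptA hD P _ R (hzim v) hs (by linarith)).trans ?_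
          calc 2 * D.A0 * h * Real.exp (K2 * R) *
                Real.exp (2 / 5 * (D.A + 1) * Om D t +
                  (3 / 5 * (D.κ * Om D t) + K2 + D.κ) * (u + ((q * v : ℝ) : ℂ)).re)
              ≤ 2 * D.A0 * h * Real.exp (K2 * R) *
                Real.exp (2 / 5 * (D.A + 1) * Om D t +
                  (3 / 5 * (D.κ * Om D t) + K2 + D.κ) * (R + |q * v|)) := by
                gcongr
            _ = 2 * D.A0 * h * Real.exp (K2 * R + (2 / 5 * (D.A + 1) * Om D t +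
                  (3 / 5 * (D.κ * Om D t) + K2 + D.κ) * (R + |q * v|))) := by
                rw [Real.exp_add (K2 * R)]; ring
            _ ≤ 2 * D.A0 * h * Real.exp ((2 * K2 + D.κ) * R + (E * Om D t) +
                  (D.κ * Om D t + L) * |q * v|) := by
                refine mul_le_mul_of_nonneg_left (Real.exp_le_exp.2 ?_) (by positivity)
                have a1 := mul_nonneg hκO hy0
                have a2 := mul_nonneg (by linarith : 0 ≤ K3) hy0
                rw [← hL]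
                nlinarith
            _ = h * (2 * D.A0 * Real.exp ((2 * K2 + D.κ) * R)) * Real.exp (E * Om D t) *
                  Real.exp ((D.κ * Om D t + L) * |q * v|) := by
                rw [Real.exp_add, Real.exp_add]; ring
            _ ≤ _ := by
                gcongr
                rw [hC]
                have : 0 < K3 * Real.exp (K3 * R) + D.A0 * Real.exp (2 * K2 * R) := by positivity
                linarith
        · refine (ptB hD P _ R |q * v| hR0 hR2 hy0 (hzim v) hs hle hle2 (by linarith)).trans ?_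
          calc (K3 * Real.exp (K3 * R) + D.A0 * Real.exp (2 * K2 * R)) * h *
                Real.exp ((2 * D.A + 5) * Om D t + (D.κ * Om D t + K2 + K3) * |q * v|)
              ≤ C * h * Real.exp (E * Om D t + (D.κ * Om D t + L) * |q * v|) := by
                refine mul_le_mul (mul_le_mul_of_nonneg_right ?_ hh0) (Real.exp_le_exp.2 ?_)
                  (Real.exp_pos _).le (by positivity)
                · rw [hC]
                  have : 0 < 2 * D.A0 * Real.exp ((2 * K2 + D.κ) * R) := by positivity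
                  linarith
                · have a1 := mul_nonneg hκ.le hy0
                  rw [← hL]
                  nlinarith
            _ = _ := by rw [Real.exp_add]; ring
      rw [e1, norm_mul, Complex.norm_real, Real.norm_of_nonneg hE.le]
      calc Real.exp (-v ^ 2) * ‖D.XX (I * t + (u + ((q * v : ℝ) : ℂ))) -
            ∑ m ∈ Finset.Icc 1 M, pc D m (I * t + (u + ((q * v : ℝ) : ℂ)))‖
          ≤ Real.exp (-v ^ 2) * (h * C * Real.exp (E * Om D t) *
              Real.exp ((D.κ * Om D t + L) * |q * v|)) := mul_le_mul_of_nonneg_left key hE.le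
        _ = h * C * Real.exp (E * Om D t) *
              (Real.exp (-v ^ 2) * Real.exp ((D.κ * Om D t + L) * |q * v|)) := by ring
        _ ≤ h * C * Real.exp (E * Om D t) *
              (Real.exp (-v ^ 2 + B * v) + Real.exp (-v ^ 2 + (-B) * v)) :=
            mul_le_mul_of_nonneg_left hBv (by positivity)
        _ ≤ g v := by
            rw [hg]
            have : 0 ≤ h * Real.exp (-(1 / 4) * v ^ 2) := by positivity
            simp only
            linarith
    · rw [Set.indicator_of_notMem hv, sub_zero]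
      have hvV : V ≤ |v| := by
        by_contra hcon
        push Not at hcon
        have := abs_lt.1 hcon
        exact hv ⟨this.1, this.2.le⟩
      have hre := hzre v
      have hle : |(u + ((q * v : ℝ) : ℂ)).re| ≤ R + |v| := by
        rw [hre]
        refine (abs_add_le _ _).trans ?_
        rw [abs_of_nonneg (by rw [hur]; exact hw0)]
        have := hqv v
        linarith
      have := ptC hD P (by linarith : K3 ≤ L) R hR0 hR2 v1 v2 v3 _ v (hzim v) hle hvV
      rw [hF]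
      simp only
      rw [norm_mul, Complex.norm_real, Real.norm_of_nonneg hE.le, hz v]
      refine this.trans ?_
      rw [hg]
      have : 0 ≤ h * C * Real.exp (E * Om D t) *
              (Real.exp (-v ^ 2 + B * v) + Real.exp (-v ^ 2 + (-B) * v)) := by positivity
      simp only
      linarith
  -- conclusion
  have hpi : 0 < Real.sqrt Real.pi := Real.sqrt_pos.2 Real.pi_pos
  have hB4 : B ^ 2 / 4 ≤ τ * (D.κ * Om D t) ^ 2 + (2 * L * D.κ * K0 + L ^ 2) := by
    have e1 : B ^ 2 / 4 = τ * (D.κ * Om D t + L) ^ 2 := by rw [hB, mul_pow, hq2]; ring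
    rw [e1]
    have e2 := mul_le_mul_of_nonneg_left hK0 (by positivity : 0 ≤ 2 * L * D.κ)
    have e3 : τ * L ^ 2 ≤ 1 * L ^ 2 := mul_le_mul_of_nonneg_right (by linarith) (sq_nonneg L)
    nlinarith
  have hcT : h * Real.exp (τ * (D.κ * Om D t) ^ 2) ≤
      ‖cT D τ t‖ * Real.exp (2 * K2 * D.κ * K0 + K2 ^ 2) := by
    have e1 : ‖cT D τ t‖ = h * Real.exp (τ * ((be D t) ^ 2).re) := by
      rw [cT, norm_mul, Complex.norm_exp, hh]
      congr 2
      rw [Complex.re_ofReal_mul]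
    rw [e1, mul_assoc, ← Real.exp_add]
    refine mul_le_mul_of_nonneg_left (Real.exp_le_exp.2 ?_) hh0
    have e2 : ((be D t) ^ 2).re = (be D t).re ^ 2 - (be D t).im ^ 2 := by
      rw [_root_.sq, Complex.mul_re]; ring
    have d1 : |(be D t).re - D.κ * Om D t| ≤ K2 := by
      have := (Complex.abs_re_le_norm _).trans P.hbe
      rwa [Complex.sub_re, Complex.ofReal_re] at this
    have d2 : |(be D t).im| ≤ K2 := by
      have := (Complex.abs_im_le_norm _).trans P.hbe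
      rwa [Complex.sub_im, Complex.ofReal_im, sub_zero] at this
    have d3 : (be D t).im ^ 2 ≤ K2 ^ 2 := sq_le_sq' (abs_le.1 d2).1 (abs_le.1 d2).2
    have d4 := (abs_le.1 d1).1
    have d5 : (D.κ * Om D t) ^ 2 - 2 * K2 * (D.κ * Om D t) - K2 ^ 2 ≤ ((be D t) ^ 2).re := by
      rw [e2]
      nlinarith [sq_nonneg ((be D t).re - D.κ * Om D t)]
    have d6 := mul_le_mul_of_nonneg_left d5 hτ.le
    have d7 := mul_le_mul_of_nonneg_left hK0 (by positivity : 0 ≤ 2 * K2 * D.κ)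
    have d8 : τ * K2 ^ 2 ≤ 1 * K2 ^ 2 := mul_le_mul_of_nonneg_right (by linarith) (sq_nonneg K2)
    nlinarith
  rw [hdiff, norm_mul, Complex.norm_real, Real.norm_of_nonneg (by positivity)]
  calc 1 / Real.sqrt Real.pi * ‖∫ v : ℝ, (F v - (Set.Ioc (-V) V).indicator S v)‖
      ≤ 1 / Real.sqrt Real.pi * ∫ v, g v := by
        refine mul_le_mul_of_nonneg_left ?_ (by positivity)
        exact norm_integral_le_of_norm_le hgI (Eventually.of_forall hpt)
    _ = h * (2 * C * Real.exp (E * Om D t) * Real.exp (B ^ 2 / 4) + 2) := by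
        rw [hgint]; field_simp
    _ ≤ h * (2 * C * Real.exp (E * Om D t) *
          Real.exp (τ * (D.κ * Om D t) ^ 2 + (2 * L * D.κ * K0 + L ^ 2)) + 2) := by gcongr
    _ ≤ h * (2 * C * Real.exp (E * Om D t) *
          Real.exp (τ * (D.κ * Om D t) ^ 2 + (2 * L * D.κ * K0 + L ^ 2)) +
          2 * Real.exp (E * Om D t) * Real.exp (τ * (D.κ * Om D t) ^ 2)) := by
        have e1 : 1 ≤ Real.exp (E * Om D t) := Real.one_le_exp hEO
        have e2 : 1 ≤ Real.exp (τ * (D.κ * Om D t) ^ 2) := Real.one_le_exp (by positivity)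
        have e3 : 1 * 1 ≤ Real.exp (E * Om D t) * Real.exp (τ * (D.κ * Om D t) ^ 2) :=
          mul_le_mul e1 e2 (by norm_num) (by positivity)
        refine mul_le_mul_of_nonneg_left ?_ hh0
        linarith
    _ = (h * Real.exp (τ * (D.κ * Om D t) ^ 2)) *
          (2 * C * Real.exp (2 * L * D.κ * K0 + L ^ 2) + 2) * Real.exp (E * Om D t) := by
        rw [Real.exp_add (τ * (D.κ * Om D t) ^ 2)]; ring
    _ ≤ (‖cT D τ t‖ * Real.exp (2 * K2 * D.κ * K0 + K2 ^ 2)) *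
          (2 * C * Real.exp (2 * L * D.κ * K0 + L ^ 2) + 2) * Real.exp (E * Om D t) := by gcongr
    _ = _ := by ring

end Pool.Agent.H986R2.GD.PUpAux

namespace Pool.Agent.H986R2.GD

open PUpAux
open Pool.Agent.H471R3.GJ

/-- Task PUP. -/
theorem pup (D : Dat) (h : IsL D) (h1 : SStir2 D) (h2 : SXB D) (h3 : STail D) (h4 : SHeat D)
    (_h5 : SConv D) : SPUp D := by
  intro K0 hK0
  have hκ := h.κ_pos
  have hA0 := h.A0_one
  obtain ⟨K2, T2, k2, -, h1⟩ := h1
  obtain ⟨K3, T3, k3, -, h2⟩ := h2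
  obtain ⟨T, hT1, hT⟩ := ev D h (K2 + K3 + D.κ) (by linarith)
  refine ⟨(2 * (2 * D.A0 * Real.exp ((2 * K2 + D.κ) * RR D) +
        (K3 * Real.exp (K3 * RR D) + D.A0 * Real.exp (2 * K2 * RR D))) *
        Real.exp (2 * (K2 + K3 + D.κ) * D.κ * K0 + (K2 + K3 + D.κ) ^ 2) + 2) *
        Real.exp (2 * K2 * D.κ * K0 + K2 ^ 2),
    max T (max T2 T3), ?_, le_max_of_le_left hT1, ?_⟩
  · have e1 : 1 ≤ Real.exp (2 * K2 * D.κ * K0 + K2 ^ 2) := Real.one_le_exp (by positivity)
    have e2 : 0 < 2 * (2 * D.A0 * Real.exp ((2 * K2 + D.κ) * RR D) +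
        (K3 * Real.exp (K3 * RR D) + D.A0 * Real.exp (2 * K2 * RR D))) *
        Real.exp (2 * (K2 + K3 + D.κ) * D.κ * K0 + (K2 + K3 + D.κ) ^ 2) := by positivity
    nlinarith
  · intro t τ ht hτ hτ8 hτO w hw hw0
    have t1 : T ≤ t := le_trans (le_max_left _ _) ht
    have t2 : T2 ≤ t := le_trans (le_trans (le_max_left _ _) (le_max_right _ _)) ht
    have t3 : T3 ≤ t := le_trans (le_trans (le_max_right _ _) (le_max_right _ _)) ht
    obtain ⟨a1, a2, a3, a4, a5⟩ := hT t t1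
    obtain ⟨b1, b2, b3, b4, b5⟩ := h1 t t2
    have P : Dt D t K2 K3 := ⟨a1, k2, k3, b1, b2, b4, h3, fun u hu =>
      ⟨(h2 t u t3 hu).1, (h2 t u t3 hu).2.1⟩⟩
    obtain ⟨c1, c2⟩ := h4 τ w hτ.le
    exact main h P rfl a2 a3 a4 a5 hτ hτ8 hτO w hw hw0 c1 c2

end Pool.Agent.H986R2.GD
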