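import Pool.Agent.H986R2.GD.Spec
import Pool.Agent.H986R2.GD.PosT
import Pool.Agent.H24R2.JP.ParCirc

set_option autoImplicit false

/-! # Task RH2T (adaptation of `Pool.Agent.H986R2.DBN.RH2T`) -/

namespace Pool.Agent.H986R2.GD

open Complex Filter Topology Polynomial MeasureTheory
open Pool.Agent.H471R3.GJ

namespace RH2TAux

open Pool.Agent.H24R2.JP

theorem cl_phi (D : Dat) (h : IsL D) (τ : ℝ) : MomAux.Cl (fun u => D.Φ u * Real.exp (τ * u ^ 2)) := by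
  obtain ⟨C, c1, c2, hc1, hc2, hd⟩ := h.Φ_dec
  exact PosTAux.cl_heat h.Φ_cont hc1 hc2 hd τ

/-- The heat flow is close to `XX` for small times. -/
theorem close (D : Dat) (h : IsL D) (hk : SKer D) (R : ℝ) :
    ∃ C : ℝ, 0 ≤ C ∧ ∀ τ : ℝ, 0 ≤ τ → τ ≤ 1 → ∀ z : ℂ, ‖z‖ ≤ R →
    ‖D.XX z - XT D τ z‖ ≤ C * τ := by
  obtain ⟨B, hB⟩ := (cl_phi D h 1).pow 2 |>.2 R
  have hint : Integrable (fun t : ℝ => B * Real.exp (-1 * t ^ 2)) :=
    (integrable_exp_neg_mul_sq one_pos).const_mul B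
  refine ⟨∫ t : ℝ, |B * Real.exp (-1 * t ^ 2)|, by positivity, ?_⟩
  intro τ hτ0 hτ1 z hz
  have i1 : Integrable (fun u : ℝ => ((D.Φ u * Real.exp (0 * u ^ 2) : ℝ) : ℂ) * cexp (z * u)) :=
    MomAux.L_integrable (cl_phi D h 0) z
  have i2 : Integrable (fun u : ℝ => ((D.Φ u * Real.exp (τ * u ^ 2) : ℝ) : ℂ) * cexp (z * u)) :=
    MomAux.L_integrable (cl_phi D h τ) z
  have e1 : D.XX z - XT D τ z = ∫ u : ℝ, (((D.Φ u * Real.exp (0 * u ^ 2) : ℝ) : ℂ) * cexp (z * u) -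
      ((D.Φ u * Real.exp (τ * u ^ 2) : ℝ) : ℂ) * cexp (z * u)) := by
    rw [← hk.1, integral_sub i1 i2]
    rfl
  rw [e1]
  have hb : ‖∫ u : ℝ, (((D.Φ u * Real.exp (0 * u ^ 2) : ℝ) : ℂ) * cexp (z * u) -
      ((D.Φ u * Real.exp (τ * u ^ 2) : ℝ) : ℂ) * cexp (z * u))‖ ≤
      ∫ t : ℝ, τ * |B * Real.exp (-1 * t ^ 2)| := by
    refine norm_integral_le_of_norm_le (hint.abs.const_mul τ) (Eventually.of_forall fun t => ?_)
    have e2 : ((D.Φ t * Real.exp (0 * t ^ 2) : ℝ) : ℂ) * cexp (z * t) -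
        ((D.Φ t * Real.exp (τ * t ^ 2) : ℝ) : ℂ) * cexp (z * t)
        = ((D.Φ t * (1 - Real.exp (τ * t ^ 2)) : ℝ) : ℂ) * cexp (z * t) := by
      rw [zero_mul, Real.exp_zero]
      push_cast; ring
    rw [e2]
    refine (MomAux.L_norm_le (fun t => D.Φ t * (1 - Real.exp (τ * t ^ 2))) z t).trans ?_
    have h1 : |z.re| ≤ R := (Complex.abs_re_le_norm z).trans hz
    have h2 : |1 - Real.exp (τ * t ^ 2)| ≤ τ * (t ^ 2 * Real.exp (1 * t ^ 2)) := by
      have hx : 0 ≤ τ * t ^ 2 := by positivity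
      have h3 : 1 ≤ Real.exp (τ * t ^ 2) := Real.one_le_exp hx
      rw [abs_sub_comm, abs_of_nonneg (by linarith)]
      have h4 : Real.exp (τ * t ^ 2) - 1 ≤ τ * t ^ 2 * Real.exp (τ * t ^ 2) := by
        have h5 := Real.add_one_le_exp (-(τ * t ^ 2))
        have h6 : Real.exp (-(τ * t ^ 2)) * Real.exp (τ * t ^ 2) = 1 := by
          rw [← Real.exp_add]; simp
        nlinarith [Real.exp_pos (τ * t ^ 2)]
      have h5 : Real.exp (τ * t ^ 2) ≤ Real.exp (1 * t ^ 2) := by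
        apply Real.exp_le_exp.2
        exact mul_le_mul_of_nonneg_right hτ1 (sq_nonneg t)
      calc Real.exp (τ * t ^ 2) - 1 ≤ τ * t ^ 2 * Real.exp (τ * t ^ 2) := h4
        _ ≤ τ * t ^ 2 * Real.exp (1 * t ^ 2) := mul_le_mul_of_nonneg_left h5 hx
        _ = _ := by ring
    have h3 := hB t
    have h4 : |t ^ 2 * (D.Φ t * Real.exp (1 * t ^ 2))| = |D.Φ t| * (t ^ 2 * Real.exp (1 * t ^ 2)) := by
      rw [abs_mul, abs_mul, abs_of_nonneg (sq_nonneg t), abs_of_pos (Real.exp_pos _)]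
      ring
    rw [h4] at h3
    calc |D.Φ t * (1 - Real.exp (τ * t ^ 2))| * Real.exp (|z.re| * |t|)
        = |D.Φ t| * |1 - Real.exp (τ * t ^ 2)| * Real.exp (|z.re| * |t|) := by rw [abs_mul]
      _ ≤ |D.Φ t| * (τ * (t ^ 2 * Real.exp (1 * t ^ 2))) * Real.exp (R * |t|) := by gcongr
      _ = τ * (|D.Φ t| * (t ^ 2 * Real.exp (1 * t ^ 2)) * Real.exp (R * |t|)) := by ring
      _ ≤ τ * (B * Real.exp (-1 * t ^ 2)) := mul_le_mul_of_nonneg_left h3 hτ0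
      _ ≤ τ * |B * Real.exp (-1 * t ^ 2)| := mul_le_mul_of_nonneg_left (le_abs_self _) hτ0
  rw [integral_const_mul] at hb
  calc ‖_‖ ≤ τ * ∫ t : ℝ, |B * Real.exp (-1 * t ^ 2)| := hb
    _ = _ := by ring

theorem tlu (D : Dat) (h : IsL D) (hk : SKer D) :
    TendstoLocallyUniformly (fun (k : ℕ) (z : ℂ) => XT D (1 / ((k : ℝ) + 1)) z) D.XX atTop := by
  rw [← tendstoLocallyUniformlyOn_univ, tendstoLocallyUniformlyOn_iff_forall_isCompact isOpen_univ]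
  intro K _ hK
  obtain ⟨R, hR⟩ := hK.isBounded.subset_closedBall (0 : ℂ)
  obtain ⟨C, hC0, hC⟩ := close D h hk R
  rw [Metric.tendstoUniformlyOn_iff]
  intro ε hε
  have h1 : Tendsto (fun k : ℕ => C * (1 / ((k : ℝ) + 1))) atTop (𝓝 (C * 0)) :=
    tendsto_one_div_add_atTop_nhds_zero_nat.const_mul C
  rw [mul_zero] at h1
  filter_upwards [h1.eventually (gt_mem_nhds hε)] with k hk z hz
  have hk0 : (0 : ℝ) ≤ k := Nat.cast_nonneg k
  have hz' : ‖z‖ ≤ R := mem_closedBall_zero_iff.1 (hR hz)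
  have h2 : 1 / ((k : ℝ) + 1) ≤ 1 := by
    rw [div_le_one (by positivity)]; linarith
  rw [dist_eq_norm]
  exact (hC _ (by positivity) h2 z hz').trans_lt hk

end RH2TAux

open Pool.Agent.H24R2.JP RH2TAux in
theorem rh2T (D : Dat) (h : IsL D) (h1 : SKer D) (_h2 : SB1T D) (h3 : SPosT D) : SRH2T D := by
  intro hH z hz
  have hX : Differentiable ℂ D.XX := by
    have := (h1.2 0 le_rfl).1
    rwa [h1.1] at this
  have hb : ∃ b : ℂ, D.XX b ≠ 0 := by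
    by_contra hcon
    push Not at hcon
    obtain ⟨k0, hk0⟩ := h3
    have h4 := hk0 0 le_rfl k0 le_rfl
    have h5 : XT D 0 = fun _ => (0 : ℂ) := by
      rw [h1.1]
      exact funext hcon
    unfold gamT at h4
    rw [h5] at h4
    simp at h4
  obtain ⟨b, hb⟩ := hb
  by_contra hne
  have hpos : 0 < |z.re| := abs_pos.2 hne
  have h5 := ParCircAux.hurw (F := fun (k : ℕ) (z : ℂ) => XT D (1 / ((k : ℝ) + 1)) z)
    (fun k => (h1.2 _ (by positivity)).1) (tlu D h h1) hX hz hb hpos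
  obtain ⟨k, w, hw, hw0⟩ := h5.exists
  have h6 := hH (1 / ((k : ℝ) + 1)) (by positivity) w hw0
  have h7 := Complex.abs_re_le_norm (w - z)
  rw [Complex.sub_re, h6, zero_sub, abs_neg] at h7
  linarith

end Pool.Agent.H986R2.GD
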