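import Pool.Agent.H986R2.GD.Spec
import Pool.Agent.H986R2.DBN.GoodT

set_option autoImplicit false

/-!
# Task RHREAL
-/

namespace Pool.Agent.H986R2.GD

open Complex Filter Topology Polynomial MeasureTheory
open Pool.Agent.H24R2.JP (Par Good App arc SHad SDer SGL SJen SPar SCircle SNewton SArc TT TI)
open Pool.Agent.H471R3.GJ
open Pool.Agent.H986R2.DBN (ParD SCPoly PL par_iff parD_mono)

theorem rhReal (D : Dat) (h1 : SAppT D) (h2 : SApp0 D) (h3 : SWkT D) : SRHReal D := by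
  intro hRH τ hτ
  obtain ⟨hd, -, hn⟩ := h3 τ hτ
  obtain ⟨P0, hP0, hlim⟩ := h2 0 le_rfl (fun z hz => by rw [hRH z hz]; norm_num)
  obtain ⟨P, hP, hPl⟩ := h1 0 P0 le_rfl hP0 hlim τ hτ
  refine ⟨hd, ⟨P, fun N x hx => parD_mono ?_ (hP N x hx), hPl⟩, hn⟩
  exact max_le (by linarith) le_rfl

end Pool.Agent.H986R2.GD
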