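import Pool.Agent.H986R2.GD.Spec
import Pool.Agent.H471R3.GJ.Stir

set_option autoImplicit false

/-! Task STIR2 (helper484, after helper278 and helper738) -/

namespace Pool.Agent.H986R2.GD

open Complex Filter Topology Set MeasureTheory
open Pool.Agent.H471R3.GJ Pool.Agent.H471R3.GJ.StirAux

namespace Stir2Aux

/-- Derivative of `s ↦ D.HH (I * s)`. -/
theorem axis_deriv (D : Dat) (h : IsL D) {s : ℝ} (hs : 0 < s) (hn : D.HH (I * s) ≠ 0) :
    HasDerivAt (fun x : ℝ => D.HH (I * x)) (D.HH (I * s) * logDeriv D.HH (I * s) * I) s := by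
  have hlin : HasDerivAt (fun x : ℝ => I * (x : ℂ)) I s := by
    have h0 : HasDerivAt (fun x : ℝ => (x : ℂ)) 1 s := Complex.ofRealCLM.hasDerivAt
    simpa using h0.const_mul I
  have him : 0 < (I * (s : ℂ)).im := by simpa using hs
  exact HasDerivAt.comp s (HH_deriv D h him hn) hlin

/-- Lower bound on the imaginary axis. -/
theorem low (D : Dat) (h : IsL D) : ∃ K T : ℝ, 1 ≤ K ∧ 1 ≤ T ∧ ∀ t : ℝ, T ≤ t →
    Real.exp (-(K * t)) ≤ ‖D.HH (I * t)‖ := by
  obtain ⟨K, T, hK, hT, hb⟩ := h.HH_log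
  have hT0 : 0 < T := by linarith
  have hax : ∀ s : ℝ, T ≤ s → D.HH (I * s) ≠ 0 ∧
      ‖logDeriv D.HH (I * s) - ((D.κ * (D.c * Real.log s) : ℝ) : ℂ)‖ ≤ K := by
    intro s hs
    have e1 : (I * (s : ℂ)).im = s := by simp
    have e2 : (I * (s : ℂ)).re = 0 := by simp
    have := hb (I * s) (by rw [e1]; exact hs) (by rw [e1, e2, abs_zero]; linarith)
    rwa [e1] at this
  have hHT : 0 < ‖D.HH (I * T)‖ := norm_pos_iff.2 (hax T le_rfl).1
  refine ⟨K + |Real.log ‖D.HH (I * T)‖|, T, by linarith [abs_nonneg (Real.log ‖D.HH (I * T)‖)],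
    hT, ?_⟩
  intro t ht
  -- the phase
  set ph : ℝ → ℂ := fun s => I * ((D.κ * (D.c * (s * Real.log s - s)) : ℝ) : ℂ) with hph
  have hphd : ∀ s : ℝ, T ≤ s → HasDerivAt ph (I * ((D.κ * (D.c * Real.log s) : ℝ) : ℂ)) s := by
    intro s hs
    have hs0 : s ≠ 0 := by linarith
    have h1 : HasDerivAt (fun s : ℝ => D.κ * (D.c * (s * Real.log s - s)))
        (D.κ * (D.c * Real.log s)) s := by
      have h2 : HasDerivAt (fun s : ℝ => s * Real.log s - s) (Real.log s) s := by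
        have h3 := ((hasDerivAt_id s).mul (Real.hasDerivAt_log hs0)).sub (hasDerivAt_id s)
        refine h3.congr_deriv ?_
        simp only [id]
        field_simp
        ring
      exact (h2.const_mul D.c).const_mul D.κ
    exact (h1.ofReal_comp).const_mul I
  set g : ℝ → ℂ := fun s => cexp (ph s) / D.HH (I * s) with hg
  set g' : ℝ → ℂ := fun s =>
    I * (((D.κ * (D.c * Real.log s) : ℝ) : ℂ) - logDeriv D.HH (I * s)) * g s with hg'
  have hder : ∀ s : ℝ, T ≤ s → HasDerivAt g (g' s) s := by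
    intro s hs
    have hne := (hax s hs).1
    have h1 := ((hphd s hs).cexp).div (axis_deriv D h (by linarith) hne) hne
    refine h1.congr_deriv ?_
    simp only [hg', hg]
    field_simp
  have hcont : ContinuousOn g (Set.Icc T t) := fun s hs =>
    (hder s hs.1).continuousAt.continuousWithinAt
  have hnph : ∀ s : ℝ, ‖cexp (ph s)‖ = 1 := by
    intro s
    rw [Complex.norm_exp]
    have : (ph s).re = 0 := by simp [hph]
    rw [this, Real.exp_zero]
  have hgr := norm_le_gronwallBound_of_norm_deriv_right_le (f := g) (f' := g')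
    (δ := ‖D.HH (I * T)‖⁻¹) (K := K) (ε := 0) (a := T) (b := t) hcont
    (fun s hs => (hder s hs.1).hasDerivWithinAt) (by
      simp only [hg]
      rw [norm_div, hnph, one_div])
    (fun s hs => by
      simp only [hg', norm_mul, add_zero, Complex.norm_I, one_mul]
      apply mul_le_mul_of_nonneg_right _ (norm_nonneg _)
      rw [norm_sub_rev]
      exact (hax s hs.1).2) t ⟨ht, le_rfl⟩
  rw [gronwallBound_ε0] at hgr
  simp only [hg] at hgr
  rw [norm_div, hnph, one_div] at hgr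
  have hHt : 0 < ‖D.HH (I * t)‖ := norm_pos_iff.2 (hax t ht).1
  have h2 : ‖D.HH (I * T)‖ * Real.exp (-(K * (t - T))) ≤ ‖D.HH (I * t)‖ := by
    have h3 : 0 < ‖D.HH (I * t)‖⁻¹ := inv_pos.2 hHt
    have h4 := inv_anti₀ h3 hgr
    rw [inv_inv, mul_inv, inv_inv, ← Real.exp_neg] at h4
    exact h4
  refine le_trans ?_ h2
  have e1 : ‖D.HH (I * T)‖ = Real.exp (Real.log ‖D.HH (I * T)‖) := (Real.exp_log hHT).symm
  have e2 : Real.exp (-((K + |Real.log ‖D.HH (I * T)‖|) * t)) ≤
      Real.exp (Real.log ‖D.HH (I * T)‖ + -(K * (t - T))) := by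
    apply Real.exp_le_exp.2
    have := neg_abs_le (Real.log ‖D.HH (I * T)‖)
    have := abs_nonneg (Real.log ‖D.HH (I * T)‖)
    have h5 : |Real.log ‖D.HH (I * T)‖| ≤ |Real.log ‖D.HH (I * T)‖| * t := by
      nlinarith
    nlinarith
  rw [Real.exp_add, ← e1] at e2
  exact e2

theorem bound3 (D : Dat) (hD : IsL D) : ∃ K T : ℝ, 1 ≤ K ∧ 400 ≤ T ∧ ∀ (t : ℝ), T ≤ t →
    D.HH (I * t) ≠ 0 ∧ ‖be D t - ((D.κ * Om D t : ℝ) : ℂ)‖ ≤ K ∧
    ∀ u : ℂ, ‖u‖ ≤ t / 8 → 0 < (I * t + u).im ∧ D.HH (I * t + u) ≠ 0 ∧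
      ‖logDeriv D.HH (I * t + u) - ((D.κ * Om D t : ℝ) : ℂ)‖ ≤ K ∧
      ‖logDeriv D.HH (I * t + u) - be D t‖ ≤ 16 * K / t * ‖u‖ := by
  obtain ⟨K, T, hK, hT, h⟩ := bound1 D hD
  refine ⟨K, T, hK, hT, ?_⟩
  intro t ht
  have ht4 : 400 ≤ t := hT.trans ht
  have ht0 : 0 < t := by linarith
  have hIt := h t (I * t) ht (by simp; linarith)
  refine ⟨hIt.2.1, hIt.2.2, ?_⟩
  intro u hu
  have h0 := h t (I * t + u) ht (by simp; linarith)
  refine ⟨h0.1, h0.2.1, h0.2.2, ?_⟩
  have hcv : Convex ℝ (Metric.ball (I * t : ℂ) (t / 8 + 1)) := convex_ball _ _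
  have hd : ∀ z ∈ Metric.ball (I * t : ℂ) (t / 8 + 1), DifferentiableAt ℂ (logDeriv D.HH) z := by
    intro z hz
    rw [Metric.mem_ball, dist_eq_norm] at hz
    have hz4 : ‖z - I * t‖ ≤ t / 4 := by linarith
    exact ld_diff D hD (h t z ht hz4).1 (h t z ht hz4).2.1
  have hdb : ∀ z ∈ Metric.ball (I * t : ℂ) (t / 8 + 1),
      ‖deriv (logDeriv D.HH) z‖ ≤ 8 * K / (t - 8) * 1 := by
    intro z hz
    rw [Metric.mem_ball, dist_eq_norm] at hz
    have hr : 0 < t / 8 - 1 := by linarith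
    have e0 : deriv (logDeriv D.HH) z =
        deriv (fun w => logDeriv D.HH w - ((D.κ * Om D t : ℝ) : ℂ)) z := by
      rw [deriv_sub_const]
    rw [e0]
    have hw4 : ∀ w : ℂ, ‖w - z‖ ≤ t / 8 - 1 → ‖w - I * t‖ ≤ t / 4 := by
      intro w hw
      calc ‖w - I * t‖ = ‖(w - z) + (z - I * t)‖ := by ring_nf
        _ ≤ ‖w - z‖ + ‖z - I * t‖ := norm_add_le _ _
        _ ≤ t / 4 := by linarith
    have := Complex.norm_deriv_le_of_forall_mem_sphere_norm_le
      (f := fun w => logDeriv D.HH w - ((D.κ * Om D t : ℝ) : ℂ)) (c := z) (C := K) hr ?_ ?_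
    · refine this.trans (le_of_eq ?_)
      field_simp
    · constructor
      · intro w hw
        rw [Metric.mem_ball, dist_eq_norm] at hw
        have h5 := h t w ht (hw4 w hw.le)
        exact ((ld_diff D hD h5.1 h5.2.1).sub_const _).differentiableWithinAt
      · rw [closure_ball _ hr.ne']
        intro w hw
        rw [Metric.mem_closedBall, dist_eq_norm] at hw
        have h5 := h t w ht (hw4 w hw)
        exact ((ld_diff D hD h5.1 h5.2.1).sub_const _).continuousAt.continuousWithinAt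
    · intro w hw
      rw [mem_sphere_iff_norm] at hw
      exact (h t w ht (hw4 w hw.le)).2.2
  have hx : (I * t : ℂ) ∈ Metric.ball (I * t : ℂ) (t / 8 + 1) := Metric.mem_ball_self (by linarith)
  have hy : (I * t + u : ℂ) ∈ Metric.ball (I * t : ℂ) (t / 8 + 1) := by
    rw [Metric.mem_ball, dist_eq_norm, add_sub_cancel_left]
    linarith
  have := hcv.norm_image_sub_le_of_norm_deriv_le hd hdb hx hy
  unfold be
  refine this.trans ?_
  rw [mul_one, add_sub_cancel_left]
  have h8 : 0 < t - 8 := by linarith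
  apply mul_le_mul_of_nonneg_right _ (norm_nonneg _)
  rw [div_le_div_iff₀ h8 ht0]
  nlinarith

/-- derivative along a segment -/
theorem seg_deriv (D : Dat) (h : IsL D) (t : ℝ) (u b : ℂ) (x : ℝ) (him : 0 < (I * t + x * u).im)
    (hn : D.HH (I * t + x * u) ≠ 0) :
    HasDerivAt (fun x : ℝ => D.HH (I * t + x * u) * cexp (-(x * (b * u))))
      (D.HH (I * t + x * u) * cexp (-(x * (b * u))) *
        ((logDeriv D.HH (I * t + x * u) - b) * u)) x := by
  have hlin : HasDerivAt (fun x : ℝ => I * t + (x : ℂ) * u) u x := by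
    have h0 : HasDerivAt (fun x : ℝ => (x : ℂ)) 1 x := Complex.ofRealCLM.hasDerivAt
    simpa using (h0.mul_const u).const_add (I * t)
  have h1 : HasDerivAt (fun x : ℝ => D.HH (I * t + (x : ℂ) * u))
      (D.HH (I * t + x * u) * logDeriv D.HH (I * t + x * u) * u) x :=
    HasDerivAt.comp x (HH_deriv D h him hn) hlin
  have h2 : HasDerivAt (fun x : ℝ => cexp (-((x : ℂ) * (b * u))))
      (cexp (-((x : ℂ) * (b * u))) * (-(b * u))) x := by
    have h0 : HasDerivAt (fun x : ℝ => (x : ℂ)) 1 x := Complex.ofRealCLM.hasDerivAt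
    have h0' : HasDerivAt (fun x : ℝ => -((x : ℂ) * (b * u))) (-(1 * (b * u))) x :=
      (h0.mul_const (b * u)).fun_neg
    rw [one_mul] at h0'
    exact h0'.cexp
  refine (h1.mul h2).congr_deriv ?_
  ring

theorem norm_xu {x : ℝ} (hx : x ∈ Icc (0:ℝ) 1) {u : ℂ} {r : ℝ} (hu : ‖u‖ ≤ r) :
    ‖(x : ℂ) * u‖ ≤ r := by
  rw [norm_mul, Complex.norm_real, Real.norm_eq_abs, abs_of_nonneg hx.1]
  nlinarith [hx.2, norm_nonneg u]

end Stir2Aux

open Stir2Aux in
/-- Task STIR2. -/
theorem stir2 (D : Dat) (h : IsL D) : SStir2 D := by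
  obtain ⟨K0, T0, hK0, hT0, hb3⟩ := bound3 D h
  obtain ⟨K1, T1, hK1, hT1, hlow⟩ := low D h
  refine ⟨32 * K0 + K1, max T0 T1, by linarith, le_trans (by linarith) (le_max_left _ _), ?_⟩
  intro t ht
  have htT0 : T0 ≤ t := (le_max_left _ _).trans ht
  have htT1 : T1 ≤ t := (le_max_right _ _).trans ht
  have ht4 : 400 ≤ t := hT0.trans htT0
  have ht0 : 0 < t := by linarith
  obtain ⟨hne, hb, hu⟩ := hb3 t htT0
  refine ⟨hne, by linarith, ?_, ?_, ?_⟩
  · refine le_trans (Real.exp_le_exp.2 ?_) (hlow t htT1)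
    nlinarith
  · intro u hut
    obtain ⟨h1, -, -, -⟩ := hu u hut
    refine ⟨h1, h.HH_diff _ h1, ?_⟩
    rcases eq_or_ne u 0 with rfl | hu0
    · simp
    have hun : 0 < ‖u‖ := norm_pos_iff.2 hu0
    have key := SG.GamAux.gron
      (fun x : ℝ => D.HH (I * t + x * u) * cexp (-(x * (((D.κ * Om D t : ℝ) : ℂ) * u))))
      (fun x : ℝ => D.HH (I * t + x * u) * cexp (-(x * (((D.κ * Om D t : ℝ) : ℂ) * u))) *
        ((logDeriv D.HH (I * t + x * u) - ((D.κ * Om D t : ℝ) : ℂ)) * u))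
      (K0 * ‖u‖) (by positivity) ?_ ?_
    · obtain ⟨key, -⟩ := key
      simp only [Complex.ofReal_one, one_mul, Complex.ofReal_zero, zero_mul, add_zero, neg_zero,
        Complex.exp_zero, mul_one] at key
      rw [norm_mul, Complex.norm_exp] at key
      have hre : (-(((D.κ * Om D t : ℝ) : ℂ) * u)).re = -(D.κ * Om D t * u.re) := by
        rw [Complex.neg_re, Complex.re_ofReal_mul]
      rw [hre, Real.exp_neg, ← div_eq_mul_inv, div_le_iff₀ (Real.exp_pos _)] at key
      refine key.trans ?_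
      calc Real.exp (K0 * ‖u‖) * ‖D.HH (I * t)‖ * Real.exp (D.κ * Om D t * u.re)
          = ‖D.HH (I * t)‖ * Real.exp (D.κ * Om D t * u.re + K0 * ‖u‖) := by
            rw [Real.exp_add]; ring
        _ ≤ ‖D.HH (I * t)‖ * Real.exp (D.κ * Om D t * u.re + (32 * K0 + K1) * ‖u‖) := by
            gcongr
            nlinarith
    · intro x hx
      obtain ⟨a1, a2, -, -⟩ := hu (x * u) (norm_xu hx hut)
      exact seg_deriv D h t u ((D.κ * Om D t : ℝ) : ℂ) x a1 a2
    · intro x hx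
      obtain ⟨-, -, hb2, -⟩ := hu (x * u) (norm_xu hx hut)
      rw [norm_mul _ ((logDeriv D.HH (I * t + x * u) - ((D.κ * Om D t : ℝ) : ℂ)) * u),
        norm_mul (_ - _) u, mul_comm]
      gcongr
  · intro u hut
    rcases eq_or_ne u 0 with rfl | hu0
    · simp
    have hun : 0 < ‖u‖ := norm_pos_iff.2 hu0
    have hut2 : 32 * K0 * ‖u‖ ^ 2 ≤ t := by
      have : 0 ≤ K1 * ‖u‖ ^ 2 := by positivity
      nlinarith
    have hut8 : ‖u‖ ≤ t / 8 := by
      by_contra hc
      push Not at hc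
      nlinarith
    set κ : ℝ := 16 * K0 / t * ‖u‖ ^ 2 with hκ
    have hκ0 : 0 < κ := by positivity
    have key := SG.GamAux.gron
      (fun x : ℝ => D.HH (I * t + x * u) * cexp (-(x * (be D t * u))))
      (fun x : ℝ => D.HH (I * t + x * u) * cexp (-(x * (be D t * u))) *
        ((logDeriv D.HH (I * t + x * u) - be D t) * u)) κ hκ0 ?_ ?_
    · obtain ⟨-, key⟩ := key
      simp only [Complex.ofReal_one, one_mul, Complex.ofReal_zero, zero_mul, add_zero, neg_zero,
        Complex.exp_zero, mul_one] at key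
      have hκ1 : κ ≤ 1 := by
        rw [hκ, div_mul_eq_mul_div, div_le_one ht0]
        nlinarith
      have he : Real.exp κ - 1 ≤ 2 * κ := by
        have := Real.abs_exp_sub_one_le (x := κ) (by rw [abs_of_pos hκ0]; exact hκ1)
        rw [abs_of_pos hκ0] at this
        exact (le_abs_self _).trans this
      have e1 : D.HH (I * t + u) - D.HH (I * t) * cexp (be D t * u) =
          (D.HH (I * t + u) * cexp (-(be D t * u)) - D.HH (I * t)) * cexp (be D t * u) := by
        rw [sub_mul, mul_assoc, ← Complex.exp_add]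
        simp
      rw [e1, norm_mul, norm_mul]
      calc ‖D.HH (I * t + u) * cexp (-(be D t * u)) - D.HH (I * t)‖ * ‖cexp (be D t * u)‖
          ≤ ((Real.exp κ - 1) * ‖D.HH (I * t)‖) * ‖cexp (be D t * u)‖ := by gcongr
        _ ≤ ((2 * κ) * ‖D.HH (I * t)‖) * ‖cexp (be D t * u)‖ := by gcongr
        _ = 32 * K0 * ‖u‖ ^ 2 / t * (‖D.HH (I * t)‖ * ‖cexp (be D t * u)‖) := by rw [hκ]; ring
        _ ≤ (32 * K0 + K1) * ‖u‖ ^ 2 / t * (‖D.HH (I * t)‖ * ‖cexp (be D t * u)‖) := by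
            gcongr
            linarith
    · intro x hx
      obtain ⟨a1, a2, -, -⟩ := hu (x * u) (norm_xu hx hut8)
      exact seg_deriv D h t u (be D t) x a1 a2
    · intro x hx
      obtain ⟨-, -, -, hb2⟩ := hu (x * u) (norm_xu hx hut8)
      have hxu := norm_xu hx (le_refl ‖u‖)
      rw [norm_mul _ ((logDeriv D.HH (I * t + x * u) - be D t) * u), norm_mul (_ - _) u, mul_comm]
      have : ‖logDeriv D.HH (I * t + x * u) - be D t‖ * ‖u‖ ≤ κ := by
        calc ‖logDeriv D.HH (I * t + x * u) - be D t‖ * ‖u‖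
            ≤ 16 * K0 / t * ‖(x : ℂ) * u‖ * ‖u‖ := by
              gcongr
          _ ≤ 16 * K0 / t * ‖u‖ * ‖u‖ := by gcongr
          _ = κ := by rw [hκ]; ring
      gcongr

end Pool.Agent.H986R2.GD
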