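import Pool.Agent.H986R2.GD.Spec

set_option autoImplicit false

/-!
# The heat flow is a local sum of exponentials (generic version): composition
-/

namespace Pool.Agent.H986R2.GD

open Complex Filter Topology Polynomial MeasureTheory
open Pool.Agent.H471R3.GJ

namespace TLG

theorem aT_one (D : Dat) (h : D.a 1 = 1) (τ t : ℝ) : aT D τ t 1 = 1 := by
  unfold aT
  simp [h]

theorem norm_aT (D : Dat) (hD : IsL D) (τ t : ℝ) (m : ℕ) (hm : 1 ≤ m) (hτ : 0 ≤ τ)
    (h : D.κ * Real.log m ≤ 2 * (be D t).re) : ‖aT D τ t m‖ ≤ D.A0 * (m : ℝ) ^ D.A := by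
  have hm0 : (0 : ℝ) < m := by exact_mod_cast hm
  have hm1 : (1 : ℝ) ≤ m := by exact_mod_cast hm
  have hlog : 0 ≤ D.κ * Real.log m := mul_nonneg hD.κ_pos.le (Real.log_nonneg hm1)
  unfold aT
  rw [norm_mul, norm_mul]
  have h1 : ‖(m : ℂ) ^ (-(D.κ : ℂ) * (I * (t : ℂ)))‖ ≤ 1 := by
    have e : ((m : ℕ) : ℂ) = (((m : ℕ) : ℝ) : ℂ) := by push_cast; rfl
    rw [e, Complex.norm_cpow_eq_rpow_re_of_pos hm0]
    have e2 : (-(D.κ : ℂ) * (I * (t : ℂ)) : ℂ).re = 0 := by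
      simp [Complex.mul_re]
    rw [e2, Real.rpow_zero]
  set L : ℝ := D.κ * Real.log m with hL
  have h2 : ‖cexp ((τ : ℂ) * ((be D t - ((L : ℝ) : ℂ)) ^ 2 - be D t ^ 2))‖ ≤ 1 := by
    rw [Complex.norm_exp]
    have e3 : ((τ : ℂ) * ((be D t - ((L : ℝ) : ℂ)) ^ 2 - be D t ^ 2)).re =
        -(τ * (L * (2 * (be D t).re - L))) := by
      rw [Complex.re_ofReal_mul]
      simp only [pow_two, Complex.sub_re, Complex.mul_re, Complex.sub_im, Complex.ofReal_re,
        Complex.ofReal_im]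
      ring
    rw [e3]
    have : 0 ≤ τ * (L * (2 * (be D t).re - L)) :=
      mul_nonneg hτ (mul_nonneg hlog (by linarith))
    exact Real.exp_le_one_iff.2 (by linarith)
  have h3 := hD.a_le m hm
  have h4 : 0 ≤ D.A0 * (m : ℝ) ^ D.A := (norm_nonneg _).trans h3
  calc _ ≤ (D.A0 * (m : ℝ) ^ D.A) * 1 * 1 := by
        apply mul_le_mul _ h2 (norm_nonneg _) (by linarith)
        exact mul_le_mul h3 h1 (norm_nonneg _) h4
    _ = _ := by ring

end TLG

open TLG

theorem tloc (D : Dat) (hD : IsL D) (h1 : SPStir D) (h2 : SPUp D) (h3 : SB1T D)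
    (h4 : SStir2 D) : STLoc D := by
  intro K0 hK0
  obtain ⟨T1, hT1, hP⟩ := h1
  obtain ⟨K2, T2, hK2, hT2, hU⟩ := h2 K0 hK0
  obtain ⟨K4, T4, hK4, hT4, hS⟩ := h4
  have hκ := hD.κ_pos
  have hc := hD.c_pos
  refine ⟨max K2 K4, max (max T1 T2) (max T4 (Real.exp (5 / 4 * K4 / (D.κ * D.c)))),
    le_max_of_le_left hK2, le_max_of_le_left (le_max_of_le_left hT1), ?_⟩
  intro t τ ht hτ hτ8 hτO
  have ht1 : T1 ≤ t := le_trans (le_trans (le_max_left _ _) (le_max_left _ _)) ht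
  have ht2 : T2 ≤ t := le_trans (le_trans (le_max_right _ _) (le_max_left _ _)) ht
  have ht4 : T4 ≤ t := le_trans (le_trans (le_max_left _ _) (le_max_right _ _)) ht
  have ht5 : Real.exp (5 / 4 * K4 / (D.κ * D.c)) ≤ t :=
    le_trans (le_trans (le_max_right _ _) (le_max_right _ _)) ht
  have htpos : 0 < t := lt_of_lt_of_le one_pos (le_trans hT1 ht1)
  obtain ⟨hHH, hbe, -, -, -⟩ := hS t ht4
  obtain ⟨hd, hX, hconj, -⟩ := h3 τ hτ.le
  have hOm : 5 / 4 * K4 ≤ D.κ * Om D t := by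
    unfold Om
    have h5 : 5 / 4 * K4 / (D.κ * D.c) ≤ Real.log t := (Real.le_log_iff_exp_le htpos).2 ht5
    rw [div_le_iff₀ (by positivity)] at h5
    linarith
  have hre : D.κ * Om D t - K4 ≤ (be D t).re := by
    have h5 := Complex.abs_re_le_norm (be D t - ((D.κ * Om D t : ℝ) : ℂ))
    rw [Complex.sub_re, Complex.ofReal_re] at h5
    have h6 := abs_le.1 (le_trans h5 hbe)
    linarith [h6.1]
  refine ⟨hd, hconj, ?_, ?_, aT_one D hD.a_one τ t, ?_, ?_, ?_, ?_⟩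
  · unfold cT
    exact mul_ne_zero hHH (Complex.exp_ne_zero _)
  · exact le_trans hbe (le_max_right _ _)
  · intro m hm hmt
    have hm0 : (0 : ℝ) < m := by exact_mod_cast hm
    refine norm_aT D hD τ t m hm hτ.le ?_
    have hmR : (m : ℝ) ≤ Real.exp (2 / 5 * Om D t) := by
      have h1 : (m : ℝ) ≤ (MM D t : ℝ) := by exact_mod_cast hmt
      exact h1.trans (Nat.floor_le (Real.exp_pos _).le)
    have h7 : Real.log m ≤ Real.log (Real.exp (2 / 5 * Om D t)) := Real.log_le_log hm0 hmR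
    rw [Real.log_exp] at h7
    have h8 : D.κ * Real.log m ≤ D.κ * (2 / 5 * Om D t) := mul_le_mul_of_nonneg_left h7 hκ.le
    linarith
  · intro m hm hmt u hu
    exact (hP t τ m ht1 hτ hτ8 hm hmt u hu).1
  · intro m hm hmt u hu
    refine le_trans (hP t τ m ht1 hτ hτ8 hm hmt u hu).2 ?_
    have h9 : (0 : ℝ) ≤ t ^ (-(1 / 4) : ℝ) := Real.rpow_nonneg htpos.le _
    have h10 : (1 : ℝ) ≤ max K2 K4 := le_max_of_le_left hK2
    refine mul_le_mul_of_nonneg_right ?_ (norm_nonneg _)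
    nlinarith
  · intro w hw hwre
    rw [hX]
    refine le_trans (hU t τ ht2 hτ hτ8 hτO w hw hwre) ?_
    refine mul_le_mul_of_nonneg_right ?_ (Real.exp_nonneg _)
    exact mul_le_mul_of_nonneg_right (le_max_left _ _) (norm_nonneg _)

end Pool.Agent.H986R2.GD
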