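import Pool.Agent.H986R2.GD.Spec
import Pool.Agent.H986R2.DBN.ToZ

set_option autoImplicit false

/-! # Task TOZ: from `x = z²` to `z` -/

namespace Pool.Agent.H986R2.GD

open Complex Filter Topology Polynomial
open Pool.Agent.H24R2.JP (TT TI)
open Pool.Agent.H471R3.GJ
open Pool.Agent.H986R2.DBN (ParD xderGen)

/-- the operators keep the class `LPI` -/
theorem toz_TI (h1 : SLPI) (b : ℝ) (hb : 0 < b) (m : ℕ) :
    ∀ f : ℂ → ℂ, LPI f → LPI (TI b m f) := by
  induction m with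
  | zero => exact fun f hf => hf
  | succ m ih =>
    intro f hf
    have hbm : 0 < b + (m : ℝ) := by positivity
    exact ih (TT (b + m) f) ((h1 f hf).2.2 _ hbm)

theorem toZ (D : Dat) (h1 : SLPI) (h2 : SB1T D) (_h3 : SKer D) : SToZ D := by
  intro τ n hτ hf z hz
  obtain ⟨hd, hX, -⟩ := h2 τ hτ
  have hxd := xderGen hd hX
  have key : ∀ b : ℝ, 0 < b → ∀ (m : ℕ) (g : ℂ → ℂ), LPI g → TI b m g (z ^ 2) = 0 → z.re = 0 := by
    intro b hb m g hg h0
    have h4 := (h1 _ (toz_TI h1 b hb m g hg)).1 _ h0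
    have h5 := h4 z rfl
    nlinarith
  rcases Nat.even_or_odd' n with ⟨m, rfl | rfl⟩
  · have e : (2 * m + 1) / 2 = m := by omega
    rw [e] at hf
    rw [(hxd m z).1] at hz
    have h4m : (4 : ℂ) ^ m ≠ 0 := pow_ne_zero _ (by norm_num)
    have h0 := (mul_eq_zero.1 hz).resolve_left h4m
    exact key _ (by norm_num) m _ hf h0
  · have e : (2 * m + 1 + 1) / 2 = m + 1 := by omega
    rw [e] at hf
    rw [(hxd m z).2] at hz
    by_cases hz0 : z = 0
    · rw [hz0]; rfl
    have h4m : (2 : ℂ) * 4 ^ m * z ≠ 0 :=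
      mul_ne_zero (mul_ne_zero two_ne_zero (pow_ne_zero _ (by norm_num))) hz0
    have h0 := (mul_eq_zero.1 hz).resolve_left h4m
    exact key _ (by norm_num) m _ hf h0

end Pool.Agent.H986R2.GD
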