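import Pool.Agent.H986R2.GD.Spec

set_option autoImplicit false

/-!
# Task WINT
-/

namespace Pool.Agent.H986R2.GD.WinTAux

open Complex Filter Topology

lemma deriv_conj' {f : ℂ → ℂ} (hd : Differentiable ℂ f)
    (hf : ∀ x, f ((starRingEnd ℂ) x) = (starRingEnd ℂ) (f x)) (x : ℂ) :
    deriv f ((starRingEnd ℂ) x) = (starRingEnd ℂ) (deriv f x) := by
  have h1 : f = (starRingEnd ℂ) ∘ f ∘ (starRingEnd ℂ) := by
    funext y
    simp only [Function.comp_apply]
    rw [hf y, Complex.conj_conj]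
  have h2 : HasDerivAt ((starRingEnd ℂ) ∘ f ∘ (starRingEnd ℂ)) ((starRingEnd ℂ) (deriv f x))
      ((starRingEnd ℂ) x) := (hd x).hasDerivAt.conj_conj
  rw [← h1] at h2
  exact h2.deriv

lemma iter_conj {f : ℂ → ℂ} (hd : Differentiable ℂ f)
    (hf : ∀ x, f ((starRingEnd ℂ) x) = (starRingEnd ℂ) (f x)) (n : ℕ) :
    Differentiable ℂ (iteratedDeriv n f) ∧
    ∀ x, iteratedDeriv n f ((starRingEnd ℂ) x) = (starRingEnd ℂ) (iteratedDeriv n f x) := by
  induction n with
  | zero => simpa [iteratedDeriv_zero] using ⟨hd, hf⟩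
  | succ n ih =>
    rw [iteratedDeriv_succ]
    refine ⟨?_, fun x => deriv_conj' ih.1 ih.2 x⟩
    intro x
    exact ((ih.1.analyticAt x).deriv).differentiableAt

end Pool.Agent.H986R2.GD.WinTAux

namespace Pool.Agent.H986R2.GD

open Complex Filter Topology Polynomial MeasureTheory
open Pool.Agent.H24R2.JP (Par Good App arc SHad SDer SGL SJen SPar SCircle SNewton SArc TT TI)
open Pool.Agent.H471R3.GJ
open Pool.Agent.H986R2.DBN (ParD SCPoly PL)
open WinTAux

theorem winT (D : Dat) (h : IsL D) (h1 : STLoc D) (h2 : SLoc D) (h3 : SB1T D) : SWinT D := by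
  intro K0 hK0
  obtain ⟨K, T1, hK, hT1, hloc⟩ := h1 K0 hK0
  obtain ⟨T2, hT2, hoff⟩ := h2 K hK
  set T0 : ℝ := max T1 T2 with hT0def
  have hT0 : 1 ≤ T0 := hT1.trans (le_max_left _ _)
  have hc := h.c_pos
  have hw20 : 20 ≤ D.w := by
    have h3 := h.κ_pos
    have h4 := h.A_nonneg
    have h5 := h.w_large
    linarith
  have hw : 0 < D.w := by linarith
  have hal : 0 < al D := by
    have : 0 < D.c * D.w := mul_pos hc hw
    unfold al
    positivity
  set α := al D with hα
  have hαdef : α = 2 / (D.c * D.w) := rfl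
  -- n large enough
  have hbig : ∃ n1 : ℕ, 1 ≤ n1 ∧ ∀ n : ℕ, n1 ≤ n →
      Real.exp (979 / 1000 * (α * n)) ≤ Real.exp (49 / 50 * (α * n)) - 1 / 4 ∧
      T0 ^ 2 ≤ Real.exp (979 / 1000 * (α * n)) := by
    obtain ⟨n1, hn1⟩ := exists_nat_ge (max 1 (max (250 / α) (2 * T0 ^ 2 / α)))
    have h10 : (1 : ℝ) ≤ n1 := (le_max_left _ _).trans hn1
    refine ⟨n1, by exact_mod_cast h10, fun n hn => ?_⟩
    have hn' : (n1 : ℝ) ≤ n := by exact_mod_cast hn
    have hq1 : 250 ≤ α * n := by
      have h5 : 250 / α ≤ (n : ℝ) :=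
        ((le_max_left _ _).trans ((le_max_right _ _).trans hn1)).trans hn'
      rw [div_le_iff₀ hal] at h5
      linarith
    have hq2 : 2 * T0 ^ 2 ≤ α * n := by
      have h5 : 2 * T0 ^ 2 / α ≤ (n : ℝ) :=
        ((le_max_right _ _).trans ((le_max_right _ _).trans hn1)).trans hn'
      rw [div_le_iff₀ hal] at h5
      linarith
    set q : ℝ := α * n with hq
    constructor
    · have e1 : Real.exp (49 / 50 * q) = Real.exp (979 / 1000 * q) * Real.exp (1 / 1000 * q) := by
        rw [← Real.exp_add]; congr 1; ring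
      have e2 : 1 + 1 / 1000 * q ≤ Real.exp (1 / 1000 * q) := by
        have := Real.add_one_le_exp (1 / 1000 * q); linarith
      have e3 : 1 ≤ Real.exp (979 / 1000 * q) := Real.one_le_exp (by linarith)
      rw [e1]
      nlinarith
    · have e2 : 1 + 979 / 1000 * q ≤ Real.exp (979 / 1000 * q) := by
        have := Real.add_one_le_exp (979 / 1000 * q); linarith
      linarith
  obtain ⟨n1, hn1, hbig⟩ := hbig
  -- the case of positive imaginary part
  have main : ∀ τ : ℝ, 0 < τ → τ ≤ 1 / 8 → ∀ n : ℕ, n1 ≤ n → n * τ ≤ K0 → ∀ x : ℂ, x ∈ Par →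
      0 < x.im → Real.exp (49 / 50 * (α * n)) ≤ ‖x‖ → ‖x‖ ≤ Real.exp (51 / 50 * (α * n)) →
      iteratedDeriv n (FT D τ) x ≠ 0 := by
    intro τ hτ0 hτ1 n hn hnτ x hx him hlo hup
    obtain ⟨b1, b2⟩ := hbig n hn
    -- the square root in the first quadrant
    obtain ⟨s, t, hs, ht, hst⟩ : ∃ s t : ℝ, 0 < s ∧ 0 < t ∧ ((s : ℂ) + I * t) ^ 2 = x := by
      set z : ℂ := x ^ (1 / 2 : ℂ) with hz
      have hz2 : z ^ 2 = x := by
        rw [hz, ← Complex.cpow_nat_mul]
        simp
      have hzz : (z.re + I * z.im : ℂ) = z := by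
        rw [mul_comm]; exact Complex.re_add_im z
      have him2 : 2 * z.re * z.im = x.im := by
        have := congrArg Complex.im hz2
        rw [pow_two, Complex.mul_im] at this
        linarith
      rcases lt_trichotomy z.re 0 with h0 | h0 | h0
      · refine ⟨-z.re, -z.im, by linarith, ?_, ?_⟩
        · nlinarith
        · rw [← hz2, ← hzz]; push_cast; simp; ring
      · rw [h0] at him2; simp at him2; linarith
      · refine ⟨z.re, z.im, h0, ?_, by rw [hzz, hz2]⟩
        nlinarith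
    have hre : x.re = s ^ 2 - t ^ 2 := by
      rw [← hst, pow_two, Complex.mul_re]; simp; ring
    have him' : x.im = 2 * s * t := by
      rw [← hst, pow_two, Complex.mul_im]; simp; ring
    have hP : x.re + x.im ^ 2 ≤ 1 / 4 := hx
    rw [hre, him'] at hP
    have hs2 : s ≤ 1 / 2 := by
      by_contra hcon
      push Not at hcon
      have : 0 < (4 * s ^ 2 - 1) * (t ^ 2 + 1 / 4) := by
        apply mul_pos
        · nlinarith
        · positivity
      nlinarith
    have hnorm : ‖x‖ = s ^ 2 + t ^ 2 := by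
      rw [← hst, norm_pow, ← Complex.normSq_eq_norm_sq, Complex.normSq_apply]
      simp; ring
    have hlogt : D.w * Om D t = Real.log (t ^ 2) / α := by
      unfold Om
      rw [Real.log_pow, hαdef]
      push_cast
      field_simp
    have ht2 : Real.exp (979 / 1000 * (α * n)) ≤ t ^ 2 := by
      rw [hnorm] at hlo; nlinarith
    have ht2' : t ^ 2 ≤ Real.exp (51 / 50 * (α * n)) := by
      rw [hnorm] at hup; nlinarith
    have htpos : 0 < t ^ 2 := by positivity
    have hO1 : D.w * Om D t ≤ 51 / 50 * n := by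
      rw [hlogt, div_le_iff₀ hal]
      have := (Real.log_le_log htpos ht2').trans_eq (Real.log_exp _)
      linarith
    have hO2 : 979 / 1000 * n ≤ D.w * Om D t := by
      rw [hlogt, le_div_iff₀ hal]
      have := (Real.log_exp _).symm.trans_le (Real.log_le_log (Real.exp_pos _) ht2)
      linarith
    have hn0 : (0 : ℝ) ≤ n := Nat.cast_nonneg n
    have hTt : T0 ≤ t := by
      have : T0 ^ 2 ≤ t ^ 2 := b2.trans ht2
      exact (pow_le_pow_iff_left₀ (by linarith) ht.le two_ne_zero).1 this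
    rw [← hst]
    have hOm0 : 0 ≤ Om D t := by
      have h5 : 0 ≤ D.w * Om D t := le_trans (by positivity) hO2
      exact nonneg_of_mul_nonneg_right h5 hw
    have hτO : τ * Om D t ≤ K0 := by
      have e0 : 20 * Om D t ≤ D.w * Om D t := mul_le_mul_of_nonneg_right hw20 hOm0
      have e3 : Om D t ≤ n := by linarith
      have e1 : τ * Om D t ≤ τ * n := mul_le_mul_of_nonneg_left e3 hτ0.le
      linarith
    exact hoff t (FT D τ) (cT D τ t) (be D t) (aT D τ t) (PT D τ t)
      ((le_max_right _ _).trans hTt)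
      (hloc t τ ((le_max_left _ _).trans hTt) hτ0 hτ1 hτO) n s (by linarith) (by linarith) hs hs2
  refine ⟨n1, fun τ hτ0 hτ1 n hn hnτ x hx him hlo hup => ?_⟩
  have h3' := h3 τ hτ0.le
  rcases lt_or_gt_of_ne him with h0 | h0
  · have hx' : (starRingEnd ℂ) x ∈ Par := by
      have hP : x.re + x.im ^ 2 ≤ 1 / 4 := hx
      change ((starRingEnd ℂ) x).re + ((starRingEnd ℂ) x).im ^ 2 ≤ 1 / 4
      simpa using hP
    have := main τ hτ0 hτ1 n hn hnτ ((starRingEnd ℂ) x) hx' (by simpa using h0)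
      (by rwa [RCLike.norm_conj]) (by rwa [RCLike.norm_conj])
    rw [(iter_conj h3'.1 h3'.2.2.1 n).2 x] at this
    intro hcon
    rw [hcon] at this
    simp at this
  · exact main τ hτ0 hτ1 n hn hnτ x hx h0 hlo hup

end Pool.Agent.H986R2.GD
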