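import Pool.Agent.H986R2.GD.Spec
import Pool.Agent.H986R2.DBN.GoodT

set_option autoImplicit false

/-!
# Tasks WKT, BIG, RHREAL
-/

namespace Pool.Agent.H986R2.GD

open Complex Filter Topology Polynomial MeasureTheory
open Pool.Agent.H24R2.JP (Par Good App arc SHad SDer SGL SJen SPar SCircle SNewton SArc TT TI)
open Pool.Agent.H471R3.GJ
open Pool.Agent.H986R2.DBN (ParD SCPoly PL par_iff parD_mono)

namespace WkTAux

theorem zero_re (D : Dat) (h : IsL D) (z : ℂ) (hz : D.XX z = 0) : z.re ^ 2 ≤ 1 / 4 := by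
  have h1 := abs_le.1 (h.XX_zero z hz)
  nlinarith [h1.1, h1.2]

end WkTAux

theorem wkT (D : Dat) (h : IsL D) (h1 : SAppT D) (h2 : SApp0 D) (h3 : SPosT D) (h4 : SB1T D) :
    SWkT D := by
  intro τ hτ
  obtain ⟨hd, -, -, hi⟩ := h4 τ hτ
  obtain ⟨k0, hk0⟩ := h3
  obtain ⟨P0, hP0, hlim⟩ := h2 (1 / 4) (by norm_num) (WkTAux.zero_re D h)
  obtain ⟨P, hP, hPl⟩ := h1 (1 / 4) P0 (by norm_num) hP0 hlim τ hτ
  refine ⟨hd, ⟨P, fun N x hx => (par_iff x).2 (parD_mono ?_ (hP N x hx)), hPl⟩, ?_⟩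
  · exact max_le (by linarith) (by norm_num)
  · intro n
    by_contra hc
    push Not at hc
    have h5 : iteratedDeriv n (FT D τ) = fun _ => 0 := funext hc
    have h6 : iteratedDeriv (k0 + n) (FT D τ) 0 = 0 := by
      have e : iteratedDeriv (k0 + n) (FT D τ) = iteratedDeriv k0 (iteratedDeriv n (FT D τ)) := by
        rw [iteratedDeriv_eq_iterate, iteratedDeriv_eq_iterate, iteratedDeriv_eq_iterate,
          Function.iterate_add_apply]
      rw [e, h5]
      simp
    rw [hi (k0 + n)] at h6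
    have h7 := hk0 τ hτ (k0 + n) (by omega)
    have h8 : gamT D τ (k0 + n) = 0 := by exact_mod_cast h6
    linarith

end Pool.Agent.H986R2.GD
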