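import Pool.Agent.H986R2.GD.Spec
import Pool.Agent.H471R3.GJ.Conv

set_option autoImplicit false

/-! # Task XB: bounds for `XX` (helper484, after helper148 and helper588) -/

namespace Pool.Agent.H986R2.GD

open Complex Filter Topology Polynomial MeasureTheory
open Pool.Agent.H471R3.GJ

namespace Xb

variable {D : Dat}

/-- Reflection. -/
lemma norm_XX_refl (h4 : SB1 D) (t a b : ℝ) :
    ‖D.XX (I * t + ((-a : ℝ) + I * b))‖ = ‖D.XX (I * t + ((a : ℝ) + I * b))‖ := by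
  obtain ⟨-, h, hc, -⟩ := h4
  rw [← h, ← h]
  have h1 : (I * (t : ℂ) + (((-a : ℝ) : ℂ) + I * b)) ^ 2 =
      (starRingEnd ℂ) ((I * (t : ℂ) + ((a : ℂ) + I * b)) ^ 2) := by
    simp only [map_pow, map_add, map_mul, Complex.conj_I, Complex.conj_ofReal]
    push_cast
    ring
  rw [h1, hc, Complex.norm_conj]

lemma norm_XX_abs (h4 : SB1 D) (t : ℝ) (u : ℂ) :
    ‖D.XX (I * t + u)‖ = ‖D.XX (I * t + ((|u.re| : ℝ) + I * u.im))‖ := by
  have hu : u = (u.re : ℂ) + I * u.im := by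
    rw [mul_comm]; exact (Complex.re_add_im u).symm
  rcases le_total 0 u.re with h | h
  · rw [abs_of_nonneg h, ← hu]
  · rw [abs_of_nonpos h, norm_XX_refl h4, ← hu]

/-- The Dirichlet series is close to its first term. -/
lemma ser_one (h : IsL D) : ∃ C : ℝ, 0 ≤ C ∧ ∀ z : ℂ, D.A + 2 ≤ D.κ * z.re →
    ‖∑' m : ℕ, D.a (m + 1) * ((m + 1 : ℕ) : ℂ) ^ (-(D.κ : ℂ) * z) - 1‖ ≤
      C * (2 : ℝ) ^ (-(D.κ * z.re)) := by
  have hA0 : 0 ≤ D.A0 := zero_le_one.trans h.A0_one
  have hsq : Summable (fun m : ℕ => (1 / ((m + 1 : ℕ) : ℝ) ^ 2)) :=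
    (summable_nat_add_iff 1).2 (Real.summable_one_div_nat_pow.2 one_lt_two)
  have hsq' : Summable (fun m : ℕ => (1 / ((m + 1 + 1 : ℕ) : ℝ) ^ 2)) :=
    (summable_nat_add_iff (f := fun m : ℕ => (1 / ((m + 1 : ℕ) : ℝ) ^ 2)) 1).2 hsq
  set S : ℝ := ∑' m : ℕ, 1 / ((m + 1 + 1 : ℕ) : ℝ) ^ 2 with hS
  have hS0 : 0 ≤ S := tsum_nonneg fun m => by positivity
  refine ⟨D.A0 * (2 : ℝ) ^ (D.A + 2) * S, by positivity, fun z hz => ?_⟩
  have hre : (-(D.κ : ℂ) * z).re = -(D.κ * z.re) := by simp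
  -- the bound for the terms
  have hbd : ∀ m : ℕ, ‖D.a (m + 1) * ((m + 1 : ℕ) : ℂ) ^ (-(D.κ : ℂ) * z)‖ ≤
      D.A0 * (1 / ((m + 1 : ℕ) : ℝ) ^ 2) := by
    intro m
    have hm : (0 : ℝ) < ((m + 1 : ℕ) : ℝ) := by positivity
    have hm1 : (1 : ℝ) ≤ ((m + 1 : ℕ) : ℝ) := by
      push_cast
      have : (0 : ℝ) ≤ m := Nat.cast_nonneg m
      linarith
    rw [norm_mul, Complex.norm_natCast_cpow_of_pos (Nat.succ_pos m), hre]
    calc ‖D.a (m + 1)‖ * ((m + 1 : ℕ) : ℝ) ^ (-(D.κ * z.re))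
        ≤ (D.A0 * ((m + 1 : ℕ) : ℝ) ^ D.A) * ((m + 1 : ℕ) : ℝ) ^ (-(D.A + 2)) := by
          apply mul_le_mul (h.a_le (m + 1) (by omega)) _ (by positivity) (by positivity)
          exact Real.rpow_le_rpow_of_exponent_le hm1 (by linarith)
      _ = D.A0 * (((m + 1 : ℕ) : ℝ) ^ D.A * ((m + 1 : ℕ) : ℝ) ^ (-(D.A + 2))) := by ring
      _ = D.A0 * ((m + 1 : ℕ) : ℝ) ^ (-2 : ℝ) := by
          rw [← Real.rpow_add hm]
          congr 2
          ring
      _ = D.A0 * (1 / ((m + 1 : ℕ) : ℝ) ^ 2) := by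
          rw [Real.rpow_neg hm.le, one_div]
          norm_cast
  have hsum : Summable fun m : ℕ => D.a (m + 1) * ((m + 1 : ℕ) : ℂ) ^ (-(D.κ : ℂ) * z) :=
    Summable.of_norm_bounded (hsq.mul_left D.A0) hbd
  rw [hsum.tsum_eq_zero_add]
  have h0 : D.a (0 + 1) * ((0 + 1 : ℕ) : ℂ) ^ (-(D.κ : ℂ) * z) = 1 := by
    simp [h.a_one]
  rw [h0, add_sub_cancel_left]
  have hterm : ∀ m : ℕ, ‖D.a (m + 1 + 1) * ((m + 1 + 1 : ℕ) : ℂ) ^ (-(D.κ : ℂ) * z)‖ ≤
      (D.A0 * (2 : ℝ) ^ (D.A + 2) * (2 : ℝ) ^ (-(D.κ * z.re))) *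
        (1 / ((m + 1 + 1 : ℕ) : ℝ) ^ 2) := by
    intro m
    set x : ℝ := ((m + 1 + 1 : ℕ) : ℝ) with hx
    have hx2 : 2 ≤ x := by
      rw [hx]; push_cast; have : (0 : ℝ) ≤ m := Nat.cast_nonneg m; linarith
    have hx0 : 0 < x := by linarith
    rw [norm_mul, Complex.norm_natCast_cpow_of_pos (Nat.succ_pos _), hre]
    have e1 : x ^ (D.A + 2 - D.κ * z.re) ≤ (2 : ℝ) ^ (D.A + 2 - D.κ * z.re) :=
      Real.rpow_le_rpow_of_nonpos (by norm_num) hx2 (by linarith)
    calc ‖D.a (m + 1 + 1)‖ * x ^ (-(D.κ * z.re))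
        ≤ (D.A0 * x ^ D.A) * x ^ (-(D.κ * z.re)) :=
          mul_le_mul_of_nonneg_right (h.a_le (m + 1 + 1) (by omega)) (by positivity)
      _ = D.A0 * (x ^ (-2 : ℝ) * x ^ (D.A + 2 - D.κ * z.re)) := by
          rw [mul_assoc, ← Real.rpow_add hx0, ← Real.rpow_add hx0]
          congr 2
          ring
      _ ≤ D.A0 * (x ^ (-2 : ℝ) * (2 : ℝ) ^ (D.A + 2 - D.κ * z.re)) := by gcongr
      _ = (D.A0 * (2 : ℝ) ^ (D.A + 2) * (2 : ℝ) ^ (-(D.κ * z.re))) * (1 / x ^ 2) := by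
          rw [Real.rpow_neg hx0.le, show D.A + 2 - D.κ * z.re = (D.A + 2) + -(D.κ * z.re) by ring,
            Real.rpow_add (by norm_num : (0 : ℝ) < 2) (D.A + 2), one_div]
          norm_cast
          ring
  have hfin := tsum_of_norm_bounded
    (hsq'.mul_left (D.A0 * (2 : ℝ) ^ (D.A + 2) * (2 : ℝ) ^ (-(D.κ * z.re)))).hasSum hterm
  rw [tsum_mul_left] at hfin
  refine hfin.trans (le_of_eq ?_)
  rw [hS]
  ring

lemma norm_le_re_add (u : ℂ) {R : ℝ} (h : |u.im| ≤ R) : ‖u‖ ≤ |u.re| + R := by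
  have := Complex.norm_le_abs_re_add_abs_im u
  linarith

end Xb

open Xb in
/-- Task XB. -/
theorem xb (D : Dat) (h : IsL D) (h1 : SStir2 D) (h2 : SConv D) (h3 : SGrow D) (h4 : SB1 D) :
    SXB D := by
  obtain ⟨K1, T1, hK1, hT1, hS⟩ := h1
  obtain ⟨K2, T2, hK2, hT2, hCv⟩ := h2
  obtain ⟨K3, hG⟩ := h3
  obtain ⟨S, hS0, hSer⟩ := ConvAux.ser_bd h
  obtain ⟨C, hC0, hOne⟩ := ser_one h
  have hκ := h.κ_pos
  have hc := h.c_pos
  have hA := h.A_nonneg
  have hw := h.w_large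
  have hw0 : 0 < D.w := by nlinarith
  have hrr : 0 < rr D := by
    unfold rr
    positivity
  have hrrA : (D.A + 2) / D.κ ≤ rr D := by
    unfold rr
    apply div_le_div_of_nonneg_right _ hκ.le
    linarith
  set R : ℝ := rr D + 2 with hR
  have hR2 : 2 < R := by linarith
  have hl2 : 0 < Real.log 2 := Real.log_pos (by norm_num)
  set E1 : ℝ := K2 * Real.exp (K1 * R + (D.A + 3) * (D.c * Real.log 2)) with hE1
  set E2 : ℝ := S * Real.exp (K1 * R) with hE2
  set Q : ℝ := 1 + (17 + R) ^ 2 with hQ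
  have hE10 : 0 ≤ E1 := by positivity
  have hE20 : 0 ≤ E2 := by positivity
  have hQ1 : 1 ≤ Q := by
    have : 0 ≤ (17 + R) ^ 2 := sq_nonneg _
    linarith
  have hQ0 : 0 ≤ Q := by linarith
  have hK30 := abs_nonneg K3
  set K : ℝ := E1 + E2 + Q * |K3| + 16 * K1 + 2 * C + (D.A + 2) / D.κ with hK
  have hQK : 0 ≤ Q * |K3| := by positivity
  have hAk : 0 ≤ (D.A + 2) / D.κ := by positivity
  have hKE1 : E1 ≤ K := by rw [hK]; linarith
  have hKE2 : E2 ≤ K := by rw [hK]; linarith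
  have hB : Q * |K3| + 16 * K1 ≤ K := by rw [hK]; linarith
  have hD : 2 * C ≤ K := by rw [hK]; linarith
  have hE : K1 ≤ K := by rw [hK]; linarith
  have hAK : (D.A + 2) / D.κ ≤ K := by rw [hK]; linarith
  have hK1' : 1 ≤ K := by linarith
  have hK0 : 0 ≤ K := by linarith
  refine ⟨K, max T1 (2 * T2) + 400 + 32 * R, hK1', ?_, ?_⟩
  · have := le_max_left T1 (2 * T2)
    linarith
  intro t u ht hu
  have htT : T1 ≤ t := by
    have := le_max_left T1 (2 * T2)
    linarith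
  have htT2 : 2 * T2 ≤ t := by
    have := le_max_right T1 (2 * T2)
    linarith
  have ht4 : 400 ≤ t := by
    have := le_max_left T1 (2 * T2)
    linarith
  have htR : 32 * R ≤ t := by
    have := le_max_left T1 (2 * T2)
    linarith
  have ht0 : 0 < t := by linarith
  have hlogt : 0 ≤ Real.log t := Real.log_nonneg (by linarith)
  have hOm : 0 ≤ Om D t := by unfold Om; positivity
  obtain ⟨hne, -, hlow, hH, hA3⟩ := hS t htT
  have hN0 : 0 ≤ ‖D.HH (I * t)‖ := norm_nonneg _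
  refine ⟨?_, ?_, ?_⟩
  · intro hre
    rw [norm_XX_abs h4]
    set r : ℝ := |u.re| with hr
    have hr0 : 0 ≤ r := abs_nonneg _
    set v : ℂ := (r : ℂ) + I * u.im with hv
    have hvre : v.re = r := by simp [hv]
    have hvim : v.im = u.im := by simp [hv]
    have hexpA : 1 ≤ Real.exp ((D.A + 3) * Om D t) := Real.one_le_exp (by positivity)
    have hzre : (I * (t : ℂ) + v).re = r := by simp [hvre]
    have hzim : (I * (t : ℂ) + v).im = t + u.im := by simp [hvim]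
    have him := abs_le.1 hu
    rcases le_total (D.A + 2) (D.κ * r) with hcase | hcase
    · -- the half plane of absolute convergence
      have hnv : ‖v‖ ≤ r + R := by
        have := norm_le_re_add v (R := R) (by rw [hvim]; exact hu)
        rwa [hvre, abs_of_nonneg hr0] at this
      have hv8 : ‖v‖ ≤ t / 8 := by linarith
      rw [h.XX_dir (I * t + v) (by rw [hzim]; linarith) (by rw [hzre]; exact hcase), norm_mul]
      have h5 := (hH v hv8).2.2
      have h6 := hSer (I * t + v) (by rw [hzre]; exact hcase)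
      rw [hvre] at h5
      calc ‖D.HH (I * t + v)‖ * _
          ≤ (‖D.HH (I * t)‖ * Real.exp (D.κ * Om D t * r + K1 * ‖v‖)) * S :=
            mul_le_mul h5 h6 (norm_nonneg _) (by positivity)
        _ ≤ (‖D.HH (I * t)‖ * Real.exp (K1 * R + (D.κ * Om D t + K1) * r)) * S := by
            refine mul_le_mul_of_nonneg_right (mul_le_mul_of_nonneg_left
              (Real.exp_le_exp.2 ?_) hN0) hS0
            have b1 : K1 * ‖v‖ ≤ K1 * (r + R) := mul_le_mul_of_nonneg_left hnv (by linarith)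
            linarith
        _ = E2 * ‖D.HH (I * t)‖ * Real.exp ((D.κ * Om D t + K1) * r) := by
            rw [hE2, Real.exp_add]; ring
        _ ≤ K * ‖D.HH (I * t)‖ * Real.exp ((D.A + 3) * Om D t + (D.κ * Om D t + K) * r) := by
            gcongr
            have a1 : 0 ≤ (D.A + 3) * Om D t := by positivity
            nlinarith
    · -- the strip
      set t2 : ℝ := t + u.im with ht2
      have ht2' : T2 ≤ t2 := by linarith
      have ht20 : 0 < t2 := by linarith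
      have ez : I * (t : ℂ) + v = I * (t2 : ℂ) + r := by
        rw [hv, ht2]; push_cast; ring
      rw [ez]
      have h5 := hCv t2 (I * (t2 : ℂ) + r) ht2' (by simpa using hr0) (by simpa using hcase) (by
        rw [add_sub_cancel_left, Complex.norm_real, Real.norm_eq_abs, abs_of_nonneg hr0]
        have : r ≤ (D.A + 2) / D.κ := by
          rw [le_div_iff₀ hκ]; linarith
        linarith)
      have h6 : ‖D.HH (I * t2)‖ ≤ ‖D.HH (I * t)‖ * Real.exp (K1 * R) := by
        have a1 : ‖(I * (u.im : ℂ))‖ ≤ R := by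
          rw [norm_mul, Complex.norm_I, one_mul, Complex.norm_real, Real.norm_eq_abs]
          exact hu
        have h7 := (hH (I * (u.im : ℂ)) (by linarith)).2.2
        have e1 : I * (t : ℂ) + I * (u.im : ℂ) = I * (t2 : ℂ) := by rw [ht2]; push_cast; ring
        have e2 : (I * (u.im : ℂ)).re = 0 := by simp
        rw [e1, e2, mul_zero, zero_add] at h7
        refine h7.trans ?_
        gcongr
      have h8 : Om D t2 ≤ Om D t + D.c * Real.log 2 := by
        unfold Om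
        rw [← mul_add]
        apply mul_le_mul_of_nonneg_left _ hc.le
        rw [← Real.log_mul ht0.ne' (by norm_num)]
        exact Real.log_le_log ht20 (by linarith)
      calc ‖D.XX (I * (t2 : ℂ) + r)‖
          ≤ K2 * ‖D.HH (I * t2)‖ * Real.exp ((D.A + 3) * Om D t2) := h5
        _ ≤ K2 * (‖D.HH (I * t)‖ * Real.exp (K1 * R)) *
              Real.exp ((D.A + 3) * (Om D t + D.c * Real.log 2)) := by gcongr
        _ = E1 * ‖D.HH (I * t)‖ * Real.exp ((D.A + 3) * Om D t) := by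
            rw [hE1, mul_add (D.A + 3) (Om D t), Real.exp_add ((D.A + 3) * Om D t),
              Real.exp_add (K1 * R)]
            ring
        _ ≤ K * ‖D.HH (I * t)‖ * Real.exp ((D.A + 3) * Om D t + (D.κ * Om D t + K) * r) := by
            gcongr
            have : 0 ≤ (D.κ * Om D t + K) * r := by positivity
            linarith
  · intro hre
    obtain ⟨-, hFX, -, -⟩ := h4
    rw [← hFX]
    set r : ℝ := |u.re| with hr
    have hr1 : 1 ≤ r := by linarith
    have hr0 : 0 < r := by linarith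
    have hz : ‖(I * t + u : ℂ)‖ ≤ (17 + R) * r := by
      refine (norm_add_le _ _).trans ?_
      have e1 : ‖(I * t : ℂ)‖ = t := by
        rw [norm_mul, Complex.norm_I, one_mul, Complex.norm_real, Real.norm_eq_abs,
          abs_of_pos (by linarith)]
      have e2 := norm_le_re_add u hu
      rw [e1]
      nlinarith
    have hG1 := hG ((I * t + u) ^ 2)
    have hz2 : 1 + ‖((I * t + u : ℂ) ^ 2)‖ ≤ Q * r ^ 2 := by
      rw [norm_pow]
      have a1 := norm_nonneg (I * t + u : ℂ)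
      have a2 : ‖(I * t + u : ℂ)‖ ^ 2 ≤ ((17 + R) * r) ^ 2 := by gcongr
      have a3 : 1 ≤ r ^ 2 := one_le_pow₀ hr1
      rw [hQ]
      nlinarith
    have h8 : (1 + ‖((I * t + u : ℂ) ^ 2)‖) ^ (3 / 4 : ℝ) ≤ Q * r ^ (3 / 2 : ℝ) := by
      calc (1 + ‖((I * t + u : ℂ) ^ 2)‖) ^ (3 / 4 : ℝ) ≤ (Q * r ^ 2) ^ (3 / 4 : ℝ) :=
            Real.rpow_le_rpow (by positivity) hz2 (by norm_num)
        _ = Q ^ (3 / 4 : ℝ) * r ^ (3 / 2 : ℝ) := by
            rw [Real.mul_rpow hQ0 (by positivity), ← Real.rpow_natCast r 2,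
              ← Real.rpow_mul hr0.le]
            norm_num
        _ ≤ Q * r ^ (3 / 2 : ℝ) := by
            apply mul_le_mul_of_nonneg_right _ (by positivity)
            calc (Q : ℝ) ^ (3 / 4 : ℝ) ≤ Q ^ (1 : ℝ) :=
                  Real.rpow_le_rpow_of_exponent_le hQ1 (by norm_num)
              _ = Q := Real.rpow_one _
    have h9 : r ^ (3 / 2 : ℝ) ≤ r ^ (7 / 4 : ℝ) := Real.rpow_le_rpow_of_exponent_le hr1 (by norm_num)
    have h10 : r ≤ r ^ (7 / 4 : ℝ) := by
      calc r = r ^ (1 : ℝ) := (Real.rpow_one r).symm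
        _ ≤ _ := Real.rpow_le_rpow_of_exponent_le hr1 (by norm_num)
    have h11 : K3 * (1 + ‖((I * t + u : ℂ) ^ 2)‖) ^ (3 / 4 : ℝ) ≤ Q * |K3| * r ^ (7 / 4 : ℝ) := by
      calc K3 * (1 + ‖((I * t + u : ℂ) ^ 2)‖) ^ (3 / 4 : ℝ)
          ≤ |K3| * (1 + ‖((I * t + u : ℂ) ^ 2)‖) ^ (3 / 4 : ℝ) :=
            mul_le_mul_of_nonneg_right (le_abs_self _) (by positivity)
        _ ≤ |K3| * (Q * r ^ (7 / 4 : ℝ)) :=
            mul_le_mul_of_nonneg_left (h8.trans (mul_le_mul_of_nonneg_left h9 hQ0)) (abs_nonneg _)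
        _ = _ := by ring
    have h12 : Real.exp (-(16 * K1 * r)) ≤ ‖D.HH (I * t)‖ := by
      refine le_trans (Real.exp_le_exp.2 ?_) hlow
      have : K1 * t ≤ K1 * (16 * r) := mul_le_mul_of_nonneg_left (by linarith) (by linarith)
      linarith
    calc ‖FF D ((I * t + u) ^ 2)‖
        ≤ Real.exp (K3 * (1 + ‖((I * t + u : ℂ) ^ 2)‖) ^ (3 / 4 : ℝ)) := hG1
      _ ≤ Real.exp (-(16 * K1 * r)) * Real.exp (K * r ^ (7 / 4 : ℝ)) := by
          rw [← Real.exp_add]
          apply Real.exp_le_exp.2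
          have h13 : 16 * K1 * r ≤ 16 * K1 * r ^ (7 / 4 : ℝ) :=
            mul_le_mul_of_nonneg_left h10 (by linarith)
          have h14 : (Q * |K3| + 16 * K1) * r ^ (7 / 4 : ℝ) ≤ K * r ^ (7 / 4 : ℝ) :=
            mul_le_mul_of_nonneg_right hB (by positivity)
          nlinarith
      _ ≤ ‖D.HH (I * t)‖ * Real.exp (K * r ^ (7 / 4 : ℝ)) :=
          mul_le_mul_of_nonneg_right h12 (Real.exp_pos _).le
  · intro him hr1 hKr
    set r : ℝ := u.re with hr
    have hu' : u = (r : ℂ) := by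
      apply Complex.ext
      · simp [hr]
      · simp [him]
    have hr0 : 0 < r := by linarith
    have hnu : ‖u‖ = r := by
      rw [hu', Complex.norm_real, Real.norm_eq_abs, abs_of_pos hr0]
    have hK1r : K1 * r ^ 2 ≤ t := by
      have : K1 * r ^ 2 ≤ K * r ^ 2 := mul_le_mul_of_nonneg_right hE (by positivity)
      linarith
    have hκr : D.A + 2 ≤ D.κ * r := by
      have a1 : (D.A + 2) / D.κ ≤ r := hAK.trans hr1
      rw [div_le_iff₀ hκ] at a1
      linarith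
    have h5 := hA3 u (by rw [hnu]; exact hK1r)
    rw [hnu] at h5
    set W : ℂ := D.HH (I * t) * cexp (be D t * u) with hW
    have hq : K1 * r ^ 2 / t ≤ 1 := by rw [div_le_one ht0]; exact hK1r
    have h6 : ‖D.HH (I * t + u)‖ ≤ 2 * ‖W‖ := by
      have h7 : ‖D.HH (I * t + u)‖ ≤ ‖D.HH (I * t + u) - W‖ + ‖W‖ := by
        have := norm_add_le (D.HH (I * t + u) - W) W
        rwa [sub_add_cancel] at this
      have h8 : K1 * r ^ 2 / t * ‖W‖ ≤ 1 * ‖W‖ := mul_le_mul_of_nonneg_right hq (norm_nonneg _)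
      linarith
    have hz : 0 < (I * (t : ℂ) + u).im := by
      rw [hu']
      simp only [Complex.add_im, Complex.mul_im, Complex.I_re, Complex.I_im, Complex.ofReal_re,
        Complex.ofReal_im]
      linarith
    have hzre : (I * (t : ℂ) + u).re = r := by
      rw [hu']
      simp
    have h9 := hOne (I * t + u) (by rw [hzre]; exact hκr)
    rw [hzre] at h9
    set Z : ℂ := ∑' m : ℕ, D.a (m + 1) * ((m + 1 : ℕ) : ℂ) ^ (-(D.κ : ℂ) * (I * t + u)) with hZ
    have h10 : D.XX (I * t + u) - W = D.HH (I * t + u) * (Z - 1) + (D.HH (I * t + u) - W) := by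
      rw [h.XX_dir _ hz (by rw [hzre]; exact hκr)]
      ring
    rw [h10]
    calc ‖D.HH (I * t + u) * (Z - 1) + (D.HH (I * t + u) - W)‖
        ≤ ‖D.HH (I * t + u)‖ * ‖Z - 1‖ + ‖D.HH (I * t + u) - W‖ := by
          refine (norm_add_le _ _).trans ?_
          rw [norm_mul]
      _ ≤ (2 * ‖W‖) * (C * (2 : ℝ) ^ (-(D.κ * r))) + K1 * r ^ 2 / t * ‖W‖ :=
          add_le_add (mul_le_mul h6 h9 (norm_nonneg _) (by positivity)) h5
      _ = (2 * C * (2 : ℝ) ^ (-(D.κ * r)) + K1 * (r ^ 2 / t)) * ‖W‖ := by ring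
      _ ≤ (K * (2 : ℝ) ^ (-(D.κ * r)) + K * (r ^ 2 / t)) * ‖W‖ := by
          apply mul_le_mul_of_nonneg_right _ (norm_nonneg _)
          have a1 : 0 ≤ (2 : ℝ) ^ (-(D.κ * r)) := by positivity
          have a2 : 0 ≤ r ^ 2 / t := by positivity
          exact add_le_add (mul_le_mul_of_nonneg_right hD a1) (mul_le_mul_of_nonneg_right hE a2)
      _ = _ := by ring

end Pool.Agent.H986R2.GD
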