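import Pool.Agent.H986R2.GD.Spec
import Pool.Agent.H471R3.GJ.Good
import Pool.Agent.H24R2.JP.WinS
import Pool.Agent.H24R2.JP.ExZero

set_option autoImplicit false

namespace Pool.Agent.H986R2.GD

open Complex Filter Topology Polynomial MeasureTheory
open Pool.Agent.H24R2.JP (Par Good App arc SHad SDer SGL SJen SPar SCircle SNewton SArc TT TI)
open Pool.Agent.H471R3.GJ
open Pool.Agent.H986R2.DBN (ParD SCPoly PL)

theorem z2lpi (h1 : SHad) : SZ2LPI := by
  intro f hd hconj hgr hnz n hz
  obtain ⟨K, hK⟩ := hgr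
  obtain ⟨hfd, hfc⟩ := Pool.Agent.H24R2.JP.WinAux.iter_conj hd hconj n
  have hfg := Pool.Agent.H24R2.JP.ExZeroAux.growth hd hK n
  have hit : ∀ j, iteratedDeriv j (iteratedDeriv n f) = iteratedDeriv (j + n) f := by
    intro j
    rw [iteratedDeriv_eq_iterate, iteratedDeriv_eq_iterate, iteratedDeriv_eq_iterate,
      Function.iterate_add_apply]
  have hne : ∃ k, iteratedDeriv k (iteratedDeriv n f) 0 ≠ 0 := by
    by_contra hno
    push Not at hno
    obtain ⟨b, hb⟩ := hnz n
    apply hb
    have h := hasSum_taylorSeries_of_entire hfd 0 b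
    have h2 : (fun k : ℕ => ((k.factorial : ℂ))⁻¹ • (b - 0) ^ k •
        iteratedDeriv k (iteratedDeriv n f) 0) = fun _ => (0 : ℂ) := by
      funext k
      rw [hno k, smul_zero, smul_zero]
    rw [h2] at h
    exact h.unique hasSum_zero
  obtain ⟨j, g, hgd, hg0, hfgx, hgc, K', hK'⟩ :=
    GoodAux.exists_div (iteratedDeriv n f) hfd hne hfc ⟨_, hfg⟩
  obtain ⟨P, hP, hlim⟩ := h1 g K' hgd hg0 hgc hK'
  refine ⟨hfd, ⟨fun N => Polynomial.X ^ j * P N, fun N x hx => ?_, ?_⟩, fun m => ?_⟩
  · rw [map_mul, map_pow, aeval_X, mul_eq_zero] at hx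
    rcases hx with hx | hx
    · have hx0 : x = 0 := by
        by_contra h
        exact pow_ne_zero j h hx
      rw [hx0]
      intro z hz0
      have hz1 : z = 0 := by
        by_contra h
        exact pow_ne_zero 2 h hz0
      rw [hz1]
      simp
    · exact hz x (by rw [hfgx x, hP N x hx, mul_zero])
  · have h8 : TendstoLocallyUniformly (fun (_ : ℕ) (x : ℂ) => x ^ j) (fun x : ℂ => x ^ j) atTop := by
      intro u hu x
      exact ⟨Set.univ, Filter.univ_mem, Filter.Eventually.of_forall fun N y _ => refl_mem_uniformity hu⟩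
    have h9 := h8.mul₀ hlim (continuous_pow j) hgd.continuous
    have e1 : (fun (N : ℕ) (x : ℂ) => aeval x (Polynomial.X ^ j * P N)) =
        (fun (_ : ℕ) (x : ℂ) => x ^ j) * fun (N : ℕ) (x : ℂ) => aeval x (P N) := by
      funext N x
      simp
    have e2 : iteratedDeriv n f = (fun x : ℂ => x ^ j) * g := by
      funext x
      exact hfgx x
    rw [e1, e2]
    exact h9
  · rw [hit m]
    exact hnz _

end Pool.Agent.H986R2.GD
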