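import Pool.Agent.H128R3.GJA
import Pool.Agent.H986R2.DBN.CPoly
import Pool.Agent.H986R2.GD.App0
import Pool.Agent.H986R2.GD.AppT
import Pool.Agent.H986R2.GD.B1T
import Pool.Agent.H986R2.GD.Big
import Pool.Agent.H986R2.GD.ChainT
import Pool.Agent.H986R2.GD.FinX
import Pool.Agent.H986R2.GD.GamT
import Pool.Agent.H986R2.GD.GoodT
import Pool.Agent.H986R2.GD.GrowT
import Pool.Agent.H986R2.GD.Heat
import Pool.Agent.H986R2.GD.HeatNZ
import Pool.Agent.H986R2.GD.JEst
import Pool.Agent.H986R2.GD.Ker
import Pool.Agent.H986R2.GD.LArc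
import Pool.Agent.H986R2.GD.LMain
import Pool.Agent.H986R2.GD.LOff
import Pool.Agent.H986R2.GD.LPI
import Pool.Agent.H986R2.GD.LPiece
import Pool.Agent.H986R2.GD.LowT
import Pool.Agent.H986R2.GD.MomT
import Pool.Agent.H986R2.GD.PStir
import Pool.Agent.H986R2.GD.PUp
import Pool.Agent.H986R2.GD.PosT
import Pool.Agent.H986R2.GD.RH2T
import Pool.Agent.H986R2.GD.RHReal
import Pool.Agent.H986R2.GD.Stir2
import Pool.Agent.H986R2.GD.TLoc
import Pool.Agent.H986R2.GD.ToZ
import Pool.Agent.H986R2.GD.WinT
import Pool.Agent.H986R2.GD.Wk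
import Pool.Agent.H986R2.GD.WkT
import Pool.Agent.H986R2.GD.XB
import Pool.Agent.H986R2.GD.Z2LPI

set_option autoImplicit false

/-!
# De Bruijn-Newman constants of the derivatives of completed L-functions: composition
-/

namespace Pool.Agent.H986R2.GD

open Complex Filter Topology Polynomial MeasureTheory
open Pool.Agent.H24R2 (JP.had JP.der JP.gl JP.jen JP.arcS JP.newton)
open Pool.Agent.H471R3.GJ

theorem lpiA : SLPI := lpi JP.der
theorem wkA : SWk := wk JP.der JP.gl JP.jen

/-- The theorem for the class `IsL`, together with the facts used in applications. -/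
theorem gd (D : Dat) (h : IsL D) : SKer D ∧ SHeat D ∧ SB1T D ∧ SGoodT D ∧ SFinX D ∧ SRHReal D ∧
    SPosT D ∧ ∃ C : ℝ, 0 < C ∧
      (∀ (τ : ℝ) (n : ℕ), 0 < τ → C ≤ n * τ → ∀ z : ℂ, iteratedDeriv n (XT D τ) z = 0 → z.re = 0) ∧
      ((∀ z : ℂ, D.XX z = 0 → z.re = 0) ↔ ∀ (τ : ℝ) (n : ℕ), 0 < τ → n * τ < C → ∀ z : ℂ,
        iteratedDeriv n (XT D τ) z = 0 → z.re = 0) := by
  have hb := b1 D h
  have hm := mom D h
  have hg := gamS D hm
  have hgr := grow D h hb
  have htail := tail D h
  have hconv := conv D h hb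
  have hker := ker D h
  have hb1 := b1T D hker
  have happ0 := app0 D JP.had hb hgr hg
  have happ := appT D h DBN.cpoly hker hb hb1
  have hpos := posT D h hker
  have hwk := wkT D h happ happ0 hpos hb1
  have hgood := goodT D hwk hpos hb1 JP.der JP.gl
  have hbig := big D h happ happ0 hwk
  have hrh := rhReal D happ happ0 hwk
  have hmom := momT D h hker
  have hgam := gamT_s D hmom
  have hlow := lowT D (JP.newton JP.der JP.gl) hgood hgam hb1
  have harc := larc D h
  have hpiece := lpiece D h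
  have hmain := lmain D h harc hpiece JP.arcS
  have hoff := loff D h hmain JP.arcS
  have hst := stir2 D h
  have hxb := xb D h hst hconv hgr hb
  have hheat := heat D h
  have hpst := pstir D h hst
  have hpup := pup D h hst hxb htail hheat hconv
  have htloc := tloc D h hpst hpup hb1 hst
  have hwin := winT D h htloc hoff hb1
  have hjest := jest D h hst hxb
  have hnz := heatNZ D h hjest hheat hst hb
  have hchain := chainT D h wkA hwk hwin hlow hnz hb1
  have hgrT := growT D h hb1
  have hfin := finX D h hchain hbig lpiA (z2lpi JP.had) hpos hb1 hgrT hwk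
  have hz := toZ D lpiA hb1 hker
  have hrh2 := rh2T D h hker hb1 hpos
  exact ⟨hker, hheat, hb1, hgood, hfin, hrh, hpos, compose D hfin hz hrh hrh2 lpiA⟩

end Pool.Agent.H986R2.GD
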