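import Pool.Agent.H986R2.GD.OddC

set_option autoImplicit false

/-! # De Bruijn-Newman constants of the derivatives: final generic form, both parities -/

namespace Pool.Agent.H986R2.GD

open Complex Filter Topology Polynomial MeasureTheory
open Pool.Agent.H24R2 (JP.had JP.der JP.gl JP.jen JP.arcS JP.newton)
open Pool.Agent.H471R3.GJ

/-- The criterion: there is `C > 0` such that (1) for all `t > 0` and `n` with `C ≤ n t` all zeros of
the `n`-th derivative of the heat flow of `F` are on the line `Re z = 0`, and (2) `RH` holds if and only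
if the same is true for `n t < C`. -/
def Crit (F : ℂ → ℂ) (RH : Prop) : Prop := ∃ C : ℝ, 0 < C ∧
  (∀ (t : ℝ) (n : ℕ), 0 < t → C ≤ n * t → ∀ z : ℂ, iteratedDeriv n (heatG t F) z = 0 → z.re = 0) ∧
  (RH ↔ ∀ (t : ℝ) (n : ℕ), 0 < t → n * t < C → ∀ z : ℂ, iteratedDeriv n (heatG t F) z = 0 → z.re = 0)

theorem crit_congr {F G : ℂ → ℂ} (h : ∀ z, F z = G z) {P Q : Prop} (hPQ : P ↔ Q) (hc : Crit F P) :
    Crit G Q := by
  have : F = G := funext h
  subst this
  obtain ⟨C, hC, h1, h2⟩ := hc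
  exact ⟨C, hC, h1, hPQ.symm.trans h2⟩

theorem heatG_scale {X0 G : ℂ → ℂ} {c : ℂ} {κ : ℝ} (hκ : 0 < κ)
    (hG : ∀ z, G z = c * X0 (z / κ)) (τ : ℝ) (hτ : 0 ≤ τ) (z : ℂ) :
    heatG τ G z = c * heatG (τ / κ ^ 2) X0 ((1 / κ : ℂ) * z) := by
  unfold heatG
  have e : ∀ v : ℝ, ((Real.exp (-v ^ 2) : ℝ) : ℂ) * G (z + ((2 * Real.sqrt τ * v : ℝ) : ℂ)) =
     c * (((Real.exp (-v ^ 2) : ℝ) : ℂ) *
      X0 ((1 / κ : ℂ) * z + ((2 * Real.sqrt (τ / κ ^ 2) * v : ℝ) : ℂ))) := by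
    intro v
    rw [hG]
    have : (z + ((2 * Real.sqrt τ * v : ℝ) : ℂ)) / κ =
        (1 / κ : ℂ) * z + ((2 * Real.sqrt (τ / κ ^ 2) * v : ℝ) : ℂ) := by
      rw [Real.sqrt_div hτ, Real.sqrt_sq hκ.le]
      push_cast
      ring
    rw [this]; ring
  simp_rw [e]
  rw [integral_const_mul]
  ring

theorem crit_scale {X0 G : ℂ → ℂ} {c : ℂ} {κ : ℝ} (hc : c ≠ 0) (hκ : 0 < κ)
    (hG : ∀ z, G z = c * X0 (z / κ)) (hd : ∀ τ : ℝ, 0 < τ → Differentiable ℂ (heatG τ X0))
    (hm : Crit X0 (∀ z : ℂ, X0 z = 0 → z.re = 0)) : Crit G (∀ z : ℂ, G z = 0 → z.re = 0) := by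
  have hκc : (κ : ℂ) ≠ 0 := by exact_mod_cast hκ.ne'
  have iter : ∀ (τ : ℝ) (n : ℕ) (z : ℂ), 0 < τ → iteratedDeriv n (heatG τ G) z =
      c * ((1 / κ : ℂ) ^ n * iteratedDeriv n (heatG (τ / κ ^ 2) X0) ((1 / κ : ℂ) * z)) := by
    intro τ n z hτ
    have hd' := hd (τ / κ ^ 2) (by positivity)
    have e : heatG τ G = fun z => c * (fun z => heatG (τ / κ ^ 2) X0 ((1 / κ : ℂ) * z)) z := by
      funext z
      exact heatG_scale hκ hG τ hτ.le z
    have h1 := congrFun (iteratedDeriv_comp_const_mul (n := n) (f := heatG (τ / κ ^ 2) X0)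
      hd'.contDiff (1 / κ : ℂ)) z
    rw [e, iteratedDeriv_const_mul_field, h1]
  obtain ⟨C, hC, h1, h2⟩ := hm
  have hpow : ∀ n : ℕ, ((1 / κ : ℂ)) ^ n ≠ 0 := fun n => pow_ne_zero _ (one_div_ne_zero hκc)
  have hre : ∀ z : ℂ, ((1 / κ : ℂ) * z).re = z.re / κ := by
    intro z
    have : (1 / κ : ℂ) = ((1 / κ : ℝ) : ℂ) := by push_cast; rfl
    rw [this, Complex.re_ofReal_mul]
    ring
  refine ⟨C * κ ^ 2, by positivity, ?_, ?_, ?_⟩
  · intro τ n hτ hn z hz
    rw [iter τ n z hτ] at hz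
    have h3 := (mul_eq_zero.1 ((mul_eq_zero.1 hz).resolve_left hc)).resolve_left (hpow n)
    have h4 := h1 (τ / κ ^ 2) n (by positivity) (by
      rw [← mul_div_assoc, le_div_iff₀ (by positivity)]
      exact hn) _ h3
    rw [hre, div_eq_zero_iff] at h4
    exact h4.resolve_right hκ.ne'
  · intro hz τ n hτ hn z hz0
    have hz' : ∀ z : ℂ, X0 z = 0 → z.re = 0 := by
      intro z h0
      have h3 := hz ((κ : ℂ) * z) (by
        rw [hG, mul_div_cancel_left₀ _ hκc, h0, mul_zero])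
      rw [Complex.re_ofReal_mul] at h3
      exact (mul_eq_zero.1 h3).resolve_left hκ.ne'
    rw [iter τ n z hτ] at hz0
    have h3 := (mul_eq_zero.1 ((mul_eq_zero.1 hz0).resolve_left hc)).resolve_left (hpow n)
    have h4 := h2.1 hz' (τ / κ ^ 2) n (by positivity) (by
      rw [← mul_div_assoc, div_lt_iff₀ (by positivity)]
      exact hn) _ h3
    rw [hre, div_eq_zero_iff] at h4
    exact h4.resolve_right hκ.ne'
  · intro hH
    have h5 := h2.2 (by
      intro τ n hτ hn z hz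
      have h3 := hH (τ * κ ^ 2) n (by positivity) (by
        rw [← mul_assoc]
        exact mul_lt_mul_of_pos_right hn (by positivity)) ((κ : ℂ) * z) (by
        rw [iter _ _ _ (by positivity)]
        have e1 : τ * κ ^ 2 / κ ^ 2 = τ := by field_simp
        have e2 : (1 / κ : ℂ) * ((κ : ℂ) * z) = z := by field_simp
        rw [e1, e2, hz, mul_zero, mul_zero])
      rw [Complex.re_ofReal_mul] at h3
      exact (mul_eq_zero.1 h3).resolve_left hκ.ne')
    intro z hz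
    rw [hG] at hz
    have h6 := h5 _ ((mul_eq_zero.1 hz).resolve_left hc)
    have e : (z / κ : ℂ) = (1 / κ : ℂ) * z := by ring
    rw [e, hre, div_eq_zero_iff] at h6
    exact h6.resolve_right hκ.ne'

theorem bigD (D : Dat) (h : IsL D) : SBig D := by
  have hb := b1 D h
  have hg := gamS D (mom D h)
  have hgr := grow D h hb
  have hker := ker D h
  have hb1 := b1T D hker
  have happ0 := app0 D JP.had hb hgr hg
  have happ := appT D h DBN.cpoly hker hb hb1
  have hpos := posT D h hker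
  have hwk := wkT D h happ happ0 hpos hb1
  exact big D h happ happ0 hwk

/-- Even functions. -/
theorem fin_even (D : Dat) (h : IsL D) {G : ℂ → ℂ} {c : ℂ} {κ : ℝ} (hc : c ≠ 0) (hκ : 0 < κ)
    (hG : ∀ z, G z = c * D.XX (z / κ)) : Crit G (∀ z : ℂ, G z = 0 → z.re = 0) := by
  obtain ⟨hk, hh, -, -, -, -, -, hm⟩ := gd D h
  have e : ∀ τ : ℝ, 0 ≤ τ → heatG τ D.XX = XT D τ := fun τ hτ => funext fun z => ((hh τ z hτ).2).symm
  refine crit_scale hc hκ hG (fun τ hτ => ?_) ?_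
  · rw [e τ hτ.le]
    exact (hk.2 τ hτ.le).1
  · obtain ⟨C, hC, h1, h2⟩ := hm
    refine ⟨C, hC, ?_, h2.trans ?_⟩
    · intro τ n hτ hn z hz
      rw [e τ hτ.le] at hz
      exact h1 τ n hτ hn z hz
    · constructor
      · intro H τ n hτ hn z hz
        rw [e τ hτ.le] at hz
        exact H τ n hτ hn z hz
      · intro H τ n hτ hn z hz
        rw [← e τ hτ.le] at hz
        exact H τ n hτ hn z hz

/-- Odd functions. -/
theorem fin_odd (D : Dat) (h : IsL D) {G : ℂ → ℂ} {c : ℂ} {κ : ℝ} (hc : c ≠ 0) (hκ : 0 < κ)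
    (hG : ∀ z, G z = c * ((z / κ) * D.XX (z / κ))) : Crit G (∀ z : ℂ, G z = 0 → z.re = 0) := by
  obtain ⟨hk, -, hb, -, hf, hrh, hp, -⟩ := gd D h
  have e : ∀ τ : ℝ, 0 ≤ τ → heatG τ (fun w => w * D.XX w) = XO D τ :=
    fun τ hτ => funext fun z => heatOdd D h hk τ hτ z
  refine crit_scale (X0 := fun w => w * D.XX w) hc hκ hG (fun τ hτ => ?_) ?_
  · rw [e τ hτ.le]
    exact OddB.XO_diff hk τ hτ.le
  · obtain ⟨C, hC, h1, h2⟩ := composeOdd D h JP.der hf hb hrh hk hp (bigD D h)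
    refine ⟨C, hC, ?_, h2.trans ?_⟩
    · intro τ n hτ hn z hz
      rw [e τ hτ.le] at hz
      exact h1 τ n hτ hn z hz
    · constructor
      · intro H τ n hτ hn z hz
        rw [e τ hτ.le] at hz
        exact H τ n hτ hn z hz
      · intro H τ n hτ hn z hz
        rw [← e τ hτ.le] at hz
        exact H τ n hτ hn z hz

end Pool.Agent.H986R2.GD
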