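import Pool.Agent.H986R2.GD.Fin
import Pool.Agent.H471R3.GJ.Inst2

set_option autoImplicit false

/-!
# De Bruijn-Newman constants of the derivatives: instances
(after `Pool.Agent.H471R3.GJ.Inst`, `Inst2` of helper471)
-/

namespace Pool.Agent.H986R2.GD

open Complex Filter Topology Polynomial
open Pool.Agent.H471R3.GJ
open Pool.Agent.H471R3.GJ.Crit (Scale F_eq)
open Pool.Agent.H471R3.GJ.Inst

theorem crit_of_scale {D : Dat} {r : ℕ} {F : ℂ → ℂ} {c K : ℝ} (h : Scale D r F c K) :
    Crit F (∀ z : ℂ, D.XX z = 0 → z.re = 0) := by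
  have hc : (c : ℂ) ≠ 0 := by exact_mod_cast h.hc.ne'
  have hK : (K : ℂ) ≠ 0 := by exact_mod_cast h.hK.ne'
  have hK' : (1 / K : ℂ) ≠ 0 := one_div_ne_zero hK
  have hF := F_eq h
  have hre : ∀ z : ℂ, (z / (c : ℂ)).re = 0 ↔ z.re = 0 := by
    intro z
    rw [Complex.div_ofReal_re, div_eq_zero_iff]
    exact ⟨fun h1 => h1.resolve_right h.hc.ne', Or.inl⟩
  have hiff : (∀ z : ℂ, F z = 0 → z.re = 0) ↔ (∀ z : ℂ, D.XX z = 0 → z.re = 0) := by
    constructor
    · intro H z hz
      have h1 := H ((c : ℂ) * z) (by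
        rw [hF, mul_div_cancel_left₀ _ hc, hz, mul_zero, zero_div])
      rw [Complex.re_ofReal_mul] at h1
      exact (mul_eq_zero.1 h1).resolve_left h.hc.ne'
    · intro H z hz
      rw [hF, div_eq_zero_iff] at hz
      have h1 := hz.resolve_right hK
      rcases mul_eq_zero.1 h1 with h2 | h2
      · rcases h.hr with hr | hr
        · rw [hr, pow_zero] at h2
          exact absurd h2 one_ne_zero
        · rw [hr, pow_one] at h2
          rw [← hre, h2, Complex.zero_re]
      · exact (hre z).1 (H _ h2)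
  refine crit_congr (fun z => rfl) hiff ?_
  rcases h.hr with hr | hr
  · refine fin_even D h.isL hK' h.hc ?_
    intro z
    rw [hF, hr, pow_zero]
    ring
  · refine fin_odd D h.isL hK' h.hc ?_
    intro z
    rw [hF, hr, pow_one]
    ring

theorem critP (H : Hc) (h : IsHc H) :
    Crit (FP H) (∀ s : ℂ, mellin H.φ s = 0 → s.re = H.k / 2) :=
  crit_congr (fun _ => rfl) (TC.xxT H h).2.2.2 (crit_of_scale (scaleP H h))

theorem critS (H : Hk) (h : IsHk H) :
    Crit (FS H) (∀ s : ℂ, mellin (fun y : ℝ => ((H.φ y : ℝ) : ℂ)) s = 0 → s.re = H.k / 2) :=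
  crit_congr (fun _ => rfl) (rhS H h) (crit_of_scale (scaleS H h))

/-- The criterion for series with real coefficients. -/
theorem critR (H : Hc) (h : IsHc H) (hb : ∀ m, (H.b m).im = 0) :
    Crit (fun z : ℂ => mellin H.φ (((H.k / 2 : ℝ) : ℂ) + z))
        (∀ s : ℂ, mellin H.φ s = 0 → s.re = H.k / 2) := by
  have h1 := critS (re H) (re_isHk h hb)
  have h5 : FS (re H) = fun z : ℂ => mellin H.φ (((H.k / 2 : ℝ) : ℂ) + z) := by
    funext z
    unfold FS
    rw [re_mellin h hb]
    rfl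
  rw [h5, re_mellin h hb] at h1
  exact h1

section Dirichlet

open DirichletCharacter (completedLFunction)

variable {N : ℕ} [NeZero N] (χ : DirichletCharacter ℂ N)

theorem critD (hN : 1 < N) (hχ : χ.IsPrimitive) :
    Crit (FD χ) (∀ s : ℂ, completedLFunction χ s = 0 → s.re = 1 / 2) := by
  have h1 := crit_of_scale (scaleD χ hN hχ)
  have h2 := (TC.xxT _ (TC.dchT N χ hN hχ)).2.2.2
  exact crit_congr (fun _ => rfl) (h2.trans (rh_iff χ hN hχ)) h1

theorem critQ (hN : 1 < N) (hχ : χ.IsPrimitive) (hreal : χ⁻¹ = χ) :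
    Crit (FQ χ) (∀ s : ℂ, completedLFunction χ s = 0 → s.re = 1 / 2) := by
  have hsc := scaleQ χ hN hχ hreal
  have h1 := crit_of_scale hsc
  have hk := re_isHk (TC.dchT N χ hN hχ) (b_real χ hreal)
  have h4 : (∀ z : ℂ, (dat (re (dch N χ))).XX z = 0 → z.re = 0) ↔
      ∀ s : ℂ, completedLFunction χ s = 0 → s.re = 1 / 2 := by
    rw [← rh_iff χ hN hχ]
    have h5 := rhS _ hk
    rw [re_mellin (TC.dchT N χ hN hχ) (b_real χ hreal)] at h5
    exact h5
  exact crit_congr (fun _ => rfl) h4 h1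

end Dirichlet

section Cusp

open UpperHalfPlane MatrixGroups ModularForm

theorem critF (k : ℤ) (hk0 : 0 < k) (hk : Even k) (f : CuspForm 𝒮ℒ k)
    (hreal : ∀ n, ((qExpansion 1 f).coeff n).im = 0) (h1 : (qExpansion 1 f).coeff 1 = 1) :
    Crit (fun z : ℂ => LamF k f ((k : ℂ) / 2 + z))
      (∀ s : ℂ, LamF k f s = 0 → s.re = (k : ℝ) / 2) := by
  obtain ⟨B, hB⟩ := cusp_isHk k hk0 hk f hreal h1
  have h2 := critS _ hB
  have hm : mellin (fun y : ℝ => (((cuspHk k f B).φ y : ℝ) : ℂ)) = LamF k f := by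
    funext s
    unfold LamF mellin
    refine MeasureTheory.setIntegral_congr_fun measurableSet_Ioi ?_
    intro y hy
    simp only
    congr 1
    apply Complex.ext
    · rw [Complex.ofReal_re]
      rfl
    · rw [Complex.ofReal_im, CuspAux.real_iy f hreal y hy]
  have hF : FS (cuspHk k f B) = fun z : ℂ => LamF k f ((k : ℂ) / 2 + z) := by
    funext z
    unfold FS
    rw [hm]
    congr 2
    show ((((k : ℝ) / 2 : ℝ)) : ℂ) = _
    push_cast
    rfl
  rw [hF, hm] at h2
  exact h2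

end Cusp

end Pool.Agent.H986R2.GD
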