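import Pool.Agent.H986R2.GD.All

set_option autoImplicit false

/-!
# De Bruijn-Newman constants of the derivatives of completed L-functions: kernel form
-/

namespace Pool.Agent.H986R2.GD

open Complex Filter Topology Polynomial MeasureTheory
open Pool.Agent.H471R3.GJ

/-- The heat flow in terms of the kernel, in the variable `z` on the real line. -/
noncomputable def KT (P : ℝ → ℝ) (t : ℝ) (z : ℂ) : ℂ :=
  ∫ u : ℝ, ((Real.exp (t * u ^ 2) * P u : ℝ) : ℂ) * cexp (I * z * u)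

theorem KT_eq {D : Dat} {κ : ℝ} (hκ : 0 < κ) {P : ℝ → ℝ} (hP : ∀ u, D.Φ u = 1 / κ * P (u / κ))
    (t : ℝ) (z : ℂ) : KT P t z = XT D (t / κ ^ 2) ((I / κ : ℂ) * z) := by
  unfold KT XT
  have hκc : (κ : ℂ) ≠ 0 := by exact_mod_cast hκ.ne'
  set g : ℝ → ℂ := fun u => ((Real.exp (t * u ^ 2) * P u : ℝ) : ℂ) * cexp (I * z * u) with hg
  have h1 : ∀ u : ℝ, ((D.Φ u * Real.exp (t / κ ^ 2 * u ^ 2) : ℝ) : ℂ) *
      cexp ((I / κ : ℂ) * z * u) = ((1 / κ : ℝ) : ℂ) * g (u / κ) := by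
    intro u
    rw [hP, hg]
    have e1 : t / κ ^ 2 * u ^ 2 = t * (u / κ) ^ 2 := by
      rw [div_pow]; ring
    have e2 : (I / κ : ℂ) * z * u = I * z * ((u / κ : ℝ) : ℂ) := by
      push_cast; ring
    rw [e1, e2]
    push_cast
    ring
  simp_rw [h1]
  rw [integral_const_mul, Measure.integral_comp_div g κ, abs_of_pos hκ, Complex.real_smul]
  rw [← mul_assoc]
  have : ((1 / κ : ℝ) : ℂ) * (κ : ℂ) = 1 := by
    push_cast
    field_simp
  rw [this, one_mul]

theorem iter_KT {D : Dat} (hk : SKer D) {κ : ℝ} (hκ : 0 < κ) {P : ℝ → ℝ}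
    (hP : ∀ u, D.Φ u = 1 / κ * P (u / κ)) (t : ℝ) (ht : 0 ≤ t) (n : ℕ) (z : ℂ) :
    iteratedDeriv n (KT P t) z =
      (I / κ : ℂ) ^ n * iteratedDeriv n (XT D (t / κ ^ 2)) ((I / κ : ℂ) * z) := by
  have hd : Differentiable ℂ (XT D (t / κ ^ 2)) := (hk.2 (t / κ ^ 2) (by positivity)).1
  have e : KT P t = fun z => XT D (t / κ ^ 2) ((I / κ : ℂ) * z) := by
    funext z
    exact KT_eq hκ hP t z
  rw [e]
  exact congrFun (iteratedDeriv_comp_const_mul (n := n) (f := XT D (t / κ ^ 2)) hd.contDiff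
    (I / κ : ℂ)) z

/-- Kernel form of the theorem. -/
theorem kernel_thm (D : Dat) (h : IsL D) {κ : ℝ} (hκ : 0 < κ) {P : ℝ → ℝ}
    (hP : ∀ u, D.Φ u = 1 / κ * P (u / κ)) :
    ∃ C : ℝ, 0 < C ∧
      (∀ (t : ℝ) (n : ℕ), 0 < t → C ≤ n * t → ∀ z : ℂ, iteratedDeriv n (KT P t) z = 0 →
        z.im = 0) ∧
      ((∀ z : ℂ, D.XX z = 0 → z.re = 0) ↔ ∀ (t : ℝ) (n : ℕ), 0 < t → n * t < C → ∀ z : ℂ,
        iteratedDeriv n (KT P t) z = 0 → z.im = 0) := by
  obtain ⟨hk, -, -, -, -, -, -, C, hC, h1, h2⟩ := gd D h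
  have hκc : (κ : ℂ) ≠ 0 := by exact_mod_cast hκ.ne'
  have hpow : ∀ n : ℕ, ((I / κ : ℂ)) ^ n ≠ 0 := fun n => pow_ne_zero _ (div_ne_zero I_ne_zero hκc)
  have hre : ∀ z : ℂ, ((I / κ : ℂ) * z).re = -z.im / κ := by
    intro z
    have : (I / κ : ℂ) * z = ((1 / κ : ℝ) : ℂ) * (I * z) := by push_cast; ring
    rw [this, Complex.re_ofReal_mul, Complex.I_mul_re]
    ring
  have him0 : ∀ z : ℂ, ((I / κ : ℂ) * z).re = 0 → z.im = 0 := by
    intro z hz
    rw [hre, div_eq_zero_iff] at hz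
    have := hz.resolve_right hκ.ne'
    linarith
  refine ⟨C * κ ^ 2, by positivity, ?_, ?_, ?_⟩
  · intro t n ht hn z hz
    rw [iter_KT hk hκ hP t ht.le] at hz
    have h3 := (mul_eq_zero.1 hz).resolve_left (hpow n)
    exact him0 z (h1 (t / κ ^ 2) n (by positivity) (by
      rw [← mul_div_assoc, le_div_iff₀ (by positivity)]
      exact hn) _ h3)
  · intro hz t n ht hn z hz0
    rw [iter_KT hk hκ hP t ht.le] at hz0
    have h3 := (mul_eq_zero.1 hz0).resolve_left (hpow n)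
    exact him0 z (h2.1 hz (t / κ ^ 2) n (by positivity) (by
      rw [← mul_div_assoc, div_lt_iff₀ (by positivity)]
      exact hn) _ h3)
  · intro hH
    refine h2.2 ?_
    intro τ n hτ hn w hw
    have h3 := hH (τ * κ ^ 2) n (by positivity) (by
      rw [← mul_assoc]
      exact mul_lt_mul_of_pos_right hn (by positivity)) (-I * (κ : ℂ) * w) (by
      rw [iter_KT hk hκ hP _ (by positivity)]
      have e1 : τ * κ ^ 2 / κ ^ 2 = τ := by field_simp
      have e2 : (I / κ : ℂ) * (-I * (κ : ℂ) * w) = w := by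
        have : (I / κ : ℂ) * (-I * (κ : ℂ) * w) = -(I * I) * (w * ((κ : ℂ) / κ)) := by ring
        rw [this, I_mul_I, div_self hκc]
        ring
      rw [e1, e2, hw, mul_zero])
    have e : (-I * (κ : ℂ) * w).im = -κ * w.re := by
      have : -I * (κ : ℂ) * w = ((-κ : ℝ) : ℂ) * (I * w) := by push_cast; ring
      rw [this, Complex.im_ofReal_mul, Complex.I_mul_im]
    rw [e] at h3
    have := mul_eq_zero.1 h3
    rcases this with h4 | h4
    · exfalso; linarith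
    · exact h4

end Pool.Agent.H986R2.GD
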