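import Pool.Agent.H986R2.GD.Spec
import Pool.Agent.H471R3.GJ.UpDownAux

set_option autoImplicit false

/-!
# SLArc: upper and lower arcs, generic version (helper986, after helper471)
-/

namespace Pool.Agent.H986R2.GD.LAr

open Complex Filter Topology Pool.Agent.H471R3.GJ Pool.Agent.H471R3.GJ.UD

/-- lower bound for the main term -/
lemma mtL_lower (D : Dat) (t K : ℝ) (n : ℕ) (c β z : ℂ) (ht : 0 < t) (hKO : K ≤ D.κ * Om D t)
    (hbe : ‖β - ((D.κ * Om D t : ℝ) : ℂ)‖ ≤ K) (hz : ‖z - I * t‖ ≤ 3 / 4) :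
    ‖c‖ * (Real.exp (-(3 / 4) * (D.κ * Om D t + K)) * ((D.κ * Om D t - K) / (2 * t)) ^ n) ≤
      ‖mtL n t c β z‖ := by
  have hO : 0 ≤ D.κ * Om D t := by
    have : 0 ≤ K := (norm_nonneg _).trans hbe
    linarith
  have hnO : ‖((D.κ * Om D t : ℝ) : ℂ)‖ = D.κ * Om D t := by
    rw [Complex.norm_real, Real.norm_eq_abs, abs_of_nonneg hO]
  have h1 : D.κ * Om D t - K ≤ ‖β‖ := by
    have := norm_sub_norm_le ((D.κ * Om D t : ℝ) : ℂ) β
    rw [norm_sub_rev, hnO] at this
    linarith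
  have h2 : ‖β‖ ≤ D.κ * Om D t + K := by
    have := norm_sub_norm_le β ((D.κ * Om D t : ℝ) : ℂ)
    rw [hnO] at this
    linarith
  unfold mtL
  rw [norm_mul, norm_mul, mul_assoc]
  apply mul_le_mul_of_nonneg_left _ (norm_nonneg _)
  have hOK : 0 ≤ D.κ * Om D t + K := (norm_nonneg _).trans h2
  have h3 : -(3 / 4) * (D.κ * Om D t + K) ≤ (β * (z - I * t)).re := by
    have h4 : ‖β * (z - I * t)‖ ≤ (D.κ * Om D t + K) * (3 / 4) := by
      rw [norm_mul]
      gcongr
    have h5 := Complex.abs_re_le_norm (β * (z - I * t))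
    have h6 := neg_le_of_abs_le h5
    linarith
  have h7 : ‖cexp (β * (z - I * t))‖ = Real.exp (β * (z - I * t)).re := Complex.norm_exp _
  have h8 : ‖(β / (2 * (I * t))) ^ n‖ = (‖β‖ / (2 * t)) ^ n := by
    rw [norm_pow, norm_div, norm_mul, norm_mul]
    simp [abs_of_pos ht]
  rw [h7, h8]
  have h9 : 0 ≤ D.κ * Om D t - K := by linarith
  gcongr

/-- the final comparison -/
lemma final (D : Dat) (h : IsL D) (K C ε : ℝ) (hK0 : 0 ≤ K) (hC : 0 ≤ C) (hε : 0 < ε) :
    ∀ᶠ t : ℝ in atTop, ∀ (n : ℕ) (c β z : ℂ), ‖β - ((D.κ * Om D t : ℝ) : ℂ)‖ ≤ K → Win D t n z →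
      ∀ B : ℝ, B ≤ C * Real.exp ((39 / 50 * D.w - 1 / 2 - 3 / 4 * D.κ) * Om D t) * ‖c‖ →
        (n.factorial : ℝ) / ((rr D - 8 / 5) * t) ^ n * B ≤ ε * ‖mtL n t c β z‖ := by
  have hκ := h.κ_pos
  have hA := h.A_nonneg
  have hw := h.w_large
  have hwκ : 20 ≤ D.w / D.κ := by
    rw [le_div_iff₀ hκ]
    nlinarith
  have hrr : rr D = 2 * (D.w / D.κ) := by unfold rr; ring
  filter_upwards [key D h K (C * Real.exp (3 / 4 * K)) ε (by positivity) hε, eventually_gt_atTop 0,
    (Om_tendsto D h).eventually_ge_atTop (K / D.κ)] with t hkey ht hOm n c β z hbe hw' B hB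
  obtain ⟨hn1, hn2, hz⟩ := hw'
  have hKO : K ≤ D.κ * Om D t := by
    rw [div_le_iff₀ hκ] at hOm
    linarith
  have hlow := mtL_lower D t K n c β z ht hKO hbe hz
  have hk := hkey n hn1 hn2
  refine le_trans ?_ (mul_le_mul_of_nonneg_left hlow hε.le)
  have hr : 0 < (rr D - 8 / 5) * t := by
    apply mul_pos _ ht
    rw [hrr]; linarith
  calc (n.factorial : ℝ) / ((rr D - 8 / 5) * t) ^ n * B
      ≤ (n.factorial : ℝ) / ((rr D - 8 / 5) * t) ^ n *
        (C * Real.exp ((39 / 50 * D.w - 1 / 2 - 3 / 4 * D.κ) * Om D t) * ‖c‖) := by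
        gcongr
    _ = ‖c‖ * Real.exp (-(3 / 4) * (D.κ * Om D t + K)) / ((rr D - 8 / 5) * t) ^ n *
        (C * Real.exp (3 / 4 * K) * Real.exp ((39 / 50 * D.w - 1 / 2) * Om D t) *
          (n.factorial : ℝ)) := by
        have e1 : Real.exp ((39 / 50 * D.w - 1 / 2 - 3 / 4 * D.κ) * Om D t) =
            Real.exp (-(3 / 4) * (D.κ * Om D t + K)) *
            (Real.exp (3 / 4 * K) * Real.exp ((39 / 50 * D.w - 1 / 2) * Om D t)) := by
          simp only [← Real.exp_add]
          congr 1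
          ring
        rw [e1]
        ring
    _ ≤ ‖c‖ * Real.exp (-(3 / 4) * (D.κ * Om D t + K)) / ((rr D - 8 / 5) * t) ^ n *
        (ε * ((D.w / D.κ - 4 / 5) * (D.κ * Om D t - K)) ^ n) := by
        gcongr
    _ = ε * (‖c‖ * (Real.exp (-(3 / 4) * (D.κ * Om D t + K)) *
        ((D.κ * Om D t - K) / (2 * t)) ^ n)) := by
        have e2 : ((D.w / D.κ - 4 / 5) * (D.κ * Om D t - K)) ^ n / ((rr D - 8 / 5) * t) ^ n =
            ((D.κ * Om D t - K) / (2 * t)) ^ n := by
          rw [← div_pow]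
          congr 1
          rw [hrr]
          have h9 : D.w / D.κ - 4 / 5 ≠ 0 := by linarith
          have h10 : 2 * (D.w / D.κ) - 8 / 5 = 2 * (D.w / D.κ - 4 / 5) := by ring
          rw [h10]
          generalize D.w / D.κ - 4 / 5 = v at h9
          field_simp
        rw [← e2]
        ring

end Pool.Agent.H986R2.GD.LAr

namespace Pool.Agent.H986R2.GD

open Complex Filter Topology Pool.Agent.H471R3.GJ Pool.Agent.H471R3.GJ.UD LAr
open Pool.Agent.H24R2.JP (arc)
open Pool.Agent.H24R2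
open Pool.Agent.H24R2.JP.UD (fact_le arc_lin)
open Pool.Agent.H986R2.DBN (PL)

theorem larc (D : Dat) (h : IsL D) : SLArc D := by
  intro K ε hK hε
  have hκ := h.κ_pos
  have hc := h.c_pos
  have hA := h.A_nonneg
  have hA0 := h.A0_one
  have hw := h.w_large
  have hwκ : 20 ≤ D.w / D.κ := by
    rw [le_div_iff₀ hκ]
    nlinarith
  have hrr : rr D = 2 * (D.w / D.κ) := by unfold rr; ring
  have hr40 : 40 ≤ rr D := by rw [hrr]; linarith
  have hev := (LAr.final D h K K ε (by linarith) (by linarith) hε).and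
    ((LAr.final D h K (2 * Real.exp ((rr D / 2 + 1 / 10) * K) * D.A0) ε (by linarith)
      (by positivity) hε).and
    ((eventually_ge_atTop (K ^ 4)).and ((eventually_ge_atTop (100 * rr D ^ 2)).and
      ((Om_tendsto D h).eventually_ge_atTop 0))))
  obtain ⟨T0, hT0⟩ := Filter.eventually_atTop.1 hev
  refine ⟨max T0 1, le_max_right _ _, ?_⟩
  intro t f c β a p ht hL n z hw'
  obtain ⟨hfin1, hfin2, htK, ht4, hO⟩ := hT0 t ((le_max_left _ _).trans ht)
  have ht10 : 10 ≤ t := by nlinarith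
  have ht1 : 1 ≤ t := by linarith
  have ht0 : 0 < t := by linarith
  have htr : rr D + 1 ≤ t := by nlinarith
  have hMM : ((MM D t : ℕ) : ℝ) ≤ Real.exp (2 / 5 * Om D t) := Nat.floor_le (Real.exp_pos _).le
  have hmem : ∀ m ∈ Finset.Icc 1 (MM D t), 1 ≤ m ∧ m ≤ MM D t := fun m hm => Finset.mem_Icc.1 hm
  constructor
  · -- distance
    have hdist : ∀ θ : ℝ, ((-t ^ 2 : ℝ) : ℂ) + ((rr D * t : ℝ) : ℂ) * cexp (I * θ) - z ^ 2 ≠ 0 := by
      intro θ h0
      have := dist_circle (rr D) t (by linarith) ht10 z hw'.2.2 θ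
      rw [h0, norm_zero] at this
      have h5 : 0 < (rr D - 8 / 5) * t := by
        apply mul_pos _ ht0
        linarith
      linarith
    have hfc : Continuous fun θ : ℝ => f (((-t ^ 2 : ℝ) : ℂ) + ((rr D * t : ℝ) : ℂ) * cexp (I * θ)) :=
      hL.entire.continuous.comp (by fun_prop)
    have hGGc : ∀ m ∈ Finset.Icc 1 (MM D t), Continuous fun θ : ℝ =>
        PL p m (((-t ^ 2 : ℝ) : ℂ) + ((rr D * t : ℝ) : ℂ) * cexp (I * θ)) := by
      intro m hm
      obtain ⟨hm1, hm2⟩ := hmem m hm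
      rw [continuous_iff_continuousAt]
      intro θ
      obtain ⟨-, hg2, hg3, -, -, hg6⟩ := geom (rr D) t (by linarith) ht4 θ
      have hc1 : ContinuousAt (fun θ : ℝ => ((-t ^ 2 : ℝ) : ℂ) + ((rr D * t : ℝ) : ℂ) * cexp (I * θ)) θ := by
        fun_prop
      refine ContinuousAt.comp (f := fun θ : ℝ => ((-t ^ 2 : ℝ) : ℂ) + ((rr D * t : ℝ) : ℂ) * cexp (I * θ))
        (g := PL p m) ?_ hc1
      have hsq : ContinuousAt JP.sq (((-t ^ 2 : ℝ) : ℂ) + ((rr D * t : ℝ) : ℂ) * cexp (I * θ)) := by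
        unfold JP.sq
        apply ContinuousAt.mul continuousAt_const
        exact (continuousAt_cpow_const hg6).comp (f := fun ξ : ℂ => -ξ) continuousAt_neg
      have hp := hL.diff m hm1 hm2 (JP.sq (((-t ^ 2 : ℝ) : ℂ) +
        ((rr D * t : ℝ) : ℂ) * cexp (I * θ)) - I * t) (hg2.trans (by linarith))
      rw [show I * (t : ℂ) + (JP.sq (((-t ^ 2 : ℝ) : ℂ) +
        ((rr D * t : ℝ) : ℂ) * cexp (I * θ)) - I * t) = JP.sq (((-t ^ 2 : ℝ) : ℂ) +
        ((rr D * t : ℝ) : ℂ) * cexp (I * θ)) by ring] at hp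
      exact ContinuousAt.comp hp.continuousAt hsq
    rw [arc_lin f (PL p) _ n (-t ^ 2) (rr D * t) 0 Real.pi (z ^ 2) hfc hGGc hdist]
    have hpt : ∀ θ ∈ Set.Icc 0 Real.pi,
        ‖f (((-t ^ 2 : ℝ) : ℂ) + ((rr D * t : ℝ) : ℂ) * cexp (I * θ)) -
          ∑ m ∈ Finset.Icc 1 (MM D t),
            PL p m (((-t ^ 2 : ℝ) : ℂ) + ((rr D * t : ℝ) : ℂ) * cexp (I * θ))‖ ≤
        K * ‖c‖ * Real.exp ((39 / 50 * D.w - 1 / 2 - 3 / 4 * D.κ) * Om D t) := by
      intro θ hθ
      obtain ⟨hg1, hg2, hg3, hg4, -, -⟩ := geom (rr D) t (by linarith) ht4 θ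
      have hsin : 0 ≤ Real.sin θ := Real.sin_nonneg_of_nonneg_of_le_pi hθ.1 hθ.2
      have hup := hL.up _ hg2 (hg4 hsin)
      rw [hg1] at hup
      exact hup
    refine (arc_bound _ n (rr D) t 0 Real.pi _ z (by linarith) ht10 Real.pi_pos.le (by linarith)
      hw'.2.2 (by positivity) hpt).trans ?_
    exact hfin1 n c β z hL.beta hw' _ (le_of_eq (by ring))
  · have hKt : K * t ^ (-(1 / 4) : ℝ) ≤ 1 := by
      rw [Real.rpow_neg ht0.le, ← div_eq_mul_inv, div_le_one (Real.rpow_pos_of_pos ht0 _)]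
      calc K = (K ^ 4) ^ (1 / 4 : ℝ) := by
            rw [← Real.rpow_natCast, ← Real.rpow_mul (by linarith)]
            norm_num
        _ ≤ t ^ (1 / 4 : ℝ) := Real.rpow_le_rpow (by positivity) htK (by norm_num)
    have hterm : ∀ m ∈ Finset.Icc 1 (MM D t),
        ‖arc (PL p m) n (-t ^ 2) (rr D * t) Real.pi (2 * Real.pi) (z ^ 2)‖ ≤
          (n.factorial : ℝ) / ((rr D - 8 / 5) * t) ^ n *
            (2 * Real.exp ((rr D / 2 + 1 / 10) * K) * ‖c‖ *
              (D.A0 * Real.exp (2 / 5 * Om D t * D.A))) := by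
      intro m hm
      obtain ⟨hm1, hm2⟩ := hmem m hm
      have hm0 : (0 : ℝ) < m := by exact_mod_cast hm1
      have hmt : (m : ℝ) ≤ Real.exp (2 / 5 * Om D t) := by
        refine le_trans ?_ hMM
        exact_mod_cast hm2
      have hlog : Real.log m ≤ 2 / 5 * Om D t := by
        have := Real.log_le_log hm0 hmt
        rwa [Real.log_exp] at this
      have hlog0 : 0 ≤ Real.log m := Real.log_natCast_nonneg m
      have ham : ‖a m‖ ≤ D.A0 * Real.exp (2 / 5 * Om D t * D.A) := by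
        refine (hL.a_le m hm1 hm2).trans ?_
        rw [Real.rpow_def_of_pos hm0]
        have h5 : Real.log m * D.A ≤ 2 / 5 * Om D t * D.A := mul_le_mul_of_nonneg_right hlog hA
        gcongr
      apply arc_bound (PL p m) n (rr D) t _ _ _ z (by linarith) ht10 (by linarith [Real.pi_pos])
        (by linarith) hw'.2.2 (by positivity)
      intro θ hθ
      obtain ⟨-, hg2, -, -, hg5, -⟩ := geom (rr D) t (by linarith) ht4 θ
      have hsin : Real.sin θ ≤ 0 := by
        have h := Real.sin_nonneg_of_nonneg_of_le_pi (x := θ - Real.pi) (by linarith [hθ.1])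
          (by linarith [hθ.2])
        rw [Real.sin_sub_pi] at h
        linarith
      have hσ := hg5 hsin
      have happ := hL.app m hm1 hm2 (JP.sq (((-t ^ 2 : ℝ) : ℂ) +
        ((rr D * t : ℝ) : ℂ) * cexp (I * θ)) - I * t) (hg2.trans (by linarith))
      unfold PL
      set ζ := JP.sq (((-t ^ 2 : ℝ) : ℂ) + ((rr D * t : ℝ) : ℂ) * cexp (I * θ)) with hζ
      rw [show I * (t : ℂ) + (ζ - I * t) = ζ by ring] at happ
      have e2 : (ζ - I * (t : ℂ)).re = ζ.re := by simp
      set u : ℂ := ζ - I * t with hu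
      set E : ℂ := c * a m * cexp ((β - ((D.κ * Real.log m : ℝ) : ℂ)) * u) with hE
      have h1 : ‖p m ζ‖ ≤ 2 * ‖E‖ := by
        have h2 := norm_le_norm_add_norm_sub' (p m ζ) E
        have h3 : K * t ^ (-(1 / 4) : ℝ) * ‖E‖ ≤ 1 * ‖E‖ := by gcongr
        linarith
      have h4 : ((β - ((D.κ * Real.log m : ℝ) : ℂ)) * u).re ≤ (rr D / 2 + 1 / 10) * K := by
        have e1 : (β - ((D.κ * Real.log m : ℝ) : ℂ)) * u =
            ((D.κ * (Om D t - Real.log m) : ℝ) : ℂ) * u + (β - ((D.κ * Om D t : ℝ) : ℂ)) * u := by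
          push_cast; ring
        have h5 : ((β - ((D.κ * Om D t : ℝ) : ℂ)) * u).re ≤ (rr D / 2 + 1 / 10) * K := by
          refine (Complex.re_le_norm _).trans ?_
          rw [norm_mul]
          calc ‖β - ((D.κ * Om D t : ℝ) : ℂ)‖ * ‖u‖ ≤ K * (rr D / 2 + 1 / 10) := by
                gcongr
                exact hL.beta
            _ = _ := by ring
        rw [e1, add_re, Complex.re_ofReal_mul, e2]
        have h6 : D.κ * (Om D t - Real.log m) * ζ.re ≤ 0 := by
          apply mul_nonpos_of_nonneg_of_nonpos _ hσ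
          have : 0 ≤ Om D t - Real.log m := by linarith
          positivity
        linarith
      calc ‖p m ζ‖ ≤ 2 * ‖E‖ := h1
        _ = 2 * (‖c‖ * ‖a m‖ * Real.exp ((β - ((D.κ * Real.log m : ℝ) : ℂ)) * u).re) := by
            rw [hE, norm_mul, norm_mul, Complex.norm_exp]
        _ ≤ 2 * (‖c‖ * (D.A0 * Real.exp (2 / 5 * Om D t * D.A)) *
              Real.exp ((rr D / 2 + 1 / 10) * K)) := by
            gcongr
        _ = _ := by ring
    calc ∑ m ∈ Finset.Icc 1 (MM D t),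
          ‖arc (PL p m) n (-t ^ 2) (rr D * t) Real.pi (2 * Real.pi) (z ^ 2)‖
        ≤ ∑ _m ∈ Finset.Icc 1 (MM D t),
          (n.factorial : ℝ) / ((rr D - 8 / 5) * t) ^ n *
            (2 * Real.exp ((rr D / 2 + 1 / 10) * K) * ‖c‖ *
              (D.A0 * Real.exp (2 / 5 * Om D t * D.A))) :=
          Finset.sum_le_sum hterm
      _ = (n.factorial : ℝ) / ((rr D - 8 / 5) * t) ^ n *
          (((MM D t : ℕ) : ℝ) * (2 * Real.exp ((rr D / 2 + 1 / 10) * K) * ‖c‖ *
              (D.A0 * Real.exp (2 / 5 * Om D t * D.A)))) := by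
          rw [Finset.sum_const, Nat.card_Icc, Nat.add_sub_cancel, nsmul_eq_mul]
          ring
      _ ≤ ε * ‖mtL n t c β z‖ := by
          apply hfin2 n c β z hL.beta hw'
          calc ((MM D t : ℕ) : ℝ) * (2 * Real.exp ((rr D / 2 + 1 / 10) * K) * ‖c‖ *
              (D.A0 * Real.exp (2 / 5 * Om D t * D.A)))
              ≤ Real.exp (2 / 5 * Om D t) * (2 * Real.exp ((rr D / 2 + 1 / 10) * K) *
                ‖c‖ * (D.A0 * Real.exp (2 / 5 * Om D t * D.A))) := by
                gcongr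
            _ = 2 * Real.exp ((rr D / 2 + 1 / 10) * K) * D.A0 *
                Real.exp (2 / 5 * (D.A + 1) * Om D t) * ‖c‖ := by
                have : Real.exp (2 / 5 * (D.A + 1) * Om D t) = Real.exp (2 / 5 * Om D t) *
                    Real.exp (2 / 5 * Om D t * D.A) := by
                  rw [← Real.exp_add]
                  congr 1
                  ring
                rw [this]
                ring
            _ ≤ _ := by
                have h8 : 2 / 5 * (D.A + 1) * Om D t ≤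
                    (39 / 50 * D.w - 1 / 2 - 3 / 4 * D.κ) * Om D t := by
                  apply mul_le_mul_of_nonneg_right _ hO
                  linarith
                gcongr

end Pool.Agent.H986R2.GD
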