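import Pool.Agent.H986R2.GD.LPI

set_option autoImplicit false

/-! # The operator `f + c f'` keeps the class `LPI` -/

namespace Pool.Agent.H986R2.GD

open Complex Filter Topology Polynomial
open Pool.Agent.H24R2.JP (Par Good App SDer TT)
open Pool.Agent.H24R2.JP.ParCircAux Pool.Agent.H24R2.JP.OpGoodAux
open Pool.Agent.H986R2.DBN (ParD)
open Pool.Agent.H24R2.JP.OpBase (diff_deriv diff_iter)
open LPIAux WkAux

namespace OddA

/-- separation of a point outside `NN` from `NN`, with a direction in the right half plane -/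
theorem sepN' {w : ℂ} (hw : w ∉ NN) : ∃ u : ℂ, 0 ≤ u.re ∧ ∀ p ∈ NN, 0 < (u * (1 / (w - p))).re := by
  have hne : ∀ p ∈ NN, 0 < Complex.normSq (w - p) := by
    intro p hp
    apply Complex.normSq_pos.2
    intro h
    rw [sub_eq_zero] at h
    exact hw (h ▸ hp)
  rcases lt_trichotomy w.im 0 with h | h | h
  · refine ⟨-I, by simp, fun p hp => ?_⟩
    have e : ((-I : ℂ) * (1 / (w - p))).re = -w.im / Complex.normSq (w - p) := by
      rw [one_div, Complex.mul_re, Complex.inv_re, Complex.inv_im]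
      simp [hp.1]
    rw [e]
    exact div_pos (by linarith) (hne p hp)
  · refine ⟨1, by simp, fun p hp => ?_⟩
    have hw0 : 0 < w.re := by
      by_contra hcon
      exact hw ⟨h, not_lt.1 hcon⟩
    have e : ((1 : ℂ) * (1 / (w - p))).re = (w.re - p.re) / Complex.normSq (w - p) := by
      rw [one_div, one_mul, Complex.inv_re]
      simp
    rw [e]
    exact div_pos (by linarith [hp.2]) (hne p hp)
  · refine ⟨I, by simp, fun p hp => ?_⟩
    have e : ((I : ℂ) * (1 / (w - p))).re = w.im / Complex.normSq (w - p) := by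
      rw [one_div, Complex.mul_re, Complex.inv_re, Complex.inv_im]
      simp [hp.1]
      ring
    rw [e]
    exact div_pos h (hne p hp)

theorem sum_pos_re (s : Multiset ℂ) (u : ℂ) (f : ℂ → ℂ) (h : ∀ z ∈ s, 0 < (u * f z).re)
    (hs : s ≠ 0) : 0 < (u * (s.map f).sum).re := by
  obtain ⟨a, ha⟩ := Multiset.exists_mem_of_ne_zero hs
  obtain ⟨t, rfl⟩ := Multiset.exists_cons_of_mem ha
  rw [Multiset.map_cons, Multiset.sum_cons, mul_add, Complex.add_re]
  have h1 := h a (Multiset.mem_cons_self a t)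
  have h2 := sum_nonneg_re t u f (fun z hz => h z (Multiset.mem_cons_of_mem hz))
  linarith

/-- The polynomial operator. -/
noncomputable def RR (c : ℝ) (P : ℝ[X]) : ℝ[X] := P + Polynomial.C c * derivative P

theorem aeval_RR (c : ℝ) (P : ℝ[X]) (x : ℂ) :
    aeval x (RR c P) = aeval x P + (c : ℂ) * aeval x (derivative P) := by
  simp [RR]

theorem rr_NN (c : ℝ) (hc : 0 < c) (P : ℝ[X]) (hP : ∀ x : ℂ, aeval x P = 0 → x ∈ NN) (w : ℂ)
    (hw : aeval w (RR c P) = 0) : w ∈ NN := by
  by_contra hcon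
  obtain ⟨u, hu0, hu⟩ := sepN' hcon
  have hPw : aeval w P ≠ 0 := fun h => hcon (hP w h)
  set Q : ℂ[X] := P.map (algebraMap ℝ ℂ) with hQ
  have hQe : ∀ z : ℂ, Q.eval z = aeval z P := by
    intro z
    rw [hQ, eval_map_algebraMap]
  have hQd : ∀ z : ℂ, Q.derivative.eval z = aeval z (derivative P) := by
    intro z
    rw [hQ, derivative_map, eval_map_algebraMap]
  have hQw : Q.eval w ≠ 0 := by
    rw [hQe]
    exact hPw
  have hQ0 : Q ≠ 0 := by
    intro h
    rw [h] at hQw
    simp at hQw
  have e1 := (IsAlgClosed.splits Q).eval_derivative_div_eval_of_ne_zero hQw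
  rw [aeval_RR] at hw
  have e2 : 1 + (c : ℂ) * (Q.roots.map fun z => 1 / (w - z)).sum = 0 := by
    rw [← e1, hQd, hQe]
    field_simp
    linear_combination hw
  by_cases hr : Q.roots = 0
  · rw [hr] at e2
    simp at e2
  · have h1 : 0 < (u * (Q.roots.map fun z => 1 / (w - z)).sum).re := by
      refine sum_pos_re _ u _ ?_ hr
      intro z hz
      apply hu
      apply hP
      rw [mem_roots hQ0, IsRoot, hQe] at hz
      exact hz
    have h4 := congrArg (fun x => (u * x).re) e2
    simp only [mul_zero, Complex.zero_re] at h4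
    have h5 : (u * (1 + (c : ℂ) * (Q.roots.map fun z => 1 / (w - z)).sum)).re =
        u.re + c * (u * (Q.roots.map fun z => 1 / (w - z)).sum).re := by
      have : u * (1 + (c : ℂ) * (Q.roots.map fun z => 1 / (w - z)).sum) =
        u + (c : ℂ) * (u * (Q.roots.map fun z => 1 / (w - z)).sum) := by ring
      rw [this, Complex.add_re, Complex.re_ofReal_mul]
    rw [h5] at h4
    have := mul_pos hc h1
    linarith

end OddA

open OddA in
/-- `f + c f'` is in the class `LPI` if `f` is. -/
theorem lpi_add (h1 : SDer) {f : ℂ → ℂ} (hf : LPI f) {c : ℝ} (hc : 0 < c)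
    (hne : ∃ J : ℕ, ∀ j : ℕ, J ≤ j → iteratedDeriv j f 0 + (c : ℂ) * iteratedDeriv (j + 1) f 0 ≠ 0) :
    LPI (fun x => f x + (c : ℂ) * deriv f x) := by
  obtain ⟨hfd, ⟨P, hP1, hP2⟩, -⟩ := hf
  have happ : App f P := app_of hP1 hP2
  have hPN : ∀ (N : ℕ) (x : ℂ), aeval x (P N) = 0 → x ∈ NN := fun N x hx => parD0 ▸ hP1 N x hx
  have hfd' : Differentiable ℂ (deriv f) := diff_deriv hfd
  have hg : Differentiable ℂ (fun x => f x + (c : ℂ) * deriv f x) := hfd.add (hfd'.const_mul _)
  refine ⟨hg, ⟨fun N => RR c (P N), ?_, ?_⟩, ?_⟩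
  · intro N x hx
    rw [parD0]
    exact rr_NN c hc (P N) (hPN N) x hx
  · have hder := (h1 f P happ 1).1
    rw [iteratedDeriv_one] at hder
    have h3 : TendstoLocallyUniformly (fun (N : ℕ) (x : ℂ) => (c : ℂ) * aeval x (derivative^[1] (P N)))
        (fun x => (c : ℂ) * deriv f x) atTop := by
      exact (UniformContinuous.comp_tendstoLocallyUniformly
        (uniformContinuous_const_smul (c : ℂ)) hder)
    have h4 := hP2.add h3
    refine h4.congr ?_
    intro N x
    simp [RR]
  · intro n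
    by_contra hcon
    push Not at hcon
    obtain ⟨J, hJ⟩ := hne
    have e0 : ∀ j : ℕ, iteratedDeriv j (fun x => f x + (c : ℂ) * deriv f x) 0 =
        iteratedDeriv j f 0 + (c : ℂ) * iteratedDeriv (j + 1) f 0 := by
      intro j
      have a1 : ContDiffAt ℂ (j : WithTop ℕ∞) f 0 := hfd.contDiff.contDiffAt
      have a2 : ContDiffAt ℂ (j : WithTop ℕ∞) (fun x => (c : ℂ) * deriv f x) 0 :=
        (hfd'.const_mul _).contDiff.contDiffAt
      have a3 := iteratedDeriv_add a1 a2
      have a4 : (f + fun x => (c : ℂ) * deriv f x) = fun x => f x + (c : ℂ) * deriv f x := rfl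
      rw [a4] at a3
      rw [a3, iteratedDeriv_const_mul_field, ← iteratedDeriv_succ']
    have h5 := hJ (J + n) (by omega)
    apply h5
    rw [← e0]
    have h3 : iteratedDeriv n (fun x => f x + (c : ℂ) * deriv f x) = fun _ => (0 : ℂ) := funext hcon
    have h2 : iteratedDeriv J (iteratedDeriv n (fun x => f x + (c : ℂ) * deriv f x)) 0 = 0 := by
      rw [h3]
      simp
    rwa [iter_iter] at h2

end Pool.Agent.H986R2.GD
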