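import Pool.Agent.H986R2.GD.OddA
import Pool.Agent.H986R2.GD.ToZ
import Pool.Agent.H986R2.GD.RH2T

set_option autoImplicit false

/-! # The heat flow of the odd function `z XX z` -/

namespace Pool.Agent.H986R2.GD

open Complex Filter Topology Polynomial MeasureTheory
open Pool.Agent.H24R2.JP (SDer TT TI)
open Pool.Agent.H24R2.JP.OpBase
open Pool.Agent.H471R3.GJ

/-- The heat flow of `z XX z`. -/
noncomputable def XO (D : Dat) (τ : ℝ) (z : ℂ) : ℂ :=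
  z * XT D τ z + 2 * (τ : ℂ) * deriv (XT D τ) z

/-- `z * GO (z ^ 2) = XO z`. -/
noncomputable def GO (D : Dat) (τ : ℝ) (x : ℂ) : ℂ :=
  FT D τ x + ((4 * τ : ℝ) : ℂ) * deriv (FT D τ) x

namespace OddB

/-- Derivatives of `z F (z ^ 2)`. -/
theorem xderOddGen {F Y : ℂ → ℂ} (hF : Differentiable ℂ F) (hY : ∀ z, z * F (z ^ 2) = Y z) :
    ∀ (m : ℕ) (z : ℂ), iteratedDeriv (2 * m) Y z = 4 ^ m * z * TI (3 / 2) m (iteratedDeriv m F) (z ^ 2) ∧
      iteratedDeriv (2 * m + 1) Y z = 2 * 4 ^ m * TI (1 / 2) (m + 1) (iteratedDeriv m F) (z ^ 2) := by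
  have hYY : Y = fun z => z * F (z ^ 2) := by
    funext z
    rw [hY z]
  have hsq : ∀ z : ℂ, HasDerivAt (fun z : ℂ => z ^ 2) (2 * z) z := by
    intro z
    simpa using hasDerivAt_pow 2 z
  have odd : ∀ m : ℕ, (∀ z, iteratedDeriv (2 * m) Y z =
      4 ^ m * z * TI (3 / 2) m (iteratedDeriv m F) (z ^ 2)) →
      ∀ z, iteratedDeriv (2 * m + 1) Y z =
        2 * 4 ^ m * TI (1 / 2) (m + 1) (iteratedDeriv m F) (z ^ 2) := by
    intro m hm z
    have e : iteratedDeriv (2 * m) Y =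
        fun z => 4 ^ m * (z * TI (3 / 2) m (iteratedDeriv m F) (z ^ 2)) := by
      funext z
      rw [hm z]
      ring
    rw [iteratedDeriv_succ, e]
    have hG := TI_diff (3 / 2) m (diff_iter hF m)
    have h1 : HasDerivAt (fun z : ℂ => TI (3 / 2) m (iteratedDeriv m F) (z ^ 2))
        (deriv (TI (3 / 2) m (iteratedDeriv m F)) (z ^ 2) * (2 * z)) z :=
      HasDerivAt.comp z (hG (z ^ 2)).hasDerivAt (hsq z)
    have h2 := ((hasDerivAt_id z).mul h1).const_mul (4 ^ m : ℂ)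
    have h3 : deriv (fun z : ℂ =>
        4 ^ m * (z * TI (3 / 2) m (iteratedDeriv m F) (z ^ 2))) z =
        4 ^ m * (1 * TI (3 / 2) m (iteratedDeriv m F) (z ^ 2) +
          z * (deriv (TI (3 / 2) m (iteratedDeriv m F)) (z ^ 2) * (2 * z))) :=
      h2.deriv
    rw [h3, TI_succ']
    have e2 : (1 : ℝ) / 2 + 1 = 3 / 2 := by norm_num
    rw [e2]
    unfold TT
    push_cast
    ring
  have ev : ∀ m : ℕ, ∀ z, iteratedDeriv (2 * m) Y z =
      4 ^ m * z * TI (3 / 2) m (iteratedDeriv m F) (z ^ 2) := by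
    intro m
    induction m with
    | zero =>
      intro z
      simp only [mul_zero, iteratedDeriv_zero, pow_zero, one_mul]
      exact congrFun hYY z
    | succ m ih =>
      intro z
      have e : iteratedDeriv (2 * m + 1) Y = fun z =>
          2 * 4 ^ m * TI (1 / 2) (m + 1) (iteratedDeriv m F) (z ^ 2) := by
        funext z
        exact odd m ih z
      rw [show 2 * (m + 1) = (2 * m + 1) + 1 by ring, iteratedDeriv_succ, e]
      have hG := TI_diff (1 / 2) (m + 1) (diff_iter hF m)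
      have h1 : HasDerivAt (fun z : ℂ => TI (1 / 2) (m + 1) (iteratedDeriv m F) (z ^ 2))
          (deriv (TI (1 / 2) (m + 1) (iteratedDeriv m F)) (z ^ 2) * (2 * z)) z :=
        HasDerivAt.comp z (hG (z ^ 2)).hasDerivAt (hsq z)
      rw [(h1.const_mul _).deriv, deriv_TI (m + 1) _ (diff_iter hF m), ← iteratedDeriv_succ]
      have e2 : (1 : ℝ) / 2 + 1 = 3 / 2 := by norm_num
      rw [e2]
      ring
  intro m z
  exact ⟨ev m z, odd m (ev m) z⟩

theorem XO_eq {D : Dat} (h : SB1T D) (τ : ℝ) (hτ : 0 ≤ τ) (z : ℂ) :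
    z * GO D τ (z ^ 2) = XO D τ z := by
  obtain ⟨hd, hX, -⟩ := h τ hτ
  have e : XT D τ = fun z => FT D τ (z ^ 2) := by
    funext z
    exact (hX z).symm
  have hsq : HasDerivAt (fun z : ℂ => z ^ 2) (2 * z) z := by
    simpa using hasDerivAt_pow 2 z
  have h1 : HasDerivAt (fun z : ℂ => FT D τ (z ^ 2)) (deriv (FT D τ) (z ^ 2) * (2 * z)) z :=
    HasDerivAt.comp z (h₂ := FT D τ) (h := fun z : ℂ => z ^ 2) (hd (z ^ 2)).hasDerivAt hsq
  unfold XO GO
  rw [e, h1.deriv]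
  push_cast
  ring

theorem GO_diff {D : Dat} (h : SB1T D) (τ : ℝ) (hτ : 0 ≤ τ) : Differentiable ℂ (GO D τ) :=
  (h τ hτ).1.add ((diff_deriv (h τ hτ).1).const_mul _)

theorem GO_iter {D : Dat} (h : SB1T D) (τ : ℝ) (hτ : 0 ≤ τ) (k : ℕ) :
    iteratedDeriv k (GO D τ) = fun x => iteratedDeriv k (FT D τ) x +
      ((4 * τ : ℝ) : ℂ) * deriv (iteratedDeriv k (FT D τ)) x := by
  funext x
  have hd := (h τ hτ).1
  have a1 : ContDiffAt ℂ (k : WithTop ℕ∞) (FT D τ) x := hd.contDiff.contDiffAt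
  have a2 : ContDiffAt ℂ (k : WithTop ℕ∞) (fun x => ((4 * τ : ℝ) : ℂ) * deriv (FT D τ) x) x :=
    ((diff_deriv hd).const_mul _).contDiff.contDiffAt
  have a3 := iteratedDeriv_add a1 a2
  have a4 : (FT D τ + fun x => ((4 * τ : ℝ) : ℂ) * deriv (FT D τ) x) = GO D τ := rfl
  rw [a4] at a3
  rw [a3, iteratedDeriv_const_mul_field, ← iteratedDeriv_succ', iteratedDeriv_succ]

theorem GO_lpi {D : Dat} (h1 : SDer) (h : SB1T D) (hp : SPosT D) (τ : ℝ) (hτ : 0 < τ) (k : ℕ)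
    (hl : LPI (iteratedDeriv k (FT D τ))) : LPI (iteratedDeriv k (GO D τ)) := by
  rw [GO_iter h τ hτ.le]
  refine lpi_add h1 hl (by linarith) ?_
  obtain ⟨k0, hk0⟩ := hp
  refine ⟨k0, fun j hj => ?_⟩
  rw [LPIAux.iter_iter, LPIAux.iter_iter, (h τ hτ.le).2.2.2, (h τ hτ.le).2.2.2]
  have e1 := hk0 τ hτ.le (j + k) (by omega)
  have e2 := hk0 τ hτ.le (j + 1 + k) (by omega)
  have : 0 < gamT D τ (j + k) + 4 * τ * gamT D τ (j + 1 + k) := by positivity
  have h9 : ((gamT D τ (j + k) : ℝ) : ℂ) + ((4 * τ : ℝ) : ℂ) * ((gamT D τ (j + 1 + k) : ℝ) : ℂ) =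
      ((gamT D τ (j + k) + 4 * τ * gamT D τ (j + 1 + k) : ℝ) : ℂ) := by push_cast; ring
  rw [h9]
  exact_mod_cast this.ne'

theorem toZ_odd {D : Dat} (h1 : SDer) (h : SB1T D) (hp : SPosT D) (τ : ℝ) (hτ : 0 < τ) (n : ℕ)
    (hl : LPI (iteratedDeriv (n / 2) (FT D τ))) (z : ℂ) (hz : iteratedDeriv n (XO D τ) z = 0) :
    z.re = 0 := by
  have hx := xderOddGen (GO_diff h τ hτ.le) (XO_eq h τ hτ.le)
  have key : ∀ b : ℝ, 0 < b → ∀ (m : ℕ) (g : ℂ → ℂ), LPI g → TI b m g (z ^ 2) = 0 → z.re = 0 := by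
    intro b hb m g hg h0
    have h4 := ((lpi h1) _ (toz_TI (lpi h1) b hb m g hg)).1 _ h0
    have h5 := h4 z rfl
    nlinarith
  rcases Nat.even_or_odd' n with ⟨m, rfl | rfl⟩
  · have e : 2 * m / 2 = m := by omega
    rw [e] at hl
    rw [(hx m z).1] at hz
    by_cases hz0 : z = 0
    · rw [hz0]; rfl
    have h4m : (4 : ℂ) ^ m * z ≠ 0 := mul_ne_zero (pow_ne_zero _ (by norm_num)) hz0
    exact key _ (by norm_num) m _ (GO_lpi h1 h hp τ hτ m hl) ((mul_eq_zero.1 hz).resolve_left h4m)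
  · have e : (2 * m + 1) / 2 = m := by omega
    rw [e] at hl
    rw [(hx m z).2] at hz
    have h4m : (2 : ℂ) * 4 ^ m ≠ 0 := mul_ne_zero two_ne_zero (pow_ne_zero _ (by norm_num))
    exact key _ (by norm_num) (m + 1) _ (GO_lpi h1 h hp τ hτ m hl)
      ((mul_eq_zero.1 hz).resolve_left h4m)

theorem derivXT_bound {D : Dat} (h : IsL D) (hk : SKer D) (R : ℝ) :
    ∃ C : ℝ, 0 ≤ C ∧ ∀ τ : ℝ, 0 ≤ τ → τ ≤ 1 → ∀ z : ℂ, ‖z‖ ≤ R → ‖deriv (XT D τ) z‖ ≤ C := by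
  obtain ⟨B, hB⟩ := (RH2TAux.cl_phi D h 1).pow 1 |>.2 R
  have hint : Integrable (fun t : ℝ => B * Real.exp (-1 * t ^ 2)) :=
    (integrable_exp_neg_mul_sq one_pos).const_mul B
  refine ⟨∫ t : ℝ, |B * Real.exp (-1 * t ^ 2)|, by positivity, ?_⟩
  intro τ hτ0 hτ1 z hz
  have e1 := (hk.2 τ hτ0).2.2.2 1 z
  rw [iteratedDeriv_one] at e1
  rw [e1]
  refine norm_integral_le_of_norm_le hint.abs (Eventually.of_forall fun t => ?_)
  refine (Pool.Agent.H24R2.JP.MomAux.L_norm_le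
    (fun t => t ^ 1 * (D.Φ t * Real.exp (τ * t ^ 2))) z t).trans ?_
  have h1 : |z.re| ≤ R := (Complex.abs_re_le_norm z).trans hz
  have h3 := hB t
  have h5 : Real.exp (τ * t ^ 2) ≤ Real.exp (1 * t ^ 2) := by
    apply Real.exp_le_exp.2
    exact mul_le_mul_of_nonneg_right hτ1 (sq_nonneg t)
  have h6 : |t ^ 1 * (D.Φ t * Real.exp (τ * t ^ 2))| ≤ |t ^ 1 * (D.Φ t * Real.exp (1 * t ^ 2))| := by
    rw [abs_mul, abs_mul, abs_mul, abs_mul, abs_of_pos (Real.exp_pos _),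
      abs_of_pos (Real.exp_pos _)]
    gcongr
  calc |t ^ 1 * (D.Φ t * Real.exp (τ * t ^ 2))| * Real.exp (|z.re| * |t|)
      ≤ |t ^ 1 * (D.Φ t * Real.exp (1 * t ^ 2))| * Real.exp (R * |t|) := by gcongr
    _ ≤ B * Real.exp (-1 * t ^ 2) := h3
    _ ≤ _ := le_abs_self _

theorem tluO (D : Dat) (h : IsL D) (hk : SKer D) :
    TendstoLocallyUniformly (fun (k : ℕ) (z : ℂ) => XO D (1 / ((k : ℝ) + 1)) z)
      (fun z => z * D.XX z) atTop := by
  rw [← tendstoLocallyUniformlyOn_univ, tendstoLocallyUniformlyOn_iff_forall_isCompact isOpen_univ]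
  intro K _ hK
  obtain ⟨R, hR⟩ := hK.isBounded.subset_closedBall (0 : ℂ)
  obtain ⟨C, hC0, hC⟩ := RH2TAux.close D h hk R
  obtain ⟨C', hC0', hC'⟩ := derivXT_bound h hk R
  rw [Metric.tendstoUniformlyOn_iff]
  intro ε hε
  have h1 : Tendsto (fun k : ℕ => (|R| * C + 2 * C') * (1 / ((k : ℝ) + 1))) atTop
      (𝓝 ((|R| * C + 2 * C') * 0)) :=
    tendsto_one_div_add_atTop_nhds_zero_nat.const_mul _
  rw [mul_zero] at h1
  filter_upwards [h1.eventually (gt_mem_nhds hε)] with k hk z hz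
  have hk0 : (0 : ℝ) ≤ k := Nat.cast_nonneg k
  have hz' : ‖z‖ ≤ R := mem_closedBall_zero_iff.1 (hR hz)
  have h2 : 1 / ((k : ℝ) + 1) ≤ 1 := by
    rw [div_le_one (by positivity)]; linarith
  set τ : ℝ := 1 / ((k : ℝ) + 1) with hτ
  have hτ0 : 0 ≤ τ := by positivity
  rw [dist_eq_norm]
  have e : z * D.XX z - XO D τ z = z * (D.XX z - XT D τ z) - 2 * (τ : ℂ) * deriv (XT D τ) z := by
    unfold XO
    ring
  rw [e]
  refine (norm_sub_le _ _).trans_lt (lt_of_le_of_lt ?_ hk)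
  have e1 : ‖z * (D.XX z - XT D τ z)‖ ≤ |R| * (C * τ) := by
    rw [norm_mul]
    exact mul_le_mul (hz'.trans (le_abs_self R)) (hC τ hτ0 h2 z hz') (norm_nonneg _) (abs_nonneg _)
  have e2 : ‖2 * (τ : ℂ) * deriv (XT D τ) z‖ ≤ 2 * τ * C' := by
    rw [norm_mul, norm_mul, Complex.norm_real, Real.norm_eq_abs, abs_of_nonneg hτ0]
    have : ‖(2 : ℂ)‖ = 2 := by norm_num
    rw [this]
    exact mul_le_mul_of_nonneg_left (hC' τ hτ0 h2 z hz') (by positivity)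
  calc _ ≤ |R| * (C * τ) + 2 * τ * C' := add_le_add e1 e2
    _ = _ := by ring

theorem XO_diff {D : Dat} (hk : SKer D) (τ : ℝ) (hτ : 0 ≤ τ) : Differentiable ℂ (XO D τ) := by
  have hd := (hk.2 τ hτ).1
  exact (differentiable_id.mul hd).add ((diff_deriv hd).const_mul _)

theorem rh2O (D : Dat) (h : IsL D) (h1 : SKer D) (h3 : SPosT D)
    (hH : ∀ τ : ℝ, 0 < τ → ∀ z : ℂ, XO D τ z = 0 → z.re = 0) :
    ∀ z : ℂ, D.XX z = 0 → z.re = 0 := by
  intro z hz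
  have hX : Differentiable ℂ D.XX := by
    have := (h1.2 0 le_rfl).1
    rwa [h1.1] at this
  have hb : ∃ b : ℂ, b * D.XX b ≠ 0 := by
    by_contra hcon
    push Not at hcon
    have hcon' : ∀ b : ℂ, b ≠ 0 → D.XX b = 0 := fun b hb => (mul_eq_zero.1 (hcon b)).resolve_left hb
    have hcon2 : ∀ b : ℂ, D.XX b = 0 := by
      have h0 : Set.EqOn D.XX (fun _ => (0 : ℂ)) ({0}ᶜ : Set ℂ) := fun b hb => hcon' b hb
      have h9 := h0.of_subset_closure hX.continuous.continuousOn continuous_const.continuousOn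
        (Set.subset_univ _) (by
          rw [(dense_compl_singleton (0 : ℂ)).closure_eq])
      intro b
      exact h9 (Set.mem_univ b)
    obtain ⟨k0, hk0⟩ := h3
    have h4 := hk0 0 le_rfl k0 le_rfl
    have h5 : XT D 0 = fun _ => (0 : ℂ) := by
      rw [h1.1]
      exact funext hcon2
    unfold gamT at h4
    rw [h5] at h4
    simp at h4
  obtain ⟨b, hb⟩ := hb
  by_contra hne
  have hpos : 0 < |z.re| := abs_pos.2 hne
  have hXd : Differentiable ℂ (fun z => z * D.XX z) := differentiable_id.mul hX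
  have h5 := Pool.Agent.H24R2.JP.ParCircAux.hurw
    (F := fun (k : ℕ) (z : ℂ) => XO D (1 / ((k : ℝ) + 1)) z)
    (fun k => XO_diff h1 _ (by positivity)) (tluO D h h1) hXd (a := z)
    (by show z * D.XX z = 0; rw [hz, mul_zero]) hb hpos
  obtain ⟨k, w, hw, hw0⟩ := h5.exists
  have h6 := hH (1 / ((k : ℝ) + 1)) (by positivity) w hw0
  have h7 := Complex.abs_re_le_norm (w - z)
  rw [Complex.sub_re, h6, zero_sub, abs_neg] at h7
  linarith

end OddB

open OddB in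
/-- The theorem for the odd function `z XX z`. -/
theorem composeOdd (D : Dat) (h : IsL D) (h0 : SDer) (h1 : SFinX D) (h2 : SB1T D) (h3 : SRHReal D)
    (h4 : SKer D) (h5 : SPosT D) (h6 : SBig D) : ∃ C : ℝ, 0 < C ∧
      (∀ (τ : ℝ) (n : ℕ), 0 < τ → C ≤ n * τ → ∀ z : ℂ, iteratedDeriv n (XO D τ) z = 0 → z.re = 0) ∧
      ((∀ z : ℂ, z * D.XX z = 0 → z.re = 0) ↔ ∀ (τ : ℝ) (n : ℕ), 0 < τ → n * τ < C → ∀ z : ℂ,
        iteratedDeriv n (XO D τ) z = 0 → z.re = 0) := by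
  obtain ⟨C, hC, hf⟩ := h1
  refine ⟨4 * C + 1, by linarith, ?_, ?_, ?_⟩
  · intro τ n hτ hn
    rcases le_or_gt (1 / 8) τ with hh | hh
    · exact toZ_odd h0 h2 h5 τ hτ n (((lpi h0) _ (h6 τ hh)).2.1 _)
    refine toZ_odd h0 h2 h5 τ hτ n (hf τ hτ _ ?_)
    have h9 : (n : ℝ) ≤ 2 * ((n / 2 : ℕ) : ℝ) + 1 := by
      have : n ≤ 2 * (n / 2) + 1 := by omega
      exact_mod_cast this
    nlinarith
  · intro hz τ n hτ _
    refine toZ_odd h0 h2 h5 τ hτ n (((lpi h0) _ (h3 ?_ τ hτ.le)).2.1 _)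
    intro w hw
    exact hz w (by rw [hw, mul_zero])
  · intro hH
    have h6 := rh2O D h h4 h5 (fun τ hτ z hz => by
      refine hH τ 0 hτ (by simp only [Nat.cast_zero, zero_mul]; linarith) z ?_
      rw [iteratedDeriv_zero, hz])
    intro z hz
    rcases mul_eq_zero.1 hz with h7 | h7
    · rw [h7]; rfl
    · exact h6 z h7

end Pool.Agent.H986R2.GD
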