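import Pool.Agent.H986R2.GD.Spec

set_option autoImplicit false

/-!
# De Bruijn-Newman constants of the derivatives of completed L-functions: unscaled form
-/

namespace Pool.Agent.H986R2.GD

open Complex Filter Topology Polynomial MeasureTheory
open Pool.Agent.H471R3.GJ

/-- The heat flow `e^{τ D²} G` as a Gaussian average. -/
noncomputable def heatG (τ : ℝ) (G : ℂ → ℂ) (z : ℂ) : ℂ :=
  ((1 / Real.sqrt Real.pi : ℝ) : ℂ) *
    ∫ v : ℝ, ((Real.exp (-v ^ 2) : ℝ) : ℂ) * G (z + ((2 * Real.sqrt τ * v : ℝ) : ℂ))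

theorem heatG_eq {D : Dat} (hh : SHeat D) {G : ℂ → ℂ} {c : ℂ} {κ : ℝ} (hκ : 0 < κ)
    (hG : ∀ z, G z = c * D.XX (z / κ)) (τ : ℝ) (hτ : 0 ≤ τ) (z : ℂ) :
    heatG τ G z = c * XT D (τ / κ ^ 2) ((1 / κ : ℂ) * z) := by
  have h1 := (hh (τ / κ ^ 2) ((1 / κ : ℂ) * z) (by positivity)).2
  rw [h1]
  unfold heatG
  have e : ∀ v : ℝ, ((Real.exp (-v ^ 2) : ℝ) : ℂ) * G (z + ((2 * Real.sqrt τ * v : ℝ) : ℂ)) =
     c * (((Real.exp (-v ^ 2) : ℝ) : ℂ) *
      D.XX ((1 / κ : ℂ) * z + ((2 * Real.sqrt (τ / κ ^ 2) * v : ℝ) : ℂ))) := by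
    intro v
    rw [hG]
    have : (z + ((2 * Real.sqrt τ * v : ℝ) : ℂ)) / κ =
        (1 / κ : ℂ) * z + ((2 * Real.sqrt (τ / κ ^ 2) * v : ℝ) : ℂ) := by
      rw [Real.sqrt_div hτ, Real.sqrt_sq hκ.le]
      push_cast
      ring
    rw [this]; ring
  simp_rw [e]
  rw [integral_const_mul]
  ring

theorem iter_heatG {D : Dat} (hk : SKer D) (hh : SHeat D) {G : ℂ → ℂ} {c : ℂ} {κ : ℝ} (hκ : 0 < κ)
    (hG : ∀ z, G z = c * D.XX (z / κ)) (τ : ℝ) (hτ : 0 ≤ τ) (n : ℕ) (z : ℂ) :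
    iteratedDeriv n (heatG τ G) z =
      c * ((1 / κ : ℂ) ^ n * iteratedDeriv n (XT D (τ / κ ^ 2)) ((1 / κ : ℂ) * z)) := by
  have hd : Differentiable ℂ (XT D (τ / κ ^ 2)) := (hk.2 (τ / κ ^ 2) (by positivity)).1
  have e : heatG τ G = fun z => c * (fun z => XT D (τ / κ ^ 2) ((1 / κ : ℂ) * z)) z := by
    funext z
    exact heatG_eq hh hκ hG τ hτ z
  have h1 := congrFun (iteratedDeriv_comp_const_mul (n := n) (f := XT D (τ / κ ^ 2)) hd.contDiff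
    (1 / κ : ℂ)) z
  rw [e, iteratedDeriv_const_mul_field, h1]

/-- Unscaled form of the theorem. -/
theorem unscale {D : Dat} (hk : SKer D) (hh : SHeat D) {G : ℂ → ℂ} {c : ℂ} {κ : ℝ} (hc : c ≠ 0)
    (hκ : 0 < κ) (hG : ∀ z, G z = c * D.XX (z / κ))
    (hm : ∃ C : ℝ, 0 < C ∧
      (∀ (τ : ℝ) (n : ℕ), 0 < τ → C ≤ n * τ → ∀ z : ℂ, iteratedDeriv n (XT D τ) z = 0 → z.re = 0) ∧
      ((∀ z : ℂ, D.XX z = 0 → z.re = 0) ↔ ∀ (τ : ℝ) (n : ℕ), 0 < τ → n * τ < C → ∀ z : ℂ,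
        iteratedDeriv n (XT D τ) z = 0 → z.re = 0)) :
    ∃ C : ℝ, 0 < C ∧
      (∀ (τ : ℝ) (n : ℕ), 0 < τ → C ≤ n * τ → ∀ z : ℂ, iteratedDeriv n (heatG τ G) z = 0 →
        z.re = 0) ∧
      ((∀ z : ℂ, G z = 0 → z.re = 0) ↔ ∀ (τ : ℝ) (n : ℕ), 0 < τ → n * τ < C → ∀ z : ℂ,
        iteratedDeriv n (heatG τ G) z = 0 → z.re = 0) := by
  obtain ⟨C, hC, h1, h2⟩ := hm
  have hκc : (κ : ℂ) ≠ 0 := by exact_mod_cast hκ.ne'
  have hpow : ∀ n : ℕ, ((1 / κ : ℂ)) ^ n ≠ 0 := fun n => pow_ne_zero _ (one_div_ne_zero hκc)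
  have hre : ∀ z : ℂ, ((1 / κ : ℂ) * z).re = z.re / κ := by
    intro z
    have : (1 / κ : ℂ) = ((1 / κ : ℝ) : ℂ) := by push_cast; rfl
    rw [this, Complex.re_ofReal_mul]
    ring
  refine ⟨C * κ ^ 2, by positivity, ?_, ?_, ?_⟩
  · intro τ n hτ hn z hz
    rw [iter_heatG hk hh hκ hG τ hτ.le] at hz
    have h3 := (mul_eq_zero.1 ((mul_eq_zero.1 hz).resolve_left hc)).resolve_left (hpow n)
    have h4 := h1 (τ / κ ^ 2) n (by positivity) (by
      rw [← mul_div_assoc, le_div_iff₀ (by positivity)]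
      exact hn) _ h3
    rw [hre, div_eq_zero_iff] at h4
    exact h4.resolve_right hκ.ne'
  · intro hz τ n hτ hn z hz0
    have hz' : ∀ z : ℂ, D.XX z = 0 → z.re = 0 := by
      intro z h0
      have h3 := hz ((κ : ℂ) * z) (by
        rw [hG, mul_div_cancel_left₀ _ hκc, h0, mul_zero])
      rw [Complex.re_ofReal_mul] at h3
      exact (mul_eq_zero.1 h3).resolve_left hκ.ne'
    rw [iter_heatG hk hh hκ hG τ hτ.le] at hz0
    have h3 := (mul_eq_zero.1 ((mul_eq_zero.1 hz0).resolve_left hc)).resolve_left (hpow n)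
    have h4 := h2.1 hz' (τ / κ ^ 2) n (by positivity) (by
      rw [← mul_div_assoc, div_lt_iff₀ (by positivity)]
      exact hn) _ h3
    rw [hre, div_eq_zero_iff] at h4
    exact h4.resolve_right hκ.ne'
  · intro hH
    have h5 := h2.2 (by
      intro τ n hτ hn z hz
      have h3 := hH (τ * κ ^ 2) n (by positivity) (by
        rw [← mul_assoc]
        exact mul_lt_mul_of_pos_right hn (by positivity)) ((κ : ℂ) * z) (by
        rw [iter_heatG hk hh hκ hG _ (by positivity)]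
        have e1 : τ * κ ^ 2 / κ ^ 2 = τ := by field_simp
        have e2 : (1 / κ : ℂ) * ((κ : ℂ) * z) = z := by field_simp
        rw [e1, e2, hz, mul_zero, mul_zero])
      rw [Complex.re_ofReal_mul] at h3
      exact (mul_eq_zero.1 h3).resolve_left hκ.ne')
    intro z hz
    rw [hG] at hz
    have h6 := h5 _ ((mul_eq_zero.1 hz).resolve_left hc)
    have e : (z / κ : ℂ) = (1 / κ : ℂ) * z := by ring
    rw [e, hre, div_eq_zero_iff] at h6
    exact h6.resolve_right hκ.ne'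

end Pool.Agent.H986R2.GD
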