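import Pool.Agent.H986R2.GD.All
import Pool.Agent.H986R2.GD.OddB
import Pool.Agent.H986R2.GD.Unsc

set_option autoImplicit false

/-! # The Gaussian average of `z XX z`, and the final generic theorem in unscaled form -/

namespace Pool.Agent.H986R2.GD

open Complex Filter Topology Polynomial MeasureTheory
open Pool.Agent.H471R3.GJ

namespace OddC

open HeatG

/-- the integrand of the double integral -/
noncomputable def F2 (w : ℝ → ℝ) (τ : ℝ) (z : ℂ) (v u : ℝ) : ℂ :=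
  (z + ((2 * Real.sqrt τ * v : ℝ) : ℂ)) * F w τ z v u

theorem F2_cont {w : ℝ → ℝ} (hw : Continuous w) (τ : ℝ) (z : ℂ) :
    Continuous (Function.uncurry (F2 w τ z)) := by
  have h1 := F_cont hw τ z
  have h2 : Continuous (fun p : ℝ × ℝ => z + ((2 * Real.sqrt τ * p.1 : ℝ) : ℂ)) := by fun_prop
  exact h2.mul h1

theorem F2_int {w : ℝ → ℝ} (hw : Continuous w) (τ : ℝ) (hτ : 0 ≤ τ)
    (hcl : Pool.Agent.H24R2.JP.MomAux.Cl (fun u => w u * Real.exp (2 * τ * u ^ 2))) (z : ℂ) :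
    Integrable (Function.uncurry (F2 w τ z)) (volume.prod volume) := by
  obtain ⟨-, hCl⟩ := hcl
  obtain ⟨C, hC⟩ := hCl |z.re|
  have i0 : Integrable (fun v : ℝ => Real.exp (-(1/2) * v ^ 2)) :=
    integrable_exp_neg_mul_sq (by norm_num)
  have i0' : Integrable (fun v : ℝ => |v * Real.exp (-(1/2) * v ^ 2)|) :=
    (integrable_mul_exp_neg_mul_sq (by norm_num : (0:ℝ) < 1/2)).abs
  have i1 : Integrable (fun v : ℝ => ‖z‖ * Real.exp (-(1/2) * v ^ 2) +
      2 * Real.sqrt τ * |v * Real.exp (-(1/2) * v ^ 2)|) :=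
    (i0.const_mul _).add (i0'.const_mul _)
  have i2 : Integrable (fun u : ℝ => C * Real.exp (-1 * u ^ 2)) :=
    (integrable_exp_neg_mul_sq one_pos).const_mul C
  refine Integrable.mono' (i1.mul_prod i2) (F2_cont hw τ z).aestronglyMeasurable
    (Eventually.of_forall fun p => ?_)
  obtain ⟨v, u⟩ := p
  simp only [Function.uncurry]
  unfold F2 F
  rw [norm_mul, norm_mul, norm_mul, Complex.norm_real, Complex.norm_real, Real.norm_eq_abs,
    Real.norm_eq_abs, Complex.norm_exp, abs_of_pos (Real.exp_pos _)]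
  have h1 : ((z + ((2 * Real.sqrt τ * v : ℝ) : ℂ)) * (u : ℂ)).re
      = (z.re + 2 * Real.sqrt τ * v) * u := by
    rw [Complex.mul_re, Complex.add_re, Complex.ofReal_re, Complex.ofReal_re, Complex.ofReal_im]
    ring
  rw [h1]
  have hs : Real.sqrt τ ^ 2 = τ := Real.sq_sqrt hτ
  have h2 : (z.re + 2 * Real.sqrt τ * v) * u ≤
      |z.re| * |u| + (1/2 * v ^ 2 + 2 * τ * u ^ 2) := by
    have e1 : z.re * u ≤ |z.re| * |u| := by
      rw [← abs_mul]; exact le_abs_self _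
    have e2 : 0 ≤ (v - 2 * Real.sqrt τ * u) ^ 2 := sq_nonneg _
    have e3 : (v - 2 * Real.sqrt τ * u) ^ 2 =
        v ^ 2 - 4 * Real.sqrt τ * v * u + 4 * Real.sqrt τ ^ 2 * u ^ 2 := by ring
    rw [e3, hs] at e2
    nlinarith
  have h3 : ‖z + ((2 * Real.sqrt τ * v : ℝ) : ℂ)‖ ≤ ‖z‖ + 2 * Real.sqrt τ * |v| := by
    refine (norm_add_le _ _).trans ?_
    rw [Complex.norm_real, Real.norm_eq_abs, abs_mul, abs_of_nonneg (by positivity)]
  have h4 : Real.exp (-v ^ 2) * (|w u| * Real.exp ((z.re + 2 * Real.sqrt τ * v) * u)) ≤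
      Real.exp (-(1/2) * v ^ 2) * (C * Real.exp (-1 * u ^ 2)) := by
    calc Real.exp (-v ^ 2) * (|w u| * Real.exp ((z.re + 2 * Real.sqrt τ * v) * u))
        ≤ Real.exp (-v ^ 2) * (|w u| * Real.exp (|z.re| * |u| + (1/2 * v ^ 2 + 2 * τ * u ^ 2))) := by
          gcongr
      _ = Real.exp (-(1/2) * v ^ 2) *
          (|w u * Real.exp (2 * τ * u ^ 2)| * Real.exp (|z.re| * |u|)) := by
          rw [abs_mul, abs_of_pos (Real.exp_pos (2 * τ * u ^ 2))]
          have : Real.exp (-(1/2) * v ^ 2) = Real.exp (-v ^ 2) * Real.exp (1/2 * v ^ 2) := by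
            rw [← Real.exp_add]; congr 1; ring
          rw [this, Real.exp_add, Real.exp_add]
          ring
      _ ≤ Real.exp (-(1/2) * v ^ 2) * (C * Real.exp (-1 * u ^ 2)) :=
          mul_le_mul_of_nonneg_left (hC u) (Real.exp_pos _).le
  have h5 : 0 ≤ C * Real.exp (-1 * u ^ 2) := (by positivity : (0:ℝ) ≤ _).trans (hC u)
  calc ‖z + ((2 * Real.sqrt τ * v : ℝ) : ℂ)‖ *
      (Real.exp (-v ^ 2) * (|w u| * Real.exp ((z.re + 2 * Real.sqrt τ * v) * u)))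
      ≤ (‖z‖ + 2 * Real.sqrt τ * |v|) * (Real.exp (-(1/2) * v ^ 2) * (C * Real.exp (-1 * u ^ 2))) :=
        mul_le_mul h3 h4 (by positivity) (by positivity)
    _ = _ := by
        rw [abs_mul, abs_of_pos (Real.exp_pos _)]
        ring

theorem gauss_int (a : ℝ) : Integrable (fun v : ℝ => Real.exp (-(v - a) ^ 2)) := by
  have h := (integrable_exp_neg_mul_sq one_pos).comp_sub_right a
  refine h.congr (Eventually.of_forall fun v => ?_)
  simp

theorem gauss1_int (a : ℝ) : Integrable (fun v : ℝ => (v - a) * Real.exp (-(v - a) ^ 2)) := by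
  have h := (integrable_mul_exp_neg_mul_sq one_pos).comp_sub_right a
  refine h.congr (Eventually.of_forall fun v => ?_)
  simp

theorem gauss1 (a : ℝ) : ∫ v : ℝ, (v - a) * Real.exp (-(v - a) ^ 2) = 0 := by
  have h1 := integral_sub_right_eq_self (μ := (volume : Measure ℝ))
    (fun v : ℝ => v * Real.exp (-v ^ 2)) a
  rw [h1]
  have h2 : ∫ v : ℝ, (fun v : ℝ => v * Real.exp (-v ^ 2)) (-v) =
      ∫ v : ℝ, (fun v : ℝ => v * Real.exp (-v ^ 2)) v :=
    integral_neg_eq_self (fun v : ℝ => v * Real.exp (-v ^ 2)) volume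
  have h3 : (fun v : ℝ => (fun v : ℝ => v * Real.exp (-v ^ 2)) (-v)) =
      fun v : ℝ => -(v * Real.exp (-v ^ 2)) := by
    funext v
    simp
  rw [h3, integral_neg] at h2
  linarith

theorem inner2 (w : ℝ → ℝ) (τ : ℝ) (hτ : 0 ≤ τ) (z : ℂ) (u : ℝ) : ∫ v : ℝ, F2 w τ z v u =
    ((Real.sqrt Real.pi : ℝ) : ℂ) * ((z + 2 * (τ : ℂ) * u) *
      (((w u * Real.exp (τ * u ^ 2) : ℝ) : ℂ) * cexp (z * u))) := by
  have hs : Real.sqrt τ ^ 2 = τ := Real.sq_sqrt hτ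
  have hs' : ((Real.sqrt τ : ℝ) : ℂ) ^ 2 = (τ : ℂ) := by exact_mod_cast hs
  have h1 : ∀ v : ℝ, F2 w τ z v u = ((z + 2 * (τ : ℂ) * u) *
      (((w u * Real.exp (τ * u ^ 2) : ℝ) : ℂ) * cexp (z * u))) *
        ((Real.exp (-(v - Real.sqrt τ * u) ^ 2) : ℝ) : ℂ) +
      (2 * ((Real.sqrt τ : ℝ) : ℂ) * (((w u * Real.exp (τ * u ^ 2) : ℝ) : ℂ) * cexp (z * u))) *
        (((v - Real.sqrt τ * u) * Real.exp (-(v - Real.sqrt τ * u) ^ 2) : ℝ) : ℂ) := by
    intro v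
    unfold F2 F
    rw [add_mul z _ (u : ℂ), Complex.exp_add]
    have e1 : cexp (((2 * Real.sqrt τ * v : ℝ) : ℂ) * (u : ℂ)) =
        ((Real.exp (2 * Real.sqrt τ * v * u) : ℝ) : ℂ) := by
      push_cast; rfl
    rw [e1]
    have e2 : Real.exp (-v ^ 2) * Real.exp (2 * Real.sqrt τ * v * u) =
        Real.exp (-(v - Real.sqrt τ * u) ^ 2) * Real.exp (τ * u ^ 2) := by
      rw [← Real.exp_add, ← Real.exp_add]
      congr 1
      have : (v - Real.sqrt τ * u) ^ 2 = v ^ 2 - 2 * Real.sqrt τ * v * u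
        + Real.sqrt τ ^ 2 * u ^ 2 := by ring
      rw [this, hs]; ring
    have e3 : ((Real.exp (-v ^ 2) : ℝ) : ℂ) * ((Real.exp (2 * Real.sqrt τ * v * u) : ℝ) : ℂ) =
        ((Real.exp (-(v - Real.sqrt τ * u) ^ 2) : ℝ) : ℂ) *
          ((Real.exp (τ * u ^ 2) : ℝ) : ℂ) := by
      rw [← Complex.ofReal_mul, ← Complex.ofReal_mul, e2]
    have e4 : z + ((2 * Real.sqrt τ * v : ℝ) : ℂ) =
        (z + 2 * (τ : ℂ) * u) + 2 * ((Real.sqrt τ : ℝ) : ℂ) * ((v : ℂ) - (Real.sqrt τ : ℝ) * u) := by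
      push_cast
      linear_combination 2 * (u : ℂ) * hs'
    rw [e4, Complex.ofReal_mul (w u), Complex.ofReal_mul (v - Real.sqrt τ * u)]
    push_cast
    push_cast at e3
    linear_combination ((z + 2 * (τ : ℂ) * u) +
      2 * ((Real.sqrt τ : ℝ) : ℂ) * ((v : ℂ) - (Real.sqrt τ : ℝ) * u)) *
        (((w u : ℝ) : ℂ) * cexp (z * u)) * e3
  simp only [h1]
  have i1 : Integrable (fun v : ℝ => ((z + 2 * (τ : ℂ) * u) *
      (((w u * Real.exp (τ * u ^ 2) : ℝ) : ℂ) * cexp (z * u))) *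
        ((Real.exp (-(v - Real.sqrt τ * u) ^ 2) : ℝ) : ℂ)) :=
    (gauss_int _).ofReal.const_mul _
  have i2 : Integrable (fun v : ℝ =>
      (2 * ((Real.sqrt τ : ℝ) : ℂ) * (((w u * Real.exp (τ * u ^ 2) : ℝ) : ℂ) * cexp (z * u))) *
        (((v - Real.sqrt τ * u) * Real.exp (-(v - Real.sqrt τ * u) ^ 2) : ℝ) : ℂ)) :=
    (gauss1_int _).ofReal.const_mul _
  rw [integral_add i1 i2, integral_const_mul, integral_const_mul, integral_complex_ofReal,
    integral_complex_ofReal, gauss, gauss1]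
  push_cast
  ring

end OddC

open OddC HeatG in
theorem heatOdd (D : Dat) (h : IsL D) (hk : SKer D) (τ : ℝ) (hτ : 0 ≤ τ) (z : ℂ) :
    heatG τ (fun w => w * D.XX w) z = XO D τ z := by
  have hF := F2_int h.Φ_cont τ hτ (Cl_w D h (2 * τ) (by linarith)) z
  have h1 : (fun v : ℝ => ((Real.exp (-v ^ 2) : ℝ) : ℂ) *
      ((z + ((2 * Real.sqrt τ * v : ℝ) : ℂ)) * D.XX (z + ((2 * Real.sqrt τ * v : ℝ) : ℂ)))) =
      fun v => ∫ u : ℝ, F2 D.Φ τ z v u := by
    funext v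
    have h2 := outer D h τ z v
    unfold F2
    rw [integral_const_mul, ← h2]
    ring
  unfold heatG
  rw [h1]
  have h2 : ∫ v : ℝ, ∫ u : ℝ, F2 D.Φ τ z v u = ∫ u : ℝ, ∫ v : ℝ, F2 D.Φ τ z v u :=
    integral_integral_swap hF
  rw [h2]
  simp only [inner2 D.Φ τ hτ z]
  rw [integral_const_mul]
  have hspi : ((Real.sqrt Real.pi : ℝ) : ℂ) ≠ 0 := by
    rw [Complex.ofReal_ne_zero]
    exact (Real.sqrt_pos.2 Real.pi_pos).ne'
  have e0 := (hk.2 τ hτ).2.2.2 0 z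
  have e1 := (hk.2 τ hτ).2.2.2 1 z
  rw [iteratedDeriv_zero] at e0
  rw [iteratedDeriv_one] at e1
  have i0 : Integrable (fun u : ℝ => z * (((D.Φ u * Real.exp (τ * u ^ 2) : ℝ) : ℂ) * cexp (z * u))) :=
    (Pool.Agent.H24R2.JP.MomAux.L_integrable (Cl_w D h τ hτ) z).const_mul z
  have i1 : Integrable (fun u : ℝ => 2 * (τ : ℂ) *
      (((u ^ 1 * (D.Φ u * Real.exp (τ * u ^ 2)) : ℝ) : ℂ) * cexp (z * u))) :=
    (Pool.Agent.H24R2.JP.MomAux.L_integrable ((Cl_w D h τ hτ).pow 1) z).const_mul _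
  have e2 : ∫ u : ℝ, ((z + 2 * (τ : ℂ) * u) *
      (((D.Φ u * Real.exp (τ * u ^ 2) : ℝ) : ℂ) * cexp (z * u))) = XO D τ z := by
    have e3 : (fun u : ℝ => ((z + 2 * (τ : ℂ) * u) *
      (((D.Φ u * Real.exp (τ * u ^ 2) : ℝ) : ℂ) * cexp (z * u)))) =
      fun u : ℝ => z * (((D.Φ u * Real.exp (τ * u ^ 2) : ℝ) : ℂ) * cexp (z * u)) +
        2 * (τ : ℂ) * (((u ^ 1 * (D.Φ u * Real.exp (τ * u ^ 2)) : ℝ) : ℂ) * cexp (z * u)) := by
      funext u
      push_cast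
      ring
    rw [e3, integral_add i0 i1, integral_const_mul, integral_const_mul, ← e1]
    rfl
  rw [e2, ← mul_assoc]
  have : ((1 / Real.sqrt Real.pi : ℝ) : ℂ) * ((Real.sqrt Real.pi : ℝ) : ℂ) = 1 := by
    push_cast
    field_simp
  rw [this, one_mul]

end Pool.Agent.H986R2.GD
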