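import Pool.Agent.H471R3.GJ.Spec
import Pool.Agent.H986R2.DBN.Spec

set_option autoImplicit false

/-!
# De Bruijn-Newman constants of the derivatives of completed L-functions: specifications

Generic version (class `IsL D` of helper471) of `Pool.Agent.H986R2.DBN`.  THEOREM: there is `C` with:
for all `τ > 0` and all `n` with `C ≤ n τ` all zeros of the `n`-th derivative of the heat flow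
`XT D τ = e^{τ D²} XX` lie on `Re z = 0`.
-/

namespace Pool.Agent.H986R2.GD

open Complex Filter Topology Polynomial MeasureTheory
open Pool.Agent.H24R2.JP (Par Good App arc SHad SDer SGL SJen SPar SCircle SNewton SArc TT TI)
open Pool.Agent.H471R3.GJ
open Pool.Agent.H986R2.DBN (ParD SCPoly PL)

/-- The heat flow `e^{τ D²} XX`. -/
noncomputable def XT (D : Dat) (τ : ℝ) (z : ℂ) : ℂ :=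
  ∫ u : ℝ, ((D.Φ u * Real.exp (τ * u ^ 2) : ℝ) : ℂ) * cexp (z * u)

noncomputable def gamT (D : Dat) (τ : ℝ) (k : ℕ) : ℝ :=
  (k.factorial : ℝ) / ((2 * k).factorial : ℝ) * (iteratedDeriv (2 * k) (XT D τ) 0).re

/-- `FT D τ (z ^ 2) = XT D τ z`. -/
noncomputable def FT (D : Dat) (τ : ℝ) (x : ℂ) : ℂ :=
  ∑' k : ℕ, ((gamT D τ k : ℝ) : ℂ) / (k.factorial : ℂ) * x ^ k

/-! ## A0. General entire functions -/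

/-- Weak form of `Good`: some Taylor coefficients may vanish. -/
def Wk (f : ℂ → ℂ) : Prop := Differentiable ℂ f ∧ (∃ P : ℕ → ℝ[X], App f P) ∧
  ∀ n : ℕ, ∃ b : ℂ, iteratedDeriv n f b ≠ 0

/-- Task WK (as `SPar`, `SCircle`). -/
def SWk : Prop := ∀ f : ℂ → ℂ, Wk f → (∀ (n : ℕ) (w : ℂ), iteratedDeriv n f w = 0 → w ∈ Par) ∧
  ∀ (n : ℕ) (w : ℂ), w.im ≠ 0 → iteratedDeriv (n + 1) f w = 0 →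
    ∃ z : ℂ, z.im ≠ 0 ∧ iteratedDeriv n f z = 0 ∧ ‖w - (z.re : ℂ)‖ ≤ |z.im|

/-- The Laguerre-Pólya class of type I (not polynomials), by approximation. -/
def LPI (f : ℂ → ℂ) : Prop := Differentiable ℂ f ∧
  (∃ P : ℕ → ℝ[X], (∀ (N : ℕ) (x : ℂ), aeval x (P N) = 0 → x ∈ ParD 0) ∧
    TendstoLocallyUniformly (fun (N : ℕ) (x : ℂ) => aeval x (P N)) f atTop) ∧
  ∀ n : ℕ, ∃ b : ℂ, iteratedDeriv n f b ≠ 0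

/-- Task LPI: closure properties. -/
def SLPI : Prop := ∀ f : ℂ → ℂ, LPI f → (∀ x : ℂ, f x = 0 → x ∈ ParD 0) ∧
  (∀ n : ℕ, LPI (iteratedDeriv n f)) ∧ ∀ a : ℝ, 0 < a → LPI (TT a f)

/-- Task Z2LPI: zeros in `(-∞, 0]` and order less than one. -/
def SZ2LPI : Prop := ∀ f : ℂ → ℂ, Differentiable ℂ f →
  (∀ x, f ((starRingEnd ℂ) x) = (starRingEnd ℂ) (f x)) →
  (∃ K : ℝ, ∀ x, ‖f x‖ ≤ Real.exp (K * (1 + ‖x‖) ^ (3 / 4 : ℝ))) →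
  (∀ n : ℕ, ∃ b : ℂ, iteratedDeriv n f b ≠ 0) →
  ∀ n : ℕ, (∀ x : ℂ, iteratedDeriv n f x = 0 → x ∈ ParD 0) → LPI (iteratedDeriv n f)

/-! ## A. Kernel, entire functions -/

/-- Task KER. -/
def SKer (D : Dat) : Prop := XT D 0 = D.XX ∧ ∀ τ : ℝ, 0 ≤ τ → Differentiable ℂ (XT D τ) ∧
  (∀ z, XT D τ (-z) = XT D τ z) ∧
  (∀ z, XT D τ ((starRingEnd ℂ) z) = (starRingEnd ℂ) (XT D τ z)) ∧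
  ∀ (n : ℕ) (z : ℂ), iteratedDeriv n (XT D τ) z =
    ∫ u : ℝ, ((u ^ n * (D.Φ u * Real.exp (τ * u ^ 2)) : ℝ) : ℂ) * cexp (z * u)

/-- Task B1T. -/
def SB1T (D : Dat) : Prop := ∀ τ : ℝ, 0 ≤ τ → Differentiable ℂ (FT D τ) ∧
  (∀ z, FT D τ (z ^ 2) = XT D τ z) ∧
  (∀ x, FT D τ ((starRingEnd ℂ) x) = (starRingEnd ℂ) (FT D τ x)) ∧
  ∀ n, iteratedDeriv n (FT D τ) 0 = ((gamT D τ n : ℝ) : ℂ)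

/-- Task POST: positivity, uniformly. -/
def SPosT (D : Dat) : Prop := ∃ k0 : ℕ, ∀ τ : ℝ, 0 ≤ τ → ∀ k : ℕ, k0 ≤ k → 0 < gamT D τ k

/-- Task GROWT. -/
def SGrowT (D : Dat) : Prop := ∀ τ : ℝ, 0 ≤ τ → ∃ K : ℝ, ∀ x,
  ‖FT D τ x‖ ≤ Real.exp (K * (1 + ‖x‖) ^ (3 / 4 : ℝ))

/-- Task HEAT: the Gaussian representation. -/
def SHeat (D : Dat) : Prop := ∀ (τ : ℝ) (z : ℂ), 0 ≤ τ →
  Integrable (fun v : ℝ => ((Real.exp (-v ^ 2) : ℝ) : ℂ) *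
    D.XX (z + ((2 * Real.sqrt τ * v : ℝ) : ℂ))) ∧
  XT D τ z = ((1 / Real.sqrt Real.pi : ℝ) : ℂ) *
    ∫ v : ℝ, ((Real.exp (-v ^ 2) : ℝ) : ℂ) * D.XX (z + ((2 * Real.sqrt τ * v : ℝ) : ℂ))

/-- Task APP0: approximants of `FF D`. -/
def SApp0 (D : Dat) : Prop := ∀ δ : ℝ, 0 ≤ δ → (∀ z : ℂ, D.XX z = 0 → z.re ^ 2 ≤ δ) →
  ∃ P : ℕ → ℝ[X], (∀ (N : ℕ) (x : ℂ), aeval x (P N) = 0 → x ∈ ParD δ) ∧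
    TendstoLocallyUniformly (fun (N : ℕ) (x : ℂ) => aeval x (P N)) (FF D) atTop

/-- Task APPT. -/
def SAppT (D : Dat) : Prop := ∀ (δ : ℝ) (P0 : ℕ → ℝ[X]), 0 ≤ δ →
  (∀ (N : ℕ) (x : ℂ), aeval x (P0 N) = 0 → x ∈ ParD δ) →
  TendstoLocallyUniformly (fun (N : ℕ) (x : ℂ) => aeval x (P0 N)) (FF D) atTop →
  ∀ τ : ℝ, 0 ≤ τ → ∃ P : ℕ → ℝ[X],
    (∀ (N : ℕ) (x : ℂ), aeval x (P N) = 0 → x ∈ ParD (max (δ - 2 * τ) 0)) ∧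
    TendstoLocallyUniformly (fun (N : ℕ) (x : ℂ) => aeval x (P N)) (FT D τ) atTop

/-- Task WKT. -/
def SWkT (D : Dat) : Prop := ∀ τ : ℝ, 0 ≤ τ → Wk (FT D τ)

/-- Task GOODT: derivatives of high order are good. -/
def SGoodT (D : Dat) : Prop := ∃ k0 : ℕ, ∀ τ : ℝ, 0 ≤ τ → ∀ k : ℕ, k0 ≤ k →
  Good (iteratedDeriv k (FT D τ))

/-- Task BIG. -/
def SBig (D : Dat) : Prop := ∀ τ : ℝ, 1 / 8 ≤ τ → LPI (FT D τ)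

/-- Task RHREAL. -/
def SRHReal (D : Dat) : Prop := (∀ z : ℂ, D.XX z = 0 → z.re = 0) → ∀ τ : ℝ, 0 ≤ τ → LPI (FT D τ)

/-! ## B. Taylor coefficients, uniformly in `0 ≤ τ ≤ 1/8` -/

/-- Task MOMT (as `SMom`). -/
def SMomT (D : Dat) : Prop := ∃ (k0 : ℕ) (K δ : ℝ), 0 < K ∧ 0 < δ ∧ ∀ τ : ℝ, 0 ≤ τ → τ ≤ 1 / 8 →
  ∃ M P : ℕ → ℝ,
  (∀ k, gamT D τ k = (k.factorial : ℝ) / ((2 * k).factorial : ℝ) * M k) ∧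
  (∀ k, 0 < P k) ∧ (∀ k, P (k + 1) ^ 2 ≤ P k * P (k + 2)) ∧
  (∀ k, P (k + 1) ≤ K * ((k : ℝ) + 1) ^ (1 / 4 : ℝ) * P k) ∧
  (∀ k, |M k - P k| ≤ K * Real.exp (-(δ * k)) * P k) ∧
  (∀ k, k0 ≤ k → P k ≤ 2 * M k)

/-- Task GAMT (as `SGam`). -/
def SGamT (D : Dat) : Prop := ∃ (k0 : ℕ) (K : ℝ), 0 < K ∧ ∀ τ : ℝ, 0 ≤ τ → τ ≤ 1 / 8 →
  (∀ n : ℕ, k0 ≤ n → 0 < gamT D τ n) ∧
  (∀ n : ℕ, k0 ≤ n → 1 ≤ n →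
    (gamT D τ (n + 1) / gamT D τ n) ^ 2 - gamT D τ (n + 2) / gamT D τ n ≤
      K * (n : ℝ) ^ (-(5 / 2) : ℝ)) ∧
  (∀ n : ℕ, k0 ≤ n → gamT D τ (n + 1) / gamT D τ n ≤ K * ((n : ℝ) + 1) ^ (-(3 / 4) : ℝ))

/-- Task LOWT (as `SLow`). -/
def SLowT (D : Dat) : Prop := ∀ C : ℝ, ∃ N0 : ℕ, ∀ τ : ℝ, 0 ≤ τ → τ ≤ 1 / 8 → ∀ n : ℕ, N0 ≤ n →
  ∀ x : ℂ, iteratedDeriv n (FT D τ) x = 0 → C * n < ‖x‖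

/-! ## C. The window, for a general function -/

/-- Local data at height `t`. -/
structure Loc (D : Dat) (K t : ℝ) (f : ℂ → ℂ) (c β : ℂ) (a : ℕ → ℂ) (p : ℕ → ℂ → ℂ) : Prop where
  entire : Differentiable ℂ f
  conj : ∀ x, f ((starRingEnd ℂ) x) = (starRingEnd ℂ) (f x)
  c_ne : c ≠ 0
  beta : ‖β - ((D.κ * Om D t : ℝ) : ℂ)‖ ≤ K
  a_one : a 1 = 1
  a_le : ∀ m : ℕ, 1 ≤ m → m ≤ MM D t → ‖a m‖ ≤ D.A0 * (m : ℝ) ^ D.A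
  diff : ∀ m : ℕ, 1 ≤ m → m ≤ MM D t → ∀ u : ℂ, ‖u‖ ≤ rr D + 4 →
    DifferentiableAt ℂ (p m) (I * t + u)
  app : ∀ m : ℕ, 1 ≤ m → m ≤ MM D t → ∀ u : ℂ, ‖u‖ ≤ rr D + 4 →
    ‖p m (I * t + u) - c * a m * cexp ((β - ((D.κ * Real.log m : ℝ) : ℂ)) * u)‖ ≤
      K * t ^ (-(1 / 4) : ℝ) * ‖c * a m * cexp ((β - ((D.κ * Real.log m : ℝ) : ℂ)) * u)‖
  up : ∀ w : ℂ, ‖w - I * t‖ ≤ rr D / 2 + 1 / 10 → 0 ≤ w.re →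
    ‖f (w ^ 2) - ∑ m ∈ Finset.Icc 1 (MM D t), p m w‖ ≤
      K * ‖c‖ * Real.exp ((39 / 50 * D.w - 1 / 2 - 3 / 4 * D.κ) * Om D t)

/-- The main term (as `mt`). -/
noncomputable def mtL (n : ℕ) (t : ℝ) (c β : ℂ) (z : ℂ) : ℂ :=
  c * cexp (β * (z - I * t)) * (β / (2 * (I * t))) ^ n

/-- The `m`-th main term (as `mm`). -/
noncomputable def mmL (D : Dat) (m n : ℕ) (t : ℝ) (c β : ℂ) (a : ℕ → ℂ) (z : ℂ) : ℂ :=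
  c * a m * cexp ((β - ((D.κ * Real.log m : ℝ) : ℂ)) * (z - I * t)) *
    ((β - ((D.κ * Real.log m : ℝ) : ℂ)) / (2 * (I * t))) ^ n

/-- Task LPIECE (as `SPiece`). -/
def SLPiece (D : Dat) : Prop := ∀ K : ℝ, 1 ≤ K → ∃ K' T0 : ℝ, 1 ≤ K' ∧ 1 ≤ T0 ∧
  ∀ (t : ℝ) (f : ℂ → ℂ) (c β : ℂ) (a : ℕ → ℂ) (p : ℕ → ℂ → ℂ), T0 ≤ t → Loc D K t f c β a p →
  ∀ (n m : ℕ) (z : ℂ), Win D t n z → 1 ≤ m → m ≤ MM D t →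
  ‖iteratedDeriv n (PL p m) (z ^ 2) - mmL D m n t c β a z‖ ≤
    K' * (n : ℝ) ^ 2 * t ^ (-(1 / 4) : ℝ) * ‖mmL D m n t c β a z‖

/-- Task LARC (as `SUp`, `SDown`). -/
def SLArc (D : Dat) : Prop := ∀ K ε : ℝ, 1 ≤ K → 0 < ε → ∃ T0 : ℝ, 1 ≤ T0 ∧
  ∀ (t : ℝ) (f : ℂ → ℂ) (c β : ℂ) (a : ℕ → ℂ) (p : ℕ → ℂ → ℂ), T0 ≤ t → Loc D K t f c β a p →
  ∀ (n : ℕ) (z : ℂ), Win D t n z →
  ‖arc f n (-t ^ 2) (rr D * t) 0 Real.pi (z ^ 2) - ∑ m ∈ Finset.Icc 1 (MM D t),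
    arc (PL p m) n (-t ^ 2) (rr D * t) 0 Real.pi (z ^ 2)‖ ≤ ε * ‖mtL n t c β z‖ ∧
  ∑ m ∈ Finset.Icc 1 (MM D t),
    ‖arc (PL p m) n (-t ^ 2) (rr D * t) Real.pi (2 * Real.pi) (z ^ 2)‖ ≤ ε * ‖mtL n t c β z‖

/-- Task LMAIN (as `SMain`). -/
def SLMain (D : Dat) : Prop := ∀ K : ℝ, 1 ≤ K → ∃ T0 : ℝ, 1 ≤ T0 ∧
  ∀ (t : ℝ) (f : ℂ → ℂ) (c β : ℂ) (a : ℕ → ℂ) (p : ℕ → ℂ → ℂ), T0 ≤ t → Loc D K t f c β a p →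
  ∀ (n : ℕ) (z : ℂ), Win D t n z →
  ‖arc f n (-t ^ 2) (rr D * t) 0 Real.pi (z ^ 2) - mtL n t c β z‖ ≤ 1 / 10 * ‖mtL n t c β z‖

/-- Task LOFF (as `SOff`). -/
def SLoc (D : Dat) : Prop := ∀ K : ℝ, 1 ≤ K → ∃ T0 : ℝ, 1 ≤ T0 ∧
  ∀ (t : ℝ) (f : ℂ → ℂ) (c β : ℂ) (a : ℕ → ℂ) (p : ℕ → ℂ → ℂ), T0 ≤ t → Loc D K t f c β a p →
  ∀ (n : ℕ) (s : ℝ), 39 / 40 * (D.w * Om D t) ≤ n → (n : ℝ) ≤ 41 / 40 * (D.w * Om D t) →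
  0 < s → s ≤ 1 / 2 → iteratedDeriv n f ((s + I * t) ^ 2) ≠ 0

/-! ## D. The factor at infinity, bounds for `XX` -/

/-- Task STIR2. -/
def SStir2 (D : Dat) : Prop := ∃ K T0 : ℝ, 1 ≤ K ∧ 1 ≤ T0 ∧ ∀ t : ℝ, T0 ≤ t →
  D.HH (I * t) ≠ 0 ∧ ‖be D t - ((D.κ * Om D t : ℝ) : ℂ)‖ ≤ K ∧
  Real.exp (-(K * t)) ≤ ‖D.HH (I * t)‖ ∧
  (∀ u : ℂ, ‖u‖ ≤ t / 8 → 0 < (I * t + u).im ∧ DifferentiableAt ℂ D.HH (I * t + u) ∧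
    ‖D.HH (I * t + u)‖ ≤ ‖D.HH (I * t)‖ * Real.exp (D.κ * Om D t * u.re + K * ‖u‖)) ∧
  ∀ u : ℂ, K * ‖u‖ ^ 2 ≤ t →
    ‖D.HH (I * t + u) - D.HH (I * t) * cexp (be D t * u)‖ ≤
      K * ‖u‖ ^ 2 / t * ‖D.HH (I * t) * cexp (be D t * u)‖

/-- Task XB. -/
def SXB (D : Dat) : Prop := ∃ K T0 : ℝ, 1 ≤ K ∧ 1 ≤ T0 ∧ ∀ (t : ℝ) (u : ℂ), T0 ≤ t →
  |u.im| ≤ rr D + 2 →
  (|u.re| ≤ t / 16 → ‖D.XX (I * t + u)‖ ≤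
    K * ‖D.HH (I * t)‖ * Real.exp ((D.A + 3) * Om D t + (D.κ * Om D t + K) * |u.re|)) ∧
  (t / 16 ≤ |u.re| →
    ‖D.XX (I * t + u)‖ ≤ ‖D.HH (I * t)‖ * Real.exp (K * |u.re| ^ (7 / 4 : ℝ))) ∧
  (u.im = 0 → K ≤ u.re → K * u.re ^ 2 ≤ t →
    ‖D.XX (I * t + u) - D.HH (I * t) * cexp (be D t * u)‖ ≤
      K * ((2 : ℝ) ^ (-(D.κ * u.re)) + u.re ^ 2 / t) * ‖D.HH (I * t) * cexp (be D t * u)‖)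

/-! ## E. The pieces of the heat flow in the window -/

/-- The truncated heat flow of the `m`-th piece. -/
noncomputable def PT (D : Dat) (τ t : ℝ) (m : ℕ) (w : ℂ) : ℂ :=
  ((1 / Real.sqrt Real.pi : ℝ) : ℂ) * ∫ v in (-(t ^ (1 / 8 : ℝ)))..(t ^ (1 / 8 : ℝ)),
    ((Real.exp (-v ^ 2) : ℝ) : ℂ) * (D.HH (w + ((2 * Real.sqrt τ * v : ℝ) : ℂ)) *
      (D.a m * (m : ℂ) ^ (-(D.κ : ℂ) * (w + ((2 * Real.sqrt τ * v : ℝ) : ℂ)))))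

noncomputable def cT (D : Dat) (τ t : ℝ) : ℂ := D.HH (I * t) * cexp ((τ : ℂ) * be D t ^ 2)

noncomputable def aT (D : Dat) (τ t : ℝ) (m : ℕ) : ℂ :=
  D.a m * (m : ℂ) ^ (-(D.κ : ℂ) * (I * t)) *
    cexp ((τ : ℂ) * ((be D t - ((D.κ * Real.log m : ℝ) : ℂ)) ^ 2 - be D t ^ 2))

/-- Task PSTIR. -/
def SPStir (D : Dat) : Prop := ∃ T0 : ℝ, 1 ≤ T0 ∧ ∀ (t τ : ℝ) (m : ℕ), T0 ≤ t → 0 < τ → τ ≤ 1 / 8 →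
  1 ≤ m → m ≤ MM D t → ∀ u : ℂ, ‖u‖ ≤ rr D + 4 →
  DifferentiableAt ℂ (PT D τ t m) (I * t + u) ∧
  ‖PT D τ t m (I * t + u) -
      cT D τ t * aT D τ t m * cexp ((be D t - ((D.κ * Real.log m : ℝ) : ℂ)) * u)‖ ≤
    t ^ (-(1 / 4) : ℝ) *
      ‖cT D τ t * aT D τ t m * cexp ((be D t - ((D.κ * Real.log m : ℝ) : ℂ)) * u)‖

/-- Task PUP. -/
def SPUp (D : Dat) : Prop := ∀ K0 : ℝ, 1 ≤ K0 → ∃ K T0 : ℝ, 1 ≤ K ∧ 1 ≤ T0 ∧ ∀ t τ : ℝ, T0 ≤ t →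
  0 < τ → τ ≤ 1 / 8 → τ * Om D t ≤ K0 → ∀ w : ℂ, ‖w - I * t‖ ≤ rr D / 2 + 1 / 10 → 0 ≤ w.re →
  ‖XT D τ w - ∑ m ∈ Finset.Icc 1 (MM D t), PT D τ t m w‖ ≤
    K * ‖cT D τ t‖ * Real.exp ((39 / 50 * D.w - 1 / 2 - 3 / 4 * D.κ) * Om D t)

/-- Task TLOC. -/
def STLoc (D : Dat) : Prop := ∀ K0 : ℝ, 1 ≤ K0 → ∃ K T0 : ℝ, 1 ≤ K ∧ 1 ≤ T0 ∧ ∀ t τ : ℝ, T0 ≤ t →
  0 < τ → τ ≤ 1 / 8 → τ * Om D t ≤ K0 →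
  Loc D K t (FT D τ) (cT D τ t) (be D t) (aT D τ t) (PT D τ t)

/-- Task WINT (as `SWin`). -/
def SWinT (D : Dat) : Prop := ∀ K0 : ℝ, 1 ≤ K0 → ∃ n1 : ℕ, ∀ τ : ℝ, 0 < τ → τ ≤ 1 / 8 → ∀ n : ℕ,
  n1 ≤ n → n * τ ≤ K0 → ∀ x : ℂ, x ∈ Par → x.im ≠ 0 →
  Real.exp (49 / 50 * (al D * n)) ≤ ‖x‖ → ‖x‖ ≤ Real.exp (51 / 50 * (al D * n)) →
  iteratedDeriv n (FT D τ) x ≠ 0

/-! ## F. No nonreal zeros above `exp (C / τ)` -/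

/-- The upper half of the Gaussian integral. -/
noncomputable def JT (D : Dat) (τ t : ℝ) (a : ℂ) : ℂ :=
  ∫ r in Set.Ioi (0 : ℝ), cexp (-(r : ℂ) ^ 2 / (4 * τ) + a * r) * D.XX (I * t + r)

noncomputable def MT (D : Dat) (τ t : ℝ) (a : ℂ) : ℂ :=
  ((Real.sqrt (4 * Real.pi * τ) : ℝ) : ℂ) * D.HH (I * t) * cexp ((τ : ℂ) * (be D t + a) ^ 2)

/-- Task JEST. -/
def SJest (D : Dat) : Prop := ∃ C T0 : ℝ, 1 ≤ C ∧ 1 ≤ T0 ∧ ∀ t τ : ℝ, T0 ≤ t → 0 < τ → τ ≤ 1 / 8 →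
  C ≤ τ * Om D t → ∀ a : ℂ, |a.re| ≤ 1 / (4 * τ) + 1 → |a.im| ≤ 1 →
  DifferentiableAt ℂ (JT D τ t) a ∧ ‖JT D τ t a - MT D τ t a‖ ≤ 1 / 100 * ‖MT D τ t a‖

/-- Task HEATNZ. -/
def SHeatNZ (D : Dat) : Prop := ∃ C : ℝ, 1 ≤ C ∧ ∀ τ : ℝ, 0 < τ → τ ≤ 1 / 8 → ∀ σ t : ℝ, 0 < σ →
  σ ≤ 1 / 2 → Real.exp (C / τ) ≤ t → XT D τ (σ + I * t) ≠ 0

/-! ## G. Conclusion -/

/-- Task CHAINT. -/
def SChainT (D : Dat) : Prop := ∃ (C : ℝ) (N1 : ℕ), 0 < C ∧ ∀ τ : ℝ, 0 < τ → τ ≤ 1 / 8 → ∀ n : ℕ,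
  N1 ≤ n → C ≤ n * τ → ∀ x : ℂ, iteratedDeriv n (FT D τ) x = 0 → x.im = 0

/-- Task FINX. -/
def SFinX (D : Dat) : Prop := ∃ C : ℝ, 0 < C ∧ ∀ τ : ℝ, 0 < τ → ∀ n : ℕ, C ≤ n * τ →
  LPI (iteratedDeriv n (FT D τ))

/-- Task TOZ: from `x = z²` to `z`. -/
def SToZ (D : Dat) : Prop := ∀ (τ : ℝ) (n : ℕ), 0 ≤ τ → LPI (iteratedDeriv ((n + 1) / 2) (FT D τ)) →
  ∀ z : ℂ, iteratedDeriv n (XT D τ) z = 0 → z.re = 0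

/-- Task RH2T. -/
def SRH2T (D : Dat) : Prop := (∀ τ : ℝ, 0 < τ → ∀ z : ℂ, XT D τ z = 0 → z.re = 0) →
  ∀ z : ℂ, D.XX z = 0 → z.re = 0

/-- The final composition. -/
theorem compose (D : Dat) (h1 : SFinX D) (h2 : SToZ D) (h3 : SRHReal D) (h4 : SRH2T D)
    (h5 : SLPI) : ∃ C : ℝ, 0 < C ∧
      (∀ (τ : ℝ) (n : ℕ), 0 < τ → C ≤ n * τ → ∀ z : ℂ, iteratedDeriv n (XT D τ) z = 0 → z.re = 0) ∧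
      ((∀ z : ℂ, D.XX z = 0 → z.re = 0) ↔ ∀ (τ : ℝ) (n : ℕ), 0 < τ → n * τ < C → ∀ z : ℂ,
        iteratedDeriv n (XT D τ) z = 0 → z.re = 0) := by
  obtain ⟨C, hC, h⟩ := h1
  refine ⟨2 * C, by linarith, ?_, ?_, ?_⟩
  · intro τ n hτ hn
    refine h2 τ n hτ.le (h τ hτ _ ?_)
    have h9 : (n : ℝ) ≤ 2 * (((n + 1) / 2 : ℕ) : ℝ) := by
      have : n ≤ 2 * ((n + 1) / 2) := by omega
      exact_mod_cast this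
    nlinarith
  · intro hz τ n hτ _
    exact h2 τ n hτ.le ((h5 _ (h3 hz τ hτ.le)).2.1 _)
  · intro hH
    refine h4 fun τ hτ z hz => ?_
    refine hH τ 0 hτ (by simp only [Nat.cast_zero, zero_mul]; linarith) z ?_
    rw [iteratedDeriv_zero, hz]

end Pool.Agent.H986R2.GD
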